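import Pool.Agent.U640.BG.Stm

set_option autoImplicit false

/-! Project BG, package BS: the block step. -/

namespace Pool.Agent.U640.BG

open Pool.Agent.Results.MP_03d093_al.SphereBall Pool.Agent.H776R2.Grig Pool.Agent.H776R2.Om

theorem BS_aa : a * a = 1 := by
  ext1 w
  exact aFun_invol w

theorem BS_pa (e : Bool) : pa e * pa e = 1 := by
  cases e
  · exact one_mul 1
  · exact BS_aa

theorem BS_pa_app (e : Bool) (v : List Bool) : pa e (pa e v) = v := by
  rw [← Equiv.Perm.mul_apply, BS_pa]
  rfl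

theorem BS_pa_len (e : Bool) (v : List Bool) : (pa e v).length = v.length := by
  cases e
  · rfl
  · exact A_afun_len v

theorem BS_pa_take (e : Bool) (v : List Bool) (n : ℕ) : (pa e v).take n = pa e (v.take n) := by
  cases e
  · rfl
  · exact A_afun_take v n

theorem BS_pa_append (e : Bool) (v u : List Bool) (hv : v ≠ []) : pa e (v ++ u) = pa e v ++ u := by
  cases e
  · rfl
  · cases v with
    | nil => exact absurd rfl hv
    | cons t v => rfl

/-- `g` acts below the words `x` of length `m` as `F x`, conjugated by `a^(cz x)` -/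
def BS_Act (m : ℕ) (g : P) (F : List Bool → P) : Prop :=
  ∀ x y : List Bool, x.length = m → g (x ++ y) = x ++ (pa (cz x) * F x * pa (cz x)) y

theorem BS_Act.one (m : ℕ) : BS_Act m 1 (fun _ => 1) := by
  intro x y _
  rw [mul_one, BS_pa]
  rfl

theorem BS_Act.mul {m : ℕ} {g g' : P} {F F' : List Bool → P} (h : BS_Act m g F)
    (h' : BS_Act m g' F') : BS_Act m (g * g') (fun x => F x * F' x) := by
  intro x y hx
  rw [Equiv.Perm.mul_apply, h' x y hx, h x _ hx]
  congr 1
  rw [← Equiv.Perm.mul_apply]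
  congr 1
  calc pa (cz x) * F x * pa (cz x) * (pa (cz x) * F' x * pa (cz x))
      = pa (cz x) * F x * (pa (cz x) * pa (cz x)) * F' x * pa (cz x) := by simp only [mul_assoc]
    _ = pa (cz x) * (F x * F' x) * pa (cz x) := by rw [BS_pa, mul_one]; simp only [mul_assoc]

theorem BS_Act.inv {m : ℕ} {g : P} {F : List Bool → P} (h : BS_Act m g F) :
    BS_Act m g⁻¹ (fun x => (F x)⁻¹) := by
  intro x y hx
  rw [Equiv.Perm.inv_eq_iff_eq, h x _ hx, ← Equiv.Perm.mul_apply]
  have h1 : pa (cz x) * F x * pa (cz x) * (pa (cz x) * (F x)⁻¹ * pa (cz x)) = 1 := by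
    calc pa (cz x) * F x * pa (cz x) * (pa (cz x) * (F x)⁻¹ * pa (cz x))
        = pa (cz x) * F x * (pa (cz x) * pa (cz x)) * (F x)⁻¹ * pa (cz x) := by
          simp only [mul_assoc]
      _ = pa (cz x) * (F x * (F x)⁻¹) * pa (cz x) := by rw [BS_pa, mul_one]; simp only [mul_assoc]
      _ = 1 := by rw [mul_inv_cancel, mul_one, BS_pa]
  rw [h1]
  rfl

theorem BS_Act.congr {m : ℕ} {g : P} {F F' : List Bool → P} (h : BS_Act m g F)
    (hF : ∀ x, x.length = m → F x = F' x) : BS_Act m g F' := by
  intro x y hx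
  rw [h x y hx, hF x hx]

/-- the telescoping form of the product of conjugates -/
theorem BS_prl (T : P) (k : ℕ → P) (I : ℕ) :
    ((List.range I).map fun i => T⁻¹ ^ (i + 1) * k (i + 1) * T ^ (i + 1)).prod =
      ((List.range I).map fun i => T⁻¹ * k (i + 1)).prod * T ^ I := by
  induction I with
  | zero => simp
  | succ I ih =>
    rw [List.range_succ, List.map_append, List.map_append, List.prod_append, List.prod_append, ih]
    simp only [List.map_cons, List.map_nil, List.prod_cons, List.prod_nil, mul_one]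
    have h1 : T ^ I * (T⁻¹ ^ (I + 1) * k (I + 1) * T ^ (I + 1)) = T⁻¹ * k (I + 1) * T ^ (I + 1) := by
      rw [inv_pow, pow_succ' T I]
      group
    rw [mul_assoc, h1]
    simp only [mul_assoc]

/-- the words `t E_1 t E_2 ⋯ t E_I` -/
def BS_w (t : List Lt) (E : ℕ → List Lt) : ℕ → List Lt
  | 0 => []
  | I + 1 => BS_w t E I ++ (t ++ E (I + 1))

theorem BS_w_len (t : List Lt) (E : ℕ → List Lt) (L N : ℕ) (ht : t.length ≤ L)
    (hE : ∀ i, (E i).length ≤ N) (I : ℕ) : (BS_w t E I).length ≤ I * (L + N) := by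
  induction I with
  | zero => simp [BS_w]
  | succ I ih =>
    rw [BS_w, List.length_append, List.length_append]
    have := hE (I + 1)
    have h2 : (I + 1) * (L + N) = I * (L + N) + (L + N) := by ring
    omega

theorem BS_w_act (ω : Om) (m : ℕ) (t : List Lt) (E : ℕ → List Lt) (T : List Bool → P)
    (k : ℕ → List Bool → P) (ht : BS_Act m (evo ω t) T) (hE : ∀ i, BS_Act m (evo ω (E i)) (k i))
    (I : ℕ) : BS_Act m (evo ω (BS_w t E I))
      (fun x => ((List.range I).map fun i => T x * k (i + 1) x).prod) := by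
  induction I with
  | zero => exact (BS_Act.one m).congr fun x _ => by simp
  | succ I ih =>
    rw [BS_w, evo_append, evo_append]
    refine (ih.mul (ht.mul (hE (I + 1)))).congr fun x _ => ?_
    rw [List.range_succ, List.map_append, List.prod_append]
    simp

theorem BS_pow_act (ω : Om) (m : ℕ) (t : List Lt) (T : List Bool → P)
    (ht : BS_Act m (evo ω t) T) (I : ℕ) :
    BS_Act m (evo ω ((List.replicate I t).flatten)) (fun x => T x ^ I) := by
  induction I with
  | zero => exact (BS_Act.one m).congr fun x _ => by simp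
  | succ I ih =>
    rw [List.replicate_succ, List.flatten_cons, evo_append]
    exact (ht.mul ih).congr fun x _ => by rw [pow_succ']

theorem BS_pow_len (t : List Lt) (L : ℕ) (ht : t.length ≤ L) (I : ℕ) :
    ((List.replicate I t).flatten).length ≤ I * L := by
  induction I with
  | zero => simp
  | succ I ih =>
    rw [List.replicate_succ, List.flatten_cons, List.length_append]
    have : (I + 1) * L = I * L + L := by ring
    omega

/-- one of the two factors of the global word -/
theorem BS_factor (ω : Om) (m : ℕ) (tg : List Lt) (T κ : P) (L N I : ℕ)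
    (htl : tg.length ≤ L) (ht : BS_Act m (evo ω tg) fun _ => T)
    (hE : ∀ q : List Bool → Bool, ∃ w : List Lt, w.length ≤ N ∧
      BS_Act m (evo ω w) fun x => if q x then κ else 1) (Q : List Bool → ℕ → Bool) :
    ∃ w : List Lt, w.length ≤ I * (N + 2 * L) ∧ BS_Act m (evo ω w) fun x => prl T κ (Q x) I := by
  choose E hE1 hE2 using fun i : ℕ => hE fun x => Q x i
  have ht' : BS_Act m (evo ω tg.reverse) fun _ => T⁻¹ := by
    rw [evo_reverse]
    exact ht.inv
  refine ⟨BS_w tg.reverse E I ++ (List.replicate I tg).flatten, ?_, ?_⟩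
  · rw [List.length_append]
    have h1 := BS_w_len tg.reverse E L N (by rw [List.length_reverse]; exact htl) hE1 I
    have h2 := BS_pow_len tg L htl I
    have h3 : I * (N + 2 * L) = I * (L + N) + I * L := by ring
    omega
  · rw [evo_append]
    refine ((BS_w_act ω m tg.reverse E _ (fun i x => if Q x i then κ else 1) ht' hE2 I).mul
      (BS_pow_act ω m tg _ ht I)).congr fun x _ => ?_
    unfold prl
    rw [BS_prl T (fun i => if Q x i then κ else 1) I]

theorem BS_jw_conj (η : Om) (y : V) (W : List (List Lt × List Lt)) :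
    evo η (jw y (cj true W)) = a * evo η (jw y W) * a := by
  induction W with
  | nil =>
    change (1 : P) = a * 1 * a
    rw [mul_one, BS_aa]
  | cons p W ih =>
    have h1 : evo η (jw y (cj true (p :: W))) =
        evo η ((Lt.A :: p.1) ++ [y.lt] ++ (Lt.A :: p.1).reverse ++
          ((Lt.A :: p.2) ++ [y.lt] ++ (Lt.A :: p.2).reverse)) * evo η (jw y (cj true W)) := by
      rw [← evo_append]
      rfl
    have h2 : evo η (jw y (p :: W)) =
        evo η (p.1 ++ [y.lt] ++ p.1.reverse ++ (p.2 ++ [y.lt] ++ p.2.reverse)) *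
          evo η (jw y W) := by
      rw [← evo_append]
      rfl
    have ha : evo η [Lt.A] = a := by
      rw [evo_cons, evo_nil, mul_one]
      rfl
    have h3 : ∀ u : List Lt, evo η (Lt.A :: u) = a * evo η u := fun u => by
      rw [evo_cons]
      rfl
    rw [h1, h2, ih]
    simp only [evo_append, evo_reverse, h3, mul_inv_rev]
    have hai : (a : P)⁻¹ = a := inv_eq_of_mul_eq_one_left BS_aa
    rw [hai]
    have haa : ∀ g : P, a * (a * g) = g := fun g => by rw [← mul_assoc, BS_aa, one_mul]
    simp only [mul_assoc, haa]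

theorem BS_kap (η : Om) (y z : V) : evo η (kap y z true) = a * evo η (kap y z false) * a := by
  have h1 : ∀ e, evo η (kap y z e) = evo η (jw y (cj e (Wf z))) * evo η (jw y (cj e Wt)) *
      (evo η (jw y (cj e (Wf z))))⁻¹ * (evo η (jw y (cj e Wt)))⁻¹ := by
    intro e
    unfold kap comw
    rw [evo_append, evo_append, evo_append, evo_reverse, evo_reverse]
  rw [h1, h1, BS_jw_conj, BS_jw_conj]
  have hai : (a : P)⁻¹ = a := inv_eq_of_mul_eq_one_left BS_aa
  have haa : ∀ g : P, a * (a * g) = g := fun g => by rw [← mul_assoc, BS_aa, one_mul]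
  have hf : ∀ W, cj false W = W := fun _ => rfl
  simp only [hf, mul_inv_rev, hai, mul_assoc, haa]

theorem BS_T (η : Om) (y : V) : a * evo η (Tw y) * a = (evo η (Tw y))⁻¹ := by
  have ha : gno η Lt.A = a := rfl
  have hai : (a : P)⁻¹ = a := inv_eq_of_mul_eq_one_left BS_aa
  have hx : (xx η y)⁻¹ = xx η y := inv_eq_of_mul_eq_one_left (xx_sq η y)
  have haa : a * a = (1 : P) := BS_aa
  unfold Tw
  simp only [evo_cons, evo_nil, gno_lt, ha, mul_one, mul_inv_rev, hai, hx, mul_assoc, haa]

/-- conjugation of the second factor by `a` -/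
theorem BS_prl_conj (T κ : P) (q : ℕ → Bool) (I : ℕ) :
    a * prl T κ q I * a = prl (a * T * a) (a * κ * a) q I := by
  have hai : (a : P)⁻¹ = a := inv_eq_of_mul_eq_one_left BS_aa
  have h1 : ∀ g : P, a * g * a = MulAut.conj a g := fun g => by rw [MulAut.conj_apply, hai]
  rw [h1, h1, h1]
  unfold prl
  rw [map_list_prod, List.map_map]
  congr 1
  refine List.map_congr_left fun i _ => ?_
  simp only [Function.comp_apply, map_mul, map_pow, map_inv]
  congr 2
  split_ifs
  · rfl
  · exact map_one _

theorem BS_global (hDG : S_DG) (ω : Om) (m N I : ℕ) (y z : V)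
    (h0 : Exa ω m (kap y z false) N) (h1 : Exa ω m (kap y z true) N)
    (Q : List Bool → Bool → ℕ → Bool) :
    ∃ w : List Lt, w.length ≤ 2 * (I * (N + 22 * ell ω m)) ∧
      BS_Act m (evo ω w) fun x => locw (shi m ω) y z (Q x) I := by
  obtain ⟨tg, htl, ht⟩ := hDG ω m (Tw y) (by intro s; cases s <;> cases y <;> decide)
  have htl' : tg.length ≤ 11 * ell ω m := by
    have : (Tw y).length = 4 := rfl
    rw [this] at htl
    exact htl
  have hT : BS_Act m (evo ω tg) fun _ => evo (shi m ω) (Tw y) := ht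
  have hE : ∀ e, Exa ω m (kap y z e) N → ∀ q : List Bool → Bool, ∃ w : List Lt, w.length ≤ N ∧
      BS_Act m (evo ω w) fun x => if q x then evo (shi m ω) (kap y z e) else 1 := by
    intro e he q
    obtain ⟨w, hw1, hw2⟩ := he q
    refine ⟨w, hw1, fun x y' hx => ?_⟩
    rw [hw2 x y' hx]
    by_cases hq : q x = true
    · simp only [hq, if_true]
    · simp only [hq, mul_one, BS_pa, Equiv.Perm.one_apply, Bool.false_eq_true, if_false]
  obtain ⟨w1, l1, a1⟩ := BS_factor ω m tg _ _ (11 * ell ω m) N I htl' hT (hE false h0)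
    (fun x => Q x false)
  have hT' : BS_Act m (evo ω tg.reverse) fun _ => (evo (shi m ω) (Tw y))⁻¹ := by
    rw [evo_reverse]
    exact hT.inv
  obtain ⟨w2, l2, a2⟩ := BS_factor ω m tg.reverse _ _ (11 * ell ω m) N I
    (by rw [List.length_reverse]; exact htl') hT' (hE true h1) (fun x => Q x true)
  refine ⟨w1 ++ w2, ?_, ?_⟩
  · rw [List.length_append]
    have e1 : N + 2 * (11 * ell ω m) = N + 22 * ell ω m := by ring
    rw [e1] at l1 l2
    omega
  · rw [evo_append]
    refine (a1.mul a2).congr fun x _ => ?_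
    unfold locw
    rw [BS_prl_conj, ← BS_kap, BS_T]

theorem t_BS (hDG : S_DG) (hLOC : S_LOC) : S_BS := by
  intro ω m R R' N hm hR3 hRR hconst hne hne' hE0 hE1
  set η := shi m ω with hη
  set y := kil (ω (m - 1)) with hy
  have hη0 : η 0 = ω m := by
    rw [hη]
    unfold shi
    rw [zero_add]
  have hc1 : ∀ n < R, η n = η 0 := by
    intro n hn
    rw [hη0]
    exact hconst (n + m) (by omega) (by omega)
  have hc2 : η R ≠ η 0 := by
    rw [hη0]
    intro h
    apply hne
    rw [add_comm]
    exact h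
  have hkil : ∀ i j : Fin 3, kil i = kil j → i = j := by decide
  have hc3 : y ≠ kil (η 0) := by
    rw [hη0]
    intro h
    exact hne' (hkil _ _ h)
  obtain ⟨Qf, hQf⟩ := hLOC η y R R' hR3 hRR hc1 hc2 hc3
  rw [hη0] at hQf
  -- the global word of a function on the words of length `m + R'`
  have key : ∀ q : List Bool → Bool, ∃ w : List Lt,
      w.length ≤ 2 ^ (R' + 1) * (N + 22 * ell ω m) ∧
      BS_Act m (evo ω w) fun x =>
        locw η y (kil (ω m)) (Qf fun v => q (x ++ pa (cz x) v)) (2 ^ R' - 2) := by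
    intro q
    obtain ⟨w, hw1, hw2⟩ := BS_global hDG ω m N (2 ^ R' - 2) y (kil (ω m)) hE0 hE1
      (fun x => Qf fun v => q (x ++ pa (cz x) v))
    refine ⟨w, hw1.trans ?_, hw2⟩
    rw [pow_succ, mul_comm (2 ^ R') 2, mul_assoc]
    exact Nat.mul_le_mul_left 2 (Nat.mul_le_mul_right _ (Nat.sub_le _ _))
  have split : ∀ (x : List Bool) (n : ℕ), x.length = m + n → ∃ x1 v, x = x1 ++ v ∧
      x1.length = m ∧ v.length = n := by
    intro x n hx
    refine ⟨x.take m, x.drop m, (List.take_append_drop m x).symm, ?_, ?_⟩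
    · rw [List.length_take]
      omega
    · rw [List.length_drop]
      omega
  have act : ∀ (q : List Bool → Bool) (w : List Lt), (BS_Act m (evo ω w) fun x =>
      locw η y (kil (ω m)) (Qf fun v => q (x ++ pa (cz x) v)) (2 ^ R' - 2)) →
      ∀ x1 v u : List Bool, x1.length = m → v ≠ [] → evo ω w (x1 ++ (v ++ u)) = x1 ++
        pa (cz x1) (locw η y (kil (ω m)) (Qf fun v => q (x1 ++ pa (cz x1) v)) (2 ^ R' - 2)
          (pa (cz x1) v ++ u)) := by
    intro q w hw x1 v u hx1 hv
    rw [hw x1 (v ++ u) hx1, Equiv.Perm.mul_apply, Equiv.Perm.mul_apply, BS_pa_append _ _ _ hv]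
  have hzero : ∀ (q : List Bool → Bool) (w : List Lt), (BS_Act m (evo ω w) fun x =>
      locw η y (kil (ω m)) (Qf fun v => q (x ++ pa (cz x) v)) (2 ^ R' - 2)) →
      ∀ x u : List Bool, x.length = m + R' → q x = false → evo ω w (x ++ u) = x ++ u := by
    intro q w hw x u hx hqx
    obtain ⟨x1, v, rfl, hx1, hv⟩ := split x R' hx
    have hv0 : v ≠ [] := by
      rintro rfl
      simp at hv
      omega
    rw [List.append_assoc, act q w hw x1 v u hx1 hv0,
      (hQf _).1 (pa (cz x1) v) u (by rw [BS_pa_len, hv]) (by rw [BS_pa_app]; exact hqx),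
      ← BS_pa_append _ _ _ hv0, BS_pa_app]
  refine ⟨?_, ?_⟩
  · intro q
    obtain ⟨w, hw1, hw2⟩ := key q
    refine ⟨w, hw1, fun x hx => ⟨fun hqx u => hzero q w hw2 x u hx hqx, fun hqx => ?_⟩⟩
    obtain ⟨x1, v, rfl, hx1, hv⟩ := split x R' hx
    have hv0 : v ≠ [] := by
      rintro rfl
      simp at hv
      omega
    obtain ⟨u, hu⟩ := (hQf fun v => q (x1 ++ pa (cz x1) v)).2.1 (pa (cz x1) v)
      (by rw [BS_pa_len, hv]) (by rw [BS_pa_app]; exact hqx)
    refine ⟨u, fun h => hu ?_⟩
    rw [List.append_assoc, act q w hw2 x1 v u hx1 hv0] at h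
    have h2 := List.append_cancel_left h
    have h3 := congrArg (pa (cz x1)) h2
    rw [BS_pa_app, BS_pa_append _ _ _ hv0] at h3
    exact h3
  · rintro rfl
    intro q
    obtain ⟨w, hw1, hw2⟩ := key q
    refine ⟨w, hw1, fun x u hx hqx => hzero q w hw2 x u hx hqx, ?_⟩
    intro u hu t
    obtain ⟨x1, v, rfl, hx1, hv⟩ := split u (R' + 1) (by rw [hu]; ring)
    have hv0 : v ≠ [] := by
      rintro rfl
      simp at hv
    have hL := (hQf fun v => q (x1 ++ pa (cz x1) v)).2.2 rfl (pa (cz x1) v)
      (by rw [BS_pa_len, hv]) t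
    have h4 : (x1 ++ v).take (m + R') = x1 ++ v.take R' := by
      rw [← hx1]
      simp [List.take_append]
    change evo ω w (x1 ++ v ++ [t]) = x1 ++ v ++ [xor t (q ((x1 ++ v).take (m + R')))]
    simp only [BS_pa_take, BS_pa_app] at hL
    rw [List.append_assoc, act q w hw2 x1 v [t] hx1 hv0, hL, h4, BS_pa_append _ _ _ (by
      intro h
      have := congrArg List.length h
      rw [BS_pa_len, hv] at this
      simp at this), BS_pa_app, List.append_assoc]

end Pool.Agent.U640.BG
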