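import Pool.Agent.U640.BG.Stm

/-!
# Project BG, package CMP: the weights are comparable
-/

set_option autoImplicit false

namespace Pool.Agent.U640.BG

open Pool.Agent.Results.MP_03d093_al.SphereBall Pool.Agent.H776R2.Grig Pool.Agent.H776R2.Om

namespace CMPAux

/-- a window of length `r` which contains all letters -/
theorem window {r : ℕ} {ω : Om} (i : ℕ) (h : ∀ x : Fin 3, ∃ j, j < r ∧ ω (i + j) = x) (x : V) :
    ell ω i * 2 ^ r ≤ nn ω (i + r) x := by
  obtain ⟨f, hf⟩ := W_kil_surj x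
  obtain ⟨j, hj, hj2'⟩ := h f
  have hj2 : nn ω (i + j + 1) x = nn ω (i + j) .b + nn ω (i + j) .c + nn ω (i + j) .d := by
    rw [W_nn_succ, if_pos]
    rw [hj2', hf]
  have h1 := W_sum_ge ω (i + j)
  have h2 := W_ell_pow ω i j
  have h3 := W_nn_pow ω (i + j + 1) (r - j - 1) x
  have h4 : i + j + 1 + (r - j - 1) = i + r := by omega
  rw [h4, hj2] at h3
  calc ell ω i * 2 ^ r = 2 ^ (r - j - 1) * (2 * (2 ^ j * ell ω i)) := by
        have h5 : 2 ^ r = 2 ^ (r - j - 1) * (2 * 2 ^ j) := by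
          rw [← pow_succ', ← pow_add]
          congr 1
          omega
        rw [h5]; ring
    _ ≤ 2 ^ (r - j - 1) * (2 * ell ω (i + j)) :=
        Nat.mul_le_mul_left _ (Nat.mul_le_mul_left _ h2)
    _ ≤ 2 ^ (r - j - 1) * (nn ω (i + j) .b + nn ω (i + j) .c + nn ω (i + j) .d) :=
        Nat.mul_le_mul_left _ h1
    _ ≤ _ := h3

/-- at the end of a window the ratio is at most `3^r` -/
theorem window2 {r : ℕ} {ω : Om} (i : ℕ) (h : ∀ x : Fin 3, ∃ j, j < r ∧ ω (i + j) = x) (x : V) :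
    ell ω (i + r) ≤ 3 ^ r * nn ω (i + r) x := by
  have h1 := window i h x
  have h2 := W_ell_up ω i r
  refine h2.trans (Nat.mul_le_mul_left _ ?_)
  refine le_trans ?_ h1
  exact Nat.le_mul_of_pos_right _ (by positivity)

/-- in a homogeneous stretch, after the first `r` steps -/
theorem late {r : ℕ} {ω : Om} {k s : ℕ} (h : LH r ω k s) (n : ℕ) (h1 : k + r ≤ n) (h2 : n ≤ k + s)
    (x : V) : ell ω n ≤ 3 ^ r * nn ω n x := by
  obtain ⟨i, rfl⟩ : ∃ i, n = i + r := ⟨n - r, by omega⟩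
  exact window2 i (fun y => h i y (by omega) h2) x

/-- in the first `r` steps of a stretch -/
theorem early {r : ℕ} {ω : Om} {k : ℕ} (h : ∀ x, ell ω k ≤ 2 * 3 ^ r * nn ω k x) (i : ℕ)
    (hi : i ≤ r) (x : V) : ell ω (k + i) ≤ 2 * 9 ^ r * nn ω (k + i) x := by
  have h1 := W_ell_up ω k i
  have h2 : nn ω k x ≤ nn ω (k + i) x := by
    refine le_trans ?_ (W_nn_pow ω k i x)
    exact Nat.le_mul_of_pos_left _ (by positivity)
  have h3 : (3 : ℕ) ^ i ≤ 3 ^ r := Nat.pow_le_pow_right (by norm_num) hi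
  calc ell ω (k + i) ≤ 3 ^ i * ell ω k := h1
    _ ≤ 3 ^ r * ell ω k := Nat.mul_le_mul_right _ h3
    _ ≤ 3 ^ r * (2 * 3 ^ r * nn ω k x) := Nat.mul_le_mul_left _ (h x)
    _ = 2 * 9 ^ r * nn ω k x := by
        rw [show (9 : ℕ) = 3 * 3 by norm_num, mul_pow]; ring
    _ ≤ _ := Nat.mul_le_mul_left _ h2

/-- in a constant block the weights of the two letters which are not killed are doubled -/
theorem block_eq {ω : Om} {m R : ℕ} (h : ∀ n, m ≤ n → n < m + R → ω n = ω m) (y : V)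
    (hy : y ≠ kil (ω m)) : ∀ i, i ≤ R → nn ω (m + i) y = 2 ^ i * nn ω m y := by
  intro i
  induction i with
  | zero => intro _; simp
  | succ i ih =>
    intro hi
    have h1 := h (m + i) (by omega) (by omega)
    rw [← add_assoc, W_nn_succ, h1, if_neg hy, ih (by omega)]
    ring

theorem others (z : V) : ∃ y y' : V, y ≠ z ∧ y' ≠ z ∧ z ≠ y ∧ y ≠ y' ∧ z ≠ y' := by
  cases z
  · exact ⟨.c, .d, by decide, by decide, by decide, by decide, by decide⟩
  · exact ⟨.b, .d, by decide, by decide, by decide, by decide, by decide⟩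
  · exact ⟨.b, .c, by decide, by decide, by decide, by decide, by decide⟩

theorem block_up {ω : Om} {m R : ℕ} (h : ∀ n, m ≤ n → n < m + R → ω n = ω m) (i : ℕ)
    (hi : i ≤ R) : ell ω (m + i) ≤ 2 * (2 ^ i * ell ω m) := by
  obtain ⟨x, hx⟩ := W_ell_attained ω (m + i)
  rw [hx]
  by_cases hxz : x = kil (ω m)
  · obtain ⟨y, y', h1, h2, h3, h4, h5⟩ := others (kil (ω m))
    have h6 := W_tri' ω (m + i) x y y' (by rw [hxz]; exact h3) h4 (by rw [hxz]; exact h5)
    rw [block_eq h y h1 i hi, block_eq h y' h2 i hi] at h6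
    have h7 := nn_le_ell ω m y
    have h8 := nn_le_ell ω m y'
    calc nn ω (m + i) x ≤ 2 ^ i * nn ω m y + 2 ^ i * nn ω m y' := h6
      _ ≤ 2 ^ i * ell ω m + 2 ^ i * ell ω m :=
          Nat.add_le_add (Nat.mul_le_mul_left _ h7) (Nat.mul_le_mul_left _ h8)
      _ = _ := by ring
  · rw [block_eq h x hxz i hi]
    have h7 := Nat.mul_le_mul_left (2 ^ i) (nn_le_ell ω m x)
    omega

theorem block {r : ℕ} {ω : Om} {m R : ℕ} (h : ∀ n, m ≤ n → n < m + R → ω n = ω m)
    (hm : ∀ x, ell ω m ≤ 3 ^ r * nn ω m x) (i : ℕ) (hi : i ≤ R) (x : V) :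
    ell ω (m + i) ≤ 2 * 3 ^ r * nn ω (m + i) x := by
  have h1 := W_nn_pow ω m i x
  calc ell ω (m + i) ≤ 2 * (2 ^ i * ell ω m) := block_up h i hi
    _ ≤ 2 * (2 ^ i * (3 ^ r * nn ω m x)) :=
        Nat.mul_le_mul_left _ (Nat.mul_le_mul_left _ (hm x))
    _ = 2 * 3 ^ r * (2 ^ i * nn ω m x) := by ring
    _ ≤ _ := Nat.mul_le_mul_left _ h1

theorem rpos {r S : ℕ} {ω : Om} {k s R : ℕ → ℕ} (h : Adm r S ω k s R) : 1 ≤ r := by
  rcases Nat.eq_zero_or_pos r with h0 | h0
  · subst h0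
    obtain ⟨j, hj, _⟩ := h.hom 0 (k 0) 0 le_rfl (by omega)
    omega
  · exact h0

/-- the last index of a stretch -/
theorem stretch_end {r S : ℕ} {ω : Om} {k s R : ℕ → ℕ} (h : Adm r S ω k s R) (i : ℕ) (x : V) :
    ell ω (k i + s i) ≤ 3 ^ r * nn ω (k i + s i) x := by
  have h1 := h.s1 i
  exact late (h.hom i) (k i + s i) (by omega) le_rfl x

theorem in_block {r S : ℕ} {ω : Om} {k s R : ℕ → ℕ} (h : Adm r S ω k s R) (i j : ℕ) (hj : j ≤ R i)
    (x : V) : ell ω (k i + s i + j) ≤ 2 * 3 ^ r * nn ω (k i + s i + j) x := by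
  rcases h.blk i with h0 | ⟨_, h1, _⟩
  · have hj0 : j = 0 := by omega
    subst hj0
    have h2 := stretch_end h i x
    rw [add_zero]
    calc ell ω (k i + s i) ≤ 3 ^ r * nn ω (k i + s i) x := h2
      _ ≤ _ := by
        rw [mul_assoc]
        exact Nat.le_mul_of_pos_left _ (by norm_num)
  · exact block h1 (stretch_end h i) j hj x

theorem station {r S : ℕ} {ω : Om} {k s R : ℕ → ℕ} (h : Adm r S ω k s R) :
    ∀ i x, ell ω (k i) ≤ 2 * 3 ^ r * nn ω (k i) x := by
  intro i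
  induction i with
  | zero =>
    intro x
    rw [h.k0, ell_zero, W_nn_zero, mul_one]
    have : 0 < 3 ^ r := by positivity
    omega
  | succ i _ =>
    intro x
    rw [h.ks i]
    exact in_block h i (R i) le_rfl x

theorem locate {r S : ℕ} {ω : Om} {k s R : ℕ → ℕ} (h : Adm r S ω k s R) :
    ∀ n, ∃ i, k i ≤ n ∧ n < k (i + 1) := by
  have hr := rpos h
  intro n
  induction n with
  | zero =>
    refine ⟨0, ?_, ?_⟩
    · rw [h.k0]
    · have h1 := h.ks 0
      have h2 := h.s1 0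
      omega
  | succ n ih =>
    obtain ⟨i, h1, h2⟩ := ih
    by_cases h3 : n + 1 < k (i + 1)
    · exact ⟨i, by omega, h3⟩
    · have h4 := h.ks (i + 1)
      have h5 := h.s1 (i + 1)
      exact ⟨i + 1, by omega, by omega⟩

end CMPAux

open CMPAux in
theorem t_CMP : S_CMP := by
  intro r S ω k s R h
  refine ⟨2 * 9 ^ r, ?_, ?_⟩
  · have : 0 < 9 ^ r := by positivity
    omega
  · intro n x
    have h9 : (3 : ℕ) ^ r ≤ 9 ^ r := Nat.pow_le_pow_left (by norm_num) r
    obtain ⟨i, h1, h2⟩ := locate h n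
    rcases le_total n (k i + s i) with h3 | h3
    · rcases le_total n (k i + r) with h4 | h4
      · obtain ⟨j, rfl⟩ := Nat.exists_eq_add_of_le h1
        exact early (station h i) j (by omega) x
      · refine (late (h.hom i) n h4 h3 x).trans ?_
        refine Nat.mul_le_mul_right _ ?_
        omega
    · obtain ⟨j, rfl⟩ := Nat.exists_eq_add_of_le h3
      have h4 := h.ks i
      refine (in_block h i j (by omega) x).trans ?_
      refine Nat.mul_le_mul_right _ ?_
      omega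

end Pool.Agent.U640.BG
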