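import Pool.Agent.U640.BG.Stm

set_option autoImplicit false

/-! Project BG, package CNT: counting. -/

namespace Pool.Agent.U640.BG

open Pool.Agent.Results.MP_03d093_al.SphereBall Pool.Agent.H776R2.Grig Pool.Agent.H776R2.Om

theorem t_CNT : S_CNT := by
  classical
  intro ω k N h
  choose w hw1 hw2 using fun f : List.Vector Bool k → Bool => h (L_ext f)
  let Φ : (List.Vector Bool k → Bool) → {g : Gom ω // lenO ω g ≤ N} :=
    fun f => ⟨evG ω (w f), (lenO_le ω (w f)).trans (hw1 f)⟩
  have hinj : Function.Injective Φ := by
    intro f f' hff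
    have h1 : evo ω (w f) = evo ω (w f') := by
      have h2 : evG ω (w f) = evG ω (w f') := congrArg Subtype.val hff
      exact congrArg Subtype.val h2
    funext v
    obtain ⟨a1, a2⟩ := hw2 f v.1 v.2
    obtain ⟨b1, b2⟩ := hw2 f' v.1 v.2
    rw [L_ext_apply] at a1 a2 b1 b2
    rw [h1] at a1 a2
    cases hf : f v with
    | false =>
      cases hf' : f' v with
      | false => rfl
      | true =>
        obtain ⟨y, hy⟩ := b2 hf'
        exact absurd (a1 hf y) hy
    | true =>
      cases hf' : f' v with
      | false =>
        obtain ⟨y, hy⟩ := a2 hf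
        exact absurd (b1 hf' y) hy
      | true => rfl
  have h5 := Nat.card_le_card_of_injective Φ hinj
  have h6 : Nat.card (List.Vector Bool k → Bool) = 2 ^ 2 ^ k := by
    rw [Nat.card_eq_fintype_card, Fintype.card_fun, card_vector, Fintype.card_bool]
  rw [h6] at h5
  exact h5

end Pool.Agent.U640.BG
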