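import Pool.Agent.U640.BG.Stm
import Pool.Agent.H776R2.Om.Special

set_option autoImplicit false

/-! Project BG, package DG: exact diagonal elements. -/

namespace Pool.Agent.U640.BG

open Pool.Agent.Results.MP_03d093_al.SphereBall Pool.Agent.H776R2.Grig Pool.Agent.H776R2.Om

theorem DG_cz_append (x : List Bool) (z : Bool) : cz (x ++ [z]) = xor (cz x) (!z) := by
  induction x with
  | nil => simp [cz]
  | cons y x ih =>
    rw [List.cons_append]
    simp only [cz]
    rw [ih, Bool.xor_assoc]

/-- one section step -/
theorem DG_step {D D' : P} (hs : Sec D (a * D' * a) D') (c z : Bool) (y : List Bool) :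
    (pa c * D * pa c) (z :: y) = z :: (pa (xor c (!z)) * D' * pa (xor c (!z))) y := by
  cases c
  · cases z
    · have h := (hs y).1
      simpa [pa] using h
    · have h := (hs y).2
      simpa [pa] using h
  · cases z
    · have h := (hs y).2
      have h1 : (pa true * D * pa true) (false :: y) = a (D (a (false :: y))) := by
        simp [pa, Equiv.Perm.mul_apply]
      have h2 : a (false :: y) = true :: y := rfl
      have h3 : a (true :: D' y) = false :: D' y := rfl
      rw [h1, h2, h, h3]
      simp [pa]
    · have h := (hs y).1
      have h1 : (pa true * D * pa true) (true :: y) = a (D (a (true :: y))) := by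
        simp [pa, Equiv.Perm.mul_apply]
      have h2 : a (true :: y) = false :: y := rfl
      have h3 : a (false :: (a * D' * a) y) = true :: (a * D' * a) y := rfl
      rw [h1, h2, h, h3]
      simp [pa]

/-- exact sections of the lifted words -/
theorem DG_iter (ω : Om) (e : Bool) (i : ℕ) :
    ∀ v : List V, (∀ j, i = j + 1 → (Even (v.count (kil (ω j))) ↔ e = false)) →
      ∀ x y : List Bool, x.length = i →
        (evo ω (U (thi ω i v)) * pa e) (x ++ y) =
          x ++ (pa (cz x) * (evo (shi i ω) (U v) * pa e) * pa (cz x)) y := by
  induction i with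
  | zero =>
    intro v _ x y hx
    have hx0 : x = [] := List.length_eq_zero_iff.1 hx
    subst hx0
    simp [thi, cz, pa, shi_zero]
  | succ i ih =>
    intro v he x y hx
    have he' := he i rfl
    have hi : (shi i ω) 0 = ω i := by simp [shi]
    have hs := S_sec (shi i ω) v e (by rw [hi]; exact he')
    rw [sh_shi, hi] at hs
    have hpar : ∀ j, i = j + 1 → (Even ((tho (kil (ω i)) v).count (kil (ω j))) ↔ e = false) := by
      intro j _
      rw [count_tho]
      split_ifs with hx
      · exact he'
      · rw [Nat.even_add]
        simp [he']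
    obtain ⟨x1, z, rfl⟩ : ∃ x1 z, x = x1 ++ [z] := by
      rcases List.eq_nil_or_concat x with h | ⟨x1, z, h⟩
      · subst h
        simp at hx
      · exact ⟨x1, z, by simpa using h⟩
    have hx1 : x1.length = i := by simpa using hx
    have h1 := ih (tho (kil (ω i)) v) hpar x1 (z :: y) hx1
    have h2 : (x1 ++ [z]) ++ y = x1 ++ (z :: y) := by simp
    have h3 : thi ω (i + 1) v = thi ω i (tho (kil (ω i)) v) := rfl
    rw [h2, h3, h1, DG_step hs (cz x1) z y, DG_cz_append]
    simp

/-- exact diagonal elements -/
theorem t_DG : S_DG := by
  intro ω m w hw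
  rcases Nat.eq_zero_or_pos m with rfl | hm
  · refine ⟨w, ?_, ?_⟩
    · rw [ell_zero]
      omega
    · intro x y hx
      have hx0 : x = [] := List.length_eq_zero_iff.1 hx
      subst hx0
      simp [cz, pa, shi_zero]
  · obtain ⟨e0, e1, v, hev, hvl, -, hyz, hA⟩ := normal_formo (shi m ω) (fun _ => 1)
      ⟨fun _ => one_pos, fun _ _ _ _ _ _ => by norm_num⟩ w
    have hyz' : ∀ y z : V, y ≠ z → Even (v.count y + v.count z) := by
      intro y z hne
      exact (hyz y z hne).2 ((hw _).add (hw _))
    have hA' : Even (v.length + e0.toNat + e1.toNat) := hA.2 (hw _)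
    have hlen : ∀ x : V, Even v.length ↔ Even (v.count x) := by
      have h1 := S_count v
      have hbc := hyz' .b .c (by decide)
      have hbd := hyz' .b .d (by decide)
      have hcd := hyz' .c .d (by decide)
      intro x
      rw [h1]
      cases x <;> rw [Nat.even_iff] at * <;> rw [Nat.even_iff] <;> omega
    have hpar : ∀ x : V, Even (v.count x) ↔ xor e0 e1 = false := by
      intro x
      rw [← hlen x]
      cases e0 <;> cases e1 <;>
        simp only [Bool.toNat_false, Bool.toNat_true, add_zero, Nat.even_add_one] at hA' <;>
        simp [hA'] <;> simpa using hA'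
    have hconj : evo (shi m ω) (U v) * pa (xor e0 e1) = pa e0 * evo (shi m ω) w * pa e0 := by
      rw [hev]
      have h1 : pa e0 * pa e0 = 1 := by rw [S_pa_mul]; simp [pa]
      have h2 : pa e1 * pa e0 = pa (xor e0 e1) := by rw [S_pa_mul, Bool.xor_comm]
      calc evo (shi m ω) (U v) * pa (xor e0 e1) =
            (pa e0 * pa e0) * evo (shi m ω) (U v) * (pa e1 * pa e0) := by
            rw [h1, h2, one_mul]
        _ = _ := by simp only [mul_assoc]
    have hit := DG_iter ω (xor e0 e1) m v (fun j _ => hpar _)
    rw [hconj] at hit
    obtain ⟨W0, hW0l, hW0⟩ : ∃ W0 : List Lt, W0.length ≤ 2 * (thi ω m v).length + 1 ∧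
        evo ω W0 = evo ω (U (thi ω m v)) * pa (xor e0 e1) := by
      cases hx : xor e0 e1
      · exact ⟨U (thi ω m v), by rw [S_U_length]; omega, by simp [pa]⟩
      · refine ⟨U (thi ω m v) ++ [Lt.A], ?_, ?_⟩
        · rw [List.length_append, S_U_length]
          simp only [List.length_cons, List.length_nil]
          omega
        · rw [evo_append, evo_cons, evo_nil, mul_one]
          rfl
    rw [← hW0] at hit
    have hlen2 := length_thi_le ω m v
    have h3 : v.length * ell ω m ≤ w.length * ell ω m := Nat.mul_le_mul_right _ hvl
    have h5 := ell_pos ω m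
    have hmain : 2 * (thi ω m v).length + 1 + 2 ≤ (2 * w.length + 3) * ell ω m := by
      have h6 : (2 * w.length + 3) * ell ω m = 2 * (w.length * ell ω m) + 3 * ell ω m := by ring
      omega
    cases e0
    · refine ⟨W0, by omega, ?_⟩
      intro x y hx
      have h := hit x y hx
      simpa [pa] using h
    · refine ⟨Lt.A :: (W0 ++ [Lt.A]), ?_, ?_⟩
      · rw [List.length_cons, List.length_append]
        simp only [List.length_cons, List.length_nil]
        omega
      · intro x y hx
        match x, hx with
        | x0 :: x', hx =>
          have hx' : ((!x0) :: x').length = m := by simpa using hx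
          have h := hit ((!x0) :: x') y hx'
          have he : evo ω (Lt.A :: (W0 ++ [Lt.A])) = a * (evo ω W0 * a) := by
            rw [evo_cons, evo_append, evo_cons, evo_nil, mul_one]
            rfl
          have hc : cz ((!x0) :: x') = !(cz (x0 :: x')) := by
            simp only [cz]
            cases x0 <;> cases cz x' <;> rfl
          rw [he, Equiv.Perm.mul_apply, Equiv.Perm.mul_apply]
          have ha1 : a (x0 :: x' ++ y) = (!x0) :: x' ++ y := rfl
          rw [ha1, h, hc]
          have hp1 : pa (!(cz (x0 :: x'))) * (pa true * evo (shi m ω) w * pa true) *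
              pa (!(cz (x0 :: x'))) = pa (cz (x0 :: x')) * evo (shi m ω) w * pa (cz (x0 :: x')) := by
            have hq1 : pa (!(cz (x0 :: x'))) * pa true = pa (cz (x0 :: x')) := by
              rw [S_pa_mul]
              simp
            have hq2 : pa true * pa (!(cz (x0 :: x'))) = pa (cz (x0 :: x')) := by
              rw [S_pa_mul]
              simp
            calc pa (!(cz (x0 :: x'))) * (pa true * evo (shi m ω) w * pa true) *
                pa (!(cz (x0 :: x'))) = (pa (!(cz (x0 :: x'))) * pa true) * evo (shi m ω) w *
                  (pa true * pa (!(cz (x0 :: x')))) := by simp only [mul_assoc]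
              _ = _ := by rw [hq1, hq2]
          rw [hp1]
          have ha2 : ∀ u : List Bool, a ((!x0) :: u) = x0 :: u := by
            intro u
            show (!(!x0)) :: u = x0 :: u
            rw [Bool.not_not]
          exact ha2 _
        | [], hx =>
          simp at hx
          omega

end Pool.Agent.U640.BG
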