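import Pool.Agent.U640.BG.Stm

set_option autoImplicit false

/-! Project BG, package EH: from exact realization to the properties `Inj` and `Hyb`. -/

namespace Pool.Agent.U640.BG

open Pool.Agent.Results.MP_03d093_al.SphereBall Pool.Agent.H776R2.Grig Pool.Agent.H776R2.Om

theorem eh_pa (e : Bool) (y : List Bool) : pa e (pa e y) = y := by
  cases e
  · rfl
  · exact aFun_invol y

theorem eh_lab {D : ℕ} (hD : 1 ≤ D) {g : P} (h : Lab D (fun _ => true) g) (e : Bool) :
    Lab D (fun _ => true) (pa e * g * pa e) := by
  cases e
  · have h1 : pa false = 1 := rfl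
    rw [h1, one_mul, mul_one]
    exact h
  · exact lab_conj_a hD h

theorem t_EH : S_EH := by
  intro ω m κ N hE
  refine ⟨?_, ?_⟩
  · rintro ⟨y0, hy0⟩ q
    obtain ⟨w, hw, h⟩ := hE q
    refine ⟨w, hw, fun x hx => ⟨fun hq y => ?_, fun hq => ⟨pa (cz x) y0, ?_⟩⟩⟩
    · rw [h x y hx, if_neg (by rw [hq]; decide)]
    · rw [h x _ hx, if_pos hq]
      intro heq
      have h1 := List.append_cancel_left heq
      rw [Equiv.Perm.mul_apply, Equiv.Perm.mul_apply, eh_pa] at h1
      exact hy0 ((pa (cz x)).injective h1)
  · intro D hD hL q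
    obtain ⟨w, hw, h⟩ := hE q
    refine ⟨w, hw, fun x y hx hq => ?_, fun u hu x => ?_⟩
    · rw [h x y hx, if_neg (by rw [hq]; decide)]
    · have hu1 : (u.take m).length = m := by
        rw [List.length_take, hu]
        omega
      have hu2 : (u.drop m).length = D := by
        rw [List.length_drop, hu]
        omega
      have e1 : u ++ [x] = u.take m ++ (u.drop m ++ [x]) := by
        rw [← List.append_assoc, List.take_append_drop]
      rw [e1, h _ _ hu1]
      by_cases hq : q (u.take m) = true
      · rw [if_pos hq, eh_lab hD hL _ _ hu2 x, ← List.append_assoc, List.take_append_drop]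
        simp only [hq]
      · rw [if_neg hq, ← List.append_assoc, List.take_append_drop]
        rw [Bool.not_eq_true] at hq
        simp only [hq, Bool.xor_false]

end Pool.Agent.U640.BG
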