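import Pool.Agent.U640.BG.Stm

set_option autoImplicit false

/-! Project BG, package EXL: the function `exp (n / log n)`. -/

namespace Pool.Agent.U640.BG

open Pool.Agent.Results.MP_03d093_al.SphereBall Pool.Agent.H776R2.Grig Pool.Agent.H776R2.Om

namespace EXLaux

lemma kk_spec (ω : Om) (n : ℕ) : n ≤ ell ω (kk ω n) := by
  have hne : {k : ℕ | n ≤ ell ω k}.Nonempty := by
    refine ⟨n, ?_⟩
    have h : ∀ i : ℕ, i ≤ ell ω i := by
      intro i
      induction i with
      | zero => exact Nat.zero_le _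
      | succ i ih =>
        have h1 := two_ell_le ω i
        have h2 := ell_pos ω i
        omega
    exact h n
  exact Nat.sInf_mem hne

lemma kk_lt (ω : Om) (n j : ℕ) (hj : j < kk ω n) : ell ω j < n := by
  by_contra hcon
  exact absurd (Nat.sInf_le (s := {k : ℕ | n ≤ ell ω k}) (not_lt.1 hcon)) (not_le.2 hj)

lemma exp_two (K : ℕ) : Real.exp (2 ^ K * Real.log 2) = ((2 ^ 2 ^ K : ℕ) : ℝ) := by
  have h : (2 : ℝ) ^ K * Real.log 2 = ((2 ^ K : ℕ) : ℝ) * Real.log 2 := by push_cast; ring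
  rw [h, Real.exp_nat_mul, Real.exp_log (by norm_num)]
  push_cast
  ring

end EXLaux

open EXLaux

theorem t_EXL : S_EXL := by
  intro ω c1 c2 hc1 h
  have hl1 : (0.69 : ℝ) < Real.log 2 := by have := Real.log_two_gt_d9; linarith
  have hl2 : Real.log 2 < 0.7 := by have := Real.log_two_lt_d9; linarith
  refine ⟨?_, ?_⟩
  · obtain ⟨C, hC⟩ : ∃ C : ℕ, C = ⌈12 * c2⌉₊ + 1 := ⟨_, rfl⟩
    refine ⟨C, by omega, fun n => ?_⟩
    rcases Nat.eq_zero_or_pos n with rfl | hn
    · simp [FF]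
    have hC0 : 12 * c2 < C := by
      have h1 := Nat.le_ceil (12 * c2)
      rw [hC]
      push_cast
      linarith
    have hC1 : 1 ≤ C := by omega
    have hCn : C * n ≠ 0 := by positivity
    rw [FF, if_neg hCn]
    obtain ⟨K, hK⟩ : ∃ K, K = kk ω (C * n) := ⟨_, rfl⟩
    rw [← hK]
    have h1 : C * n ≤ ell ω K := hK ▸ kk_spec ω (C * n)
    have h2 : ((C : ℝ) * n) ≤ c2 * (2 ^ K * ((K : ℝ) + 5)) := by
      calc ((C : ℝ) * n) = ((C * n : ℕ) : ℝ) := by push_cast; ring
        _ ≤ (ell ω K : ℝ) := by exact_mod_cast h1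
        _ ≤ _ := (h K).2
    have hn1 : (1 : ℝ) ≤ n := by exact_mod_cast hn
    have hlog1 : (1 : ℝ) ≤ Real.log (n + 2) := by
      rw [Real.le_log_iff_exp_le (by linarith)]
      have := Real.exp_one_lt_d9
      linarith
    have hK2 : (0 : ℝ) < 2 ^ K := by positivity
    have key : (n : ℝ) / Real.log (n + 2) ≤ 2 ^ K * Real.log 2 := by
      by_contra hcon
      rw [not_le, lt_div_iff₀ (by linarith)] at hcon
      -- `n + 2 > 2 ^ (K - 1)`
      have ha : (2 : ℝ) ^ K * 0.69 ≤ 2 ^ K * Real.log 2 :=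
        mul_le_mul_of_nonneg_left hl1.le hK2.le
      have hb : (2 : ℝ) ^ K * Real.log 2 * 1 ≤ 2 ^ K * Real.log 2 * Real.log (n + 2) :=
        mul_le_mul_of_nonneg_left hlog1 (by positivity)
      have h3 : (2 : ℝ) ^ K / 2 ≤ n + 2 := by linarith
      have h4 : (K : ℝ) * Real.log 2 - Real.log 2 ≤ Real.log (n + 2) := by
        have := Real.log_le_log (by positivity) h3
        rwa [Real.log_div (by positivity) (by norm_num), Real.log_pow] at this
      have h5 : (K : ℝ) + 5 ≤ 8 * Real.log (n + 2) := by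
        have hK0 : (0 : ℝ) ≤ K := Nat.cast_nonneg K
        nlinarith
      have h6 : (2 : ℝ) ^ K * ((K : ℝ) + 5) ≤ 12 * n := by
        have h7 : (2 : ℝ) ^ K * ((K : ℝ) + 5) ≤ 2 ^ K * (8 * Real.log (n + 2)) :=
          mul_le_mul_of_nonneg_left h5 hK2.le
        have h8 : (2 : ℝ) ^ K * Real.log (n + 2) * 0.69 ≤ n := by
          have : 0 ≤ (2 : ℝ) ^ K * Real.log (n + 2) := by positivity
          nlinarith
        nlinarith
      have hKK : (0 : ℝ) < 2 ^ K * ((K : ℝ) + 5) := by positivity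
      rcases le_or_gt c2 0 with hc | hc
      · nlinarith
      · have : c2 * (2 ^ K * ((K : ℝ) + 5)) ≤ c2 * (12 * n) := mul_le_mul_of_nonneg_left h6 hc.le
        nlinarith
    have h9 : Real.exp ((n : ℝ) / Real.log (n + 2)) ≤ ((2 ^ 2 ^ K : ℕ) : ℝ) := by
      rw [← exp_two]
      exact Real.exp_le_exp.2 key
    calc ⌊Real.exp ((n : ℝ) / Real.log (n + 2))⌋₊ ≤ ⌊((2 ^ 2 ^ K : ℕ) : ℝ)⌋₊ :=
          Nat.floor_le_floor h9
      _ = 2 ^ 2 ^ K := Nat.floor_natCast _
  · obtain ⟨C, hC⟩ : ∃ C : ℕ, C = ⌈2 / c1⌉₊ + 2 := ⟨_, rfl⟩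
    refine ⟨C, by omega, fun n => ?_⟩
    rcases Nat.eq_zero_or_pos n with rfl | hn
    · simp [FF]
    have hC2 : 2 ≤ C := by omega
    have hC0 : 2 ≤ c1 * C := by
      have h1 := Nat.le_ceil (2 / c1)
      have h2 : 2 / c1 ≤ C := by
        rw [hC]
        push_cast
        linarith
      rw [div_le_iff₀ hc1] at h2
      linarith
    rw [FF, if_neg hn.ne']
    obtain ⟨K, hK⟩ : ∃ K, K = kk ω n := ⟨_, rfl⟩
    rw [← hK]
    have hn1 : (1 : ℝ) ≤ n := by exact_mod_cast hn
    have hCr : (2 : ℝ) ≤ C := by exact_mod_cast hC2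
    have hK2 : (0 : ℝ) < 2 ^ K := by positivity
    obtain ⟨y, hy⟩ : ∃ y : ℝ, y = ((C * n : ℕ) : ℝ) := ⟨_, rfl⟩
    have hyC : y = C * n := by rw [hy]; push_cast; ring
    have hy2 : 2 ≤ y := by rw [hyC]; nlinarith
    -- the lower bound of `y`
    have hlow : (2 : ℝ) ^ K * (K + 2) ≤ y := by
      rcases Nat.eq_zero_or_pos K with h0 | h0
      · rw [h0]
        norm_num
        exact hy2
      · obtain ⟨j, rfl⟩ : ∃ j, K = j + 1 := ⟨K - 1, by omega⟩
        have h1 : ell ω j < n := kk_lt ω n j (by omega)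
        have h2 : c1 * (2 ^ j * ((j : ℝ) + 5)) ≤ n := by
          refine (h j).1.trans ?_
          exact_mod_cast h1.le
        have hj0 : (0 : ℝ) ≤ j := Nat.cast_nonneg j
        have hj2 : (0 : ℝ) < 2 ^ j := by positivity
        calc (2 : ℝ) ^ (j + 1) * (((j + 1 : ℕ) : ℝ) + 2) = 2 * (2 ^ j * ((j : ℝ) + 3)) := by
              push_cast
              ring
          _ ≤ (c1 * C) * (2 ^ j * ((j : ℝ) + 5)) := by
              apply mul_le_mul hC0 _ (by positivity) (by linarith)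
              exact mul_le_mul_of_nonneg_left (by linarith) hj2.le
          _ = C * (c1 * (2 ^ j * ((j : ℝ) + 5))) := by ring
          _ ≤ C * n := mul_le_mul_of_nonneg_left h2 (by linarith)
          _ = y := hyC.symm
    have hlogpos : 0 < Real.log (y + 2) := Real.log_pos (by linarith)
    have hlog : Real.log (y + 2) ≤ (K + 2) * Real.log 2 + (y + 2) / (4 * 2 ^ K) := by
      have h1 := Real.log_le_sub_one_of_pos (x := (y + 2) / (4 * 2 ^ K)) (by positivity)
      rw [Real.log_div (by linarith) (by positivity)] at h1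
      have h2 : Real.log (4 * 2 ^ K) = (K + 2) * Real.log 2 := by
        rw [show (4 : ℝ) * 2 ^ K = 2 ^ (K + 2) by ring, Real.log_pow]
        push_cast
        ring
      rw [h2] at h1
      linarith
    have key : 2 ^ K * Real.log 2 ≤ y / Real.log (y + 2) := by
      rw [le_div_iff₀ hlogpos]
      have h1 : (2 : ℝ) ^ K * Real.log 2 * Real.log (y + 2) ≤
          2 ^ K * Real.log 2 * ((K + 2) * Real.log 2 + (y + 2) / (4 * 2 ^ K)) :=
        mul_le_mul_of_nonneg_left hlog (by positivity)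
      have h2 : (2 : ℝ) ^ K * Real.log 2 * ((K + 2) * Real.log 2 + (y + 2) / (4 * 2 ^ K)) =
          Real.log 2 ^ 2 * (2 ^ K * (K + 2)) + Real.log 2 * (y + 2) / 4 := by
        field_simp
      have h3 : Real.log 2 ^ 2 ≤ 1 / 2 := by nlinarith
      have h4 : Real.log 2 ^ 2 * (2 ^ K * (K + 2)) ≤ 1 / 2 * y := by
        calc Real.log 2 ^ 2 * (2 ^ K * (K + 2)) ≤ 1 / 2 * (2 ^ K * (K + 2)) :=
              mul_le_mul_of_nonneg_right h3 (by positivity)
          _ ≤ 1 / 2 * y := by linarith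
      have h5 : Real.log 2 * (y + 2) / 4 ≤ 1 / 2 * y := by nlinarith
      linarith
    rw [← hy]
    apply Nat.le_floor
    rw [← exp_two]
    exact Real.exp_le_exp.2 key

end Pool.Agent.U640.BG
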