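import Pool.Agent.H776R2.Om.Lower
import Pool.Agent.H776R2.Om.Upper
import Pool.Agent.H776R2.Om.Fin

set_option autoImplicit false

/-! Project BG: the exact growth of `G_ω` for sequences `ω` with arbitrarily long constant blocks. -/

namespace Pool.Agent.U640.BG

open Pool.Agent.Results.MP_03d093_al.SphereBall Pool.Agent.H776R2.Grig Pool.Agent.H776R2.Om

/-- parity of the number of letters `false` -/
def cz : List Bool → Bool
  | [] => false
  | x :: u => xor (!x) (cz u)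

/-- a word for a product of pairs of conjugates of the letter `x` -/
def jw (x : V) (W : List (List Lt × List Lt)) : List Lt :=
  W.flatMap fun p => p.1 ++ [x.lt] ++ p.1.reverse ++ (p.2 ++ [x.lt] ++ p.2.reverse)

def size (W : List (List Lt × List Lt)) : ℕ := (jw .b W).length

/-- conjugation by `a^e` -/
def cj (e : Bool) (W : List (List Lt × List Lt)) : List (List Lt × List Lt) :=
  if e then W.map (fun p => (Lt.A :: p.1, Lt.A :: p.2)) else W

/-- the commutator -/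
def comw (v w : List Lt) : List Lt := v ++ w ++ v.reverse ++ w.reverse

/-- every function `q` on the words of length `m` is realized exactly: the element has the section
`a^(cz x) κ a^(cz x)` at the words `x` with `q x = true` and is trivial below the others -/
def Exa (ω : Om) (m : ℕ) (κ : List Lt) (N : ℕ) : Prop :=
  ∀ q : List Bool → Bool, ∃ w : List Lt, w.length ≤ N ∧ ∀ x y : List Bool, x.length = m →
    evo ω w (x ++ y) = x ++ (if q x then (pa (cz x) * evo (shi m ω) κ * pa (cz x)) y else y)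

/-- trivial below `x` if `q x = false`, flips the letters `k + D` below `x` if `q x = true` -/
def Hyb (ω : Om) (k D N : ℕ) : Prop :=
  ∀ q : List Bool → Bool, ∃ w : List Lt, w.length ≤ N ∧
    (∀ x y : List Bool, x.length = k → q x = false → evo ω w (x ++ y) = x ++ y) ∧
    Lab (k + D) (fun u => q (u.take k)) (evo ω w)

/-- trivial below `x` if `q x = false`, not trivial below `x` if `q x = true` -/
def Inj (ω : Om) (k N : ℕ) : Prop :=
  ∀ q : List Bool → Bool, ∃ w : List Lt, w.length ≤ N ∧ ∀ x : List Bool, x.length = k →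
    (q x = false → ∀ y, evo ω w (x ++ y) = x ++ y) ∧
    (q x = true → ∃ y, evo ω w (x ++ y) ≠ x ++ y)

/-- every subword of length `r` of the stretch `[k, k + s)` contains all three letters -/
def LH (r : ℕ) (ω : Om) (k s : ℕ) : Prop :=
  ∀ (n : ℕ) (x : Fin 3), k ≤ n → n + r ≤ k + s → ∃ j, j < r ∧ ω (n + j) = x

/-- `ω` consists of `r`-homogeneous stretches `[k_i, k_i + s_i)` of lengths `24 r ≤ s_i ≤ S`, and
constant blocks `[k_i + s_i, k_(i+1))` of arbitrary lengths `R_i` (`0` or at least `3`) -/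
structure Adm (r S : ℕ) (ω : Om) (k s R : ℕ → ℕ) : Prop where
  k0 : k 0 = 0
  ks : ∀ i, k (i + 1) = k i + s i + R i
  s1 : ∀ i, 24 * r ≤ s i
  s2 : ∀ i, s i ≤ S
  hom : ∀ i, LH r ω (k i) (s i)
  ch : ∀ i, ω (k i + s i - 1) ≠ ω (k i + s i)
  blk : ∀ i, R i = 0 ∨ (3 ≤ R i ∧ (∀ n, k i + s i ≤ n → n < k i + s i + R i → ω n = ω (k i + s i)) ∧
    ω (k i + s i + R i) ≠ ω (k i + s i))

/-! The packages. -/

/-- DG: exact diagonal elements -/
def S_DG : Prop := ∀ (ω : Om) (m : ℕ) (w : List Lt), EvC w → ∃ W : List Lt,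
  W.length ≤ (2 * w.length + 3) * ell ω m ∧ ∀ x y : List Bool, x.length = m →
    evo ω W (x ++ y) = x ++ (pa (cz x) * evo (shi m ω) w * pa (cz x)) y

/-- JT: uniform localized lifts -/
def S_JT : Prop := ∀ s L : ℕ, 1 ≤ s → ∃ B : ℕ, ∀ (η : Om) (t : List Bool)
    (W : List (List Lt × List Lt)), t.length = s → size W ≤ L →
    ∃ w : List Lt, w.length ≤ B ∧ EvC w ∧
      (∀ y, evo η w (t ++ y) = t ++ evo (shi s η) (jw (kil (η (s - 1))) W) y) ∧
      (∀ t' y, t'.length = s → t' ≠ t → evo η w (t' ++ y) = t' ++ y)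

/-- STEP -/
def S_STEP : Prop := ∀ S L : ℕ, ∃ C : ℕ, ∀ (ω : Om) (k D N s : ℕ)
    (W1 W2 : List (List Lt × List Lt)), D + 1 ≤ s → s ≤ S → size W1 ≤ L → size W2 ≤ L →
    Hyb ω k D N →
    Exa ω (k + s) (comw (jw (kil (ω (k + s - 1))) W1) (jw (kil (ω (k + s - 1))) W2))
      (2 ^ s * (4 * N + C * ell ω k))

/-- HL: flipping commutators -/
def S_HL : Prop := ∀ S : ℕ, ∃ L : ℕ, ∀ (θ : Om) (s : ℕ), θ 0 ≠ θ 1 → 2 ≤ s → s ≤ S →
    θ s ≠ θ (s + 1) → ∃ W1 W2 : List (List Lt × List Lt), size W1 ≤ L ∧ size W2 ≤ L ∧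
      Lab (s + 1) (fun _ => true)
        (evo (sh θ) (comw (jw (kil (θ 0)) W1) (jw (kil (θ 0)) W2)))

/-- EH -/
def S_EH : Prop := ∀ (ω : Om) (m : ℕ) (κ : List Lt) (N : ℕ), Exa ω m κ N →
    ((∃ y, evo (shi m ω) κ y ≠ y) → Inj ω m N) ∧
    ∀ D : ℕ, 1 ≤ D → Lab D (fun _ => true) (evo (shi m ω) κ) → Hyb ω m D N

/-- the pairs for the block step: `(aya)(z aya z)` and `y (aya)` -/
def Wf (z : V) : List (List Lt × List Lt) := [([Lt.A], [z.lt, Lt.A])]
def Wt : List (List Lt × List Lt) := [([], [Lt.A])]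

/-- the word `κ_0` (`e = false`) and its conjugate by `a` (`e = true`) -/
def kap (y z : V) (e : Bool) : List Lt := comw (jw y (cj e (Wf z))) (jw y (cj e Wt))

/-- `T = y a y a` -/
def Tw (y : V) : List Lt := [y.lt, Lt.A, y.lt, Lt.A]

/-- `∏_(i = 1)^I T^(-i) κ^(q i) T^i` -/
noncomputable def prl (T κ : P) (q : ℕ → Bool) (I : ℕ) : P :=
  ((List.range I).map fun i => T⁻¹ ^ (i + 1) * (if q (i + 1) then κ else 1) * T ^ (i + 1)).prod

/-- the local word of the block step -/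
noncomputable def locw (η : Om) (y z : V) (Q : Bool → ℕ → Bool) (I : ℕ) : P :=
  prl (evo η (Tw y)) (evo η (kap y z false)) (Q false) I *
    (a * prl (evo η (Tw y)) (evo η (kap y z false)) (Q true) I * a)

/-- LOC: the block step inside `G_η` -/
def S_LOC : Prop := ∀ (η : Om) (y : V) (R R' : ℕ), 3 ≤ R' → R' ≤ R → (∀ n < R, η n = η 0) →
    η R ≠ η 0 → y ≠ kil (η 0) →
    ∃ Qf : (List Bool → Bool) → Bool → ℕ → Bool, ∀ p : List Bool → Bool,
      (∀ v u : List Bool, v.length = R' → p v = false →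
        locw η y (kil (η 0)) (Qf p) (2 ^ R' - 2) (v ++ u) = v ++ u) ∧
      (∀ v : List Bool, v.length = R' → p v = true →
        ∃ u, locw η y (kil (η 0)) (Qf p) (2 ^ R' - 2) (v ++ u) ≠ v ++ u) ∧
      (R' = R → Lab (R + 1) (fun u => p (u.take R)) (locw η y (kil (η 0)) (Qf p) (2 ^ R' - 2)))

/-- BS: the block step -/
def S_BS : Prop := ∀ (ω : Om) (m R R' N : ℕ), 1 ≤ m → 3 ≤ R' → R' ≤ R →
    (∀ n, m ≤ n → n < m + R → ω n = ω m) → ω (m + R) ≠ ω m → ω (m - 1) ≠ ω m →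
    Exa ω m (kap (kil (ω (m - 1))) (kil (ω m)) false) N →
    Exa ω m (kap (kil (ω (m - 1))) (kil (ω m)) true) N →
    Inj ω (m + R') (2 ^ (R' + 1) * (N + 22 * ell ω m)) ∧
    (R' = R → Hyb ω (m + R) 1 (2 ^ (R + 1) * (N + 22 * ell ω m)))

/-- CNT: counting -/
def S_CNT : Prop := ∀ (ω : Om) (k N : ℕ), Inj ω k N → 2 ^ 2 ^ k ≤ ballO ω N

/-- GRW: growth of the weights in a homogeneous stretch -/
def S_GRW : Prop := ∀ (r : ℕ) (ω : Om) (k s : ℕ), LH r ω k s → 24 * r ≤ s → 1 ≤ r →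
    32 * 2 ^ s * ell ω k ≤ ell ω (k + s)

/-- CMP: the weights are comparable -/
def S_CMP : Prop := ∀ (r S : ℕ) (ω : Om) (k s R : ℕ → ℕ), Adm r S ω k s R →
    ∃ K : ℕ, 1 ≤ K ∧ ∀ i x, ell ω i ≤ K * nn ω i x

/-- the function `2 ^ (2 ^ k(n))`, `k(n)` the least `k` with `n ≤ ψ k` -/
noncomputable def FP (ψ : ℕ → ℝ) (n : ℕ) : ℕ := if n = 0 then 1 else 2 ^ 2 ^ (sInf {k : ℕ | (n : ℝ) ≤ ψ k})

/-- RZ: prescribed weights -/
def S_RZ : Prop := ∀ ψ : ℕ → ℝ, 0 < ψ 0 → (∀ k, 2 * ψ k ≤ ψ (k + 1)) →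
    (∀ k, ψ (k + 1) ≤ 12 / 5 * ψ k) → Filter.Tendsto (fun k => ψ k / 2 ^ k) Filter.atTop Filter.atTop →
    ∃ (r S : ℕ) (ω : Om) (k s R : ℕ → ℕ), Adm r S ω k s R ∧
      ∃ c1 c2 : ℝ, 0 < c1 ∧ ∀ i, c1 * ψ i ≤ ell ω i ∧ (ell ω i : ℝ) ≤ c2 * ψ i

/-- EXL: the function `exp(n / log n)` -/
def S_EXL : Prop := ∀ (ω : Om) (c1 c2 : ℝ), 0 < c1 →
    (∀ i : ℕ, c1 * (2 ^ i * ((i : ℝ) + 5)) ≤ ell ω i ∧ (ell ω i : ℝ) ≤ c2 * (2 ^ i * ((i : ℝ) + 5))) →
    (∃ C : ℕ, 1 ≤ C ∧ ∀ n : ℕ, ⌊Real.exp ((n : ℝ) / Real.log (n + 2))⌋₊ ≤ FF ω (C * n)) ∧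
    (∃ C : ℕ, 1 ≤ C ∧ ∀ n : ℕ, FF ω n ≤ ⌊Real.exp (((C * n : ℕ) : ℝ) / Real.log ((C * n : ℕ) + 2))⌋₊)

end Pool.Agent.U640.BG
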