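import Mathlib
import Pool.Agent.U640.BG.Stm
import Pool.Agent.H776R2.Om.Wt

set_option autoImplicit false

/-! Project BG, package GRW: growth of the weights in a homogeneous stretch (proved by helper109). -/

namespace Pool.Agent.U640.BG

open Pool.Agent.Results.MP_03d093_al.SphereBall Pool.Agent.H776R2.Grig Pool.Agent.H776R2.Om

/-- the window `[i, i + r)` contains all letters -/
def GWin (r : ℕ) (ω : Om) (i : ℕ) : Prop := ∀ x : Fin 3, ∃ j, j < r ∧ ω (i + j) = x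

theorem GRW_killed {r : ℕ} {ω : Om} (i : ℕ) (h : GWin r ω i) (x : V) :
    ∃ j, j < r ∧ nn ω (i + j + 1) x = nn ω (i + j) .b + nn ω (i + j) .c + nn ω (i + j) .d := by
  obtain ⟨f, hf⟩ := W_kil_surj x
  obtain ⟨j, hj, hj2⟩ := h f
  refine ⟨j, hj, ?_⟩
  rw [W_nn_succ, if_pos]
  rw [hj2, hf]

theorem GRW_nn_hom {r : ℕ} {ω : Om} (i : ℕ) (h : GWin r ω i) (x : V) :
    ell ω i * 2 ^ r ≤ nn ω (i + r) x := by
  obtain ⟨j, hj, hj2⟩ := GRW_killed i h x
  have h1 := W_sum_ge ω (i + j)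
  have h2 := W_ell_pow ω i j
  have h3 := W_nn_pow ω (i + j + 1) (r - j - 1) x
  have h4 : i + j + 1 + (r - j - 1) = i + r := by omega
  rw [h4, hj2] at h3
  calc ell ω i * 2 ^ r = 2 ^ (r - j - 1) * (2 * (2 ^ j * ell ω i)) := by
        have h5 : 2 ^ r = 2 ^ (r - j - 1) * (2 * 2 ^ j) := by
          rw [← pow_succ', ← pow_add]
          congr 1
          omega
        rw [h5]; ring
    _ ≤ 2 ^ (r - j - 1) * (2 * ell ω (i + j)) :=
        Nat.mul_le_mul_left _ (Nat.mul_le_mul_left _ h2)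
    _ ≤ 2 ^ (r - j - 1) * (nn ω (i + j) .b + nn ω (i + j) .c + nn ω (i + j) .d) :=
        Nat.mul_le_mul_left _ h1
    _ ≤ _ := h3

theorem GRW_grow2 {r : ℕ} {ω : Om} (i : ℕ) (h : GWin r ω i) (h' : GWin r ω (i + r)) :
    3 * 2 ^ (2 * r) * ell ω i ≤ 2 * ell ω (i + 2 * r) := by
  obtain ⟨j, hj, hj2⟩ := GRW_killed (i + r) h' .b
  have h1 : ∀ y, 2 ^ j * (ell ω i * 2 ^ r) ≤ nn ω (i + r + j) y := fun y =>
    (Nat.mul_le_mul_left _ (GRW_nn_hom i h y)).trans (W_nn_pow ω (i + r) j y)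
  have h3 := W_nn_pow ω (i + r + j + 1) (r - j - 1) .b
  have h4 : i + r + j + 1 + (r - j - 1) = i + 2 * r := by omega
  rw [h4, hj2] at h3
  have h6 : 2 ^ (2 * r) = 2 * (2 ^ (r - j - 1) * (2 ^ j * 2 ^ r)) := by
    rw [← pow_add, ← pow_add, ← pow_succ']
    congr 1
    omega
  have h7 := nn_le_ell ω (i + 2 * r) .b
  calc 3 * 2 ^ (2 * r) * ell ω i = 2 * (2 ^ (r - j - 1) * (3 * (2 ^ j * (ell ω i * 2 ^ r)))) := by
        rw [h6]; ring
    _ ≤ 2 * (2 ^ (r - j - 1) * (nn ω (i + r + j) .b + nn ω (i + r + j) .c +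
          nn ω (i + r + j) .d)) := by
        refine Nat.mul_le_mul_left _ (Nat.mul_le_mul_left _ ?_)
        have hb := h1 .b
        have hc := h1 .c
        have hd := h1 .d
        omega
    _ ≤ 2 * nn ω (i + 2 * r) .b := Nat.mul_le_mul_left _ h3
    _ ≤ _ := Nat.mul_le_mul_left _ h7

theorem GRW_iter {r s k : ℕ} {ω : Om} (h : LH r ω k s) (m : ℕ) (hm : 2 * r * m ≤ s) :
    3 ^ m * 2 ^ (2 * r * m) * ell ω k ≤ 2 ^ m * ell ω (k + 2 * r * m) := by
  induction m with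
  | zero => simp
  | succ m ih =>
    have h2 : k + 2 * r * m + 2 * r = k + 2 * r * (m + 1) := by ring
    have h0 : 2 * r * (m + 1) = 2 * r * m + 2 * r := by ring
    have ih' := ih (by omega)
    have w1 : GWin r ω (k + 2 * r * m) := fun x => h _ x (by omega) (by omega)
    have w2 : GWin r ω (k + 2 * r * m + r) := fun x => h _ x (by omega) (by omega)
    have h1 := GRW_grow2 (k + 2 * r * m) w1 w2
    rw [h2] at h1
    calc 3 ^ (m + 1) * 2 ^ (2 * r * (m + 1)) * ell ω k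
        = 3 * 2 ^ (2 * r) * (3 ^ m * 2 ^ (2 * r * m) * ell ω k) := by
          rw [show 2 * r * (m + 1) = 2 * r + 2 * r * m by ring, pow_add]; ring
      _ ≤ 3 * 2 ^ (2 * r) * (2 ^ m * ell ω (k + 2 * r * m)) := Nat.mul_le_mul_left _ ih'
      _ = 2 ^ m * (3 * 2 ^ (2 * r) * ell ω (k + 2 * r * m)) := by ring
      _ ≤ 2 ^ m * (2 * ell ω (k + 2 * r * (m + 1))) := Nat.mul_le_mul_left _ h1
      _ = _ := by rw [pow_succ]; ring

theorem t_GRW : S_GRW := by
  intro r ω k s h hs _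
  have h1 := GRW_iter h 12 (by omega)
  have h2 : 2 * r * 12 = 24 * r := by ring
  rw [h2] at h1
  have h3 : (3 : ℕ) ^ 12 = 531441 := by norm_num
  have h4 : (2 : ℕ) ^ 12 = 4096 := by norm_num
  rw [h3, h4] at h1
  have h6 : 531441 * 2 ^ (24 * r) * ell ω k = 531441 * (2 ^ (24 * r) * ell ω k) := by ring
  rw [h6] at h1
  have h5 : 32 * (2 ^ (24 * r) * ell ω k) ≤ ell ω (k + 24 * r) := by omega
  have h7 := W_ell_pow ω (k + 24 * r) (s - 24 * r)
  have h8 : k + 24 * r + (s - 24 * r) = k + s := by omega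
  rw [h8] at h7
  have h9 : 2 ^ s = 2 ^ (s - 24 * r) * 2 ^ (24 * r) := by
    rw [← pow_add]; congr 1; omega
  calc 32 * 2 ^ s * ell ω k = 2 ^ (s - 24 * r) * (32 * (2 ^ (24 * r) * ell ω k)) := by
        rw [h9]; ring
    _ ≤ 2 ^ (s - 24 * r) * ell ω (k + 24 * r) := Nat.mul_le_mul_left _ h5
    _ ≤ _ := h7

end Pool.Agent.U640.BG
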