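import Mathlib
import Pool.Agent.U640.BG.Stm
import Pool.Agent.H776R2.Om.Base

set_option autoImplicit false

/-! Project BG (helper640), package HL (helper88): flipping commutators. -/

namespace Pool.Agent.U640.BG

open Pool.Agent.Results.MP_03d093_al.SphereBall Pool.Agent.H776R2.Grig Pool.Agent.H776R2.Om

namespace HL

/-- the word of one pair -/
def pw (x : V) (p : List Lt × List Lt) : List Lt :=
  p.1 ++ [x.lt] ++ p.1.reverse ++ (p.2 ++ [x.lt] ++ p.2.reverse)

theorem jw_nil (x : V) : jw x [] = [] := rfl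

theorem jw_cons (x : V) (p : List Lt × List Lt) (W : List (List Lt × List Lt)) :
    jw x (p :: W) = pw x p ++ jw x W := by
  simp [jw, pw]

theorem jw_append (x : V) (W W' : List (List Lt × List Lt)) :
    jw x (W ++ W') = jw x W ++ jw x W' := by
  simp [jw]

theorem pw_swap (x : V) (p : List Lt × List Lt) : pw x p.swap = (pw x p).reverse := by
  simp [pw, List.reverse_append, List.append_assoc]

theorem jw_inv (x : V) (W : List (List Lt × List Lt)) :
    jw x (W.reverse.map Prod.swap) = (jw x W).reverse := by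
  induction W with
  | nil => rfl
  | cons p W ih =>
    rw [List.reverse_cons, List.map_append, jw_append, ih, jw_cons, List.reverse_append]
    congr 1
    simp only [List.map_cons, List.map_nil, jw_cons, jw_nil, List.append_nil]
    exact pw_swap x p

theorem pw_len (x y : V) (p : List Lt × List Lt) : (pw x p).length = (pw y p).length := by
  simp [pw]

theorem jset_word {x : V} {η : Om} {g : P} (hg : g ∈ Jset x η) :
    ∃ W : List (List Lt × List Lt), evo η (jw x W) = g := by
  unfold Jset at hg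
  induction hg using Subgroup.closure_induction with
  | mem g hg =>
    obtain ⟨u, hu, v, hv, rfl⟩ := hg
    obtain ⟨wu, rfl⟩ := exists_wordo hu
    obtain ⟨wv, rfl⟩ := exists_wordo hv
    refine ⟨[(wu, wv)], ?_⟩
    rw [jw_cons, jw_nil, List.append_nil]
    simp only [pw, evo_append, evo_reverse, evo_cons, evo_nil, gno_lt, mul_one]
  | one => exact ⟨[], evo_nil η⟩
  | mul g h _ _ ihg ihh =>
    obtain ⟨W, hW⟩ := ihg
    obtain ⟨W', hW'⟩ := ihh
    exact ⟨W ++ W', by rw [jw_append, evo_append, hW, hW']⟩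
  | inv g _ ih =>
    obtain ⟨W, hW⟩ := ih
    exact ⟨W.reverse.map Prod.swap, by rw [jw_inv, evo_reverse, hW]⟩

/-- the first word: `a x a x` flips the first letter below the root -/
theorem lab_W1 (θ : Om) (h : θ 0 ≠ θ 1) :
    Lab 1 (fun _ => true) (evo (sh θ) (jw (kil (θ 0)) [([Lt.A], [])])) := by
  have hev : evo (sh θ) (jw (kil (θ 0)) [([Lt.A], [])]) =
      a * xx (sh θ) (kil (θ 0)) * a * xx (sh θ) (kil (θ 0)) := by
    rw [jw_cons, jw_nil, List.append_nil]
    have gA : gno (sh θ) Lt.A = a := rfl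
    simp only [pw, evo_append, evo_reverse, evo_cons, evo_nil, gno_lt, mul_one, gA, K_a_inv,
      one_mul, inv_one, mul_assoc]
  rw [hev]
  have hk : ¬ kil (θ 0) = kil ((sh θ) 0) := by
    show ¬ kil (θ 0) = kil (θ 1)
    revert h
    generalize θ 0 = i
    generalize θ 1 = j
    revert i j
    decide
  have hs := sec_xx (sh θ) (kil (θ 0))
  rw [if_neg hk] at hs
  have hs2 := hs.conj.mul hs
  have hfix : ∀ (ω : Om) (x : V) (t : Bool), xx ω x [t] = [t] := by
    intro ω x t
    show xFun x ω [t] = [t]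
    cases t
    · simp [xFun, aFun]
    · simp [xFun]
  intro u hu x
  obtain ⟨y, rfl⟩ := List.length_eq_one_iff.mp hu
  show (a * xx (sh θ) (kil (θ 0)) * a * xx (sh θ) (kil (θ 0))) (y :: [x]) = [y, xor x true]
  cases y
  · rw [(hs2 _).1, Equiv.Perm.mul_apply, a_apply]
    simp [aFun, hfix]
  · rw [(hs2 _).2, Equiv.Perm.mul_apply, hfix, a_apply]
    simp [aFun]

/-- the second word, for one sequence -/
theorem exists_W2 (θ : Om) (s : ℕ) (hs : 2 ≤ s) (hθ : θ s ≠ θ (s + 1)) :
    ∃ W : List (List Lt × List Lt),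
      Lab (s + 1) (fun u => u.getD 1 false) (evo (sh θ) (jw (kil (θ 0)) W)) := by
  obtain ⟨g, hg, hl⟩ := base_J s θ hθ (fun v => v.getD 1 false)
  obtain ⟨W, hW⟩ := jset_word hg
  refine ⟨W, ?_⟩
  rw [hW]
  refine lab_congr (fun u hu => ?_) hl
  show (u.take s).getD 1 false = u.getD 1 false
  rw [List.getD_eq_getElem?_getD, List.getD_eq_getElem?_getD, List.getElem?_take_of_lt (by omega)]

/-- the labels depend on finitely many letters only -/
theorem lab_cong {η η' : Om} {n N : ℕ} (h : ∀ i < N, η i = η' i) (hn : n + 1 ≤ N)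
    {p : List Bool → Bool} {w : List Lt} (hl : Lab n p (evo η w)) : Lab n p (evo η' w) := by
  intro u hu x
  rw [← evo_congr N η η' h w (u ++ [x]) (by simp [hu]; omega)]
  exact hl u hu x

end HL

open HL in
theorem t_HL : S_HL := by
  classical
  intro S
  let ext : (Fin (S + 4) → Fin 3) → Om := fun e i => if hi : i < S + 4 then e ⟨i, hi⟩ else 0
  have H : ∀ x : (Fin (S + 4) → Fin 3) × Fin (S + 1), ∃ W : List (List Lt × List Lt),
      2 ≤ (x.2 : ℕ) → ext x.1 x.2 ≠ ext x.1 (x.2 + 1) →
      Lab ((x.2 : ℕ) + 1) (fun u => u.getD 1 false)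
        (evo (sh (ext x.1)) (jw (kil (ext x.1 0)) W)) := by
    intro x
    by_cases h1 : 2 ≤ (x.2 : ℕ)
    · by_cases h2 : ext x.1 x.2 ≠ ext x.1 (x.2 + 1)
      · obtain ⟨W, hW⟩ := exists_W2 (ext x.1) x.2 h1 h2
        exact ⟨W, fun _ _ => hW⟩
      · exact ⟨[], fun _ h => absurd h h2⟩
    · exact ⟨[], fun h => absurd h h1⟩
  choose W hW using H
  refine ⟨max 4 (Finset.univ.sup fun x => size (W x)), ?_⟩
  intro θ s h01 hs2 hsS hθ
  set e : Fin (S + 4) → Fin 3 := fun i => θ i with he
  have hext : ∀ i < S + 4, ext e i = θ i := by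
    intro i hi
    show (if hi : i < S + 4 then e ⟨i, hi⟩ else 0) = θ i
    rw [dif_pos hi]
  set x : (Fin (S + 4) → Fin 3) × Fin (S + 1) := (e, ⟨s, by omega⟩) with hx
  have hne : ext e s ≠ ext e (s + 1) := by
    rw [hext s (by omega), hext (s + 1) (by omega)]
    exact hθ
  have h2 := hW x hs2 hne
  have h3 : Lab (s + 1) (fun u => u.getD 1 false) (evo (sh θ) (jw (kil (θ 0)) (W x))) := by
    have h4 : Lab (s + 1) (fun u => u.getD 1 false)
        (evo (sh (ext e)) (jw (kil (ext e 0)) (W x))) := h2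
    rw [hext 0 (by omega)] at h4
    refine lab_cong (N := S + 3) (fun i hi => ?_) (by omega) h4
    show ext e (i + 1) = θ (i + 1)
    exact hext (i + 1) (by omega)
  refine ⟨[([Lt.A], [])], W x, ?_, ?_, ?_⟩
  · refine le_trans (le_of_eq ?_) (le_max_left _ _)
    rfl
  · exact le_trans (Finset.le_sup (f := fun x => size (W x)) (Finset.mem_univ x)) (le_max_right _ _)
  · have h5 := lab_commo (sh θ) (j := 1) (n := s + 1) (by omega) (q := fun _ => true)
      (μ := fun _ => true) (lab_W1 θ h01) (ws := jw (kil (θ 0)) (W x))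
      (lab_congr (fun u _ => by simp) h3)
    refine lab_congr (fun u _ => by simp) h5

end Pool.Agent.U640.BG
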