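import Pool.Agent.U640.BG.Stm

set_option autoImplicit false

/-! Project BG, package JT (helper95): uniform localized lifts. -/

namespace Pool.Agent.U640.BG

open Pool.Agent.Results.MP_03d093_al.SphereBall Pool.Agent.H776R2.Grig Pool.Agent.H776R2.Om

namespace JTaux

/-- conjugation of all pairs by a word -/
def cw (c : List Lt) (W : List (List Lt × List Lt)) : List (List Lt × List Lt) :=
  W.map fun p => (c ++ p.1, c ++ p.2)

theorem jw_nil (x : V) : jw x [] = [] := rfl

theorem jw_cons (x : V) (p : List Lt × List Lt) (W : List (List Lt × List Lt)) :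
    jw x (p :: W) =
      p.1 ++ [x.lt] ++ p.1.reverse ++ (p.2 ++ [x.lt] ++ p.2.reverse) ++ jw x W := by
  simp [jw]

theorem jw_append (x : V) (W W' : List (List Lt × List Lt)) :
    jw x (W ++ W') = jw x W ++ jw x W' := by
  simp [jw]

theorem evo_jw_cons (η : Om) (x : V) (p : List Lt × List Lt) (W : List (List Lt × List Lt)) :
    evo η (jw x (p :: W)) =
      evo η p.1 * xx η x * (evo η p.1)⁻¹ * (evo η p.2 * xx η x * (evo η p.2)⁻¹) *
        evo η (jw x W) := by
  rw [jw_cons]
  simp only [evo_append, evo_reverse, evo_cons, evo_nil, gno_lt, mul_one]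

theorem evo_cw (η : Om) (x : V) (c : List Lt) (W : List (List Lt × List Lt)) :
    evo η (jw x (cw c W)) = evo η c * evo η (jw x W) * (evo η c)⁻¹ := by
  induction W with
  | nil =>
    have e : cw c [] = [] := rfl
    rw [e, jw_nil, evo_nil]
    group
  | cons p W ih =>
    have e : cw c (p :: W) = (c ++ p.1, c ++ p.2) :: cw c W := rfl
    rw [e, evo_jw_cons, evo_jw_cons, ih]
    simp only [evo_append]
    group

theorem evC_jw (x : V) (W : List (List Lt × List Lt)) : EvC (jw x W) := by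
  intro s
  induction W with
  | nil => simp [jw]
  | cons p W ih =>
    rw [jw_cons]
    simp only [List.count_append, List.count_reverse]
    obtain ⟨k, hk⟩ := ih
    exact ⟨p.1.count s + p.2.count s + [x.lt].count s + k, by omega⟩

/-- the word of `J_X` -/
def Xw (j : Fin 3) : List Lt := [Lt.A, (kil j).lt, Lt.A]

theorem evo_three (η : Om) (x : V) : evo η [Lt.A, x.lt, Lt.A] = a * xx η x * a := by
  rw [evo_cons, evo_cons, evo_cons, evo_nil, gno_lt, mul_one, mul_assoc]
  rfl

theorem evo_A (η : Om) : evo η [Lt.A] = a := by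
  rw [evo_cons, evo_nil, mul_one]
  rfl

theorem evo_x (η : Om) (x : V) : evo η [x.lt] = xx η x := by
  rw [evo_cons, evo_nil, mul_one, gno_lt]

theorem evo_Xw (θ : Om) {j : Fin 3} (h : θ 1 = j) : evo (sh θ) (Xw j) = J_X θ := by
  rw [← h]
  exact evo_three _ _

/-- the lift of a letter -/
theorem claim1 (i j : Fin 3) (s : Lt) : ∃ (l : List Lt) (V0 : List (List Lt × List Lt)),
    ∀ θ : Om, θ 0 = i → θ 1 = j →
      (∃ u' : P, Sec (evo (sh θ) l) (gno (sh (sh θ)) s) u') ∧
      evo (sh θ) l * J_X θ * (evo (sh θ) l)⁻¹ * (J_X θ)⁻¹ = evo (sh θ) (jw (kil i) V0) := by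
  have hx : ∀ x : V, ∃ (l : List Lt) (V0 : List (List Lt × List Lt)),
    ∀ θ : Om, θ 0 = i → θ 1 = j →
      (∃ u' : P, Sec (evo (sh θ) l) (gno (sh (sh θ)) x.lt) u') ∧
      evo (sh θ) l * J_X θ * (evo (sh θ) l)⁻¹ * (J_X θ)⁻¹ = evo (sh θ) (jw (kil i) V0) := by
    intro x
    refine ⟨[Lt.A, x.lt, Lt.A], [], fun θ _ _ =>
      ⟨⟨if x = kil ((sh θ) 0) then 1 else a, ?_⟩, ?_⟩⟩
    · rw [evo_three, gno_lt]
      exact (sec_xx (sh θ) x).conj
    · rw [evo_three, jw_nil, evo_nil]
      have hc : (a * xx (sh θ) x * a) * J_X θ = J_X θ * (a * xx (sh θ) x * a) := by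
        have h1 : (a * xx (sh θ) x * a) * J_X θ =
            a * (xx (sh θ) x * (a * a) * xx (sh θ) (kil (θ 1))) * a := by
          unfold J_X
          simp only [mul_assoc]
        have h2 : J_X θ * (a * xx (sh θ) x * a) =
            a * (xx (sh θ) (kil (θ 1)) * (a * a) * xx (sh θ) x) * a := by
          unfold J_X
          simp only [mul_assoc]
        rw [h1, h2, J_a_sq, mul_one, mul_one, J_xx_comm]
      rw [hc, mul_inv_cancel_right, mul_inv_cancel]
  cases s with
  | A =>
    by_cases h01 : kil i = kil j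
    · obtain ⟨y, hy⟩ : ∃ y : V, y ≠ kil j := by
        cases kil j
        · exact ⟨.c, by decide⟩
        · exact ⟨.b, by decide⟩
        · exact ⟨.b, by decide⟩
      refine ⟨[y.lt], [([y.lt, Lt.A], [Lt.A])], fun θ hi hj => ?_⟩
      have hs := sec_xx (sh θ) y
      have hy' : ¬ y = kil ((sh θ) 0) := by
        show ¬ y = kil (θ 1)
        rw [hj]
        exact hy
      rw [if_neg hy'] at hs
      refine ⟨⟨_, by rw [evo_x]; exact hs⟩, ?_⟩
      rw [evo_jw_cons, jw_nil, evo_nil, mul_one, evo_x, evo_A, evo_cons, evo_A, gno_lt, J_X_inv,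
        mul_inv_rev, J_a_inv]
      unfold J_X
      rw [hj, ← h01]
      simp only [mul_assoc]
    · refine ⟨[(kil i).lt], [([], Xw j)], fun θ hi hj => ?_⟩
      have hs := sec_xx (sh θ) (kil i)
      have hy' : ¬ kil i = kil ((sh θ) 0) := by
        show ¬ kil i = kil (θ 1)
        rw [hj]
        exact h01
      rw [if_neg hy'] at hs
      refine ⟨⟨_, by rw [evo_x]; exact hs⟩, ?_⟩
      rw [evo_jw_cons, jw_nil, evo_nil, mul_one, evo_x, evo_Xw θ hj, J_xx_inv]
      simp only [mul_assoc, one_mul, inv_one]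
  | B => exact hx .b
  | C => exact hx .c
  | D => exact hx .d

/-- the lift of a word -/
theorem claim (i j : Fin 3) (u : List Lt) : ∃ (l : List Lt) (V0 : List (List Lt × List Lt)),
    ∀ θ : Om, θ 0 = i → θ 1 = j →
      (∃ u' : P, Sec (evo (sh θ) l) (evo (sh (sh θ)) u) u') ∧
      evo (sh θ) l * J_X θ * (evo (sh θ) l)⁻¹ * (J_X θ)⁻¹ = evo (sh θ) (jw (kil i) V0) := by
  induction u with
  | nil =>
    refine ⟨[], [], fun θ _ _ => ⟨⟨1, ?_⟩, ?_⟩⟩
    · rw [evo_nil, evo_nil]
      exact Sec.one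
    · rw [evo_nil, jw_nil, evo_nil]
      group
  | cons s u ih =>
    obtain ⟨l, V1, h1⟩ := claim1 i j s
    obtain ⟨m, V2, h2⟩ := ih
    refine ⟨l ++ m, cw l V2 ++ V1, fun θ hi hj => ?_⟩
    obtain ⟨⟨u1, hs1⟩, e1⟩ := h1 θ hi hj
    obtain ⟨⟨u2, hs2⟩, e2⟩ := h2 θ hi hj
    refine ⟨⟨u1 * u2, ?_⟩, ?_⟩
    · rw [evo_append, evo_cons]
      exact hs1.mul hs2
    · rw [jw_append, evo_append, evo_append, evo_cw, ← e1, ← e2]
      group

/-- the lift of a product -/
theorem lift (i j : Fin 3) (W : List (List Lt × List Lt)) : ∃ W' : List (List Lt × List Lt),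
    ∀ θ : Om, θ 0 = i → θ 1 = j →
      Sec (evo (sh θ) (jw (kil i) W')) (evo (sh (sh θ)) (jw (kil j) W)) 1 := by
  induction W with
  | nil =>
    refine ⟨[], fun θ _ _ => ?_⟩
    rw [jw_nil, jw_nil, evo_nil, evo_nil]
    exact Sec.one
  | cons p W ih =>
    obtain ⟨W1, hW⟩ := ih
    obtain ⟨l, V1, hl⟩ := claim i j p.1
    obtain ⟨m, V2, hm⟩ := claim i j p.2
    refine ⟨V1 ++ cw (Xw j) V2 ++ W1, fun θ h0 h1 => ?_⟩
    obtain ⟨⟨u', hs⟩, hj⟩ := hl θ h0 h1
    obtain ⟨⟨v', hs'⟩, hj'⟩ := hm θ h0 h1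
    rw [jw_append, jw_append, evo_append, evo_append, evo_cw, evo_Xw θ h1, ← hj, ← hj',
      evo_jw_cons]
    have hX : Sec (J_X θ) (xx (sh (sh θ)) (kil j)) 1 := by
      rw [← h1]
      exact J_X_sec θ
    have hXX : (J_X θ)⁻¹ * (J_X θ)⁻¹ = 1 := by
      rw [J_X_inv]
      exact J_X_sq θ
    have he : evo (sh θ) l * J_X θ * (evo (sh θ) l)⁻¹ * (J_X θ)⁻¹ *
        (J_X θ * (evo (sh θ) m * J_X θ * (evo (sh θ) m)⁻¹ * (J_X θ)⁻¹) * (J_X θ)⁻¹) =
        (evo (sh θ) l * J_X θ * (evo (sh θ) l)⁻¹) * (evo (sh θ) m * J_X θ * (evo (sh θ) m)⁻¹) *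
          ((J_X θ)⁻¹ * (J_X θ)⁻¹) := by group
    rw [he, hXX, mul_one]
    have hh := (((hs.mul hX).mul (J_sec_inv hs)).mul ((hs'.mul hX).mul (J_sec_inv hs'))).mul
      (hW θ h0 h1)
    have e3 : u' * 1 * u'⁻¹ * (v' * 1 * v'⁻¹) * 1 = 1 := by group
    rw [e3] at hh
    exact hh

/-- the localized lift -/
def Loc (θ θ₀ : Om) (s : ℕ) (t : List Bool) (W W' : List (List Lt × List Lt)) : Prop :=
  (∀ y, evo (sh θ) (jw (kil (θ₀ 0)) W') (t ++ y) =
    t ++ evo (shi (s + 1) θ) (jw (kil (θ₀ s)) W) y) ∧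
  ∀ t' y, t'.length = s → t' ≠ t → evo (sh θ) (jw (kil (θ₀ 0)) W') (t' ++ y) = t' ++ y

theorem loc (s : ℕ) : ∀ (θ₀ : Om) (t : List Bool) (W : List (List Lt × List Lt)), t.length = s →
    ∃ W' : List (List Lt × List Lt), ∀ θ : Om, (∀ n ≤ s, θ n = θ₀ n) → Loc θ θ₀ s t W W' := by
  induction s with
  | zero =>
    intro θ₀ t W ht
    have ht0 : t = [] := List.length_eq_zero_iff.1 ht
    subst ht0
    exact ⟨W, fun θ hθ => ⟨fun y => rfl,
      fun t' y h1 h2 => absurd (List.length_eq_zero_iff.1 h1) h2⟩⟩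
  | succ s ih =>
    intro θ₀ t W ht
    obtain ⟨x, t1, rfl⟩ : ∃ x t1, t = x :: t1 := by
      cases t with
      | nil => simp at ht
      | cons x t1 => exact ⟨x, t1, rfl⟩
    have ht1 : t1.length = s := by simpa using ht
    obtain ⟨W1, h1⟩ := ih (sh θ₀) t1 W ht1
    obtain ⟨W2, h2⟩ := lift (θ₀ 0) (θ₀ 1) W1
    cases x with
    | false =>
      refine ⟨W2, fun θ hθ => ?_⟩
      have hs := h2 θ (hθ 0 (by omega)) (hθ 1 (by omega))
      obtain ⟨g1, g2⟩ := h1 (sh θ) (fun n hn => hθ (n + 1) (by omega))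
      refine ⟨fun y => ?_, fun t' y hl hne => ?_⟩
      · rw [List.cons_append, (hs _).1]
        exact congrArg (List.cons false) (g1 y)
      · cases t' with
        | nil => simp at hl
        | cons z t2 =>
          have hl2 : t2.length = s := by simpa using hl
          cases z
          · rw [List.cons_append, (hs _).1]
            exact congrArg (List.cons false) (g2 t2 y hl2 (by rintro rfl; exact hne rfl))
          · rw [List.cons_append, (hs _).2]
            rfl
    | true =>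
      refine ⟨cw [Lt.A] W2, fun θ hθ => ?_⟩
      have hs := (h2 θ (hθ 0 (by omega)) (hθ 1 (by omega))).conj
      have e : evo (sh θ) (jw (kil (θ₀ 0)) (cw [Lt.A] W2)) =
          a * evo (sh θ) (jw (kil (θ₀ 0)) W2) * a := by
        rw [evo_cw, evo_A, J_a_inv]
      obtain ⟨g1, g2⟩ := h1 (sh θ) (fun n hn => hθ (n + 1) (by omega))
      refine ⟨fun y => ?_, fun t' y hl hne => ?_⟩
      · rw [e, List.cons_append, (hs _).2]
        exact congrArg (List.cons true) (g1 y)
      · rw [e]
        cases t' with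
        | nil => simp at hl
        | cons z t2 =>
          have hl2 : t2.length = s := by simpa using hl
          cases z
          · rw [List.cons_append, (hs _).1]
            rfl
          · rw [List.cons_append, (hs _).2]
            exact congrArg (List.cons true) (g2 t2 y hl2 (by rintro rfl; exact hne rfl))

theorem size_key (W : List (List Lt × List Lt)) :
    W.length ≤ size W ∧ ∀ p ∈ W, p.1.length ≤ size W ∧ p.2.length ≤ size W := by
  induction W with
  | nil => simp
  | cons p W ih =>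
    have e : size (p :: W) = 2 * p.1.length + 2 * p.2.length + 2 + size W := by
      unfold size
      rw [jw_cons]
      simp only [List.length_append, List.length_reverse, List.length_singleton]
      ring
    refine ⟨?_, ?_⟩
    · rw [List.length_cons, e]
      have := ih.1
      omega
    · intro q hq
      rw [e]
      rcases List.mem_cons.1 hq with rfl | hq
      · omega
      · have := ih.2 q hq
        omega

theorem fin_W (L : ℕ) : {W : List (List Lt × List Lt) | size W ≤ L}.Finite := by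
  have hF : {p : List Lt × List Lt | p.1.length ≤ L ∧ p.2.length ≤ L}.Finite := by
    refine ((words_finite L).prod (words_finite L)).subset ?_
    rintro ⟨u, v⟩ ⟨h1, h2⟩
    exact ⟨h1, h2⟩
  have : Finite {p : List Lt × List Lt // p.1.length ≤ L ∧ p.2.length ≤ L} := hF
  refine ((List.finite_length_le {p : List Lt × List Lt // p.1.length ≤ L ∧ p.2.length ≤ L}
    L).image (List.map Subtype.val)).subset ?_
  intro W hW
  have hW' : size W ≤ L := hW
  obtain ⟨k1, k2⟩ := size_key W
  have k3 : ∀ p ∈ W, p.1.length ≤ L ∧ p.2.length ≤ L := fun p hp =>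
    ⟨(k2 p hp).1.trans hW', (k2 p hp).2.trans hW'⟩
  refine ⟨W.pmap Subtype.mk k3, ?_, ?_⟩
  · show (W.pmap Subtype.mk k3).length ≤ L
    rw [List.length_pmap]
    exact k1.trans hW'
  · rw [List.map_pmap]
    simp

end JTaux

open JTaux in
/-- (JT) uniform localized lifts -/
theorem t_JT : S_JT := by
  classical
  intro s L hs
  let ext : (Fin (s + 1) → Fin 3) → Om := fun e i => if hi : i < s + 1 then e ⟨i, hi⟩ else 0
  have H : ∀ x : (Fin (s + 1) → Fin 3) × List Bool × List (List Lt × List Lt),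
      ∃ W' : List (List Lt × List Lt), x.2.1.length = s → ∀ θ : Om,
        (∀ n ≤ s, θ n = ext x.1 n) → Loc θ (ext x.1) s x.2.1 x.2.2 W' := by
    intro x
    by_cases hx : x.2.1.length = s
    · obtain ⟨W', h⟩ := loc s (ext x.1) x.2.1 x.2.2 hx
      exact ⟨W', fun _ => h⟩
    · exact ⟨[], fun h => absurd h hx⟩
  choose F hF using H
  have hfin : (Set.univ ×ˢ ({t : List Bool | t.length = s} ×ˢ
      {W : List (List Lt × List Lt) | size W ≤ L}) :
      Set ((Fin (s + 1) → Fin 3) × List Bool × List (List Lt × List Lt))).Finite :=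
    Set.finite_univ.prod ((List.finite_length_eq Bool s).prod (fin_W L))
  obtain ⟨B, hB⟩ := (hfin.image (fun x => (jw (kil (ext x.1 0)) (F x)).length)).bddAbove
  refine ⟨B, fun η t W ht hW => ?_⟩
  let e : Fin (s + 1) → Fin 3 := fun n => K_pre η n
  have hext : ∀ n ≤ s, K_pre η n = ext e n := by
    intro n hn
    show _ = if hi : n < s + 1 then e ⟨n, hi⟩ else 0
    rw [dif_pos (show n < s + 1 by omega)]
  obtain ⟨g1, g2⟩ := hF (e, t, W) ht (K_pre η) hext
  refine ⟨jw (kil (ext e 0)) (F (e, t, W)), ?_, evC_jw _ _, fun y => ?_, fun t' y h1 h2 => ?_⟩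
  · exact hB ⟨(e, t, W), ⟨Set.mem_univ _, ht, hW⟩, rfl⟩
  · have h3 := g1 y
    rw [K_sh_pre] at h3
    have h4 : ext e s = η (s - 1) := by
      rw [← hext s le_rfl]
      cases s with
      | zero => omega
      | succ s => rfl
    have h5 : shi (s + 1) (K_pre η) = shi s η := by
      funext n
      rfl
    rw [h4, h5] at h3
    exact h3
  · have h3 := g2 t' y h1 h2
    rw [K_sh_pre] at h3
    exact h3

end Pool.Agent.U640.BG
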