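import Pool.Agent.U640.BG.Stm

set_option autoImplicit false

/-! Project BG, package LOC (helper397): the block step inside one group. -/

namespace Pool.Agent.U640.BG

open Pool.Agent.Results.MP_03d093_al.SphereBall Pool.Agent.H776R2.Grig Pool.Agent.H776R2.Om

/-! ### Tree automorphisms -/

theorem LOC_ta_one : TA (1 : P) := ⟨fun _ => rfl, fun _ _ => rfl⟩

theorem LOC_ta_mul {g h : P} (hg : TA g) (hh : TA h) : TA (g * h) :=
  ⟨fun v => by rw [Equiv.Perm.mul_apply, hg.1, hh.1], fun v n => by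
    rw [Equiv.Perm.mul_apply, Equiv.Perm.mul_apply, hg.2, hh.2]⟩

theorem LOC_ai (g : P) (v : List Bool) : g (g⁻¹ v) = v := Equiv.apply_symm_apply g v

theorem LOC_ia (g : P) (v : List Bool) : g⁻¹ (g v) = v := Equiv.symm_apply_apply g v

theorem LOC_ta_inv {g : P} (hg : TA g) : TA g⁻¹ := by
  refine ⟨fun v => ?_, fun v n => ?_⟩
  · have := hg.1 (g⁻¹ v)
    rw [LOC_ai] at this
    exact this.symm
  · rw [Equiv.Perm.eq_inv_iff_eq, ← hg.2, LOC_ai]

theorem LOC_ta_pow {g : P} (hg : TA g) : ∀ m : ℕ, TA (g ^ m)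
  | 0 => by rw [pow_zero]; exact LOC_ta_one
  | m + 1 => by rw [pow_succ]; exact LOC_ta_mul (LOC_ta_pow hg m) hg

theorem LOC_snoc {g : P} (hg : TA g) {n : ℕ} (u : List Bool) (hu : u.length = n) (x : Bool) :
    ∃ x' : Bool, g (u ++ [x]) = g u ++ [x'] := by
  have h1 : (g (u ++ [x])).length = n + 1 := by rw [hg.1]; simp [hu]
  have h2 : (g (u ++ [x])).take n = g u := by
    rw [hg.2, List.take_append_of_le_length (by omega), List.take_of_length_le (by omega)]
  have h3 : ((g (u ++ [x])).drop n).length = 1 := by rw [List.length_drop, h1]; omega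
  obtain ⟨z, hz⟩ := List.length_eq_one_iff.mp h3
  refine ⟨z, ?_⟩
  rw [← h2, ← hz, List.take_append_drop]

theorem LOC_snoc_not {g : P} (hg : TA g) {n : ℕ} (u : List Bool) (hu : u.length = n) {x x' : Bool}
    (h : g (u ++ [x]) = g u ++ [x']) : g (u ++ [!x]) = g u ++ [!x'] := by
  obtain ⟨z, hz⟩ := LOC_snoc hg u hu (!x)
  have hne : z ≠ x' := by
    intro h1
    rw [h1, ← h] at hz
    have h2 := g.injective hz
    have h3 := List.append_cancel_left h2
    cases x <;> simp at h3
  rw [hz]
  cases z <;> cases x' <;> simp_all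

theorem LOC_lab_conj {n : ℕ} {l : List Bool → Bool} {g Z : P} (hg : TA g) (hZ : Lab n l Z) :
    Lab n (fun u => l (g u)) (g⁻¹ * Z * g) := by
  intro u hu x
  obtain ⟨x', hx'⟩ := LOC_snoc hg u hu x
  have hgl : (g u).length = n := by rw [hg.1, hu]
  rw [Equiv.Perm.mul_apply, Equiv.Perm.mul_apply, hx', hZ _ hgl, Equiv.Perm.inv_eq_iff_eq]
  show _ = g (u ++ [xor x (l (g u))])
  cases h : l (g u)
  · simp [hx']
  · have := LOC_snoc_not hg u hu hx'
    simp [this]

theorem LOC_lab_pow {k : ℕ} {g : P} (h : Lab k (fun _ => true) g) (m : ℕ) :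
    Lab k (fun _ => m.bodd) (g ^ m) := by
  induction m with
  | zero => rw [pow_zero]; exact lab_one k
  | succ m ih =>
    rw [pow_succ]
    refine lab_congr (fun u _ => ?_) (lab_mul ih h)
    rw [Nat.bodd_succ]
    cases m.bodd <;> rfl

/-! ### The exponents -/

/-- the exponents `q_i` -/
def LOC_q (Pp : ℕ → Bool) : ℕ → Bool
  | 0 => false
  | 1 => Pp 0
  | l + 2 => xor (Pp (l + 1)) (LOC_q Pp l)

theorem LOC_q_per (Pp : ℕ → Bool) (n : ℕ) (hp : ∀ l, Pp (l + n) = Pp l) (i : ℕ) :
    xor (LOC_q Pp (i + 2 + n)) (LOC_q Pp (i + 2)) = xor (LOC_q Pp (i + n)) (LOC_q Pp i) := by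
  have e1 : LOC_q Pp (i + 2 + n) = xor (Pp (i + n + 1)) (LOC_q Pp (i + n)) := by
    rw [show i + 2 + n = (i + n) + 2 by omega]
    rfl
  have e2 : LOC_q Pp (i + 2) = xor (Pp (i + 1)) (LOC_q Pp i) := rfl
  have e3 : Pp (i + n + 1) = Pp (i + 1) := by
    rw [show i + n + 1 = (i + 1) + n by omega, hp]
  rw [e1, e2, e3]
  cases Pp (i + 1) <;> cases LOC_q Pp (i + n) <;> cases LOC_q Pp i <;> rfl

theorem LOC_q_zero (Pp : ℕ → Bool) (m : ℕ) (hp : ∀ l, Pp (l + (2 * m + 2)) = Pp l) :
    LOC_q Pp (2 * (2 * m + 2) - 1) = false ∧ LOC_q Pp (2 * (2 * m + 2)) = false := by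
  obtain ⟨n, hn⟩ : ∃ n, n = 2 * m + 2 := ⟨_, rfl⟩
  rw [← hn] at hp ⊢
  have h0 : ∀ i, xor (LOC_q Pp (2 * i + n)) (LOC_q Pp (2 * i)) = LOC_q Pp n := by
    intro i
    induction i with
    | zero =>
      have : LOC_q Pp 0 = false := rfl
      simp [this]
    | succ i ih =>
      rw [show 2 * (i + 1) = 2 * i + 2 by ring, LOC_q_per Pp n hp, ih]
  have h1 : ∀ i, xor (LOC_q Pp (2 * i + 1 + n)) (LOC_q Pp (2 * i + 1)) = LOC_q Pp (n - 1) := by
    intro i
    induction i with
    | zero =>
      have e1 : LOC_q Pp (0 + 1 + n) = xor (Pp n) (LOC_q Pp (n - 1)) := by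
        rw [show 0 + 1 + n = (n - 1) + 2 by omega]
        show xor (Pp (n - 1 + 1)) _ = _
        rw [show n - 1 + 1 = n by omega]
      have e2 : LOC_q Pp (0 + 1) = Pp 0 := rfl
      have e3 : Pp n = Pp 0 := by
        have := hp 0
        rwa [Nat.zero_add] at this
      rw [Nat.mul_zero, e1, e2, e3]
      cases Pp 0 <;> cases LOC_q Pp (n - 1) <;> rfl
    | succ i ih =>
      rw [show 2 * (i + 1) + 1 = (2 * i + 1) + 2 by ring, LOC_q_per Pp n hp, ih]
  have h2 := h0 (m + 1)
  have h3 := h1 m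
  rw [show 2 * (m + 1) + n = 2 * n by omega, show 2 * (m + 1) = n by omega] at h2
  rw [show 2 * m + 1 + n = 2 * n - 1 by omega, show 2 * m + 1 = n - 1 by omega] at h3
  constructor
  · cases h : LOC_q Pp (2 * n - 1)
    · rfl
    · rw [h] at h3
      cases h4 : LOC_q Pp (n - 1) <;> rw [h4] at h3 <;> simp at h3
  · cases h : LOC_q Pp (2 * n)
    · rfl
    · rw [h] at h2
      cases h4 : LOC_q Pp n <;> rw [h4] at h2 <;> simp at h2

/-- `g ^ b` -/
def LOC_pw (g : P) (b : Bool) : P := if b then g else 1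

theorem LOC_pw_true (g : P) : LOC_pw g true = g := rfl
theorem LOC_pw_false (g : P) : LOC_pw g false = 1 := rfl

/-- partial exponents -/
def LOC_e (q Pp : ℕ → Bool) (l k : ℕ) : Bool :=
  if k + 1 < l then false else if k < l + 1 then (if l = 0 then false else q (l - 1)) else Pp l

theorem LOC_e1 (q Pp : ℕ → Bool) {l k : ℕ} (h : k + 1 < l) : LOC_e q Pp l k = false := by
  unfold LOC_e
  rw [if_pos h]

theorem LOC_e2 (q Pp : ℕ → Bool) {l k : ℕ} (h : l ≤ k + 1) (h' : k < l + 1) :
    LOC_e q Pp l k = if l = 0 then false else q (l - 1) := by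
  unfold LOC_e
  rw [if_neg (by omega), if_pos h']

theorem LOC_e2' (q Pp : ℕ → Bool) {l k : ℕ} (h : l ≤ k + 1) (h' : k < l + 1) (h0 : l ≠ 0) :
    LOC_e q Pp l k = q (l - 1) := by
  rw [LOC_e2 q Pp h h', if_neg h0]

theorem LOC_e3 (q Pp : ℕ → Bool) {l k : ℕ} (h : l + 1 ≤ k) : LOC_e q Pp l k = Pp l := by
  unfold LOC_e
  rw [if_neg (by omega), if_neg (by omega)]

theorem LOC_e4 (q Pp : ℕ → Bool) {l k : ℕ} (h : k + 2 ≠ l) (h' : k ≠ l) :
    LOC_e q Pp l (k + 1) = LOC_e q Pp l k := by
  rcases lt_or_ge (k + 1) l with h1 | h1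
  · rw [LOC_e1 q Pp h1, LOC_e1 q Pp (by omega)]
  · rcases lt_or_ge k l with h2 | h2
    · rw [LOC_e2 q Pp h1 (by omega), LOC_e2 q Pp (by omega) (by omega)]
    · rw [LOC_e3 q Pp (by omega), LOC_e3 q Pp (by omega)]

theorem LOC_core (n j : ℕ) (hn : 4 ≤ n) (hj : j < n) (Z : ℕ → P) (D : List Bool → Prop)
    (hD : ∀ m w, D w → D (Z m w))
    (hfix : ∀ m, m < 2 * n → m ≠ j → m ≠ j + n → ∀ w, D w → Z m w = w)
    (hinv : ∀ m w, Z m (Z m w) = w) (q Pp : ℕ → Bool) (hq0 : q 0 = false)
    (hq : ∀ l, q (l + 1) = xor (Pp l) (if l = 0 then false else q (l - 1))) :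
    ∀ k, k ≤ 2 * n - 2 → ∀ w, D w →
      ((List.range k).map (fun i => if q (i + 1) then Z (i + 2) * Z i else 1)).prod w =
        LOC_pw (Z j) (LOC_e q Pp j k) (LOC_pw (Z (j + n)) (LOC_e q Pp (j + n) k) w) := by
  intro k
  induction k with
  | zero =>
    intro _ w _
    have h1 : LOC_e q Pp j 0 = false := by
      rcases Nat.lt_or_ge 1 j with h | h
      · exact LOC_e1 q Pp h
      · rw [LOC_e2 q Pp h (by omega)]
        have : j = 0 ∨ j = 1 := by omega
        rcases this with rfl | rfl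
        · rfl
        · exact hq0
    rw [h1, LOC_e1 q Pp (by omega)]
    rfl
  | succ k ih =>
    intro hk w hw
    have hFD : D ((if q (k + 1) then Z (k + 2) * Z k else 1 : P) w) := by
      cases q (k + 1)
      · exact hw
      · exact hD _ _ (hD _ _ hw)
    rw [List.range_succ, List.map_append, List.prod_append, Equiv.Perm.mul_apply]
    simp only [List.map_cons, List.map_nil, List.prod_cons, List.prod_nil, mul_one]
    rw [ih (by omega) _ hFD]
    by_cases c1 : k + 2 = j
    · have hZk : Z k w = w := hfix k (by omega) (by omega) (by omega) w hw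
      rw [LOC_e1 q Pp (l := j) (by omega), LOC_e1 q Pp (l := j + n) (by omega),
        LOC_e1 q Pp (l := j + n) (by omega), LOC_e2' q Pp (l := j) (by omega) (by omega) (by omega),
        show j - 1 = k + 1 by omega]
      simp only [LOC_pw_false, Equiv.Perm.one_apply]
      cases q (k + 1)
      · rfl
      · show Z (k + 2) (Z k w) = Z j w
        rw [hZk, c1]
    by_cases c2 : k = j
    · have hZk : ∀ w, D w → Z (k + 2) w = w := hfix (k + 2) (by omega) (by omega) (by omega)
      have hqq := hq k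
      rw [LOC_e2 q Pp (l := j) (by omega) (by omega), LOC_e3 q Pp (l := j) (by omega),
        LOC_e1 q Pp (l := j + n) (by omega), LOC_e1 q Pp (l := j + n) (by omega), ← c2]
      simp only [LOC_pw_false, Equiv.Perm.one_apply]
      have h2 := hinv k w
      have h3 := hZk _ (hD k w hw)
      cases h4 : Pp k <;> cases h5 : (if k = 0 then false else q (k - 1)) <;>
        rw [h4, h5] at hqq <;> rw [hqq]
      · rfl
      · show Z k (Z (k + 2) (Z k w)) = w
        rw [h3, h2]
      · show Z (k + 2) (Z k w) = Z k w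
        rw [h3]
      · rfl
    by_cases c3 : k + 2 = j + n
    · have hZk : Z k w = w := hfix k (by omega) (by omega) (by omega) w hw
      rw [LOC_e3 q Pp (l := j) (by omega), LOC_e3 q Pp (l := j) (by omega),
        LOC_e1 q Pp (l := j + n) (by omega), LOC_e2' q Pp (l := j + n) (by omega) (by omega) (by omega),
        show j + n - 1 = k + 1 by omega]
      simp only [LOC_pw_false, Equiv.Perm.one_apply]
      congr 1
      cases q (k + 1)
      · rfl
      · show Z (k + 2) (Z k w) = Z (j + n) w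
        rw [hZk, c3]
    by_cases c4 : k = j + n
    · have hZk : ∀ w, D w → Z (k + 2) w = w := hfix (k + 2) (by omega) (by omega) (by omega)
      have hqq := hq k
      rw [LOC_e3 q Pp (l := j) (by omega), LOC_e3 q Pp (l := j) (by omega),
        LOC_e2 q Pp (l := j + n) (by omega) (by omega), LOC_e3 q Pp (l := j + n) (by omega), ← c4]
      congr 1
      have h2 := hinv k w
      have h3 := hZk _ (hD k w hw)
      cases h4 : Pp k <;> cases h5 : (if k = 0 then false else q (k - 1)) <;>
        rw [h4, h5] at hqq <;> rw [hqq]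
      · rfl
      · show Z k (Z (k + 2) (Z k w)) = w
        rw [h3, h2]
      · show Z (k + 2) (Z k w) = Z k w
        rw [h3]
      · rfl
    · have h1 : Z k w = w := hfix k (by omega) c2 c4 w hw
      have h2 : Z (k + 2) w = w := hfix (k + 2) (by omega) c1 c3 w hw
      rw [LOC_e4 q Pp c1 c2, LOC_e4 q Pp c3 c4]
      congr 2
      cases q (k + 1)
      · rfl
      · show Z (k + 2) (Z k w) = w
        rw [h1, h2]

/-! ### The abstract situation -/

theorem LOC_short {g : P} (hg : TA g) {N : ℕ} {l : List Bool → Bool} (h : Lab N l g) (w : List Bool)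
    (hw : w.length ≤ N) : g w = w := by
  have h1 := A_fix hg h (w ++ List.replicate (N - w.length) false) (by simp; omega)
  have h2 := hg.2 (w ++ List.replicate (N - w.length) false) w.length
  rw [h1, List.take_append_of_le_length le_rfl, List.take_of_length_le le_rfl] at h2
  exact h2.symm

theorem LOC_ne {g : P} (hg : TA g) {N : ℕ} (h : Lab N (fun _ => true) g) (u : List Bool)
    (hu : N < u.length) : g u ≠ u := by
  intro h1
  have h2 := hg.2 u (N + 1)
  rw [h1] at h2
  have h3 : u.take (N + 1) = u.take N ++ [u[N]'hu] := by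
    rw [List.take_add_one, List.getElem?_eq_getElem hu]
    rfl
  rw [h3, h _ (by rw [List.length_take]; omega)] at h2
  have h4 := List.append_cancel_left h2
  cases h5 : u[N]'hu <;> rw [h5] at h4 <;> simp at h4

structure LOC_H (T Z : P) (R : ℕ) : Prop where
  tT : TA T
  tZ : TA Z
  zz : ∀ w, Z (Z w) = w
  zf : ∀ k, k ≤ R → ∀ w : List Bool, w.take k ≠ List.replicate k true → Z w = w
  zl : Lab (R + 1) (fun u => decide (u = List.replicate R true ++ [false])) Z
  tl : ∀ k, k < R → Lab (k + 1) (fun _ => true) (T ^ (2 ^ k))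

/-- the conjugates of `Z` -/
noncomputable def LOC_Z (T Z : P) (m : ℕ) : P := (T ^ m)⁻¹ * Z * T ^ m

theorem LOC_Z_apply (T Z : P) (m : ℕ) (w : List Bool) :
    LOC_Z T Z m w = (T ^ m)⁻¹ (Z ((T ^ m) w)) := rfl

theorem LOC_prl_eq (T Z : P) (q : ℕ → Bool) (I : ℕ) :
    prl T (T⁻¹ * Z * T * (T * Z * T⁻¹)) q I =
      ((List.range I).map (fun i => if q (i + 1) then LOC_Z T Z (i + 2) * LOC_Z T Z i else 1)).prod := by
  unfold prl
  congr 1
  refine List.map_congr_left fun i _ => ?_
  unfold LOC_Z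
  cases q (i + 1)
  · simp
  · simp only [if_true]
    rw [inv_pow]
    have e1 : (T ^ (i + 2)) = T * T ^ (i + 1) := by rw [← pow_succ']
    have e3 : (T ^ i) = T⁻¹ * T ^ (i + 1) := by rw [pow_succ', inv_mul_cancel_left]
    have key : ∀ u : P, u⁻¹ * (T⁻¹ * Z * T * (T * Z * T⁻¹)) * u =
        (T * u)⁻¹ * Z * (T * u) * ((T⁻¹ * u)⁻¹ * Z * (T⁻¹ * u)) := by
      intro u
      simp only [mul_inv_rev, inv_inv, mul_assoc, mul_inv_cancel_left]
    rw [key, e1, ← e3]

variable {T Z : P} {R : ℕ}

theorem LOC_Z_ta (H : LOC_H T Z R) (m : ℕ) : TA (LOC_Z T Z m) :=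
  LOC_ta_mul (LOC_ta_mul (LOC_ta_inv (LOC_ta_pow H.tT m)) H.tZ) (LOC_ta_pow H.tT m)

theorem LOC_Z_lab (H : LOC_H T Z R) (m : ℕ) : Lab (R + 1)
    (fun u => decide ((T ^ m) u = List.replicate R true ++ [false])) (LOC_Z T Z m) :=
  LOC_lab_conj (LOC_ta_pow H.tT m) H.zl

theorem LOC_Z_inv (H : LOC_H T Z R) (m : ℕ) (w : List Bool) :
    LOC_Z T Z m (LOC_Z T Z m w) = w := by
  rw [LOC_Z_apply, LOC_Z_apply, LOC_ai, H.zz, LOC_ia]

theorem LOC_Z_fix (H : LOC_H T Z R) {k : ℕ} (hk : k ≤ R) (m : ℕ) (w : List Bool)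
    (h : (T ^ m) (w.take k) ≠ List.replicate k true) : LOC_Z T Z m w = w := by
  rw [LOC_Z_apply, H.zf k hk, LOC_ia]
  rw [(LOC_ta_pow H.tT m).2]
  exact h

theorem LOC_free (H : LOC_H T Z R) {m i : ℕ} (hm : m < R) (u : List Bool) (hu : u.length = m + 1)
    (h : (T ^ i) u = u) : 2 ^ m ∣ i := by
  by_contra hnd
  have hi : i ≠ 0 := by
    rintro rfl
    exact hnd (dvd_zero _)
  obtain ⟨k, r, hr, hir⟩ := Nat.exists_eq_two_pow_mul_odd hi
  have hkm : k < m := by
    by_contra hkm
    exact hnd (hir ▸ (pow_dvd_pow 2 (by omega)).mul_right _)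
  have h1 := LOC_lab_pow (H.tl k (by omega)) r
  rw [← pow_mul, ← hir] at h1
  have h2 : Lab (k + 1) (fun _ => true) (T ^ i) := by
    refine lab_congr (fun u _ => ?_) h1
    show r.bodd = true
    have h5 := Nat.mod_two_of_bodd r
    rw [Nat.odd_iff.1 hr] at h5
    cases h6 : r.bodd
    · rw [h6] at h5
      simp at h5
    · rfl
  exact LOC_ne (LOC_ta_pow H.tT i) h2 u (by omega) h

theorem LOC_orbit (H : LOC_H T Z R) (m : ℕ) : m < R → ∀ v : List Bool, v.length = m + 1 →
    v.take 1 = [true] → ∃ j, j < 2 ^ m ∧ (T ^ j) v = List.replicate (m + 1) true := by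
  induction m with
  | zero =>
    intro _ v hv hv1
    refine ⟨0, by norm_num, ?_⟩
    rw [List.take_of_length_le (by omega)] at hv1
    rw [hv1]
    rfl
  | succ m ih =>
    intro hm v hv hv1
    obtain ⟨j, hj, hjv⟩ := ih (by omega) (v.take (m + 1)) (by rw [List.length_take]; omega)
      (by rw [List.take_take, Nat.min_eq_left (by omega), hv1])
    obtain ⟨t, ht⟩ : ∃ t, v = v.take (m + 1) ++ [t] := by
      have h3 : (v.drop (m + 1)).length = 1 := by rw [List.length_drop, hv]; omega
      obtain ⟨z, hz⟩ := List.length_eq_one_iff.mp h3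
      exact ⟨z, by rw [← hz, List.take_append_drop]⟩
    obtain ⟨t', ht'⟩ := LOC_snoc (LOC_ta_pow H.tT j) (v.take (m + 1)) rfl t
    rw [← ht, hjv] at ht'
    cases t'
    · refine ⟨2 ^ m + j, by rw [pow_succ]; omega, ?_⟩
      rw [pow_add, Equiv.Perm.mul_apply, ht', H.tl m (by omega) _ (by simp)]
      rw [List.replicate_succ' (n := m + 1)]
      rfl
    · refine ⟨j, by rw [pow_succ]; omega, ?_⟩
      rw [ht', ← List.replicate_succ']

/-- the product -/
noncomputable def LOC_A (T Z : P) (R' : ℕ) (p : List Bool → Bool) : P :=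
  ((List.range (2 ^ R' - 2)).map (fun i =>
    if LOC_q (fun l => p ((T ^ l)⁻¹ (List.replicate R' true))) (i + 1) then
      LOC_Z T Z (i + 2) * LOC_Z T Z i else 1)).prod

theorem LOC_side (H : LOC_H T Z R) (R' n : ℕ) (h3 : 3 ≤ R') (hR : R' ≤ R) (hn : n = 2 ^ (R' - 1))
    (p : List Bool → Bool) (v : List Bool) (hv : v.length = R') (hv1 : v.take 1 = [true]) :
    ∃ j, (T ^ j) v = List.replicate R' true ∧ ∀ u, LOC_A T Z R' p (v ++ u) =
      LOC_pw (LOC_Z T Z j) (p v) (LOC_pw (LOC_Z T Z (j + n)) (p v) (v ++ u)) := by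
  obtain ⟨r, rfl⟩ : ∃ r, R' = r + 3 := ⟨R' - 3, by omega⟩
  have hn' : n = 2 ^ (r + 2) := by rw [hn]; rfl
  have hn4 : n = 4 * 2 ^ r := by rw [hn', pow_add]; ring
  have h2r : 1 ≤ 2 ^ r := Nat.one_le_two_pow
  have h2n : 2 ^ (r + 3) - 2 = 2 * n - 2 := by
    rw [hn', show r + 3 = (r + 2) + 1 by omega, pow_succ]
    omega
  obtain ⟨j, hj, hjv⟩ := LOC_orbit H (r + 2) (by omega) v (by omega) hv1
  rw [← hn'] at hj
  have hjv' : (T ^ j) v = List.replicate (r + 3) true := hjv
  obtain ⟨Pp, hPp⟩ : ∃ Pp : ℕ → Bool, Pp = fun l => p ((T ^ l)⁻¹ (List.replicate (r + 3) true)) :=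
    ⟨_, rfl⟩
  have hTn : Lab (r + 3) (fun _ => true) (T ^ n) := by
    rw [hn']
    exact H.tl (r + 2) (by omega)
  have hTnf : ∀ x : List Bool, x.length = r + 3 → (T ^ n) x = x := fun x hx =>
    A_fix (LOC_ta_pow H.tT n) hTn x hx
  have hper : ∀ l, Pp (l + n) = Pp l := by
    intro l
    rw [hPp]
    show p _ = p _
    congr 1
    rw [Equiv.Perm.inv_eq_iff_eq, pow_add, Equiv.Perm.mul_apply, hTnf, LOC_ai]
    rw [(LOC_ta_inv (LOC_ta_pow H.tT l)).1]
    simp
  have hPj : Pp j = p v := by
    rw [hPp]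
    show p _ = p _
    congr 1
    rw [Equiv.Perm.inv_eq_iff_eq, hjv']
  have hPjn : Pp (j + n) = p v := by rw [hper, hPj]
  have hq : ∀ l, LOC_q Pp (l + 1) = xor (Pp l) (if l = 0 then false else LOC_q Pp (l - 1)) := by
    intro l
    cases l with
    | zero =>
      show Pp 0 = _
      simp
    | succ l =>
      show xor (Pp (l + 1)) (LOC_q Pp l) = _
      simp
  obtain ⟨hz1, hz2⟩ := LOC_q_zero Pp (2 * 2 ^ r - 1) (by
    rw [show 2 * (2 * 2 ^ r - 1) + 2 = n by omega]
    exact hper)
  rw [show 2 * (2 * 2 ^ r - 1) + 2 = n by omega] at hz1 hz2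
  refine ⟨j, hjv', fun u => ?_⟩
  unfold LOC_A
  rw [h2n, ← hPp]
  rw [LOC_core n j (by omega) hj (LOC_Z T Z) (fun w => w.take (r + 3) = v) ?_ ?_
    (LOC_Z_inv H) (LOC_q Pp) Pp rfl hq (2 * n - 2) le_rfl (v ++ u) ?_]
  · rw [LOC_e3 _ _ (l := j) (by omega), hPj]
    have : LOC_e (LOC_q Pp) Pp (j + n) (2 * n - 2) = p v := by
      rcases le_or_gt (j + n + 1) (2 * n - 2) with h | h
      · rw [LOC_e3 _ _ h, hPjn]
      · rw [LOC_e2' _ _ (by omega) (by omega) (by omega), ← hPjn]
        have h1 := hq (j + n)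
        rw [if_neg (by omega)] at h1
        have h2 : LOC_q Pp (j + n + 1) = false := by
          have : j + n + 1 = 2 * n - 1 ∨ j + n + 1 = 2 * n := by omega
          rcases this with h | h
          · rw [h, hz1]
          · rw [h, hz2]
        rw [h2] at h1
        cases h4 : Pp (j + n) <;> cases h5 : LOC_q Pp (j + n - 1) <;> rw [h4, h5] at h1 <;>
          simp at h1 ⊢
    rw [this]
  · intro m w hw
    show (LOC_Z T Z m w).take (r + 3) = v
    rw [(LOC_Z_ta H m).2, LOC_short (LOC_Z_ta H m) (LOC_Z_lab H m), hw]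
    rw [List.length_take]
    omega
  · intro m hm hm1 hm2 w hw
    refine LOC_Z_fix H (k := r + 3) (by omega) m w ?_
    have hw' : w.take (r + 3) = v := hw
    rw [hw']
    intro h
    rcases lt_trichotomy m j with h1 | h1 | h1
    · have h2 : (T ^ (j - m)) (List.replicate (r + 3) true) = List.replicate (r + 3) true := by
        conv_lhs => rw [← h]
        rw [← Equiv.Perm.mul_apply, ← pow_add, show j - m + m = j by omega, hjv']
      have h4 := LOC_free H (m := r + 2) (by omega) _ (by simp) h2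
      rw [← hn'] at h4
      exact absurd (Nat.le_of_dvd (by omega) h4) (by omega)
    · exact hm1 h1
    · have h2 : (T ^ (m - j)) (List.replicate (r + 3) true) = List.replicate (r + 3) true := by
        conv_lhs => rw [← hjv']
        rw [← Equiv.Perm.mul_apply, ← pow_add, show m - j + j = m by omega, h]
      have h4 := LOC_free H (m := r + 2) (by omega) _ (by simp) h2
      rw [← hn'] at h4
      obtain ⟨c, hc⟩ := h4
      have h5 : c = 1 := by
        rcases Nat.lt_or_ge c 2 with h6 | h6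
        · rcases Nat.eq_zero_or_pos c with h7 | h7
          · rw [h7] at hc; omega
          · omega
        · have : n * 2 ≤ n * c := Nat.mul_le_mul_left _ h6
          omega
      rw [h5] at hc
      omega
  · show (v ++ u).take (r + 3) = v
    rw [List.take_append_of_le_length (by omega), List.take_of_length_le (by omega)]

theorem LOC_prod_fix (l : List P) (w : List Bool) (h : ∀ g ∈ l, g w = w) : l.prod w = w := by
  induction l with
  | nil => rfl
  | cons g l ih =>
    rw [List.prod_cons, Equiv.Perm.mul_apply, ih (fun g hg => h g (List.mem_cons_of_mem _ hg)),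
      h g (by simp)]

theorem LOC_prod_ta (l : List P) (h : ∀ g ∈ l, TA g) : TA l.prod := by
  induction l with
  | nil => exact LOC_ta_one
  | cons g l ih =>
    rw [List.prod_cons]
    exact LOC_ta_mul (h g (by simp)) (ih (fun g hg => h g (List.mem_cons_of_mem _ hg)))

theorem LOC_T1 (H : LOC_H T Z R) (hR : 3 ≤ R) (m : ℕ) (w : List Bool) (hw : w.length ≤ 1) :
    (T ^ m) w = w := by
  have h1 := H.tl 0 (by omega)
  rw [pow_zero, pow_one] at h1
  induction m with
  | zero => rfl
  | succ m ih =>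
    rw [pow_succ, Equiv.Perm.mul_apply, LOC_short H.tT h1 w (by omega), ih]

theorem LOC_A_fix (H : LOC_H T Z R) (hR : 3 ≤ R) (R' : ℕ) (p : List Bool → Bool) (w : List Bool)
    (hw : w.take 1 ≠ [true]) : LOC_A T Z R' p w = w := by
  have hZ : ∀ m, LOC_Z T Z m w = w := fun m => by
    refine LOC_Z_fix H (k := 1) (by omega) m w ?_
    rw [LOC_T1 H hR m _ (by rw [List.length_take]; omega)]
    exact hw
  refine LOC_prod_fix _ _ ?_
  intro g hg
  obtain ⟨i, -, rfl⟩ := List.mem_map.1 hg
  split_ifs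
  · rw [Equiv.Perm.mul_apply, hZ, hZ]
  · rfl

theorem LOC_A_take (H : LOC_H T Z R) (R' : ℕ) (p : List Bool → Bool) (w : List Bool) :
    (LOC_A T Z R' p w).take 1 = w.take 1 := by
  have hTA : TA (LOC_A T Z R' p) := by
    refine LOC_prod_ta _ ?_
    intro g hg
    obtain ⟨i, -, rfl⟩ := List.mem_map.1 hg
    split_ifs
    · exact LOC_ta_mul (LOC_Z_ta H _) (LOC_Z_ta H _)
    · exact LOC_ta_one
  rw [hTA.2]
  refine LOC_prod_fix _ _ ?_
  intro g hg
  obtain ⟨i, -, rfl⟩ := List.mem_map.1 hg
  have hZ : ∀ m, LOC_Z T Z m (w.take 1) = w.take 1 := fun m =>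
    LOC_short (LOC_Z_ta H m) (LOC_Z_lab H m) _ (by rw [List.length_take]; omega)
  split_ifs
  · rw [Equiv.Perm.mul_apply, hZ, hZ]
  · rfl

theorem LOC_side' (H : LOC_H T Z R) (R' : ℕ) (h3 : 3 ≤ R') (hR : R' ≤ R)
    (p : List Bool → Bool) (v : List Bool) (hv : v.length = R') (hv1 : v.take 1 = [true]) :
    (p v = false → ∀ u, LOC_A T Z R' p (v ++ u) = v ++ u) ∧
    (p v = true → ∃ u, LOC_A T Z R' p (v ++ u) ≠ v ++ u) ∧
    (R' = R → p v = true → ∀ t x : Bool, LOC_A T Z R' p (v ++ ([t] ++ [x])) = v ++ ([t] ++ [!x])) := by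
  obtain ⟨n, hn⟩ : ∃ n, n = 2 ^ (R' - 1) := ⟨_, rfl⟩
  obtain ⟨j, hj, hA⟩ := LOC_side H R' n h3 hR hn p v hv hv1
  have hTn : Lab R' (fun _ => true) (T ^ n) := by
    have := H.tl (R' - 1) (by omega)
    rw [show R' - 1 + 1 = R' by omega, ← hn] at this
    exact this
  have hnj : ∀ w, (T ^ (j + n)) w = (T ^ n) ((T ^ j) w) := by
    intro w
    rw [add_comm, pow_add, Equiv.Perm.mul_apply]
  refine ⟨fun hp u => ?_, fun hp => ?_, fun hRR hp t x => ?_⟩
  · rw [hA, hp]
    rfl
  · obtain ⟨u0, hu0⟩ : ∃ u0, u0 = (T ^ j)⁻¹ (List.replicate R true ++ [false]) := ⟨_, rfl⟩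
    have hTu : (T ^ j) u0 = List.replicate R true ++ [false] := by rw [hu0, LOC_ai]
    have hul : u0.length = R + 1 := by
      rw [hu0, (LOC_ta_inv (LOC_ta_pow H.tT j)).1]
      simp
    have hut : u0.take R' = v := by
      rw [hu0, (LOC_ta_inv (LOC_ta_pow H.tT j)).2, Equiv.Perm.inv_eq_iff_eq, hj,
        List.take_append_of_le_length (by simpa using hR), List.take_replicate]
      congr 1
      omega
    have hu0v : u0 ++ [true] = v ++ (u0.drop R' ++ [true]) := by
      rw [← List.append_assoc]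
      congr 1
      rw [← hut, List.take_append_drop]
    refine ⟨u0.drop R' ++ [true], ?_⟩
    rw [hA, hp, LOC_pw_true, LOC_pw_true, ← hu0v, LOC_Z_lab H (j + n) u0 hul true]
    have e1 : decide ((T ^ (j + n)) u0 = List.replicate R true ++ [false]) = false := by
      rw [decide_eq_false_iff_not, hnj, hTu]
      exact LOC_ne (LOC_ta_pow H.tT n) hTn _ (by simp; omega)
    beta_reduce
    rw [e1, LOC_Z_lab H j u0 hul]
    have e2 : decide ((T ^ j) u0 = List.replicate R true ++ [false]) = true := by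
      rw [decide_eq_true_iff, hTu]
    beta_reduce
    rw [e2]
    intro h
    have h4 := List.append_cancel_left h
    simp at h4
  · subst hRR
    obtain ⟨t', ht'⟩ := LOC_snoc (LOC_ta_pow H.tT j) v hv t
    rw [hj] at ht'
    have hl : (v ++ [t]).length = R' + 1 := by simp [hv]
    rw [hA, hp, LOC_pw_true, LOC_pw_true, ← List.append_assoc, ← List.append_assoc,
      LOC_Z_lab H (j + n) _ hl x]
    have e1 : decide ((T ^ (j + n)) (v ++ [t]) = List.replicate R' true ++ [false]) = t' := by
      rw [hnj, ht', hTn _ (by simp) t']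
      cases t' <;> simp
    beta_reduce
    rw [e1, LOC_Z_lab H j _ hl]
    have e2 : decide ((T ^ j) (v ++ [t]) = List.replicate R' true ++ [false]) = !t' := by
      rw [ht']
      cases t' <;> simp
    beta_reduce
    rw [e2]
    congr 1
    cases x <;> cases t' <;> rfl

/-! ### The concrete situation -/

theorem LOC_kil_inj {i j : Fin 3} (h : kil i = kil j) : i = j := by
  revert h
  fin_cases i <;> fin_cases j <;> simp [kil]

theorem LOC_ta_xx (ω : Om) (x : V) : TA (xx ω x) :=
  ⟨fun v => A_x_len x v ω, fun v n => A_x_take x v ω n⟩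

theorem LOC_xx_one (ω : Om) (x : V) (t : Bool) : xx ω x [t] = [t] := by
  rw [xx_apply]
  cases t
  · simp only [xFun]
    split_ifs <;> rfl
  · rfl

theorem LOC_secZ {η : Om} {R : ℕ} (hη : ∀ n < R, η n = η 0) {m : ℕ} (hm : m < R) :
    Sec (xx (shi m η) (kil (η 0))) 1 (xx (shi (m + 1) η) (kil (η 0))) := by
  have h := sec_xx (shi m η) (kil (η 0))
  have h0 : (shi m η) 0 = η 0 := by
    show η (0 + m) = η 0
    rw [Nat.zero_add, hη m hm]
  rw [if_pos (by rw [h0]), sh_shi] at h
  exact h

theorem LOC_secZR {η : Om} {R : ℕ} (hR : η R ≠ η 0) :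
    Sec (xx (shi R η) (kil (η 0))) a (xx (shi (R + 1) η) (kil (η 0))) := by
  have h := sec_xx (shi R η) (kil (η 0))
  have h0 : (shi R η) 0 = η R := by
    show η (0 + R) = η R
    rw [Nat.zero_add]
  rw [if_neg (by rw [h0]; exact fun h => hR (LOC_kil_inj h).symm), sh_shi] at h
  exact h

theorem LOC_secY {η : Om} {R : ℕ} {y : V} (hη : ∀ n < R, η n = η 0) (hy : y ≠ kil (η 0)) {m : ℕ}
    (hm : m < R) : Sec (xx (shi m η) y) a (xx (shi (m + 1) η) y) := by
  have h := sec_xx (shi m η) y
  have h0 : (shi m η) 0 = η 0 := by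
    show η (0 + m) = η 0
    rw [Nat.zero_add, hη m hm]
  rw [if_neg (by rw [h0]; exact hy), sh_shi] at h
  exact h

theorem LOC_zf {η : Om} {R : ℕ} (hη : ∀ n < R, η n = η 0) (k : ℕ) : ∀ m, m + k ≤ R →
    ∀ w : List Bool, w.take k ≠ List.replicate k true → xx (shi m η) (kil (η 0)) w = w := by
  induction k with
  | zero => intro m _ w hw; simp at hw
  | succ k ih =>
    intro m hm w hw
    cases w with
    | nil => rfl
    | cons t w =>
      have hs := LOC_secZ hη (m := m) (by omega) w
      cases t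
      · rw [hs.1]
        rfl
      · rw [hs.2, ih (m + 1) (by omega) w]
        intro h
        apply hw
        rw [List.take_succ_cons, h]
        rfl

theorem LOC_zl {η : Om} {R : ℕ} (hη : ∀ n < R, η n = η 0) (hR : η R ≠ η 0) (k : ℕ) : ∀ m, m + k = R →
    Lab (k + 1) (fun u => decide (u = List.replicate k true ++ [false]))
      (xx (shi m η) (kil (η 0))) := by
  induction k with
  | zero =>
    intro m hm u hu x
    have hmR : m = R := by omega
    subst hmR
    obtain ⟨t, rfl⟩ := List.length_eq_one_iff.mp hu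
    have hs := LOC_secZR hR [x]
    cases t
    · show _ = [false] ++ [xor x (decide ([false] = [] ++ [false]))]
      rw [List.singleton_append, hs.1, a_apply]
      cases x <;> rfl
    · show _ = [true] ++ [xor x (decide ([true] = [] ++ [false]))]
      rw [List.singleton_append, hs.2, LOC_xx_one]
      cases x <;> rfl
  | succ k ih =>
    intro m hm
    refine lab_congr ?_ (lab_sec (LOC_secZ hη (m := m) (by omega)) (lab_one (k + 1))
      (ih (m + 1) (by omega)))
    intro u hu
    cases u with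
    | nil => simp at hu
    | cons t u =>
      cases t
      · simp [List.replicate_succ]
      · simp [List.replicate_succ]

theorem LOC_labS {η : Om} {R : ℕ} {y : V} (hη : ∀ n < R, η n = η 0) (hy : y ≠ kil (η 0)) (k : ℕ) :
    ∀ m, m + k ≤ R → Lab k (fun _ => true) ((xx (shi m η) y * a) ^ (2 ^ k)) := by
  induction k with
  | zero =>
    intro m _ u hu x
    have hu' : u = [] := List.length_eq_zero_iff.1 hu
    subst hu'
    rw [pow_zero, pow_one, List.nil_append, Equiv.Perm.mul_apply, a_apply]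
    show xx (shi m η) y [!x] = _
    rw [LOC_xx_one]
    cases x <;> rfl
  | succ k ih =>
    intro m hm
    obtain ⟨s, hs⟩ : ∃ s : P, s = xx (shi (m + 1) η) y * a := ⟨_, rfl⟩
    have hY := LOC_secY hη hy (m := m) (by omega)
    have h1 : Sec ((xx (shi m η) y * a) ^ 2) (a * s * a) s := by
      have h2 := hY.mul hY.conj
      have e1 : (xx (shi m η) y * a) ^ 2 = xx (shi m η) y * (a * xx (shi m η) y * a) := by
        rw [pow_two]
        simp only [mul_assoc]
      have e2 : a * s * a = a * xx (shi (m + 1) η) y := by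
        rw [hs]
        simp only [mul_assoc]
        rw [J_a_sq, mul_one]
      rw [e1, e2, hs]
      exact h2
    have h2 : ∀ N : ℕ, Sec (((xx (shi m η) y * a) ^ 2) ^ N) (a * s ^ N * a) (s ^ N) := by
      intro N
      induction N with
      | zero =>
        rw [pow_zero, pow_zero, mul_one, J_a_sq]
        exact Sec.one
      | succ N ihN =>
        have h3 := ihN.mul h1
        have e1 : a * s ^ N * a * (a * s * a) = a * s ^ (N + 1) * a := by
          calc a * s ^ N * a * (a * s * a) = a * s ^ N * (a * a) * s * a := by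
                simp only [mul_assoc]
            _ = a * s ^ (N + 1) * a := by
                rw [J_a_sq, mul_one, pow_succ]
                simp only [mul_assoc]
        rw [e1, ← pow_succ, ← pow_succ] at h3
        exact h3
    have h3 := h2 (2 ^ k)
    rw [← pow_mul, ← pow_succ'] at h3
    have h4 := ih (m + 1) (by omega)
    rw [← hs] at h4
    have h5 : Lab k (fun _ => true) (a * s ^ (2 ^ k) * a) := by
      rcases Nat.eq_zero_or_pos k with hk | hk
      · subst hk
        intro u hu x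
        have hu' : u = [] := List.length_eq_zero_iff.1 hu
        subst hu'
        have h6 := h4 [] rfl (!x)
        rw [List.nil_append] at h6 ⊢
        rw [Equiv.Perm.mul_apply, Equiv.Perm.mul_apply, a_apply]
        show a ((s ^ 2 ^ 0) [!x]) = _
        rw [h6, a_apply]
        cases x <;> rfl
      · exact lab_conj_a hk h4
    refine lab_congr ?_ (lab_sec h3 h5 h4)
    intro u _
    simp

theorem LOC_Teq (η : Om) (y : V) : evo η (Tw y) = (xx η y * a) ^ 2 := by
  unfold Tw
  rw [evo_cons, evo_cons, evo_cons, evo_cons, evo_nil, mul_one, gno_lt]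
  show xx η y * (a * (xx η y * a)) = _
  rw [pow_two]
  simp only [mul_assoc]

theorem LOC_hyp {η : Om} {y : V} {R : ℕ} (hη : ∀ n < R, η n = η 0) (hR : η R ≠ η 0)
    (hy : y ≠ kil (η 0)) : LOC_H (evo η (Tw y)) (xx η (kil (η 0))) R where
  tT := ta_evo η _
  tZ := LOC_ta_xx η _
  zz := fun w => xFun_invol _ η w
  zf := fun k hk w hw => LOC_zf hη k 0 (by omega) w hw
  zl := LOC_zl hη hR R 0 (by omega)
  tl := fun k hk => by
    rw [LOC_Teq, ← pow_mul, ← pow_succ']
    exact LOC_labS hη hy (k + 1) 0 (by omega)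

theorem LOC_comm (T Z : P) (R : ℕ) (H : LOC_H T Z R) (hR : 3 ≤ R) :
    Z * (T * Z * T⁻¹) = (T * Z * T⁻¹) * Z := by
  refine (Equiv.Perm.Disjoint.commute ?_)
  intro w
  by_cases h : w.take 2 = List.replicate 2 true
  · right
    show T (Z (T⁻¹ w)) = w
    rw [H.zf 2 (by omega) (T⁻¹ w), LOC_ai]
    rw [(LOC_ta_inv H.tT).2, h]
    intro h1
    rw [Equiv.Perm.inv_eq_iff_eq] at h1
    have h2 := H.tl 0 (by omega)
    rw [pow_zero, pow_one] at h2
    exact LOC_ne H.tT h2 _ (by simp) h1.symm
  · left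
    exact H.zf 2 (by omega) w h

theorem LOC_group (T Z Y r : P) (hr : r * r = 1) (hZ : Z * Z = 1) (hY : Y * Y = 1)
    (hYZ : Y * Z = Z * Y) (hT : T = Y * r) (hc : Z * (T * Z * T⁻¹) = (T * Z * T⁻¹) * Z) :
    (r * Z * r * Z) * T * (r * Z * r * Z)⁻¹ * T⁻¹ = T⁻¹ * Z * T * (T * Z * T⁻¹) := by
  have hri : r⁻¹ = r := inv_eq_of_mul_eq_one_left hr
  have hYi : Y⁻¹ = Y := inv_eq_of_mul_eq_one_left hY
  have hZi : Z⁻¹ = Z := inv_eq_of_mul_eq_one_left hZ
  have h1 : r * Z * r = T⁻¹ * Z * T := by
    rw [hT, mul_inv_rev, hri, hYi]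
    calc r * Z * r = r * (Y * Y) * Z * r := by rw [hY, mul_one]
      _ = r * Y * (Y * Z) * r := by simp only [mul_assoc]
      _ = r * Y * (Z * Y) * r := by rw [hYZ]
      _ = r * Y * Z * (Y * r) := by simp only [mul_assoc]
  rw [h1]
  calc T⁻¹ * Z * T * Z * T * (T⁻¹ * Z * T * Z)⁻¹ * T⁻¹
      = T⁻¹ * Z * T * (Z * (T * Z⁻¹ * T⁻¹)) * Z⁻¹ := by
        simp only [mul_inv_rev, inv_inv, mul_assoc, mul_inv_cancel_left, mul_inv_cancel, mul_one]
    _ = T⁻¹ * Z * T * (Z * (T * Z * T⁻¹)) * Z := by rw [hZi]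
    _ = T⁻¹ * Z * T * ((T * Z * T⁻¹) * Z) * Z := by rw [hc]
    _ = T⁻¹ * Z * T * (T * Z * T⁻¹) * (Z * Z) := by simp only [mul_assoc]
    _ = T⁻¹ * Z * T * (T * Z * T⁻¹) := by rw [hZ, mul_one]

theorem LOC_kap {η : Om} {y : V} {R : ℕ} (hR3 : 3 ≤ R) (hη : ∀ n < R, η n = η 0) (hR : η R ≠ η 0)
    (hy : y ≠ kil (η 0)) : evo η (kap y (kil (η 0)) false) =
      (evo η (Tw y))⁻¹ * xx η (kil (η 0)) * evo η (Tw y) *
        (evo η (Tw y) * xx η (kil (η 0)) * (evo η (Tw y))⁻¹) := by
  have H := LOC_hyp hη hR hy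
  have hr : a * xx η y * a * (a * xx η y * a) = 1 := by
    calc a * xx η y * a * (a * xx η y * a) = a * xx η y * (a * a) * xx η y * a := by
          simp only [mul_assoc]
      _ = a * (xx η y * xx η y) * a := by
          rw [J_a_sq, mul_one]
          simp only [mul_assoc]
      _ = 1 := by rw [xx_sq, mul_one, J_a_sq]
  have hT : evo η (Tw y) = xx η y * (a * xx η y * a) := by
    rw [LOC_Teq, pow_two]
    simp only [mul_assoc]
  have e1 : evo η (jw y (Wf (kil (η 0)))) =
      a * xx η y * a * xx η (kil (η 0)) * (a * xx η y * a) * xx η (kil (η 0)) := by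
    simp only [jw, Wf, List.flatMap_cons, List.flatMap_nil, List.append_nil, List.reverse_cons,
      List.reverse_nil, List.nil_append, List.cons_append, evo_cons, evo_nil, mul_one, gno_lt]
    show a * (xx η y * (a * (xx η (kil (η 0)) * (a * (xx η y * (a * xx η (kil (η 0)))))))) = _
    simp only [mul_assoc]
  have e2 : evo η (jw y Wt) = evo η (Tw y) := by
    rw [hT]
    simp only [jw, Wt, List.flatMap_cons, List.flatMap_nil, List.append_nil, List.reverse_cons,
      List.reverse_nil, List.nil_append, List.cons_append, evo_cons, evo_nil, mul_one, gno_lt]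
    show xx η y * (a * (xx η y * a)) = _
    simp only [mul_assoc]
  have e3 : evo η (kap y (kil (η 0)) false) =
      evo η (jw y (Wf (kil (η 0)))) * evo η (jw y Wt) * (evo η (jw y (Wf (kil (η 0)))))⁻¹ *
        (evo η (jw y Wt))⁻¹ := by
    unfold kap comw
    simp only [cj, Bool.false_eq_true, if_false]
    rw [evo_append, evo_append, evo_append, evo_reverse, evo_reverse]
  rw [e3, e2, e1]
  exact LOC_group (evo η (Tw y)) (xx η (kil (η 0))) (xx η y) (a * xx η y * a) hr (xx_sq _ _)
    (xx_sq _ _) (J_xx_comm _ _ _) hT (LOC_comm _ _ R H hR3)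

theorem t_LOC : S_LOC := by
  intro η y R R' h3 hRR hη hR hy
  have H := LOC_hyp hη hR hy
  obtain ⟨T, hT⟩ : ∃ T, T = evo η (Tw y) := ⟨_, rfl⟩
  obtain ⟨Z, hZ⟩ : ∃ Z, Z = xx η (kil (η 0)) := ⟨_, rfl⟩
  rw [← hT, ← hZ] at H
  refine ⟨fun p e => LOC_q (fun l => (if e then (fun v => p (aFun v)) else p)
    ((T ^ l)⁻¹ (List.replicate R' true))), fun p => ?_⟩
  have hloc : locw η y (kil (η 0)) (fun e => LOC_q (fun l => (if e then (fun v => p (aFun v)) else p)
    ((T ^ l)⁻¹ (List.replicate R' true)))) (2 ^ R' - 2) =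
      LOC_A T Z R' p * (a * LOC_A T Z R' (fun v => p (aFun v)) * a) := by
    unfold locw
    rw [LOC_kap (R := R) (by omega) hη hR hy, ← hT, ← hZ, LOC_prl_eq, LOC_prl_eq]
    rfl
  rw [hloc]
  -- words beginning with true
  have ht : ∀ v u : List Bool, v.length = R' → v.take 1 = [true] →
      (LOC_A T Z R' p * (a * LOC_A T Z R' (fun v => p (aFun v)) * a)) (v ++ u) =
        LOC_A T Z R' p (v ++ u) := by
    intro v u hv hv1
    show LOC_A T Z R' p (a (LOC_A T Z R' (fun v => p (aFun v)) (a (v ++ u)))) = _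
    rw [LOC_A_fix H (by omega) R' _ (a (v ++ u))]
    · rw [a_apply, a_apply, aFun_invol]
    · cases v with
      | nil => simp at hv1
      | cons t v =>
        have : t = true := by simpa using hv1
        subst this
        simp [a_apply, aFun]
  have hf : ∀ v u : List Bool, v.length = R' → v.take 1 = [false] →
      (LOC_A T Z R' p * (a * LOC_A T Z R' (fun v => p (aFun v)) * a)) (v ++ u) =
        aFun (LOC_A T Z R' (fun v => p (aFun v)) (aFun v ++ u)) := by
    intro v u hv hv1
    show LOC_A T Z R' p (a (LOC_A T Z R' (fun v => p (aFun v)) (a (v ++ u)))) = _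
    rw [a_apply, a_apply, A_afun_append v u (by omega)]
    rw [LOC_A_fix H (by omega) R' p]
    obtain ⟨w, hw⟩ : ∃ w, w = LOC_A T Z R' (fun v => p (aFun v)) (aFun v ++ u) := ⟨_, rfl⟩
    have h1 := LOC_A_take H R' (fun v => p (aFun v)) (aFun v ++ u)
    rw [← hw] at h1 ⊢
    cases v with
    | nil => simp at hv1
    | cons t v =>
      have : t = false := by simpa using hv1
      subst this
      simp only [aFun, Bool.not_false, List.cons_append, List.take_succ_cons, List.take_zero] at h1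
      cases w with
      | nil => simp at h1
      | cons t w =>
        have : t = true := by simpa using h1
        subst this
        simp [aFun]
  have hsplit : ∀ v : List Bool, v.length = R' → v.take 1 = [true] ∨ v.take 1 = [false] := by
    intro v hv
    cases v with
    | nil => simp at hv; omega
    | cons t v => cases t <;> simp
  have hav : ∀ v : List Bool, v.take 1 = [false] → (aFun v).take 1 = [true] := by
    intro v hv
    cases v with
    | nil => simp at hv
    | cons t v =>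
      have : t = false := by simpa using hv
      subst this
      simp [aFun]
  refine ⟨fun v u hv hp => ?_, fun v hv hp => ?_, fun hRe => ?_⟩
  · rcases hsplit v hv with h | h
    · rw [ht v u hv h]
      exact (LOC_side' H R' h3 hRR p v hv h).1 hp u
    · rw [hf v u hv h, (LOC_side' H R' h3 hRR (fun v => p (aFun v)) (aFun v)
        (by rw [A_afun_len, hv]) (hav v h)).1 (by rw [aFun_invol]; exact hp) u,
        ← A_afun_append v u (by omega), aFun_invol]
  · rcases hsplit v hv with h | h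
    · obtain ⟨u, hu⟩ := (LOC_side' H R' h3 hRR p v hv h).2.1 hp
      exact ⟨u, by rw [ht v u hv h]; exact hu⟩
    · obtain ⟨u, hu⟩ := (LOC_side' H R' h3 hRR (fun v => p (aFun v)) (aFun v)
        (by rw [A_afun_len, hv]) (hav v h)).2.1 (by rw [aFun_invol]; exact hp)
      refine ⟨u, ?_⟩
      rw [hf v u hv h]
      intro h1
      apply hu
      have h2 := congrArg aFun h1
      rw [aFun_invol, A_afun_append v u (by omega)] at h2
      exact h2
  · subst hRe
    intro u hu x
    obtain ⟨v, t, rfl, hv⟩ : ∃ (v : List Bool) (t : Bool), u = v ++ [t] ∧ v.length = R' := by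
      refine ⟨u.take R', (u[R']'(by omega)), ?_, by rw [List.length_take]; omega⟩
      have := List.take_add_one (l := u) (i := R')
      rw [List.take_of_length_le (by omega), List.getElem?_eq_getElem (by omega)] at this
      exact this
    have htk : (v ++ [t]).take R' = v := by
      rw [List.take_append_of_le_length (by omega), List.take_of_length_le (by omega)]
    beta_reduce
    rw [htk, List.append_assoc, List.append_assoc]
    rcases hsplit v hv with h | h
    · rw [ht v _ hv h]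
      have h2 := LOC_side' H R' h3 le_rfl p v hv h
      cases hp : p v
      · rw [h2.1 hp]
        simp
      · rw [h2.2.2 rfl hp]
        simp
    · rw [hf v _ hv h]
      have h2 := LOC_side' H R' h3 le_rfl (fun v => p (aFun v)) (aFun v)
        (by rw [A_afun_len, hv]) (hav v h)
      cases hp : p v
      · rw [h2.1 (by rw [aFun_invol]; exact hp), ← A_afun_append v _ (by omega), aFun_invol]
        simp
      · rw [h2.2.2 rfl (by rw [aFun_invol]; exact hp), ← A_afun_append v _ (by omega), aFun_invol]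
        simp

end Pool.Agent.U640.BG
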