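import Pool.Agent.U640.BG.Stm

/-!
Project BG (helper640), package RZ (helper7): sequences with prescribed weights, a greedy construction.
-/

set_option autoImplicit false

namespace Pool.Agent.U640.BG

open Pool.Agent.Results.MP_03d093_al.SphereBall Pool.Agent.H776R2.Grig Pool.Agent.H776R2.Om

namespace RZAux

theorem tri (ω : Om) (i : ℕ) : nn ω i .b ≤ nn ω i .c + nn ω i .d ∧
    nn ω i .c ≤ nn ω i .b + nn ω i .d ∧ nn ω i .d ≤ nn ω i .b + nn ω i .c := by
  induction i with
  | zero => simp [nn]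
  | succ i ih =>
    obtain ⟨h1, h2, h3⟩ := ih
    simp only [nn]
    generalize kil (ω i) = k
    cases k <;> simp <;> omega

theorem nn_congr {ω η : Om} : ∀ (i : ℕ), (∀ n < i, ω n = η n) → ∀ x, nn ω i x = nn η i x
  | 0, _, _ => rfl
  | i + 1, h, x => by
    have ih := nn_congr i (fun n hn => h n (hn.trans (Nat.lt_succ_self i)))
    simp only [nn]
    rw [h i (Nat.lt_succ_self i), ih .b, ih .c, ih .d, ih x]

theorem ell_congr {ω η : Om} (i : ℕ) (h : ∀ n < i, ω n = η n) : ell ω i = ell η i := by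
  unfold ell
  rw [nn_congr i h .b, nn_congr i h .c, nn_congr i h .d]

theorem ell_sum (ω : Om) (i : ℕ) : ell ω (i + 1) = nn ω i .b + nn ω i .c + nn ω i .d := by
  obtain ⟨h1, h2, h3⟩ := tri ω i
  unfold ell
  simp only [nn]
  generalize kil (ω i) = k
  cases k <;> simp <;> omega

theorem rec3 (ω : Om) (i : ℕ) (h1 : ω (i + 1) = ω i + 1) (h2 : ω (i + 2) = ω (i + 1) + 1) :
    ell ω (i + 4) = ell ω (i + 3) + 2 * ell ω (i + 2) + 4 * ell ω (i + 1) := by
  rw [ell_sum ω (i + 3), ell_sum ω (i + 2), ell_sum ω (i + 1), ell_sum ω i]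
  simp only [nn]
  rw [h2, h1]
  generalize ω i = a
  fin_cases a <;> simp [kil] <;> ring

theorem blk (ω : Om) (m : ℕ) (t : ℕ) (h : ∀ n, m ≤ n → n < m + t → ω n = ω m) (x : V)
    (hx : x ≠ kil (ω m)) : nn ω (m + t) x = 2 ^ t * nn ω m x := by
  induction t with
  | zero => simp
  | succ t ih =>
    rw [← add_assoc]
    simp only [nn]
    rw [h (m + t) (by omega) (by omega), if_neg hx, ih (fun n h1 h2 => h n h1 (by omega)), pow_succ]
    ring

theorem blk_ell (ω : Om) (m : ℕ) (t : ℕ) (h : ∀ n, m ≤ n → n < m + t → ω n = ω m) :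
    ell ω (m + t) ≤ 2 * 2 ^ t * ell ω m := by
  have hb := nn_le_ell ω m .b
  have hc := nn_le_ell ω m .c
  have hd := nn_le_ell ω m .d
  obtain ⟨h1, h2, h3⟩ := tri ω (m + t)
  have key : ∀ x, x ≠ kil (ω m) → nn ω (m + t) x ≤ 2 ^ t * ell ω m := by
    intro x hx
    rw [blk ω m t h x hx]
    exact Nat.mul_le_mul_left _ (nn_le_ell ω m x)
  have e : 2 * 2 ^ t * ell ω m = 2 ^ t * ell ω m + 2 ^ t * ell ω m := by ring
  rw [e]
  generalize 2 ^ t * ell ω m = Z at key
  have kb := key .b
  have kc := key .c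
  have kd := key .d
  unfold ell
  generalize kil (ω m) = k at kb kc kd
  cases k <;> simp at kb kc kd <;> omega

theorem growth (ω : Om) (k s : ℕ) (hc : ∀ n, k ≤ n → n + 1 < k + s → ω (n + 1) = ω n + 1) :
    ∀ t, t ≤ s → (100 / 123 : ℝ) ^ 3 * (123 / 50) ^ t * ell ω k ≤ ell ω (k + t) := by
  have hE : (0 : ℝ) ≤ ell ω k := by positivity
  have h2 : ∀ i, (2 : ℝ) * ell ω i ≤ ell ω (i + 1) := fun i => by exact_mod_cast two_ell_le ω i
  intro t
  induction t using Nat.strong_induction_on with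
  | _ t ih =>
    intro ht
    rcases lt_or_ge t 4 with h4 | h4
    · have a1 := h2 k
      have a2 := h2 (k + 1)
      have a3 := h2 (k + 2)
      have : t = 0 ∨ t = 1 ∨ t = 2 ∨ t = 3 := by omega
      rcases this with rfl | rfl | rfl | rfl
      · norm_num
        linarith
      · norm_num
        linarith
      · norm_num
        linarith
      · norm_num
        linarith
    · obtain ⟨u, rfl⟩ : ∃ u, t = u + 4 := ⟨t - 4, by omega⟩
      have b1 := ih (u + 1) (by omega) (by omega)
      have b2 := ih (u + 2) (by omega) (by omega)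
      have b3 := ih (u + 3) (by omega) (by omega)
      have hr := rec3 ω (k + u) (hc (k + u) (by omega) (by omega))
        (hc (k + u + 1) (by omega) (by omega))
      have hr' : (ell ω (k + (u + 4)) : ℝ) = ell ω (k + (u + 3)) + 2 * ell ω (k + (u + 2)) +
          4 * ell ω (k + (u + 1)) := by
        have e4 : k + (u + 4) = k + u + 4 := by ring
        have e3 : k + (u + 3) = k + u + 3 := by ring
        have e2 : k + (u + 2) = k + u + 2 := by ring
        have e1 : k + (u + 1) = k + u + 1 := by ring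
        rw [e4, e3, e2, e1, hr]
        push_cast
        ring
      rw [hr']
      have hP : (0 : ℝ) ≤ (100 / 123 : ℝ) ^ 3 * (123 / 50) ^ (u + 1) * ell ω k := by positivity
      have c2 : (100 / 123 : ℝ) ^ 3 * (123 / 50) ^ (u + 2) * ell ω k =
          (123 / 50) * ((100 / 123 : ℝ) ^ 3 * (123 / 50) ^ (u + 1) * ell ω k) := by ring
      have c3 : (100 / 123 : ℝ) ^ 3 * (123 / 50) ^ (u + 3) * ell ω k =
          (123 / 50) ^ 2 * ((100 / 123 : ℝ) ^ 3 * (123 / 50) ^ (u + 1) * ell ω k) := by ring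
      have c4 : (100 / 123 : ℝ) ^ 3 * (123 / 50) ^ (u + 4) * ell ω k =
          (123 / 50) ^ 3 * ((100 / 123 : ℝ) ^ 3 * (123 / 50) ^ (u + 1) * ell ω k) := by ring
      rw [c2] at b2
      rw [c3] at b3
      rw [c4]
      generalize (100 / 123 : ℝ) ^ 3 * (123 / 50) ^ (u + 1) * ell ω k = Z at b1 b2 b3 hP ⊢
      norm_num at b1 b2 b3 ⊢
      nlinarith

/-- constant from `m` on -/
def cst (w : ℕ → Fin 3) (m : ℕ) : Om := fun n => if n ≤ m then w n else w m

theorem cst_le {w : ℕ → Fin 3} {m n : ℕ} (h : n ≤ m) : cst w m n = w n := if_pos h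

theorem cst_ge {w : ℕ → Fin 3} {m n : ℕ} (h : m ≤ n) : cst w m n = w m := by
  unfold cst
  split_ifs with h'
  · rw [le_antisymm h' h]
  · rfl

/-- the state at a station -/
structure Sta where
  k : ℕ
  w : ℕ → Fin 3

section
variable (ψ : ℕ → ℝ)

/-- the admissible block lengths -/
def Rset (w : ℕ → Fin 3) (m : ℕ) : Set ℕ :=
  {R : ℕ | 3 ≤ R ∧ (ell (cst w m) (m + R) : ℝ) ≤ ψ (m + R)}

open Classical in
/-- the next block length -/
noncomputable def nextR (x : Sta) : ℕ :=
  if (ell x.w (x.k + 72) : ℝ) ≤ ψ (x.k + 72) then 0 else sInf (Rset ψ x.w (x.k + 72))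

/-- the next station -/
noncomputable def nx (x : Sta) : Sta where
  k := x.k + 72 + nextR ψ x
  w := fun n => if nextR ψ x = 0 then x.w n else
    if n < x.k + 72 + nextR ψ x then cst x.w (x.k + 72) n else
      (fun z : Fin 3 => z + 1)^[n + 1 - (x.k + 72 + nextR ψ x)] (x.w (x.k + 72))

/-- the stations -/
noncomputable def st : ℕ → Sta
  | 0 => ⟨0, fun n => (fun z : Fin 3 => z + 1)^[n] 0⟩
  | j + 1 => nx ψ (st j)

/-- the sequence -/
noncomputable def om : Om := fun n => (st ψ n).w n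

theorem nx_le {x : Sta} {n : ℕ} (h : n ≤ x.k + 72) : (nx ψ x).w n = x.w n := by
  by_cases h0 : nextR ψ x = 0
  · simp only [nx, h0, if_true]
  · simp only [nx, h0, if_false]
    rw [if_pos (by omega), cst_le h]

theorem k_succ (j : ℕ) : (st ψ (j + 1)).k = (st ψ j).k + 72 + nextR ψ (st ψ j) := rfl

theorem k_ge (j : ℕ) : 72 * j ≤ (st ψ j).k := by
  induction j with
  | zero => simp
  | succ j ih => rw [k_succ]; omega

theorem k_mono {i j : ℕ} (h : i ≤ j) : (st ψ i).k ≤ (st ψ j).k := by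
  induction j, h using Nat.le_induction with
  | base => exact le_rfl
  | succ j _ ih => rw [k_succ]; omega

theorem stable {i j : ℕ} (h : i ≤ j) {n : ℕ} (hn : n ≤ (st ψ i).k + 72) :
    (st ψ j).w n = (st ψ i).w n := by
  induction j, h using Nat.le_induction with
  | base => rfl
  | succ j hij ih =>
    have := k_mono ψ hij
    change (nx ψ (st ψ j)).w n = _
    rw [nx_le ψ (by omega), ih]

theorem om_eq {j n : ℕ} (hn : n ≤ (st ψ j).k + 72) : om ψ n = (st ψ j).w n := by
  unfold om
  rcases le_total n j with h | h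
  · refine (stable ψ h ?_).symm
    have := k_ge ψ n
    omega
  · exact stable ψ h hn

theorem inv (j : ℕ) : ∀ n, (st ψ j).k ≤ n + 1 → (st ψ j).w (n + 1) = (st ψ j).w n + 1 := by
  induction j with
  | zero =>
    intro n _
    change (fun z : Fin 3 => z + 1)^[n + 1] 0 = (fun z : Fin 3 => z + 1)^[n] 0 + 1
    rw [Function.iterate_succ_apply']
  | succ j ih =>
    intro n hn
    rw [k_succ] at hn
    change (nx ψ (st ψ j)).w (n + 1) = (nx ψ (st ψ j)).w n + 1
    by_cases h0 : nextR ψ (st ψ j) = 0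
    · simp only [nx, h0, if_true]
      exact ih n (by omega)
    · simp only [nx, h0, if_false]
      rw [if_neg (by omega)]
      by_cases h1 : n < (st ψ j).k + 72 + nextR ψ (st ψ j)
      · rw [if_pos h1, cst_ge (by omega)]
        have : n + 1 + 1 - ((st ψ j).k + 72 + nextR ψ (st ψ j)) = 1 := by omega
        rw [this]
        rfl
      · rw [if_neg h1]
        have : n + 1 + 1 - ((st ψ j).k + 72 + nextR ψ (st ψ j)) =
            (n + 1 - ((st ψ j).k + 72 + nextR ψ (st ψ j))) + 1 := by omega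
        rw [this, Function.iterate_succ_apply']

/-- `om` in the stretch -/
theorem om_stretch (j n : ℕ) (h1 : (st ψ j).k ≤ n + 1) (h2 : n + 1 ≤ (st ψ j).k + 72) :
    om ψ (n + 1) = om ψ n + 1 := by
  rw [om_eq ψ h2, om_eq ψ (by omega : n ≤ (st ψ j).k + 72), inv ψ j n h1]

/-- `om` in the block -/
theorem om_block (j n : ℕ) (h2 : n < (st ψ j).k + 72 + nextR ψ (st ψ j)) :
    om ψ n = cst (om ψ) ((st ψ j).k + 72) n := by
  by_cases h1 : n ≤ (st ψ j).k + 72
  · rw [cst_le h1]
  · push Not at h1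
    have h0 : nextR ψ (st ψ j) ≠ 0 := by omega
    rw [cst_ge h1.le]
    have e1 : om ψ n = (st ψ (j + 1)).w n := om_eq ψ (by rw [k_succ]; omega)
    rw [e1]
    change (nx ψ (st ψ j)).w n = _
    simp only [nx, h0, if_false]
    rw [if_pos h2, cst_ge h1.le, om_eq ψ le_rfl]

end

theorem psi_pos {ψ : ℕ → ℝ} (h0 : 0 < ψ 0) (h2 : ∀ k, 2 * ψ k ≤ ψ (k + 1)) (k : ℕ) : 0 < ψ k := by
  induction k with
  | zero => exact h0
  | succ k ih => linarith [h2 k]

theorem psi_ge {ψ : ℕ → ℝ} (h2 : ∀ k, 2 * ψ k ≤ ψ (k + 1)) (k t : ℕ) :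
    2 ^ t * ψ k ≤ ψ (k + t) := by
  induction t with
  | zero => simp
  | succ t ih =>
    have := h2 (k + t)
    rw [← add_assoc, pow_succ]
    linarith

theorem psi_le {ψ : ℕ → ℝ} (h3 : ∀ k, ψ (k + 1) ≤ 12 / 5 * ψ k) (k t : ℕ) :
    ψ (k + t) ≤ (12 / 5) ^ t * ψ k := by
  induction t with
  | zero => simp
  | succ t ih =>
    have := h3 (k + t)
    rw [← add_assoc, pow_succ]
    linarith

theorem ell_ge (ω : Om) (k t : ℕ) : (2 : ℝ) ^ t * ell ω k ≤ ell ω (k + t) := by
  induction t with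
  | zero => simp
  | succ t ih =>
    have : (2 : ℝ) * ell ω (k + t) ≤ ell ω (k + t + 1) := by exact_mod_cast two_ell_le ω (k + t)
    rw [← add_assoc, pow_succ]
    linarith

theorem ell_le' (ω : Om) (k t : ℕ) : (ell ω (k + t) : ℝ) ≤ 3 ^ t * ell ω k := by
  induction t with
  | zero => simp
  | succ t ih =>
    have : (ell ω (k + t + 1) : ℝ) ≤ 3 * ell ω (k + t) := by exact_mod_cast ell_succ_le ω (k + t)
    rw [← add_assoc, pow_succ]
    linarith

theorem Rset_nonempty {ψ : ℕ → ℝ} (ht : Filter.Tendsto (fun k => ψ k / 2 ^ k) Filter.atTop Filter.atTop)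
    (w : ℕ → Fin 3) (m : ℕ) : (Rset ψ w m).Nonempty := by
  obtain ⟨N, hN⟩ := Filter.eventually_atTop.1
    (ht.eventually_ge_atTop (2 * (ell (cst w m) m : ℝ) / 2 ^ m))
  refine ⟨N + 3, by omega, ?_⟩
  have h1 := hN (m + (N + 3)) (by omega)
  have h2 : (ell (cst w m) (m + (N + 3)) : ℝ) ≤ 2 * 2 ^ (N + 3) * ell (cst w m) m := by
    have := blk_ell (cst w m) m (N + 3) (fun n hn _ => by rw [cst_ge hn, cst_le le_rfl])
    exact_mod_cast this
  refine h2.trans ?_
  rw [div_le_div_iff₀ (by positivity) (by positivity)] at h1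
  have h3 : (0 : ℝ) < 2 ^ m := by positivity
  rw [pow_add 2 m] at h1
  nlinarith

end RZAux

open RZAux in
/-- **RZ** -/
theorem t_RZ : S_RZ := by
  classical
  intro ψ h0 h2 h3 ht
  have hpos := psi_pos h0 h2
  set ω := om ψ with hω
  set K : ℕ → ℕ := fun j => (st ψ j).k with hK
  set Rr : ℕ → ℕ := fun j => nextR ψ (st ψ j) with hRr
  have hKs : ∀ j, K (j + 1) = K j + 72 + Rr j := fun j => rfl
  have hstr : ∀ j n, K j ≤ n + 1 → n + 1 ≤ K j + 72 → ω (n + 1) = ω n + 1 :=
    fun j n => om_stretch ψ j n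
  have hblk : ∀ j n, n < K j + 72 + Rr j → ω n = cst ω (K j + 72) n := fun j n => om_block ψ j n
  have hblk' : ∀ j n, K j + 72 ≤ n → n < K j + 72 + Rr j → ω n = ω (K j + 72) := by
    intro j n h1 h2
    rw [hblk j n h2, cst_ge h1]
  -- the block lengths in terms of `ω`
  have hellm : ∀ j, ell (st ψ j).w (K j + 72) = ell ω (K j + 72) := fun j =>
    ell_congr _ fun n hn => (om_eq ψ (by change n < (st ψ j).k + 72 at hn; omega)).symm
  have hcstw : ∀ j n, cst (st ψ j).w (K j + 72) n = cst ω (K j + 72) n := by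
    intro j n
    by_cases h : n ≤ K j + 72
    · rw [cst_le h, cst_le h]
      exact (om_eq ψ h).symm
    · push Not at h
      rw [cst_ge h.le, cst_ge h.le]
      exact (om_eq ψ le_rfl).symm
  have hellc : ∀ j t, t ≤ Rr j → ell (cst (st ψ j).w (K j + 72)) (K j + 72 + t) =
      ell ω (K j + 72 + t) := by
    intro j t htR
    refine ell_congr _ fun n hn => ?_
    rw [hcstw, ← hblk j n (by omega)]
  have hR0 : ∀ j, Rr j = 0 → (ell ω (K j + 72) : ℝ) ≤ ψ (K j + 72) := by
    intro j hj
    by_contra hcon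
    have hcon' : ¬ (ell (st ψ j).w ((st ψ j).k + 72) : ℝ) ≤ ψ ((st ψ j).k + 72) := by
      have := hellm j
      change ell (st ψ j).w ((st ψ j).k + 72) = _ at this
      rw [this]
      exact hcon
    have h4 : Rr j = sInf (Rset ψ (st ψ j).w ((st ψ j).k + 72)) := by
      change nextR ψ (st ψ j) = _
      unfold nextR
      rw [if_neg hcon']
    have h5 := Nat.sInf_mem (Rset_nonempty ht (st ψ j).w ((st ψ j).k + 72))
    rw [← h4, hj] at h5
    exact absurd h5.1 (by norm_num)
  have hR1 : ∀ j, Rr j ≠ 0 → (ψ (K j + 72) < ell ω (K j + 72)) ∧ 3 ≤ Rr j ∧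
      (ell ω (K j + 72 + Rr j) : ℝ) ≤ ψ (K j + 72 + Rr j) ∧
      ∀ t, 3 ≤ t → t < Rr j → ψ (K j + 72 + t) < ell ω (K j + 72 + t) := by
    intro j hj
    have hcon' : ¬ (ell (st ψ j).w ((st ψ j).k + 72) : ℝ) ≤ ψ ((st ψ j).k + 72) := by
      intro hcon
      apply hj
      change nextR ψ (st ψ j) = 0
      unfold nextR
      rw [if_pos hcon]
    have h4 : Rr j = sInf (Rset ψ (st ψ j).w ((st ψ j).k + 72)) := by
      change nextR ψ (st ψ j) = _
      unfold nextR
      rw [if_neg hcon']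
    have h5 := Nat.sInf_mem (Rset_nonempty ht (st ψ j).w ((st ψ j).k + 72))
    rw [← h4] at h5
    refine ⟨?_, h5.1, ?_, ?_⟩
    · have := hellm j
      rw [← this]
      exact not_le.1 hcon'
    · have := hellc j (Rr j) le_rfl
      rw [← this]
      exact h5.2
    · intro t ht3 htR
      have h6 : t ∉ Rset ψ (st ψ j).w ((st ψ j).k + 72) := by
        rw [h4] at htR
        exact Nat.notMem_of_lt_sInf htR
      have h7 : ¬ (ell (cst (st ψ j).w (K j + 72)) (K j + 72 + t) : ℝ) ≤ ψ (K j + 72 + t) :=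
        fun h => h6 ⟨ht3, h⟩
      rw [hellc j t htR.le] at h7
      exact not_le.1 h7
  refine ⟨3, 72, ω, K, fun _ => 72, Rr, ?_, ?_⟩
  · refine ⟨rfl, hKs, fun i => by norm_num, fun i => le_rfl, ?_, ?_, ?_⟩
    · intro i n x h4 h5
      have e1 := hstr i n (by omega) (by omega)
      have e2 := hstr i (n + 1) (by omega) (by omega)
      have h6 : ∀ a x : Fin 3, x = a ∨ x = a + 1 ∨ x = a + 1 + 1 := by decide
      rcases h6 (ω n) x with h | h | h
      · exact ⟨0, by norm_num, h.symm⟩
      · exact ⟨1, by norm_num, by rw [e1, h]⟩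
      · exact ⟨2, by norm_num, by
          have e3 : n + 2 = n + 1 + 1 := rfl
          rw [e3, e2, e1, h]⟩
    · intro i
      have e1 := hstr i (K i + 72 - 1) (by omega) (by omega)
      have e2 : K i + 72 - 1 + 1 = K i + 72 := by omega
      rw [e2] at e1
      rw [e1]
      have h6 : ∀ a : Fin 3, a ≠ a + 1 := by decide
      exact h6 _
    · intro i
      by_cases hi : Rr i = 0
      · exact Or.inl hi
      · refine Or.inr ⟨(hR1 i hi).2.1, hblk' i, ?_⟩
        have e1 := hstr (i + 1) (K (i + 1) - 1) (by omega) (by rw [hKs]; omega)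
        have e2 : K (i + 1) - 1 + 1 = K i + 72 + Rr i := by rw [hKs]; omega
        have e3 : K (i + 1) - 1 = K i + 72 + Rr i - 1 := by rw [hKs]
        rw [e2, e3] at e1
        have e4 := hblk' i (K i + 72 + Rr i - 1) (by omega) (by omega)
        rw [e4] at e1
        rw [e1]
        have h6 : ∀ a : Fin 3, a + 1 ≠ a := by decide
        exact h6 _
  · -- the bounds
    set cL : ℝ := min (1 / ψ 0) ((5 / 6) ^ 3) with hcL
    set cU : ℝ := max (1 / ψ 0) 1 with hcU
    have hcL0 : 0 < cL := lt_min (by positivity) (by positivity)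
    have hcL1 : cL ≤ (5 / 6) ^ 3 := min_le_right _ _
    have hcU1 : 1 ≤ cU := le_max_right _ _
    have hell0 : (ell ω 0 : ℝ) = 1 := by rw [ell_zero]; norm_num
    have hK0 : K 0 = 0 := rfl
    -- lower bound at the stations
    have hL : ∀ j, cL * ψ (K j) ≤ ell ω (K j) := by
      intro j
      induction j with
      | zero =>
        rw [hK0, hell0]
        calc cL * ψ 0 ≤ 1 / ψ 0 * ψ 0 := by
              have := min_le_left (1 / ψ 0) ((5 / 6 : ℝ) ^ 3)
              gcongr
          _ = 1 := by field_simp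
      | succ j ih =>
        have g1 := growth ω (K j) 72 (fun n h4 h5 => hstr j n (by omega) (by omega)) 72 le_rfl
        have g2 : ((12 / 5 : ℝ)) ^ 72 ≤ (100 / 123 : ℝ) ^ 3 * (123 / 50) ^ 72 := by norm_num
        have g3 := psi_le h3 (K j) 72
        have hm : cL * ψ (K j + 72) ≤ ell ω (K j + 72) := by
          calc cL * ψ (K j + 72) ≤ cL * ((12 / 5) ^ 72 * ψ (K j)) := by gcongr
            _ = (12 / 5) ^ 72 * (cL * ψ (K j)) := by ring
            _ ≤ (12 / 5) ^ 72 * ell ω (K j) := by gcongr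
            _ ≤ (100 / 123 : ℝ) ^ 3 * (123 / 50) ^ 72 * ell ω (K j) := by gcongr
            _ ≤ _ := g1
        by_cases hj : Rr j = 0
        · rw [hKs, hj, add_zero]
          exact hm
        · obtain ⟨r1, r2, r3, r4⟩ := hR1 j hj
          rw [hKs]
          have hp := hpos (K j + 72 + Rr j)
          have main : (5 / 6 : ℝ) ^ 3 * ψ (K j + 72 + Rr j) ≤ ell ω (K j + 72 + Rr j) := by
            rcases eq_or_lt_of_le r2 with h | h
            · rw [← h] at hp ⊢
              have q1 := ell_ge ω (K j + 72) 3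
              have q2 := psi_le h3 (K j + 72) 3
              norm_num at q1 q2 ⊢
              linarith
            · have q1 := r4 (Rr j - 1) (by omega) (by omega)
              have q2 := ell_ge ω (K j + 72 + (Rr j - 1)) 1
              have q3 := psi_le h3 (K j + 72 + (Rr j - 1)) 1
              have e1 : K j + 72 + (Rr j - 1) + 1 = K j + 72 + Rr j := by omega
              rw [e1] at q2 q3
              norm_num at q2 q3 ⊢
              linarith
          calc cL * ψ (K j + 72 + Rr j) ≤ (5 / 6 : ℝ) ^ 3 * ψ (K j + 72 + Rr j) := by gcongr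
            _ ≤ _ := main
    -- upper bound at the stations
    have hU : ∀ j, (ell ω (K j) : ℝ) ≤ cU * ψ (K j) := by
      intro j
      induction j with
      | zero =>
        rw [hK0, hell0]
        calc (1 : ℝ) = 1 / ψ 0 * ψ 0 := by field_simp
          _ ≤ cU * ψ 0 := by
              have := le_max_left (1 / ψ 0) (1 : ℝ)
              gcongr
      | succ j _ =>
        have hp := hpos (K (j + 1))
        have main : (ell ω (K (j + 1)) : ℝ) ≤ ψ (K (j + 1)) := by
          by_cases hj : Rr j = 0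
          · rw [hKs, hj, add_zero]
            exact hR0 j hj
          · rw [hKs]
            exact (hR1 j hj).2.2.1
        calc (ell ω (K (j + 1)) : ℝ) ≤ 1 * ψ (K (j + 1)) := by rw [one_mul]; exact main
          _ ≤ cU * ψ (K (j + 1)) := by gcongr
    -- in the stretches
    have hsL : ∀ j t, t ≤ 72 → cL * (5 / 6) ^ 72 * ψ (K j + t) ≤ ell ω (K j + t) := by
      intro j t ht72
      have q1 := ell_ge ω (K j) t
      have q2 := psi_le h3 (K j) t
      have q3 : (5 / 6 : ℝ) ^ 72 ≤ (5 / 6) ^ t :=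
        pow_le_pow_of_le_one (by norm_num) (by norm_num) ht72
      have hp := (hpos (K j)).le
      have hp' := (hpos (K j + t)).le
      calc cL * (5 / 6) ^ 72 * ψ (K j + t) ≤ cL * (5 / 6) ^ t * ((12 / 5) ^ t * ψ (K j)) := by
            gcongr
        _ = ((5 / 6) * (12 / 5)) ^ t * (cL * ψ (K j)) := by rw [mul_pow]; ring
        _ = 2 ^ t * (cL * ψ (K j)) := by norm_num
        _ ≤ 2 ^ t * ell ω (K j) := by
            have := hL j
            gcongr
        _ ≤ _ := q1
    have hsU : ∀ j t, t ≤ 72 → (ell ω (K j + t) : ℝ) ≤ cU * (3 / 2) ^ 72 * ψ (K j + t) := by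
      intro j t ht72
      have q1 := ell_le' ω (K j) t
      have q2 := psi_ge h2 (K j) t
      have q3 : (3 / 2 : ℝ) ^ t ≤ (3 / 2) ^ 72 := pow_le_pow_right₀ (by norm_num) ht72
      have hp := (hpos (K j + t)).le
      calc (ell ω (K j + t) : ℝ) ≤ 3 ^ t * ell ω (K j) := q1
        _ ≤ 3 ^ t * (cU * ψ (K j)) := by
            have := hU j
            gcongr
        _ = cU * (3 / 2) ^ t * (2 ^ t * ψ (K j)) := by
            have : (3 : ℝ) ^ t = (3 / 2) ^ t * 2 ^ t := by rw [← mul_pow]; norm_num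
            rw [this]; ring
        _ ≤ cU * (3 / 2) ^ t * ψ (K j + t) := by gcongr
        _ ≤ _ := by gcongr
    refine ⟨cL * (5 / 6) ^ 72, 2 * (cU * (3 / 2) ^ 72), by positivity, fun i => ?_⟩
    -- the station before `i`
    obtain ⟨j, hj1, hj2⟩ : ∃ j, K j ≤ i ∧ i < K (j + 1) := by
      have hex : ∃ j, i < K (j + 1) := ⟨i, by
        have := k_ge ψ (i + 1)
        change i < (st ψ (i + 1)).k
        omega⟩
      refine ⟨Nat.find hex, ?_, Nat.find_spec hex⟩
      rcases Nat.eq_zero_or_pos (Nat.find hex) with h | h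
      · rw [h, hK0]; exact Nat.zero_le _
      · have := Nat.find_min hex (m := Nat.find hex - 1) (by omega)
        rw [Nat.sub_add_cancel h] at this
        omega
    have hpi := hpos i
    rcases le_or_gt i (K j + 72) with hi | hi
    · obtain ⟨t, rfl⟩ : ∃ t, i = K j + t := ⟨i - K j, by omega⟩
      refine ⟨hsL j t (by omega), ?_⟩
      have h5 := hsU j t (by omega)
      have h6 : 0 ≤ cU * (3 / 2) ^ 72 * ψ (K j + t) := by positivity
      linarith
    · rw [hKs] at hj2
      have hRj : Rr j ≠ 0 := by omega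
      obtain ⟨r1, r2, r3, r4⟩ := hR1 j hRj
      obtain ⟨t, rfl⟩ : ∃ t, i = K j + 72 + t := ⟨i - (K j + 72), by omega⟩
      constructor
      · have main : (5 / 6 : ℝ) ^ 3 * ψ (K j + 72 + t) ≤ ell ω (K j + 72 + t) := by
          rcases lt_or_ge t 3 with h | h
          · have q1 := ell_ge ω (K j + 72) t
            have q2 := psi_le h3 (K j + 72) t
            have q3 : (5 / 6 : ℝ) ^ 3 ≤ (5 / 6) ^ t :=
              pow_le_pow_of_le_one (by norm_num) (by norm_num) h.le
            calc (5 / 6 : ℝ) ^ 3 * ψ (K j + 72 + t)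
                ≤ (5 / 6) ^ t * ((12 / 5) ^ t * ψ (K j + 72)) := by gcongr
              _ = ((5 / 6) * (12 / 5)) ^ t * ψ (K j + 72) := by rw [mul_pow]; ring
              _ = 2 ^ t * ψ (K j + 72) := by norm_num
              _ ≤ 2 ^ t * ell ω (K j + 72) := by gcongr
              _ ≤ _ := q1
          · have q1 := r4 t h (by omega)
            have q4 : (5 / 6 : ℝ) ^ 3 ≤ 1 := by norm_num
            calc (5 / 6 : ℝ) ^ 3 * ψ (K j + 72 + t) ≤ 1 * ψ (K j + 72 + t) := by gcongr
              _ ≤ _ := by rw [one_mul]; exact q1.le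
        refine le_trans ?_ main
        have q5 : cL * (5 / 6) ^ 72 ≤ (5 / 6) ^ 3 := by
          calc cL * (5 / 6) ^ 72 ≤ cL * 1 := by
                have : (5 / 6 : ℝ) ^ 72 ≤ 1 := pow_le_one₀ (by norm_num) (by norm_num)
                gcongr
            _ = cL := mul_one _
            _ ≤ _ := hcL1
        gcongr
      · have q1 : (ell ω (K j + 72 + t) : ℝ) ≤ 2 * 2 ^ t * ell ω (K j + 72) := by
          exact_mod_cast blk_ell ω (K j + 72) t (fun n h4 h5 => hblk' j n h4 (by omega))
        have q2 := hsU j 72 le_rfl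
        have q3 := psi_ge h2 (K j + 72) t
        calc (ell ω (K j + 72 + t) : ℝ) ≤ 2 * 2 ^ t * ell ω (K j + 72) := q1
          _ ≤ 2 * 2 ^ t * (cU * (3 / 2) ^ 72 * ψ (K j + 72)) := by gcongr
          _ = 2 * (cU * (3 / 2) ^ 72) * (2 ^ t * ψ (K j + 72)) := by ring
          _ ≤ 2 * (cU * (3 / 2) ^ 72) * ψ (K j + 72 + t) := by gcongr

end Pool.Agent.U640.BG
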