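import Pool.Agent.U640.BG.Stm

set_option autoImplicit false

/-! Project BG, package STEP (helper981): commutator localization. -/

namespace Pool.Agent.U640.BG

open Pool.Agent.Results.MP_03d093_al.SphereBall Pool.Agent.H776R2.Grig Pool.Agent.H776R2.Om

namespace STEP

theorem pa_len (e : Bool) (v : List Bool) : (pa e v).length = v.length := by
  cases e
  · rfl
  · exact A_afun_len v

theorem pa_append (e : Bool) (u v : List Bool) (hu : 1 ≤ u.length) :
    pa e (u ++ v) = pa e u ++ v := by
  cases e
  · rfl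
  · exact A_afun_append u v hu

theorem pa_pa (e : Bool) (v : List Bool) : pa e (pa e v) = v := by
  cases e
  · rfl
  · exact aFun_invol v

theorem pa_sq (e : Bool) : pa e * pa e = 1 := by
  ext1 v
  exact pa_pa e v

theorem cz_append (u v : List Bool) : cz (u ++ v) = xor (cz u) (cz v) := by
  induction u with
  | nil => simp [cz]
  | cons x u ih =>
    rw [List.cons_append]
    simp only [cz, ih, Bool.xor_assoc]

theorem cz_pa (e : Bool) (v : List Bool) (hv : 1 ≤ v.length) : cz (pa e v) = xor (cz v) e := by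
  cases v with
  | nil => simp at hv
  | cons x v =>
    cases e
    · show cz (x :: v) = xor (cz (x :: v)) false
      rw [Bool.xor_false]
    · show cz ((!x) :: v) = xor (cz (x :: v)) true
      simp only [cz]
      cases x <;> cases cz v <;> rfl

theorem evo_comw (θ : Om) (v w : List Lt) :
    evo θ (comw v w) = evo θ v * evo θ w * (evo θ v)⁻¹ * (evo θ w)⁻¹ := by
  unfold comw
  rw [evo_append, evo_append, evo_append, evo_reverse, evo_reverse]

theorem evo_jw_cj (θ : Om) (x : V) (e : Bool) (W : List (List Lt × List Lt)) :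
    evo θ (jw x (cj e W)) = pa e * evo θ (jw x W) * pa e := by
  cases e
  · show evo θ (jw x W) = 1 * evo θ (jw x W) * 1
    rw [one_mul, mul_one]
  · show evo θ (jw x (cj true W)) = a * evo θ (jw x W) * a
    have haa : (a : P) * a = 1 := pa_sq true
    induction W with
    | nil =>
      show (1 : P) = a * 1 * a
      rw [mul_one, haa]
    | cons p W ih =>
      have e1 : jw x (cj true (p :: W)) = ((Lt.A :: p.1) ++ [x.lt] ++ (Lt.A :: p.1).reverse ++
          ((Lt.A :: p.2) ++ [x.lt] ++ (Lt.A :: p.2).reverse)) ++ jw x (cj true W) := rfl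
      have e2 : jw x (p :: W) = (p.1 ++ [x.lt] ++ p.1.reverse ++
          (p.2 ++ [x.lt] ++ p.2.reverse)) ++ jw x W := rfl
      rw [e1, e2]
      simp only [evo_append, evo_reverse, evo_cons, evo_nil, ih, mul_one, mul_inv_rev]
      have h1 : gno θ Lt.A = a := rfl
      have h2 : (a : P)⁻¹ = a := by rw [inv_eq_iff_mul_eq_one, haa]
      rw [h1, h2]
      have h3 : ∀ g : P, a * (a * g) = g := fun g => by rw [← mul_assoc, haa, one_mul]
      simp only [mul_assoc, h3]

theorem size_cons (p : List Lt × List Lt) (W : List (List Lt × List Lt)) :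
    size (p :: W) = 2 * p.1.length + 2 * p.2.length + 2 + size W := by
  have e2 : jw .b (p :: W) = (p.1 ++ [V.b.lt] ++ p.1.reverse ++
          (p.2 ++ [V.b.lt] ++ p.2.reverse)) ++ jw .b W := rfl
  unfold size
  rw [e2]
  simp only [List.length_append, List.length_reverse, List.length_cons, List.length_nil]
  omega

theorem size_cj (e : Bool) (W : List (List Lt × List Lt)) : size (cj e W) ≤ 3 * size W := by
  cases e
  · show size W ≤ 3 * size W
    omega
  · induction W with
    | nil => exact Nat.zero_le _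
    | cons p W ih =>
      have h1 : cj true (p :: W) = (Lt.A :: p.1, Lt.A :: p.2) :: cj true W := rfl
      rw [h1, size_cons, size_cons]
      simp only [List.length_cons]
      omega

theorem ais (f : P) (x : List Bool) : f (f⁻¹ x) = x := f.apply_symm_apply x

theorem ta_app {n : ℕ} {E : P} (hE : TA E) (X y : List Bool) (hX : X.length = n) :
    ∃ z, E (X ++ y) = E X ++ z := by
  refine ⟨(E (X ++ y)).drop n, ?_⟩
  have h1 : (E (X ++ y)).take n = E X := by
    rw [hE.2, ← hX, List.take_left]
  rw [← h1, List.take_append_drop]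

/-- `F` acts as `f` below the special words of length `n`, and trivially below the others -/
def Loc (n : ℕ) (sp : List Bool → Prop) (F f : P) : Prop :=
  (∀ X y : List Bool, X.length = n → sp X → F (X ++ y) = X ++ f y) ∧
  ∀ X y : List Bool, X.length = n → ¬ sp X → F (X ++ y) = X ++ y

theorem Loc.inv {n : ℕ} {sp : List Bool → Prop} {F f : P} (h : Loc n sp F f) :
    Loc n sp F⁻¹ f⁻¹ := by
  refine ⟨fun X y hX hs => ?_, fun X y hX hs => ?_⟩
  · rw [Equiv.Perm.inv_eq_iff_eq, h.1 X _ hX hs, ais]
  · rw [Equiv.Perm.inv_eq_iff_eq, h.2 X _ hX hs]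

theorem comm_local {n : ℕ} {F G E f g : P} (sp : List Bool → Prop) [DecidablePred sp]
    (q : List Bool → Bool) (hF : Loc n sp F f)
    (hG : Loc n sp G g) (hE : TA E) (hE' : TA E⁻¹)
    (h0 : ∀ X y, X.length = n → sp X → q X = false → E (X ++ y) = X ++ y)
    (h1 : ∀ X, X.length = n → sp X → q X = true → ¬ sp (E⁻¹ X)) :
    ∀ X y, X.length = n → ((F * E * F⁻¹ * E⁻¹) * G * (F * E * F⁻¹ * E⁻¹)⁻¹ * G⁻¹) (X ++ y) =
      X ++ (if sp X ∧ q X = true then (f * g * f⁻¹ * g⁻¹) y else y) := by
  intro X y hX
  set c : P := F * E * F⁻¹ * E⁻¹ with hc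
  by_cases hs : sp X
  · by_cases hq : q X = true
    · -- `c` acts as `f` below `X`
      have hcX : ∀ z, c (X ++ z) = X ++ f z := by
        intro z
        obtain ⟨z', hz'⟩ := ta_app hE' X z hX
        have hX' : (E⁻¹ X).length = n := by rw [hE'.1, hX]
        have e1 : F⁻¹ (E⁻¹ X ++ z') = E⁻¹ X ++ z' := hF.inv.2 _ _ hX' (h1 X hX hs hq)
        have e2 : E (E⁻¹ X ++ z') = X ++ z := by
          rw [← hz', ais]
        rw [hc, Equiv.Perm.mul_apply, Equiv.Perm.mul_apply, Equiv.Perm.mul_apply, hz', e1, e2,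
          hF.1 _ _ hX hs]
      have hcX' : ∀ z, c⁻¹ (X ++ z) = X ++ f⁻¹ z := by
        intro z
        rw [Equiv.Perm.inv_eq_iff_eq, hcX, ais]
      rw [if_pos ⟨hs, hq⟩, Equiv.Perm.mul_apply, Equiv.Perm.mul_apply, Equiv.Perm.mul_apply,
        hG.inv.1 _ _ hX hs, hcX', hG.1 _ _ hX hs, hcX]
      rfl
    · have hq' : q X = false := by simpa using hq
      have hE0 : ∀ z, E⁻¹ (X ++ z) = X ++ z := by
        intro z
        rw [Equiv.Perm.inv_eq_iff_eq, h0 X z hX hs hq']
      have hcX : ∀ z, c (X ++ z) = X ++ z := by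
        intro z
        rw [hc, Equiv.Perm.mul_apply, Equiv.Perm.mul_apply, Equiv.Perm.mul_apply, hE0,
          hF.inv.1 _ _ hX hs, h0 X _ hX hs hq', hF.1 _ _ hX hs, ais]
      have hcX' : ∀ z, c⁻¹ (X ++ z) = X ++ z := by
        intro z
        rw [Equiv.Perm.inv_eq_iff_eq, hcX]
      rw [if_neg (fun h => hq h.2), Equiv.Perm.mul_apply, Equiv.Perm.mul_apply,
        Equiv.Perm.mul_apply, hG.inv.1 _ _ hX hs, hcX', hG.1 _ _ hX hs, ais, hcX]
  · have hG0 : ∀ z, G (X ++ z) = X ++ z := fun z => hG.2 _ _ hX hs
    have hG0' : ∀ z, G⁻¹ (X ++ z) = X ++ z := fun z => hG.inv.2 _ _ hX hs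
    have hcz : ∃ z, c⁻¹ (X ++ y) = X ++ z := by
      have e0 : c⁻¹ = E * F * E⁻¹ * F⁻¹ := by rw [hc]; group
      obtain ⟨z', hz'⟩ := ta_app hE' X y hX
      have hX' : (E⁻¹ X).length = n := by rw [hE'.1, hX]
      have e1 : F⁻¹ (X ++ y) = X ++ y := hF.inv.2 _ _ hX hs
      have e2 : ∃ z'', F (E⁻¹ X ++ z') = E⁻¹ X ++ z'' := by
        by_cases h : sp (E⁻¹ X)
        · exact ⟨_, hF.1 _ _ hX' h⟩
        · exact ⟨_, hF.2 _ _ hX' h⟩
      obtain ⟨z'', hz''⟩ := e2
      obtain ⟨z, hz⟩ := ta_app hE (E⁻¹ X) z'' hX'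
      refine ⟨z, ?_⟩
      rw [e0, Equiv.Perm.mul_apply, Equiv.Perm.mul_apply, Equiv.Perm.mul_apply, e1, hz',
        hz'', hz, ais]
    obtain ⟨z, hz⟩ := hcz
    rw [if_neg (fun h => hs h.1), Equiv.Perm.mul_apply, Equiv.Perm.mul_apply,
      Equiv.Perm.mul_apply, hG0', hz, hG0, ← hz, ais]

/-- the special words for `t` -/
def spec (k : ℕ) (t X : List Bool) : Prop := X.drop k = pa (cz (X.take k)) t

instance (k : ℕ) (t : List Bool) : DecidablePred (spec k t) := fun X => by
  unfold spec; infer_instance

theorem conj_comm (e : Bool) (f1 f2 : P) :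
    (pa e * f1 * pa e) * (pa e * f2 * pa e) * (pa e * f1 * pa e)⁻¹ * (pa e * f2 * pa e)⁻¹ =
      pa e * (f1 * f2 * f1⁻¹ * f2⁻¹) * pa e := by
  have h1 := pa_sq e
  have h2 : (pa e)⁻¹ = pa e := by rw [inv_eq_iff_mul_eq_one, h1]
  have h3 : ∀ g : P, pa e * (pa e * g) = g := fun g => by rw [← mul_assoc, h1, one_mul]
  simp only [mul_inv_rev, h2, mul_assoc, h3]

/-- the element for one `t` -/
theorem one_t (hDG : S_DG) (s B : ℕ) (hs : 1 ≤ s) (L : ℕ)
    (hJT : ∀ (η : Om) (t : List Bool) (W : List (List Lt × List Lt)), t.length = s → size W ≤ 3 * L →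
      ∃ w : List Lt, w.length ≤ B ∧ EvC w ∧
        (∀ y, evo η w (t ++ y) = t ++ evo (shi s η) (jw (kil (η (s - 1))) W) y) ∧
        (∀ t' y, t'.length = s → t' ≠ t → evo η w (t' ++ y) = t' ++ y))
    (ω : Om) (k : ℕ) (t : List Bool) (ht : t.length = s) (W : List (List Lt × List Lt))
    (hW : size W ≤ L) :
    ∃ F : List Lt, F.length ≤ (2 * B + 3) * ell ω k ∧
      Loc (k + s) (spec k t) (evo ω F)
        (pa (cz t) * evo (shi (k + s) ω) (jw (kil (ω (k + s - 1))) W) * pa (cz t)) := by
  obtain ⟨w, hw1, hw2, hw3, hw4⟩ := hJT (shi k ω) t (cj (cz t) W) ht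
    ((size_cj _ _).trans (by omega))
  obtain ⟨F, hF1, hF2⟩ := hDG ω k w hw2
  have e1 : shi s (shi k ω) = shi (k + s) ω := by
    funext n
    unfold shi
    congr 1
    omega
  have e2 : shi k ω (s - 1) = ω (k + s - 1) := by
    unfold shi
    congr 1
    omega
  rw [e1, e2] at hw3
  have key : ∀ X y : List Bool, X.length = k + s →
      evo ω F (X ++ y) = X.take k ++ pa (cz (X.take k)) (evo (shi k ω) w
        (pa (cz (X.take k)) (X.drop k) ++ y)) := by
    intro X y hX
    have h1 : (X.take k).length = k := by rw [List.length_take]; omega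
    have h2 : (X.drop k).length = s := by rw [List.length_drop]; omega
    have h3 := hF2 (X.take k) (X.drop k ++ y) h1
    rw [← List.append_assoc, List.take_append_drop] at h3
    rw [h3, Equiv.Perm.mul_apply, Equiv.Perm.mul_apply, pa_append _ _ _ (by omega)]
  refine ⟨F, hF1.trans (Nat.mul_le_mul_right _ (by omega)), fun X y hX hsp => ?_,
    fun X y hX hsp => ?_⟩
  · have h2 : (X.drop k).length = s := by rw [List.length_drop]; omega
    unfold spec at hsp
    rw [key X y hX]
    have h4 : pa (cz (X.take k)) (X.drop k) = t := by rw [hsp, pa_pa]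
    rw [h4, hw3, pa_append _ _ _ (by omega), ← hsp, ← List.append_assoc,
      List.take_append_drop, evo_jw_cj]
  · have h2 : (X.drop k).length = s := by rw [List.length_drop]; omega
    rw [key X y hX]
    have h4 : pa (cz (X.take k)) (X.drop k) ≠ t := by
      intro h
      apply hsp
      unfold spec
      rw [← h, pa_pa]
    rw [hw4 _ _ (by rw [pa_len, h2]) h4, pa_append _ _ _ (by rw [pa_len]; omega), pa_pa,
      ← List.append_assoc, List.take_append_drop]

theorem ta_inv (ω : Om) (w : List Lt) : TA (evo ω w)⁻¹ := by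
  rw [← evo_reverse]
  exact ta_evo ω _

/-- the commutator for one `t` -/
theorem comm_t (hDG : S_DG) (s B : ℕ) (hs : 1 ≤ s) (L : ℕ)
    (hJT : ∀ (η : Om) (t : List Bool) (W : List (List Lt × List Lt)), t.length = s → size W ≤ 3 * L →
      ∃ w : List Lt, w.length ≤ B ∧ EvC w ∧
        (∀ y, evo η w (t ++ y) = t ++ evo (shi s η) (jw (kil (η (s - 1))) W) y) ∧
        (∀ t' y, t'.length = s → t' ≠ t → evo η w (t' ++ y) = t' ++ y))
    (ω : Om) (k D N : ℕ) (hD : D + 1 ≤ s) (t : List Bool) (ht : t.length = s)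
    (W1 W2 : List (List Lt × List Lt)) (hW1 : size W1 ≤ L) (hW2 : size W2 ≤ L)
    (hH : Hyb ω k D N) (q : List Bool → Bool) :
    ∃ c : List Lt, c.length ≤ 4 * N + 6 * ((2 * B + 3) * ell ω k) ∧
      ∀ X y : List Bool, X.length = k + s → evo ω c (X ++ y) =
        X ++ (if spec k t X ∧ q X = true then
          (pa (cz t) * evo (shi (k + s) ω) (comw (jw (kil (ω (k + s - 1))) W1)
            (jw (kil (ω (k + s - 1))) W2)) * pa (cz t)) y else y) := by
  obtain ⟨wF, hF1, hF2⟩ := one_t hDG s B hs L hJT ω k t ht W1 hW1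
  obtain ⟨wG, hG1, hG2⟩ := one_t hDG s B hs L hJT ω k t ht W2 hW2
  obtain ⟨wE, hE1, hE2, hE3⟩ := hH (fun x => q (x ++ pa (cz x) t))
  refine ⟨comw (comw wF wE) wG, ?_, fun X y hX => ?_⟩
  · unfold comw
    simp only [List.length_append, List.length_reverse]
    omega
  · have hq : ∀ X : List Bool, spec k t X → q (X.take k ++ pa (cz (X.take k)) t) = q X := by
      intro X h
      unfold spec at h
      rw [← h, List.take_append_drop]
    have h0 : ∀ X y, X.length = k + s → spec k t X → q X = false →
        evo ω wE (X ++ y) = X ++ y := by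
      intro X y hX hsp hqX
      have h1 := hE2 (X.take k) (X.drop k ++ y) (by rw [List.length_take]; omega)
        (by rw [hq X hsp, hqX])
      rwa [← List.append_assoc, List.take_append_drop] at h1
    have h1 : ∀ X, X.length = k + s → spec k t X → q X = true →
        ¬ spec k t ((evo ω wE)⁻¹ X) := by
      intro X hX hsp hqX hsp'
      have hTA := ta_inv ω wE
      set X' := (evo ω wE)⁻¹ X with hX'
      set v := X.take (k + D + 1) with hv
      have hvl : v.length = k + D + 1 := by rw [hv, List.length_take]; omega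
      have hvne : v ≠ [] := by
        intro h
        rw [h] at hvl
        simp at hvl
      have hvd := List.dropLast_append_getLast hvne
      set u := v.dropLast with hu
      set b := v.getLast hvne with hb
      have hul : u.length = k + D := by rw [hu, List.length_dropLast, hvl]; omega
      have huk : u.take k = X.take k := by
        have h2 : v.take k = X.take k := by rw [hv, List.take_take, min_eq_left (by omega)]
        rw [← h2, ← hvd, List.take_append_of_le_length (by omega)]
      have h3 := A_inv_lab hE3 u hul b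
      have h4 : X'.take (k + D + 1) = (evo ω wE)⁻¹ v := by rw [hX', hTA.2]
      have h5 : q (u.take k ++ pa (cz (u.take k)) t) = true := by rw [huk, hq X hsp, hqX]
      simp only [h5] at h3
      rw [hvd] at h3
      rw [h3] at h4
      have h6 : X'.take k = X.take k := by
        have h7 : (X'.take (k + D + 1)).take k = X'.take k := by
          rw [List.take_take, min_eq_left (by omega)]
        rw [← h7, h4, List.take_append_of_le_length (by omega), huk]
      have h8 : X' = X := by
        unfold spec at hsp hsp'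
        rw [← List.take_append_drop k X', hsp', h6, ← hsp, List.take_append_drop]
      rw [h8, ← hv, ← hvd] at h4
      have h9 := List.append_cancel_left h4
      cases b <;> simp at h9
    rw [evo_comw, evo_comw, comm_local (spec k t) q hF2 hG2 (ta_evo ω wE) (ta_inv ω wE) h0 h1 X y hX,
      conj_comm, ← evo_comw]

end STEP

open STEP in
theorem t_STEP : S_DG → S_JT → S_STEP := by
  intro hDG hJT S L
  have hB : ∀ s : ℕ, ∃ B : ℕ, 1 ≤ s → ∀ (η : Om) (t : List Bool)
      (W : List (List Lt × List Lt)), t.length = s → size W ≤ 3 * L →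
      ∃ w : List Lt, w.length ≤ B ∧ EvC w ∧
        (∀ y, evo η w (t ++ y) = t ++ evo (shi s η) (jw (kil (η (s - 1))) W) y) ∧
        (∀ t' y, t'.length = s → t' ≠ t → evo η w (t' ++ y) = t' ++ y) := by
    intro s
    by_cases hs : 1 ≤ s
    · obtain ⟨B, h⟩ := hJT s (3 * L) hs
      exact ⟨B, fun _ => h⟩
    · exact ⟨0, fun h => absurd h hs⟩
  choose B hB using hB
  refine ⟨∑ s ∈ Finset.range (S + 1), 6 * (2 * B s + 3), ?_⟩
  intro ω k D N s W1 W2 hD hsS hW1 hW2 hH q
  have hs : 1 ≤ s := by omega
  set C := ∑ s ∈ Finset.range (S + 1), 6 * (2 * B s + 3) with hC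
  have hCs : 6 * (2 * B s + 3) ≤ C :=
    Finset.single_le_sum (f := fun s => 6 * (2 * B s + 3)) (fun _ _ => Nat.zero_le _)
      (Finset.mem_range.2 (by omega))
  set M := 4 * N + C * ell ω k with hM
  set κ := comw (jw (kil (ω (k + s - 1))) W1) (jw (kil (ω (k + s - 1))) W2) with hκ
  have hct : ∀ t : List Bool, t.length = s → ∃ c : List Lt, c.length ≤ M ∧
      ∀ X y : List Bool, X.length = k + s → evo ω c (X ++ y) =
        X ++ (if spec k t X ∧ q X = true then
          (pa (cz t) * evo (shi (k + s) ω) κ * pa (cz t)) y else y) := by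
    intro t ht
    obtain ⟨c, hc1, hc2⟩ := comm_t hDG s (B s) hs L (hB s hs) ω k D N hD t ht W1 W2 hW1 hW2 hH q
    refine ⟨c, hc1.trans ?_, hc2⟩
    rw [hM]
    have h1 : 6 * ((2 * B s + 3) * ell ω k) = 6 * (2 * B s + 3) * ell ω k := by ring
    rw [h1]
    exact Nat.add_le_add_left (Nat.mul_le_mul_right _ hCs) _
  -- the product over a list of words
  have hlist : ∀ l : List (List Bool), l.Nodup → (∀ t ∈ l, t.length = s) →
      ∃ w : List Lt, w.length ≤ l.length * M ∧ ∀ X y : List Bool, X.length = k + s →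
        evo ω w (X ++ y) = X ++ (if pa (cz (X.take k)) (X.drop k) ∈ l ∧ q X = true then
          (pa (cz X) * evo (shi (k + s) ω) κ * pa (cz X)) y else y) := by
    intro l
    induction l with
    | nil =>
      intro _ _
      refine ⟨[], by simp, fun X y _ => ?_⟩
      rw [evo_nil]
      simp
    | cons t l ih =>
      intro hnd hl
      rw [List.nodup_cons] at hnd
      have ht : t.length = s := hl t (by simp)
      obtain ⟨w, hw1, hw2⟩ := ih hnd.2 (fun t' h => hl t' (by simp [h]))
      obtain ⟨c, hc1, hc2⟩ := hct t ht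
      refine ⟨c ++ w, ?_, fun X y hX => ?_⟩
      · rw [List.length_append, List.length_cons]
        have : (l.length + 1) * M = M + l.length * M := by ring
        omega
      · rw [evo_append, Equiv.Perm.mul_apply, hw2 X y hX, hc2 X _ hX]
        congr 1
        have hdl : (X.drop k).length = s := by rw [List.length_drop]; omega
        by_cases hsp : spec k t X
        · have h1 : pa (cz (X.take k)) (X.drop k) = t := by
            unfold spec at hsp
            rw [hsp, pa_pa]
          have h2 : cz t = cz X := by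
            rw [← h1, cz_pa _ _ (by omega), Bool.xor_comm, ← cz_append, List.take_append_drop]
          rw [h1, h2]
          by_cases hq : q X = true
          · rw [if_pos ⟨hsp, hq⟩, if_neg (fun h => hnd.1 h.1), if_pos ⟨by simp, hq⟩]
          · rw [if_neg (fun h => hq h.2), if_neg (fun h => hq h.2), if_neg (fun h => hq h.2)]
        · rw [if_neg (fun h => hsp h.1)]
          have h1 : pa (cz (X.take k)) (X.drop k) ≠ t := by
            intro h
            apply hsp
            unfold spec
            rw [← h, pa_pa]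
          simp only [List.mem_cons, h1, false_or]
  have hinj : Function.Injective (fun v : List.Vector Bool s => v.1) := fun _ _ h => Subtype.ext h
  obtain ⟨w, hw1, hw2⟩ := hlist ((Finset.univ : Finset (List.Vector Bool s)).toList.map
    fun v => v.1) (List.Nodup.map hinj (Finset.nodup_toList _)) (by
      intro t ht
      obtain ⟨v, -, rfl⟩ := List.mem_map.1 ht
      exact v.2)
  refine ⟨w, ?_, fun X y hX => ?_⟩
  · rw [List.length_map, Finset.length_toList, Finset.card_univ, card_vector,
      Fintype.card_bool] at hw1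
    exact hw1
  · rw [hw2 X y hX]
    have hdl : (X.drop k).length = s := by rw [List.length_drop]; omega
    have hmem : pa (cz (X.take k)) (X.drop k) ∈
        ((Finset.univ : Finset (List.Vector Bool s)).toList.map fun v => v.1) := by
      rw [List.mem_map]
      exact ⟨⟨pa (cz (X.take k)) (X.drop k), by rw [pa_len, hdl]⟩,
        Finset.mem_toList.2 (Finset.mem_univ _), rfl⟩
    congr 1
    by_cases hq : q X = true
    · rw [if_pos ⟨hmem, hq⟩, if_pos hq]
    · rw [if_neg (fun h => hq h.2), if_neg hq]

end Pool.Agent.U640.BG
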