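import Pool.Agent.U640.BG.XStm

set_option autoImplicit false

namespace Pool.Agent.U640.BG

open Pool.Agent.Results.MP_03d093_al.SphereBall Pool.Agent.H776R2.Grig Pool.Agent.H776R2.Om

namespace KIaux

theorem colz (f : Fin 3) : col f (kil f) = false := by
  fin_cases f <;> rfl

theorem coly (f : Fin 3) (y : V) (h : y ≠ kil f) : col f y = true := by
  fin_cases f <;> cases y <;> first | rfl | exact absurd rfl h

theorem a_app (w : List Bool) : a w = aFun w := rfl

/-- `a z a` commutes with `z` -/
theorem h1 (η : Om) : a * xx η (kil (η 0)) * a * xx η (kil (η 0)) =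
    xx η (kil (η 0)) * (a * xx η (kil (η 0)) * a) := by
  ext1 w
  simp only [Equiv.Perm.mul_apply, xx_apply, a_app]
  rcases w with _ | ⟨x, w⟩
  · simp [xFun, aFun]
  · cases x
    · simp [xFun, aFun, colz]
    · simp [xFun, aFun, colz]

/-- `z` commutes with `a y a z a y a` -/
theorem h2 (η : Om) (h : η 1 = η 0) (y : V) (hy : y ≠ kil (η 0)) :
    xx η (kil (η 0)) * (a * xx η y * a * xx η (kil (η 0)) * (a * xx η y * a)) =
      a * xx η y * a * xx η (kil (η 0)) * (a * xx η y * a) * xx η (kil (η 0)) := by
  have hs : (sh η) 0 = η 0 := h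
  ext1 w
  simp only [Equiv.Perm.mul_apply, xx_apply, a_app]
  have hin : ∀ w, xFun y (sh η) (xFun y (sh η) w) = w := fun w => xFun_invol y (sh η) w
  rcases w with _ | ⟨x, w⟩
  · simp [xFun, aFun]
  · cases x
    · simp [xFun, aFun, colz, coly _ _ hy, hin]
    · have e := congrArg (fun g : P => g w) (h1 (sh η))
      simp only [Equiv.Perm.mul_apply, xx_apply, a_app, hs] at e
      have hc : ∀ (x : Bool) (w : List Bool), aFun (x :: w) = (!x) :: w := fun _ _ => rfl
      simp only [xFun, hc, colz, coly _ _ hy, Bool.not_true, Bool.not_false, if_true, hin,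
        List.cons.injEq, true_and]
      exact e.symm

/-- the word in an abstract group -/
def ww {G : Type} [Group G] (a Y Z : G) : G :=
  a * Y * a * Z * (a * Y * a) * (Z * Y) * (a * Y * a * Z * (a * Y * a)) * (Z * Y)

theorem abs {G : Type} [Group G] (a Y Z Y' : G) (ha : a * a = 1) (hY : Y * Y = 1) (hZ : Z * Z = 1)
    (h3 : Y * Z = Y') (h4 : Z * Y = Y') (h5 : Z * Y' = Y) (hu : a * Z * a * Z = Z * (a * Z * a))
    (hg : Z * (a * Y * a * Z * (a * Y * a)) = a * Y * a * Z * (a * Y * a) * Z) :
    ww a Y Z = ww a Y' Z := by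
  have ha' : ∀ x, a * (a * x) = x := fun x => by rw [← mul_assoc, ha, one_mul]
  have hZ' : ∀ x, Z * (Z * x) = x := fun x => by rw [← mul_assoc, hZ, one_mul]
  have hY' : ∀ x, Y * (Y * x) = x := fun x => by rw [← mul_assoc, hY, one_mul]
  -- `ρ' z ρ' = ρ z ρ`
  have e1 : a * Y' * a * Z * (a * Y' * a) = a * Y * a * Z * (a * Y * a) := by
    calc a * Y' * a * Z * (a * Y' * a)
        = a * (Y * Z) * a * Z * (a * (Z * Y) * a) := by rw [h3, h4]
      _ = a * Y * a * (a * Z * a * Z) * (a * Z * a) * (a * Y * a) := by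
          simp only [mul_assoc, ha']
      _ = a * Y * a * (Z * (a * Z * a)) * (a * Z * a) * (a * Y * a) := by rw [hu]
      _ = a * Y * a * Z * (a * Y * a) := by
          simp only [mul_assoc, ha', hZ']
  set g := a * Y * a * Z * (a * Y * a) with hgd
  have e2 : ww a Y Z = g * Y' * g * Y' := by
    unfold ww
    rw [← hgd, h4]
  have e3 : ww a Y' Z = g * Y * g * Y := by
    unfold ww
    rw [e1, h5]
  rw [e2, e3]
  have e4 : Y' * g * Y' = Y * g * Y := by
    calc Y' * g * Y' = (Y * Z) * g * (Z * Y) := by rw [h3, h4]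
      _ = Y * (Z * g) * (Z * Y) := by simp only [mul_assoc]
      _ = Y * (g * Z) * (Z * Y) := by rw [hg]
      _ = Y * g * Y := by simp only [mul_assoc, hZ']
  calc g * Y' * g * Y' = g * (Y' * g * Y') := by simp only [mul_assoc]
    _ = g * (Y * g * Y) := by rw [e4]
    _ = _ := by simp only [mul_assoc]

theorem kap_false (η : Om) (y z : V) : evo η (kap y z false) = ww a (xx η y) (xx η z) := by
  have ha' : ∀ x : P, a * (a * x) = x := fun x => by
    rw [← mul_assoc, show (a : P) * a = 1 from gno_sq η .A, one_mul]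
  have hY' : ∀ x : P, xx η y * (xx η y * x) = x := fun x => by rw [← mul_assoc, xx_sq, one_mul]
  simp only [kap, comw, jw, cj, Wf, Wt, evo, ww, Bool.false_eq_true, if_false, List.flatMap_cons,
    List.flatMap_nil, List.append_nil, List.map_append, List.map_cons, List.map_nil,
    List.prod_append, List.prod_cons, List.prod_nil, List.reverse_append, List.reverse_cons,
    List.reverse_nil, List.nil_append, List.cons_append, gno_lt, mul_one, mul_assoc,
    show gno η Lt.A = a from rfl, ha', hY']

theorem kap_true (η : Om) (y z : V) : evo η (kap y z true) = a * ww a (xx η y) (xx η z) * a := by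
  have ha : (a : P) * a = 1 := gno_sq η .A
  have ha' : ∀ x : P, a * (a * x) = x := fun x => by
    rw [← mul_assoc, ha, one_mul]
  have hY' : ∀ x : P, xx η y * (xx η y * x) = x := fun x => by rw [← mul_assoc, xx_sq, one_mul]
  simp only [kap, comw, jw, cj, Wf, Wt, evo, ww, if_true, List.flatMap_cons,
    List.flatMap_nil, List.append_nil, List.map_append, List.map_cons, List.map_nil,
    List.prod_append, List.prod_cons, List.prod_nil, List.reverse_append, List.reverse_cons,
    List.reverse_nil, List.nil_append, List.cons_append, gno_lt, mul_one, mul_assoc,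
    show gno η Lt.A = a from rfl, ha', hY', ha]

/-- `κ` does not depend on the choice of `y` -/
theorem main (η : Om) (h : η 1 = η 0) (y y' : V) (hy : y ≠ kil (η 0)) (hy' : y' ≠ kil (η 0))
    (e : Bool) : evo η (kap y (kil (η 0)) e) = evo η (kap y' (kil (η 0)) e) := by
  rcases eq_or_ne y y' with rfl | hne
  · rfl
  have key : ww a (xx η y) (xx η (kil (η 0))) = ww a (xx η y') (xx η (kil (η 0))) :=
    abs a (xx η y) (xx η (kil (η 0))) (xx η y') (gno_sq η .A) (xx_sq η y) (xx_sq η _)
      (xx_mul η y (kil (η 0)) y' hy hy'.symm hne)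
      (xx_mul η (kil (η 0)) y y' hy.symm hne hy'.symm)
      (xx_mul η (kil (η 0)) y' y hy'.symm hne.symm hy.symm) (h1 η) (h2 η h y hy)
  cases e
  · rw [kap_false, kap_false, key]
  · rw [kap_true, kap_true, key]

end KIaux

theorem t_KI : S_KI :=
  fun η y y' e h hy hy' => KIaux.main η (h 1 (by norm_num)) y y' hy hy' e

end Pool.Agent.U640.BG
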