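import Pool.Agent.U640.BG.XStm
import Pool.Agent.U640.BG.LOC

set_option autoImplicit false

/-! Project BG3, package LX0 (helper603): exact form of LOC. -/

namespace Pool.Agent.U640.BG

open Pool.Agent.Results.MP_03d093_al.SphereBall Pool.Agent.H776R2.Grig Pool.Agent.H776R2.Om

section

variable {T Z : P} {R : ℕ}

theorem LX0_side (H : LOC_H T Z R) (R' n : ℕ) (h3 : 3 ≤ R') (hR : R' ≤ R) (hn : n = 2 ^ (R' - 1))
    (p : List Bool → Bool) (v : List Bool) (hv : v.length = R') (j : ℕ) (hj : j < n)
    (hjv' : (T ^ j) v = List.replicate R' true) : ∀ u, LOC_A T Z R' p (v ++ u) =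
      LOC_pw (LOC_Z T Z j) (p v) (LOC_pw (LOC_Z T Z (j + n)) (p v) (v ++ u)) := by
  obtain ⟨r, rfl⟩ : ∃ r, R' = r + 3 := ⟨R' - 3, by omega⟩
  have hn' : n = 2 ^ (r + 2) := by rw [hn]; rfl
  have hn4 : n = 4 * 2 ^ r := by rw [hn', pow_add]; ring
  have h2r : 1 ≤ 2 ^ r := Nat.one_le_two_pow
  have h2n : 2 ^ (r + 3) - 2 = 2 * n - 2 := by
    rw [hn', show r + 3 = (r + 2) + 1 by omega, pow_succ]
    omega
  obtain ⟨Pp, hPp⟩ : ∃ Pp : ℕ → Bool, Pp = fun l => p ((T ^ l)⁻¹ (List.replicate (r + 3) true)) :=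
    ⟨_, rfl⟩
  have hTn : Lab (r + 3) (fun _ => true) (T ^ n) := by
    rw [hn']
    exact H.tl (r + 2) (by omega)
  have hTnf : ∀ x : List Bool, x.length = r + 3 → (T ^ n) x = x := fun x hx =>
    A_fix (LOC_ta_pow H.tT n) hTn x hx
  have hper : ∀ l, Pp (l + n) = Pp l := by
    intro l
    rw [hPp]
    show p _ = p _
    congr 1
    rw [Equiv.Perm.inv_eq_iff_eq, pow_add, Equiv.Perm.mul_apply, hTnf, LOC_ai]
    rw [(LOC_ta_inv (LOC_ta_pow H.tT l)).1]
    simp
  have hPj : Pp j = p v := by
    rw [hPp]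
    show p _ = p _
    congr 1
    rw [Equiv.Perm.inv_eq_iff_eq, hjv']
  have hPjn : Pp (j + n) = p v := by rw [hper, hPj]
  have hq : ∀ l, LOC_q Pp (l + 1) = xor (Pp l) (if l = 0 then false else LOC_q Pp (l - 1)) := by
    intro l
    cases l with
    | zero =>
      show Pp 0 = _
      simp
    | succ l =>
      show xor (Pp (l + 1)) (LOC_q Pp l) = _
      simp
  obtain ⟨hz1, hz2⟩ := LOC_q_zero Pp (2 * 2 ^ r - 1) (by
    rw [show 2 * (2 * 2 ^ r - 1) + 2 = n by omega]
    exact hper)
  rw [show 2 * (2 * 2 ^ r - 1) + 2 = n by omega] at hz1 hz2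
  intro u
  unfold LOC_A
  rw [h2n, ← hPp]
  rw [LOC_core n j (by omega) hj (LOC_Z T Z) (fun w => w.take (r + 3) = v) ?_ ?_
    (LOC_Z_inv H) (LOC_q Pp) Pp rfl hq (2 * n - 2) le_rfl (v ++ u) ?_]
  · rw [LOC_e3 _ _ (l := j) (by omega), hPj]
    have : LOC_e (LOC_q Pp) Pp (j + n) (2 * n - 2) = p v := by
      rcases le_or_gt (j + n + 1) (2 * n - 2) with h | h
      · rw [LOC_e3 _ _ h, hPjn]
      · rw [LOC_e2' _ _ (by omega) (by omega) (by omega), ← hPjn]
        have h1 := hq (j + n)
        rw [if_neg (by omega)] at h1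
        have h2 : LOC_q Pp (j + n + 1) = false := by
          have : j + n + 1 = 2 * n - 1 ∨ j + n + 1 = 2 * n := by omega
          rcases this with h | h
          · rw [h, hz1]
          · rw [h, hz2]
        rw [h2] at h1
        cases h4 : Pp (j + n) <;> cases h5 : LOC_q Pp (j + n - 1) <;> rw [h4, h5] at h1 <;>
          simp at h1 ⊢
    rw [this]
  · intro m w hw
    show (LOC_Z T Z m w).take (r + 3) = v
    rw [(LOC_Z_ta H m).2, LOC_short (LOC_Z_ta H m) (LOC_Z_lab H m), hw]
    rw [List.length_take]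
    omega
  · intro m hm hm1 hm2 w hw
    refine LOC_Z_fix H (k := r + 3) (by omega) m w ?_
    have hw' : w.take (r + 3) = v := hw
    rw [hw']
    intro h
    rcases lt_trichotomy m j with h1 | h1 | h1
    · have h2 : (T ^ (j - m)) (List.replicate (r + 3) true) = List.replicate (r + 3) true := by
        conv_lhs => rw [← h]
        rw [← Equiv.Perm.mul_apply, ← pow_add, show j - m + m = j by omega, hjv']
      have h4 := LOC_free H (m := r + 2) (by omega) _ (by simp) h2
      rw [← hn'] at h4
      exact absurd (Nat.le_of_dvd (by omega) h4) (by omega)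
    · exact hm1 h1
    · have h2 : (T ^ (m - j)) (List.replicate (r + 3) true) = List.replicate (r + 3) true := by
        conv_lhs => rw [← hjv']
        rw [← Equiv.Perm.mul_apply, ← pow_add, show m - j + j = m by omega, h]
      have h4 := LOC_free H (m := r + 2) (by omega) _ (by simp) h2
      rw [← hn'] at h4
      obtain ⟨c, hc⟩ := h4
      have h5 : c = 1 := by
        rcases Nat.lt_or_ge c 2 with h6 | h6
        · rcases Nat.eq_zero_or_pos c with h7 | h7
          · rw [h7] at hc; omega
          · omega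
        · have : n * 2 ≤ n * c := Nat.mul_le_mul_left _ h6
          omega
      rw [h5] at hc
      omega
  · show (v ++ u).take (r + 3) = v
    rw [List.take_append_of_le_length (by omega), List.take_of_length_le (by omega)]


end

/-! ### Sections of the powers of `a y` -/

theorem LX0_aY2 {Y Y' : P} (h : Sec Y a Y') (w : List Bool) :
    ((a * Y) ^ 2) (true :: w) = true :: (a * Y') w := by
  rw [pow_two]
  show a (Y (a (Y (true :: w)))) = _
  rw [(h w).2, a_apply (true :: _)]
  show a (Y (false :: Y' w)) = _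
  rw [(h _).1]
  rfl

theorem LX0_even {Y Y' : P} (h : Sec Y a Y') (i : ℕ) (w : List Bool) :
    ((a * Y) ^ (2 * i)) (true :: w) = true :: ((a * Y') ^ i) w := by
  induction i generalizing w with
  | zero => rfl
  | succ i ih =>
    rw [show 2 * (i + 1) = 2 * i + 2 by ring, pow_add, Equiv.Perm.mul_apply, LX0_aY2 h, ih, pow_succ]
    rfl

theorem LX0_odd {Y Y' : P} (h : Sec Y a Y') (i : ℕ) (w : List Bool) :
    ((a * Y) ^ (2 * i + 1)) (true :: w) = false :: (a (((a * Y') ^ (i + 1)) w)) := by
  rw [pow_succ', Equiv.Perm.mul_apply, LX0_even h, Equiv.Perm.mul_apply, (h _).2]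
  show false :: Y' _ = _
  rw [pow_succ' (a * Y'), Equiv.Perm.mul_apply, Equiv.Perm.mul_apply, a_apply, a_apply, aFun_invol]

theorem LX0_sec {η : Om} {R : ℕ} {y : V} (hη : ∀ n < R, η n = η 0) (hy : y ≠ kil (η 0)) (k : ℕ) :
    ∀ m, m + (k + 1) = R → ∀ i ≤ 2 ^ (k + 1), ∃ e f : Bool, ∀ u : List Bool,
      ((a * xx (shi m η) y) ^ i) (List.replicate (k + 1) true ++ u) =
        ((a * xx (shi m η) y) ^ i) (List.replicate (k + 1) true) ++
          (pa e * (if f then xx (shi R η) y else 1)) u := by
  induction k with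
  | zero =>
    intro m hm i hi
    have hY := LOC_secY hη hy (m := m) (by omega)
    have hm' : m + 1 = R := by omega
    rw [hm'] at hY
    have h0 : xx (shi R η) y [] = [] := rfl
    have hi' : i ≤ 2 := hi
    have hi3 : i = 0 ∨ i = 1 ∨ i = 2 := by omega
    rcases hi3 with rfl | rfl | rfl
    · exact ⟨false, false, fun u => rfl⟩
    · refine ⟨false, true, fun u => ?_⟩
      rw [pow_one]
      show a (xx (shi m η) y (true :: u)) = a (xx (shi m η) y [true]) ++ _
      rw [(hY u).2, LOC_xx_one]
      rfl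
    · refine ⟨true, true, fun u => ?_⟩
      show ((a * xx (shi m η) y) ^ 2) (true :: u) = ((a * xx (shi m η) y) ^ 2) [true] ++ _
      rw [LX0_aY2 hY, LX0_aY2 hY]
      rfl
  | succ k ih =>
    intro m hm i hi
    have hY := LOC_secY hη hy (m := m) (by omega)
    have hi' : i ≤ 2 ^ (k + 1) * 2 := by rw [← pow_succ]; exact hi
    rcases Nat.even_or_odd' i with ⟨i', rfl | rfl⟩
    · obtain ⟨e, f, h⟩ := ih (m + 1) (by omega) i' (by omega)
      refine ⟨e, f, fun u => ?_⟩
      show ((a * xx (shi m η) y) ^ (2 * i')) (true :: (List.replicate (k + 1) true ++ u)) =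
        ((a * xx (shi m η) y) ^ (2 * i')) (true :: List.replicate (k + 1) true) ++ _
      rw [LX0_even hY, LX0_even hY, h u]
      rfl
    · obtain ⟨e, f, h⟩ := ih (m + 1) (by omega) (i' + 1) (by omega)
      refine ⟨e, f, fun u => ?_⟩
      show ((a * xx (shi m η) y) ^ (2 * i' + 1)) (true :: (List.replicate (k + 1) true ++ u)) =
        ((a * xx (shi m η) y) ^ (2 * i' + 1)) (true :: List.replicate (k + 1) true) ++ _
      have hta : TA ((a * xx (shi (m + 1) η) y) ^ (i' + 1)) :=
        LOC_ta_pow (LOC_ta_mul ⟨fun v => A_afun_len v, fun v n => by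
          cases v <;> cases n <;> simp [a_apply, aFun]⟩ (LOC_ta_xx _ _)) _
      rw [LX0_odd hY, LX0_odd hY, h u, a_apply, a_apply, A_afun_append _ _
        (by rw [hta.1]; simp)]
      rfl

theorem LX0_full {η : Om} {R : ℕ} {y : V} (hη : ∀ n < R, η n = η 0) (hy : y ≠ kil (η 0)) (k : ℕ) :
    ∀ m, m + k = R → ∀ u : List Bool,
      ((a * xx (shi m η) y) ^ 2 ^ k) (List.replicate k true ++ u) =
        List.replicate k true ++ (a * xx (shi R η) y) u := by
  induction k with
  | zero =>
    intro m hm u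
    have : m = R := by omega
    subst this
    rw [pow_zero, pow_one]
    rfl
  | succ k ih =>
    intro m hm u
    have hY := LOC_secY hη hy (m := m) (by omega)
    rw [pow_succ' 2 k]
    show ((a * xx (shi m η) y) ^ (2 * 2 ^ k)) (true :: (List.replicate k true ++ u)) = _
    rw [LX0_even hY, ih (m + 1) (by omega)]
    rfl

theorem LX0_Z {η : Om} {R : ℕ} (hη : ∀ n < R, η n = η 0) (k : ℕ) :
    ∀ m, m + k = R → ∀ u : List Bool,
      xx (shi m η) (kil (η 0)) (List.replicate k true ++ u) =
        List.replicate k true ++ xx (shi R η) (kil (η 0)) u := by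
  induction k with
  | zero =>
    intro m hm u
    have : m = R := by omega
    subst this
    rfl
  | succ k ih =>
    intro m hm u
    have hZ := LOC_secZ hη (m := m) (by omega)
    show xx (shi m η) (kil (η 0)) (true :: (List.replicate k true ++ u)) = _
    rw [(hZ _).2, ih (m + 1) (by omega)]
    rfl

theorem LX0_main (T Z : P) (one v : List Bool) (j n : ℕ) (c t zz : P)
    (hc : ∀ u, (T ^ j)⁻¹ (one ++ u) = v ++ c u)
    (ht : ∀ u, (T ^ n)⁻¹ (one ++ u) = one ++ t u)
    (hz : ∀ u, Z (one ++ u) = one ++ zz u) (u : List Bool) :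
    LOC_Z T Z j (LOC_Z T Z (j + n) (v ++ u)) = v ++ (c * zz * t * zz * t⁻¹ * c⁻¹) u := by
  have h1 : ∀ u, (T ^ j) (v ++ u) = one ++ c⁻¹ u := by
    intro u
    have := hc (c⁻¹ u)
    rw [LOC_ai, Equiv.Perm.inv_eq_iff_eq] at this
    exact this.symm
  have h2 : ∀ u, (T ^ n) (one ++ u) = one ++ t⁻¹ u := by
    intro u
    have := ht (t⁻¹ u)
    rw [LOC_ai, Equiv.Perm.inv_eq_iff_eq] at this
    exact this.symm
  have e1 : ∀ w, (T ^ (j + n)) w = (T ^ n) ((T ^ j) w) := by
    intro w
    rw [add_comm, pow_add, Equiv.Perm.mul_apply]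
  have e2 : ∀ w, (T ^ (j + n))⁻¹ w = (T ^ j)⁻¹ ((T ^ n)⁻¹ w) := by
    intro w
    rw [add_comm, pow_add, mul_inv_rev, Equiv.Perm.mul_apply]
  rw [LOC_Z_apply, LOC_Z_apply, e1, e2, h1, h2, hz, ht, hc, h1, hz, hc]
  congr 1
  simp only [Equiv.Perm.mul_apply, LOC_ia]

theorem LX0_alg (A Y z : P) (c : P) (hA : A * A = 1) (hY : Y * Y = 1) (_hz : z * z = 1)
    (hYz : Y * z = z * Y) :
    c * z * (A * Y) * z * (A * Y)⁻¹ * c⁻¹ = c * (z * A * z * A) * c⁻¹ := by
  have hAi : A⁻¹ = A := inv_eq_of_mul_eq_one_left hA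
  have hYi : Y⁻¹ = Y := inv_eq_of_mul_eq_one_left hY
  rw [mul_inv_rev, hAi, hYi]
  congr 1
  calc c * z * (A * Y) * z * (Y * A) = c * z * A * (Y * z) * Y * A := by simp only [mul_assoc]
    _ = c * z * A * z * (Y * Y) * A := by rw [hYz]; simp only [mul_assoc]
    _ = c * (z * A * z * A) := by rw [hY, mul_one]; simp only [mul_assoc]

theorem LX0_T (η : Om) (y : V) (j : ℕ) :
    (evo η (Tw y) ^ j)⁻¹ = (a * xx η y) ^ (2 * j) := by
  rw [LOC_Teq, ← pow_mul, ← inv_pow, mul_inv_rev, J_xx_inv,
    inv_eq_of_mul_eq_one_left (J_a_sq)]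

theorem t_LX0 : S_LX0 := by
  intro η y R h3 hη hR hy
  have H := LOC_hyp hη hR hy
  obtain ⟨T, hT⟩ : ∃ T, T = evo η (Tw y) := ⟨_, rfl⟩
  obtain ⟨Z, hZ⟩ : ∃ Z, Z = xx η (kil (η 0)) := ⟨_, rfl⟩
  rw [← hT, ← hZ] at H
  -- the key fact
  have key : ∀ v : List Bool, v.length = R → v.take 1 = [true] → ∃ e f : Bool,
      ∀ (p : List Bool → Bool) (u : List Bool), LOC_A T Z R p (v ++ u) = v ++ (if p v then
        (pa e * (if f then xx (shi R η) y else 1) * evo (shi R η) (Tw (kil (η 0))) *
          (if f then xx (shi R η) y else 1) * pa e) u else u) := by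
    intro v hv hv1
    obtain ⟨r, rfl⟩ : ∃ r, R = r + 1 := ⟨R - 1, by omega⟩
    obtain ⟨j, hj, hjv⟩ := LOC_orbit H r (by omega) v hv hv1
    obtain ⟨e, f, hef⟩ := LX0_sec hη hy r 0 (by omega) (2 * j) (by rw [pow_succ]; omega)
    refine ⟨e, f, fun p u => ?_⟩
    rw [LX0_side H (r + 1) (2 ^ r) h3 le_rfl rfl p v hv j hj hjv]
    cases hp : p v
    · rfl
    · rw [LOC_pw_true, LOC_pw_true]
      have hc : ∀ u, (T ^ j)⁻¹ (List.replicate (r + 1) true ++ u) =
          v ++ (pa e * (if f then xx (shi (r + 1) η) y else 1)) u := by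
        intro u
        have h1 := hef u
        have h2 : ((a * xx (shi 0 η) y) ^ (2 * j)) (List.replicate (r + 1) true) = v := by
          have h3 : (T ^ j)⁻¹ (List.replicate (r + 1) true) = v := by
            rw [Equiv.Perm.inv_eq_iff_eq, hjv]
          rw [hT, LX0_T] at h3
          exact h3
        rw [h2] at h1
        rw [hT, LX0_T]
        exact h1
      have ht : ∀ u, (T ^ 2 ^ r)⁻¹ (List.replicate (r + 1) true ++ u) =
          List.replicate (r + 1) true ++ (a * xx (shi (r + 1) η) y) u := by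
        intro u
        have h1 := LX0_full hη hy (r + 1) 0 (by omega) u
        rw [hT, LX0_T, ← pow_succ']
        exact h1
      have hz : ∀ u, Z (List.replicate (r + 1) true ++ u) =
          List.replicate (r + 1) true ++ xx (shi (r + 1) η) (kil (η 0)) u := by
        intro u
        rw [hZ]
        exact LX0_Z hη (r + 1) 0 (by omega) u
      rw [LX0_main T Z _ v j (2 ^ r) _ _ _ hc ht hz u, LX0_alg a _ _ _ J_a_sq (xx_sq _ _) (xx_sq _ _)
        (J_xx_comm _ _ _)]
      have e1 : evo (shi (r + 1) η) (Tw (kil (η 0))) =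
          xx (shi (r + 1) η) (kil (η 0)) * a * xx (shi (r + 1) η) (kil (η 0)) * a := by
        rw [LOC_Teq, pow_two]
        simp only [mul_assoc]
      have e2 : (pa e * (if f then xx (shi (r + 1) η) y else 1))⁻¹ =
          (if f then xx (shi (r + 1) η) y else 1) * pa e := by
        rw [mul_inv_rev]
        congr 1
        · cases f
          · simp
          · simp only [if_true]
            exact J_xx_inv _ _
        · cases e
          · simp [pa]
          · exact inv_eq_of_mul_eq_one_left J_a_sq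
      rw [e1, e2]
      simp only [mul_assoc, if_true]
  have hsplit : ∀ v : List Bool, v.length = R → v.take 1 = [true] ∨ v.take 1 = [false] := by
    intro v hv
    cases v with
    | nil => simp at hv; omega
    | cons t v => cases t <;> simp
  have hav : ∀ v : List Bool, v.take 1 = [false] → (aFun v).take 1 = [true] := by
    intro v hv
    cases v with
    | nil => simp at hv
    | cons t v =>
      have : t = false := by simpa using hv
      subst this
      simp [aFun]
  have hloc : ∀ p : List Bool → Bool, locw η y (kil (η 0)) (fun e => LOC_q (fun l =>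
      (if e then (fun v => p (aFun v)) else p)
    ((T ^ l)⁻¹ (List.replicate R true)))) (2 ^ R - 2) =
      LOC_A T Z R p * (a * LOC_A T Z R (fun v => p (aFun v)) * a) := by
    intro p
    unfold locw
    rw [LOC_kap (R := R) (by omega) hη hR hy, ← hT, ← hZ, LOC_prl_eq, LOC_prl_eq]
    rfl
  -- words beginning with true
  have ht : ∀ (p : List Bool → Bool) (v u : List Bool), v.length = R → v.take 1 = [true] →
      (LOC_A T Z R p * (a * LOC_A T Z R (fun v => p (aFun v)) * a)) (v ++ u) =
        LOC_A T Z R p (v ++ u) := by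
    intro p v u hv hv1
    show LOC_A T Z R p (a (LOC_A T Z R (fun v => p (aFun v)) (a (v ++ u)))) = _
    rw [LOC_A_fix H (by omega) R _ (a (v ++ u))]
    · rw [a_apply, a_apply, aFun_invol]
    · cases v with
      | nil => simp at hv1
      | cons t v =>
        have : t = true := by simpa using hv1
        subst this
        simp [a_apply, aFun]
  have hf : ∀ (p : List Bool → Bool) (v u : List Bool), v.length = R → v.take 1 = [false] →
      (LOC_A T Z R p * (a * LOC_A T Z R (fun v => p (aFun v)) * a)) (v ++ u) =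
        aFun (LOC_A T Z R (fun v => p (aFun v)) (aFun v ++ u)) := by
    intro p v u hv hv1
    show LOC_A T Z R p (a (LOC_A T Z R (fun v => p (aFun v)) (a (v ++ u)))) = _
    rw [a_apply, a_apply, A_afun_append v u (by omega)]
    rw [LOC_A_fix H (by omega) R p]
    obtain ⟨w, hw⟩ : ∃ w, w = LOC_A T Z R (fun v => p (aFun v)) (aFun v ++ u) := ⟨_, rfl⟩
    have h1 := LOC_A_take H R (fun v => p (aFun v)) (aFun v ++ u)
    rw [← hw] at h1 ⊢
    cases v with
    | nil => simp at hv1
    | cons t v =>
      have : t = false := by simpa using hv1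
      subst this
      simp only [aFun, Bool.not_false, List.cons_append, List.take_succ_cons, List.take_zero] at h1
      cases w with
      | nil => simp at h1
      | cons t w =>
        have : t = true := by simpa using h1
        subst this
        simp [aFun]
  have all : ∀ v : List Bool, ∃ e f : Bool, v.length = R →
      ∀ (p : List Bool → Bool) (u : List Bool),
        (LOC_A T Z R p * (a * LOC_A T Z R (fun v => p (aFun v)) * a)) (v ++ u) =
        v ++ (if p v then
        (pa e * (if f then xx (shi R η) y else 1) * evo (shi R η) (Tw (kil (η 0))) *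
          (if f then xx (shi R η) y else 1) * pa e) u else u) := by
    intro v
    by_cases hv : v.length = R
    · rcases hsplit v hv with h | h
      · obtain ⟨e, f, hk⟩ := key v hv h
        refine ⟨e, f, fun _ p u => ?_⟩
        rw [ht p v u hv h, hk p u]
      · obtain ⟨e, f, hk⟩ := key (aFun v) (by rw [A_afun_len, hv]) (hav v h)
        refine ⟨e, f, fun _ p u => ?_⟩
        rw [hf p v u hv h, hk, A_afun_append (aFun v) _ (by rw [A_afun_len]; omega), aFun_invol]
    · exact ⟨false, false, fun h => absurd h hv⟩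
  choose e f hall using all
  refine ⟨fun p e => LOC_q (fun l => (if e then (fun v => p (aFun v)) else p)
    ((T ^ l)⁻¹ (List.replicate R true))), e, f, fun p v u hv => ?_⟩
  rw [hloc p, hall v hv p u]

end Pool.Agent.U640.BG
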