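import Pool.Agent.U640.BG.Stm

set_option autoImplicit false

/-! Project BG, third part: adjacent long runs, for all `ω`. -/

namespace Pool.Agent.U640.BG

open Pool.Agent.Results.MP_03d093_al.SphereBall Pool.Agent.H776R2.Grig Pool.Agent.H776R2.Om

/-- KI: in a run of length at least 3 the element `κ` does not depend on the letter `y` -/
def S_KI : Prop := ∀ (η : Om) (y y' : V) (e : Bool), (∀ n < 3, η n = η 0) → y ≠ kil (η 0) →
  y' ≠ kil (η 0) → evo η (kap y (kil (η 0)) e) = evo η (kap y' (kil (η 0)) e)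

/-- LX0: exact form of LOC; the sections of the local word on level `R` are conjugates by `1, a, y, a y`
of `T' = z a z a` -/
def S_LX0 : Prop := ∀ (η : Om) (y : V) (R : ℕ), 3 ≤ R → (∀ n < R, η n = η 0) →
    η R ≠ η 0 → y ≠ kil (η 0) →
    ∃ (Qf : (List Bool → Bool) → Bool → ℕ → Bool) (e f : List Bool → Bool),
      ∀ p : List Bool → Bool, ∀ v u : List Bool, v.length = R →
        locw η y (kil (η 0)) (Qf p) (2 ^ R - 2) (v ++ u) = v ++ (if p v then
          (pa (e v) * (if f v then xx (shi R η) y else 1) * evo (shi R η) (Tw (kil (η 0))) *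
            (if f v then xx (shi R η) y else 1) * pa (e v)) u else u)

/-- LX1: a run of length `R` followed by a letter which kills `y`: on level `R + 1` the section
`a y a y` or its inverse `y a y a` (depending on the word `v`) can be realized -/
def S_LX1 : Prop := ∀ (η : Om) (y : V) (R : ℕ), 3 ≤ R → (∀ n < R, η n = η 0) →
    η R ≠ η 0 → y = kil (η R) →
    ∃ (Qf Qf' : (List Bool → Bool) → Bool → ℕ → Bool) (g : List Bool → Bool),
      ∀ p : List Bool → Bool, ∀ v u : List Bool, v.length = R + 1 →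
        (locw η y (kil (η 0)) (Qf p) (2 ^ (R + 1) - 2) *
          locw η y (kil (η 0)) (Qf' p) (2 ^ (R + 1) - 2)) (v ++ u) =
          v ++ (if p v then evo (shi (R + 1) η) (if g v then [Lt.A, y.lt, Lt.A, y.lt]
            else [y.lt, Lt.A, y.lt, Lt.A]) u else u)

/-- TX0: two adjacent runs -/
def S_TX0 : Prop := ∃ C : ℕ, ∀ (ω : Om) (m R N : ℕ), 1 ≤ m → 3 ≤ R →
    (∀ n, m ≤ n → n < m + R → ω n = ω m) → ω (m + R) ≠ ω m → ω (m - 1) ≠ ω m →
    ω (m + R + 1) = ω (m + R) → ω (m + R + 2) = ω (m + R) →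
    (∀ e, Exa ω m (kap (kil (ω (m - 1))) (kil (ω m)) e) N) →
    ∀ e, Exa ω (m + R) (kap (kil (ω m)) (kil (ω (m + R))) e) (C * 2 ^ R * (N + ell ω m))

/-- TX1: two runs separated by a single letter -/
def S_TX1 : Prop := ∃ C : ℕ, ∀ (ω : Om) (m R N : ℕ), 1 ≤ m → 3 ≤ R →
    (∀ n, m ≤ n → n < m + R → ω n = ω m) → ω (m + R) ≠ ω m → ω (m - 1) ≠ ω m →
    ω (m + R + 1) ≠ ω (m + R) → ω (m + R + 2) = ω (m + R + 1) → ω (m + R + 3) = ω (m + R + 1) →
    (∀ e, Exa ω m (kap (kil (ω (m - 1))) (kil (ω m)) e) N) →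
    ∀ e, Exa ω (m + R + 1) (kap (kil (ω (m + R))) (kil (ω (m + R + 1))) e)
      (C * 2 ^ R * (N + ell ω m))

end Pool.Agent.U640.BG
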