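import Pool.Agent.U640.BG.LOC
import Pool.Agent.U640.BG.XStm

set_option autoImplicit false

/-! Project BG3, package LX1 (helper869): the block step with pairs `Z_j Z_(j+2n)`. -/

namespace Pool.Agent.U640.BG

open Pool.Agent.Results.MP_03d093_al.SphereBall Pool.Agent.H776R2.Grig Pool.Agent.H776R2.Om

noncomputable def LX1_pr (F : ℕ → P) (k : ℕ) : P := ((List.range k).map F).prod

theorem LX1_pr_succ (F : ℕ → P) (k : ℕ) (w : List Bool) :
    LX1_pr F (k + 1) w = LX1_pr F k (F k w) := by
  unfold LX1_pr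
  rw [List.range_succ, List.map_append, List.prod_append, Equiv.Perm.mul_apply]
  simp

theorem LX1_skip (F : ℕ → P) (s m : ℕ) (w : List Bool) (h : ∀ i, s ≤ i → i < s + m → F i w = w) :
    LX1_pr F (s + m) w = LX1_pr F s w := by
  induction m with
  | zero => rfl
  | succ m ih =>
    rw [← add_assoc, LX1_pr_succ, h (s + m) (by omega) (by omega),
      ih (fun i h1 h2 => h i h1 (by omega))]

noncomputable def LX1_F (Z : ℕ → P) (q : ℕ → Bool) (i : ℕ) : P :=
  if q (i + 1) then Z (i + 2) * Z i else 1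

theorem LX1_block (Z : ℕ → P) (q Pp : ℕ → Bool) (D : List Bool → Prop)
    (hD : ∀ m w, D w → D (Z m w)) (hinv : ∀ m w, Z m (Z m w) = w) (hq0 : q 0 = false)
    (hq : ∀ l, q (l + 1) = xor (Pp l) (if l = 0 then false else q (l - 1)))
    (l s : ℕ) (hs : s + 2 ≤ l ∨ s = 0)
    (hfix : ∀ m, s ≤ m → m < l + 3 → m ≠ l → ∀ w, D w → Z m w = w) (w : List Bool) (hw : D w) :
    LX1_pr (LX1_F Z q) (l + 1) w = LX1_pr (LX1_F Z q) s (LOC_pw (Z l) (Pp l) w) := by
  have hF : ∀ i, s ≤ i → i < l → i + 2 ≠ l → ∀ w, D w → LX1_F Z q i w = w := by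
    intro i h1 h2 h3 w hw
    unfold LX1_F
    cases q (i + 1)
    · rfl
    · show Z (i + 2) (Z i w) = w
      rw [hfix i h1 (by omega) (by omega) w hw, hfix (i + 2) (by omega) (by omega) h3 w hw]
  have hFl : ∀ w, D w → LX1_F Z q l w = LOC_pw (Z l) (q (l + 1)) w := by
    intro w hw
    unfold LX1_F
    cases q (l + 1)
    · rfl
    · show Z (l + 2) (Z l w) = Z l w
      rcases hs with hs | hs
      · exact hfix (l + 2) (by omega) (by omega) (by omega) _ (hD _ _ hw)
      · exact hfix (l + 2) (by omega) (by omega) (by omega) _ (hD _ _ hw)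
  have hDp : ∀ b w, D w → D (LOC_pw (Z l) b w) := by
    intro b w hw
    cases b
    · exact hw
    · exact hD _ _ hw
  rw [LX1_pr_succ, hFl w hw]
  have hql := hq l
  rcases Nat.lt_or_ge l 2 with h | h
  · have hs0 : s = 0 := by omega
    subst hs0
    have hl : l = 0 ∨ l = 1 := by omega
    rcases hl with rfl | rfl
    · rw [hql]
      simp
    · rw [show (1 : ℕ) = 0 + 1 from rfl, LX1_pr_succ, hF 0 (by omega) (by omega) (by omega) _ (hDp _ _ hw)]
      rw [show 0 + 1 = 1 from rfl, hql]
      simp [hq0]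
  · obtain ⟨r, rfl⟩ : ∃ r, l = r + 2 := ⟨l - 2, by omega⟩
    have hsr : s ≤ r := by omega
    rw [show r + 2 = (r + 1) + 1 from rfl, LX1_pr_succ, LX1_pr_succ]
    rw [show r + 1 + 1 = r + 2 from rfl]
    rw [hF (r + 1) (by omega) (by omega) (by omega) _ (hDp _ _ hw)]
    have hFr : ∀ w, D w → LX1_F Z q r w = LOC_pw (Z (r + 2)) (q (r + 1)) w := by
      intro w hw
      unfold LX1_F
      cases q (r + 1)
      · rfl
      · show Z (r + 2) (Z r w) = Z (r + 2) w
        rw [hfix r hsr (by omega) (by omega) w hw]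
    rw [hFr _ (hDp _ _ hw)]
    obtain ⟨m, rfl⟩ : ∃ m, r = s + m := ⟨r - s, by omega⟩
    rw [LX1_skip]
    · congr 1
      rw [show s + m + 2 - 1 = s + m + 1 by omega, if_neg (by omega)] at hql
      rw [hql]
      cases Pp (s + m + 2) <;> cases q (s + m + 1)
      · rfl
      · exact hinv _ _
      · rfl
      · rfl
    · intro i h1 h2
      exact hF i h1 (by omega) (by omega) _ (hDp _ _ (hDp _ _ hw))

theorem LX1_core (n j : ℕ) (hn : 4 ≤ n) (hj : j < n) (Z : ℕ → P) (D : List Bool → Prop)
    (hD : ∀ m w, D w → D (Z m w))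
    (hfix0 : ∀ m, m < j → ∀ w, D w → Z m w = w)
    (hfix : ∀ c m, j + c * n < m → m < j + (c + 1) * n → ∀ w, D w → Z m w = w)
    (hinv : ∀ m w, Z m (Z m w) = w) (q Pp : ℕ → Bool) (hq0 : q 0 = false)
    (hq : ∀ l, q (l + 1) = xor (Pp l) (if l = 0 then false else q (l - 1)))
    (hz1 : q (4 * n - 1) = false) (hz2 : q (4 * n) = false) (w : List Bool) (hw : D w) :
    LX1_pr (LX1_F Z q) (4 * n - 2) w =
      LOC_pw (Z j) (Pp j) (LOC_pw (Z (j + n)) (Pp (j + n)) (LOC_pw (Z (j + 2 * n)) (Pp (j + 2 * n))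
        (LOC_pw (Z (j + 3 * n)) (Pp (j + 3 * n)) w))) := by
  have hDp : ∀ l b w, D w → D (LOC_pw (Z l) b w) := by
    intro l b w hw
    cases b
    · exact hw
    · exact hD _ _ hw
  have e1 : LX1_pr (LX1_F Z q) (4 * n - 2) w = LX1_pr (LX1_F Z q) (4 * n - 2 + 2) w := by
    rw [LX1_skip]
    intro i h1 h2
    have h3 : i = 4 * n - 2 ∨ i = 4 * n - 1 := by omega
    unfold LX1_F
    rcases h3 with rfl | rfl
    · rw [show 4 * n - 2 + 1 = 4 * n - 1 by omega, hz1]
      rfl
    · rw [show 4 * n - 1 + 1 = 4 * n by omega, hz2]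
      rfl
  have e2 : LX1_pr (LX1_F Z q) (4 * n - 2 + 2) w = LX1_pr (LX1_F Z q) (j + 3 * n + 1) w := by
    obtain ⟨m, hm⟩ : ∃ m, 4 * n - 2 + 2 = j + 3 * n + 1 + m := ⟨4 * n - (j + 3 * n + 1), by omega⟩
    rw [hm, LX1_skip]
    intro i h1 h2
    unfold LX1_F
    by_cases h3 : i ≤ 4 * n - 3
    · cases q (i + 1)
      · rfl
      · show Z (i + 2) (Z i w) = w
        rw [hfix 3 i (by omega) (by omega) w hw, hfix 3 (i + 2) (by omega) (by omega) w hw]
    · have h4 : i = 4 * n - 2 ∨ i = 4 * n - 1 := by omega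
      rcases h4 with rfl | rfl
      · rw [show 4 * n - 2 + 1 = 4 * n - 1 by omega, hz1]
        rfl
      · rw [show 4 * n - 1 + 1 = 4 * n by omega, hz2]
        rfl
  rw [e1, e2]
  rw [LX1_block Z q Pp D hD hinv hq0 hq (j + 3 * n) (j + 2 * n + 1) (by omega) ?_ w hw]
  · rw [LX1_block Z q Pp D hD hinv hq0 hq (j + 2 * n) (j + n + 1) (by omega) ?_ _ (hDp _ _ _ hw)]
    · rw [LX1_block Z q Pp D hD hinv hq0 hq (j + n) (j + 1) (by omega) ?_ _ (hDp _ _ _ (hDp _ _ _ hw))]
      · rw [LX1_block Z q Pp D hD hinv hq0 hq j 0 (by omega) ?_ _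
          (hDp _ _ _ (hDp _ _ _ (hDp _ _ _ hw)))]
        · rfl
        · intro m h1 h2 h3
          rcases Nat.lt_or_ge m j with h4 | h4
          · exact hfix0 m h4
          · exact hfix 0 m (by omega) (by omega)
      · intro m h1 h2 h3
        rcases Nat.lt_or_ge m (j + n) with h4 | h4
        · exact hfix 0 m (by omega) (by omega)
        · exact hfix 1 m (by omega) (by omega)
    · intro m h1 h2 h3
      rcases Nat.lt_or_ge m (j + 2 * n) with h4 | h4
      · exact hfix 1 m (by omega) (by omega)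
      · exact hfix 2 m (by omega) (by omega)
  · intro m h1 h2 h3
    rcases Nat.lt_or_ge m (j + 3 * n) with h4 | h4
    · exact hfix 2 m (by omega) (by omega)
    · exact hfix 3 m (by omega) (by omega)

/-! ### Sections -/

structure LX1_H (T Z yp zp : P) (R : ℕ) : Prop extends LOC_H T Z R where
  z0 : ∀ u, Z (List.replicate R true ++ [false] ++ u) = List.replicate R true ++ [false] ++ a u
  z1 : ∀ u, Z (List.replicate R true ++ [true] ++ u) = List.replicate R true ++ [true] ++ zp u
  sT : ∃ e : List Bool → Bool, ∀ v u : List Bool, v.length = R + 1 →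
    T (v ++ u) = T v ++ LOC_pw yp (e v) u
  s2 : ∀ v u : List Bool, v.length = R + 1 → (T ^ (2 ^ R)) (v ++ u) = v ++ yp u
  yy : ∀ u, yp (yp u) = u
  zzp : ∀ u, zp (zp u) = u
  yz : ∀ u, yp (zp u) = zp (yp u)

variable {T Z yp zp : P} {R : ℕ}

theorem LX1_sTm (H : LX1_H T Z yp zp R) (m : ℕ) : ∃ e : List Bool → Bool, ∀ v u : List Bool,
    v.length = R + 1 → (T ^ m) (v ++ u) = (T ^ m) v ++ LOC_pw yp (e v) u := by
  induction m with
  | zero => exact ⟨fun _ => false, fun v u _ => rfl⟩
  | succ m ih =>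
    obtain ⟨e1, h1⟩ := ih
    obtain ⟨e, h⟩ := H.sT
    refine ⟨fun v => xor (e1 (T v)) (e v), fun v u hv => ?_⟩
    rw [pow_succ, Equiv.Perm.mul_apply, Equiv.Perm.mul_apply, h v u hv,
      h1 _ _ (by rw [H.tT.1, hv])]
    congr 1
    beta_reduce
    cases e1 (T v) <;> cases e v
    · rfl
    · rfl
    · rfl
    · exact H.yy u

theorem LX1_s2i (H : LX1_H T Z yp zp R) (v u : List Bool) (hv : v.length = R + 1) :
    (T ^ (2 ^ R))⁻¹ (v ++ u) = v ++ yp u := by
  rw [Equiv.Perm.inv_eq_iff_eq, H.s2 v _ hv, H.yy]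

theorem LX1_W (H : LX1_H T Z yp zp R) (m : ℕ) (v : List Bool) (hv : v.length = R + 1) (b : Bool)
    (hb : (T ^ m) v = List.replicate R true ++ [b]) :
    ∃ sg : Bool, ∀ u, LOC_Z T Z m (LOC_Z T Z (m + 2 ^ R) (v ++ u)) =
      if b then v ++ u else v ++ (if sg then yp * a * (yp * a) else (yp * a * (yp * a))⁻¹) u := by
  obtain ⟨e, he⟩ := LX1_sTm H m
  refine ⟨e v, fun u => ?_⟩
  have h1 : (T ^ (m + 2 ^ R)) (v ++ u) =
      List.replicate R true ++ [b] ++ yp (LOC_pw yp (e v) u) := by
    rw [add_comm, pow_add, Equiv.Perm.mul_apply, he v u hv, hb, H.s2 _ _ (by simp)]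
  have h2 : ∀ w, (T ^ m) ((T ^ (m + 2 ^ R))⁻¹ w) = (T ^ (2 ^ R))⁻¹ w := by
    intro w
    rw [pow_add, mul_inv_rev, Equiv.Perm.mul_apply]
    have h3 : (T ^ (2 ^ R))⁻¹ ((T ^ m)⁻¹ w) = (T ^ m)⁻¹ ((T ^ (2 ^ R))⁻¹ w) := by
      have h4 : (T ^ (2 ^ R))⁻¹ * (T ^ m)⁻¹ = (T ^ m)⁻¹ * (T ^ (2 ^ R))⁻¹ := by
        rw [← mul_inv_rev, ← mul_inv_rev, ← pow_add, ← pow_add, add_comm]
      exact congrFun (congrArg DFunLike.coe h4) w
    rw [h3, LOC_ai]
  have h5 : ∀ s, (T ^ m)⁻¹ (List.replicate R true ++ [b] ++ s) = v ++ LOC_pw yp (e v) s := by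
    intro s
    rw [Equiv.Perm.inv_eq_iff_eq, he v _ hv, hb]
    congr 1
    cases e v
    · rfl
    · exact (H.yy s).symm
  rw [LOC_Z_apply, LOC_Z_apply, h1, h2]
  cases b
  · rw [H.z0, LX1_s2i H _ _ (by simp), H.z0, h5]
    simp only [Bool.false_eq_true, if_false]
    congr 1
    have haa : ∀ w, a (a w) = w := fun w => aFun_invol w
    cases e v
    · simp only [Bool.false_eq_true, if_false]
      rw [eq_comm, Equiv.Perm.inv_eq_iff_eq]
      show u = yp (a (yp (a (a (yp (a (yp u)))))))
      rw [haa, H.yy, haa, H.yy]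
    · simp only [if_true]
      show yp (a (yp (a (yp (yp u))))) = yp (a (yp (a u)))
      rw [H.yy]
  · rw [H.z1, LX1_s2i H _ _ (by simp), H.z1, h5]
    simp only [if_true]
    congr 1
    have : zp (yp (zp (yp (LOC_pw yp (e v) u)))) = LOC_pw yp (e v) u := by
      rw [H.yz (yp (LOC_pw yp (e v) u)), H.yy, H.zzp]
    rw [this]
    cases e v
    · rfl
    · exact H.yy u

noncomputable def LX1_P (T : P) (R : ℕ) (par : Bool) (p : List Bool → Bool) (l : ℕ) : Bool :=
  if decide (l % (2 * 2 ^ (R - 1)) < 2 ^ (R - 1)) = par then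
    p ((T ^ l)⁻¹ (List.replicate R true ++ [false])) else false

noncomputable def LX1_A (T Z : P) (R : ℕ) (par : Bool) (p : List Bool → Bool) : P :=
  LX1_pr (LX1_F (LOC_Z T Z) (LOC_q (LX1_P T R par p))) (2 ^ (R + 1) - 2)

theorem LX1_per (H : LX1_H T Z yp zp R) (hR : 3 ≤ R) (par : Bool) (p : List Bool → Bool) (l : ℕ) :
    LX1_P T R par p (l + 2 * 2 ^ (R - 1)) = LX1_P T R par p l := by
  have e : 2 * 2 ^ (R - 1) = 2 ^ R := by
    rw [← pow_succ']
    congr 1
    omega
  unfold LX1_P
  rw [Nat.add_mod_right]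
  have h : (T ^ (l + 2 * 2 ^ (R - 1)))⁻¹ (List.replicate R true ++ [false]) =
      (T ^ l)⁻¹ (List.replicate R true ++ [false]) := by
    rw [e, pow_add, mul_inv_rev, Equiv.Perm.mul_apply]
    have hl : ((T ^ l)⁻¹ (List.replicate R true ++ [false])).length = R + 1 := by
      rw [(LOC_ta_inv (LOC_ta_pow H.tT l)).1]
      simp
    have := LX1_s2i H _ [] hl
    rw [List.append_nil] at this
    rw [this]
    have hyn : yp [] = [] := by
      have h1 := H.s2 (List.replicate (R + 1) true) [] (by simp)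
      have h2 := (LOC_ta_pow H.tT (2 ^ R)).1 (List.replicate (R + 1) true ++ [])
      rw [h1] at h2
      simp only [List.length_append, List.length_replicate, List.length_nil] at h2
      exact List.length_eq_zero_iff.1 (by omega)
    rw [hyn, List.append_nil]
  rw [h]

theorem LX1_side (H : LX1_H T Z yp zp R) (hR : 3 ≤ R) (v : List Bool) (hv : v.length = R + 1)
    (hv1 : v.take 1 = [true]) : ∃ sg : Bool, ∀ (p : List Bool → Bool) (u : List Bool),
    LX1_A T Z R true p (LX1_A T Z R false p (v ++ u)) = v ++ (if p v then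
      (if sg then yp * a * (yp * a) else (yp * a * (yp * a))⁻¹) u else u) := by
  obtain ⟨n, hn⟩ : ∃ n, n = 2 ^ (R - 1) := ⟨_, rfl⟩
  have hn2 : 2 ^ R = 2 * n := by
    rw [hn, ← pow_succ']
    congr 1
    omega
  have hn4 : 4 ≤ n := by
    rw [hn]
    calc 4 = 2 ^ 2 := by norm_num
      _ ≤ 2 ^ (R - 1) := Nat.pow_le_pow_right (by norm_num) (by omega)
  have hI : 2 ^ (R + 1) - 2 = 4 * n - 2 := by
    rw [pow_succ, hn2]
    omega
  obtain ⟨j, hj, hjv⟩ := LOC_orbit H.toLOC_H (R - 1) (by omega) (v.take R)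
    (by rw [List.length_take]; omega) (by rw [List.take_take, Nat.min_eq_left (by omega), hv1])
  rw [show R - 1 + 1 = R by omega] at hjv
  rw [← hn] at hj
  obtain ⟨x, hx⟩ : ∃ x, v = v.take R ++ [x] := by
    have h3 : (v.drop R).length = 1 := by rw [List.length_drop, hv]; omega
    obtain ⟨z, hz⟩ := List.length_eq_one_iff.mp h3
    exact ⟨z, by rw [← hz, List.take_append_drop]⟩
  obtain ⟨b, hb⟩ := LOC_snoc (LOC_ta_pow H.tT j) (v.take R) rfl x
  rw [← hx, hjv] at hb
  have hbn : (T ^ (j + n)) v = List.replicate R true ++ [!b] := by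
    rw [add_comm, pow_add, Equiv.Perm.mul_apply, hb]
    have h1 := H.tl (R - 1) (by omega)
    rw [show R - 1 + 1 = R by omega, ← hn] at h1
    rw [h1 _ (by simp) b]
    simp
  have hvl : (v.take R).length = R := by rw [List.length_take]; omega
  have hD : ∀ (m : ℕ) (w : List Bool), w.take R = v.take R → (LOC_Z T Z m w).take R = v.take R := by
    intro m w hw
    rw [(LOC_Z_ta H.toLOC_H m).2, LOC_short (LOC_Z_ta H.toLOC_H m) (LOC_Z_lab H.toLOC_H m), hw]
    rw [List.length_take]
    omega
  have hfix0 : ∀ m, m < j → ∀ w : List Bool, w.take R = v.take R → LOC_Z T Z m w = w := by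
    intro m hm w hw
    refine LOC_Z_fix H.toLOC_H (k := R) le_rfl m w ?_
    rw [hw]
    intro h
    have h2 : (T ^ (j - m)) (List.replicate R true) = List.replicate R true := by
      conv_lhs => rw [← h]
      rw [← Equiv.Perm.mul_apply, ← pow_add, show j - m + m = j by omega, hjv]
    have h4 := LOC_free H.toLOC_H (m := R - 1) (by omega) _ (by simp; omega) h2
    rw [← hn] at h4
    exact absurd (Nat.le_of_dvd (by omega) h4) (by omega)
  have hfix : ∀ c m, j + c * n < m → m < j + (c + 1) * n → ∀ w : List Bool,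
      w.take R = v.take R → LOC_Z T Z m w = w := by
    intro c m hm1 hm2 w hw
    refine LOC_Z_fix H.toLOC_H (k := R) le_rfl m w ?_
    rw [hw]
    intro h
    have h2 : (T ^ (m - j)) (List.replicate R true) = List.replicate R true := by
      conv_lhs => rw [← hjv]
      rw [← Equiv.Perm.mul_apply, ← pow_add, show m - j + j = m by omega, h]
    have h4 := LOC_free H.toLOC_H (m := R - 1) (by omega) _ (by simp; omega) h2
    rw [← hn] at h4
    obtain ⟨d, hd⟩ := h4
    have h5 : n * c < n * d := by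
      rw [mul_comm n c]
      omega
    have h6 : n * d < n * (c + 1) := by
      rw [mul_comm n (c + 1)]
      omega
    have h7 := Nat.lt_of_mul_lt_mul_left h5
    have h8 := Nat.lt_of_mul_lt_mul_left h6
    omega
  have hcore : ∀ (par : Bool) (p : List Bool → Bool) (w : List Bool), w.take R = v.take R →
      LX1_A T Z R par p w = LOC_pw (LOC_Z T Z j) (LX1_P T R par p j)
        (LOC_pw (LOC_Z T Z (j + n)) (LX1_P T R par p (j + n))
          (LOC_pw (LOC_Z T Z (j + 2 * n)) (LX1_P T R par p (j + 2 * n))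
            (LOC_pw (LOC_Z T Z (j + 3 * n)) (LX1_P T R par p (j + 3 * n)) w))) := by
    intro par p w hw
    have hz := LOC_q_zero (LX1_P T R par p) (n - 1) (by
      intro l
      rw [show 2 * (n - 1) + 2 = 2 * n by omega, hn]
      exact LX1_per H hR par p l)
    rw [show 2 * (2 * (n - 1) + 2) = 4 * n by omega] at hz
    unfold LX1_A
    rw [hI]
    refine LX1_core n j hn4 hj (LOC_Z T Z) (fun w => w.take R = v.take R) hD hfix0 hfix
      (LOC_Z_inv H.toLOC_H) (LOC_q (LX1_P T R par p)) (LX1_P T R par p) rfl ?_ hz.1 hz.2 w hw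
    intro l
    cases l with
    | zero =>
      show LX1_P T R par p 0 = _
      simp
    | succ l =>
      show xor (LX1_P T R par p (l + 1)) (LOC_q (LX1_P T R par p) l) = _
      simp
  have hmod1 : decide (j % (2 * 2 ^ (R - 1)) < 2 ^ (R - 1)) = true := by
    rw [← hn, Nat.mod_eq_of_lt (by omega)]
    exact decide_eq_true hj
  have hmod2 : decide ((j + n) % (2 * 2 ^ (R - 1)) < 2 ^ (R - 1)) = false := by
    rw [← hn, Nat.mod_eq_of_lt (by omega)]
    exact decide_eq_false (by omega)
  have hP1 : ∀ p, LX1_P T R true p j = p ((T ^ j)⁻¹ (List.replicate R true ++ [false])) := by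
    intro p
    unfold LX1_P
    rw [hmod1, if_pos rfl]
  have hP2 : ∀ p, LX1_P T R true p (j + n) = false := by
    intro p
    unfold LX1_P
    rw [hmod2, if_neg (by simp)]
  have hP3 : ∀ p, LX1_P T R false p j = false := by
    intro p
    unfold LX1_P
    rw [hmod1, if_neg (by simp)]
  have hP4 : ∀ p, LX1_P T R false p (j + n) =
      p ((T ^ (j + n))⁻¹ (List.replicate R true ++ [false])) := by
    intro p
    unfold LX1_P
    rw [hmod2, if_pos rfl]
  have hper2 : ∀ par p, LX1_P T R par p (j + 2 * n) = LX1_P T R par p j := by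
    intro par p
    have := LX1_per H hR par p j
    rw [← hn] at this
    exact this
  have hper3 : ∀ par p, LX1_P T R par p (j + 3 * n) = LX1_P T R par p (j + n) := by
    intro par p
    have := LX1_per H hR par p (j + n)
    rw [← hn] at this
    rw [show j + 3 * n = j + n + 2 * n by omega]
    exact this
  have hAt : ∀ (p : List Bool → Bool) (w : List Bool), w.take R = v.take R →
      LX1_A T Z R true p w = LOC_pw (LOC_Z T Z j) (LX1_P T R true p j)
        (LOC_pw (LOC_Z T Z (j + 2 ^ R)) (LX1_P T R true p j) w) := by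
    intro p w hw
    rw [hcore true p w hw, hper2, hper3, hP2, hn2]
    rfl
  have hAf : ∀ (p : List Bool → Bool) (w : List Bool), w.take R = v.take R →
      LX1_A T Z R false p w = LOC_pw (LOC_Z T Z (j + n)) (LX1_P T R false p (j + n))
        (LOC_pw (LOC_Z T Z (j + n + 2 ^ R)) (LX1_P T R false p (j + n)) w) := by
    intro p w hw
    rw [hcore false p w hw, hper2, hper3, hP3, hn2, show j + n + 2 * n = j + 3 * n by omega]
    rfl
  have htk : ∀ u : List Bool, (v ++ u).take R = v.take R := fun u => by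
    rw [List.take_append_of_le_length (by omega)]
  cases b
  · obtain ⟨sg, hsg⟩ := LX1_W H j v hv false hb
    obtain ⟨sg', hsg'⟩ := LX1_W H (j + n) v hv true hbn
    refine ⟨sg, fun p u => ?_⟩
    have hpv : LX1_P T R true p j = p v := by
      rw [hP1]
      congr 1
      rw [Equiv.Perm.inv_eq_iff_eq, hb]
    have h1 : LX1_A T Z R false p (v ++ u) = v ++ u := by
      rw [hAf p _ (htk u)]
      cases LX1_P T R false p (j + n)
      · rfl
      · have := hsg' u
        simpa [LOC_pw_true] using this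
    rw [h1, hAt p _ (htk u), hpv]
    cases p v
    · rfl
    · have := hsg u
      simpa [LOC_pw_true] using this
  · obtain ⟨sg, hsg⟩ := LX1_W H (j + n) v hv false hbn
    obtain ⟨sg', hsg'⟩ := LX1_W H j v hv true hb
    refine ⟨sg, fun p u => ?_⟩
    have hpv : LX1_P T R false p (j + n) = p v := by
      rw [hP4]
      congr 1
      rw [Equiv.Perm.inv_eq_iff_eq, hbn]
      rfl
    have h1 : ∀ s, LX1_A T Z R true p (v ++ s) = v ++ s := by
      intro s
      rw [hAt p _ (htk s)]
      cases LX1_P T R true p j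
      · rfl
      · have := hsg' s
        simpa [LOC_pw_true] using this
    rw [hAf p _ (htk u), hpv]
    cases p v
    · exact h1 u
    · have := hsg u
      simp only [Bool.false_eq_true, if_false] at this
      simp only [LOC_pw_true, if_true]
      rw [this, h1]

theorem LX1_A_fix (H : LX1_H T Z yp zp R) (hR : 3 ≤ R) (par : Bool) (p : List Bool → Bool)
    (w : List Bool) (hw : w.take 1 ≠ [true]) : LX1_A T Z R par p w = w := by
  have hZ : ∀ m, LOC_Z T Z m w = w := fun m => by
    refine LOC_Z_fix H.toLOC_H (k := 1) (by omega) m w ?_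
    rw [LOC_T1 H.toLOC_H hR m _ (by rw [List.length_take]; omega)]
    exact hw
  refine LOC_prod_fix _ _ ?_
  intro g hg
  obtain ⟨i, -, rfl⟩ := List.mem_map.1 hg
  unfold LX1_F
  split_ifs
  · rw [Equiv.Perm.mul_apply, hZ, hZ]
  · rfl

theorem LX1_A_take (H : LX1_H T Z yp zp R) (par : Bool) (p : List Bool → Bool) (w : List Bool) :
    (LX1_A T Z R par p w).take 1 = w.take 1 := by
  have hTA : TA (LX1_A T Z R par p) := by
    refine LOC_prod_ta _ ?_
    intro g hg
    obtain ⟨i, -, rfl⟩ := List.mem_map.1 hg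
    unfold LX1_F
    split_ifs
    · exact LOC_ta_mul (LOC_Z_ta H.toLOC_H _) (LOC_Z_ta H.toLOC_H _)
    · exact LOC_ta_one
  rw [hTA.2]
  refine LOC_prod_fix _ _ ?_
  intro g hg
  obtain ⟨i, -, rfl⟩ := List.mem_map.1 hg
  have hZ : ∀ m, LOC_Z T Z m (w.take 1) = w.take 1 := fun m =>
    LOC_short (LOC_Z_ta H.toLOC_H m) (LOC_Z_lab H.toLOC_H m) _ (by rw [List.length_take]; omega)
  unfold LX1_F
  split_ifs
  · rw [Equiv.Perm.mul_apply, hZ, hZ]
  · rfl

theorem LX1_at (w : List Bool) (h : w.take 1 = [true]) : (aFun w).take 1 = [false] := by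
  cases w with
  | nil => simp at h
  | cons t w =>
    have : t = true := by simpa using h
    subst this
    simp [aFun]

theorem LX1_af (w : List Bool) (h : w.take 1 = [false]) : (aFun w).take 1 = [true] := by
  cases w with
  | nil => simp at h
  | cons t w =>
    have : t = false := by simpa using h
    subst this
    simp [aFun]

theorem LX1_B1 (H : LX1_H T Z yp zp R) (hR : 3 ≤ R) (par : Bool) (p p' : List Bool → Bool)
    (w : List Bool) (hw : w.take 1 = [true]) :
    (LX1_A T Z R par p * (a * LX1_A T Z R par p' * a)) w = LX1_A T Z R par p w := by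
  show LX1_A T Z R par p (a (LX1_A T Z R par p' (a w))) = _
  rw [LX1_A_fix H hR par p' (a w), a_apply, a_apply, aFun_invol]
  rw [a_apply, LX1_at w hw]
  simp

theorem LX1_B2 (H : LX1_H T Z yp zp R) (hR : 3 ≤ R) (par : Bool) (p p' : List Bool → Bool)
    (w : List Bool) (hw : w.take 1 = [false]) :
    (LX1_A T Z R par p * (a * LX1_A T Z R par p' * a)) w = aFun (LX1_A T Z R par p' (aFun w)) := by
  show LX1_A T Z R par p (a (LX1_A T Z R par p' (a w))) = _
  rw [LX1_A_fix H hR par p, a_apply, a_apply]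
  have h1 := LX1_A_take H par p' (a w)
  rw [a_apply, LX1_af w hw] at h1
  rw [a_apply, a_apply, LX1_at _ h1]
  simp

/-! ### The concrete situation -/

theorem LX1_z0 {η : Om} {R : ℕ} (hη : ∀ n < R, η n = η 0) (hR : η R ≠ η 0) (k : ℕ) :
    ∀ m, m + k = R → ∀ u, xx (shi m η) (kil (η 0)) (List.replicate k true ++ [false] ++ u) =
      List.replicate k true ++ [false] ++ a u := by
  induction k with
  | zero =>
    intro m hm u
    have hmR : m = R := by omega
    subst hmR
    exact (LOC_secZR hR u).1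
  | succ k ih =>
    intro m hm u
    rw [List.replicate_succ]
    simp only [List.cons_append]
    rw [(LOC_secZ hη (m := m) (by omega) _).2, ih (m + 1) (by omega) u]

theorem LX1_z1 {η : Om} {R : ℕ} (hη : ∀ n < R, η n = η 0) (hR : η R ≠ η 0) (k : ℕ) :
    ∀ m, m + k = R → ∀ u, xx (shi m η) (kil (η 0)) (List.replicate k true ++ [true] ++ u) =
      List.replicate k true ++ [true] ++ xx (shi (R + 1) η) (kil (η 0)) u := by
  induction k with
  | zero =>
    intro m hm u
    have hmR : m = R := by omega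
    subst hmR
    exact (LOC_secZR hR u).2
  | succ k ih =>
    intro m hm u
    rw [List.replicate_succ]
    simp only [List.cons_append]
    rw [(LOC_secZ hη (m := m) (by omega) _).2, ih (m + 1) (by omega) u]

theorem LX1_secYR {η : Om} {R : ℕ} {y : V} (hy : y = kil (η R)) :
    Sec (xx (shi R η) y) 1 (xx (shi (R + 1) η) y) := by
  have h := sec_xx (shi R η) y
  have h0 : (shi R η) 0 = η R := by
    show η (0 + R) = η R
    rw [Nat.zero_add]
  rw [if_pos (by rw [h0]; exact hy), sh_shi] at h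
  exact h

def LX1_good (yp : P) (R : ℕ) (g : P) : Prop := ∃ e : List Bool → Bool, ∀ v u : List Bool,
  v.length = R + 1 → g (v ++ u) = g v ++ LOC_pw yp (e v) u

theorem LX1_good_mul {yp : P} (hyy : ∀ u, yp (yp u) = u) {R : ℕ} {g h : P}
    (hg : LX1_good yp R g) (hh : LX1_good yp R h) (ht : TA h) : LX1_good yp R (g * h) := by
  obtain ⟨e1, h1⟩ := hg
  obtain ⟨e, h2⟩ := hh
  refine ⟨fun v => xor (e1 (h v)) (e v), fun v u hv => ?_⟩
  rw [Equiv.Perm.mul_apply, Equiv.Perm.mul_apply, h2 v u hv, h1 _ _ (by rw [ht.1, hv])]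
  congr 1
  beta_reduce
  cases e1 (h v) <;> cases e v
  · rfl
  · rfl
  · rfl
  · exact hyy u

theorem LX1_good_a (yp : P) (R : ℕ) : LX1_good yp R a := by
  refine ⟨fun _ => false, fun v u hv => ?_⟩
  rw [a_apply, a_apply, A_afun_append v u (by omega)]
  rfl

theorem LX1_good_y {η : Om} {R : ℕ} {y : V} (hη : ∀ n < R, η n = η 0) (hy : y ≠ kil (η 0))
    (hyR : y = kil (η R)) (k : ℕ) :
    ∀ m, m + k = R → LX1_good (xx (shi (R + 1) η) y) k (xx (shi m η) y) := by
  induction k with
  | zero =>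
    intro m hm
    have hmR : m = R := by omega
    subst hmR
    refine ⟨fun v => decide (v = [true]), fun v u hv => ?_⟩
    obtain ⟨t, rfl⟩ := List.length_eq_one_iff.mp hv
    rw [LOC_xx_one]
    cases t
    · exact (LX1_secYR hyR u).1
    · exact (LX1_secYR hyR u).2
  | succ k ih =>
    intro m hm
    obtain ⟨e, he⟩ := ih (m + 1) (by omega)
    refine ⟨fun v => match v with
      | [] => false
      | t :: v => if t then e v else false, fun v u hv => ?_⟩
    cases v with
    | nil => simp at hv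
    | cons t v =>
      have hs := LOC_secY hη hy (m := m) (by omega)
      have hv' : v.length = k + 1 := by simpa using hv
      cases t
      · rw [List.cons_append, (hs _).1, (hs _).1, a_apply, a_apply, A_afun_append v u (by omega)]
        rfl
      · rw [List.cons_append, (hs _).2, (hs _).2, he v u hv']
        rfl

theorem LX1_s2c {η : Om} {R : ℕ} {y : V} (hη : ∀ n < R, η n = η 0) (hy : y ≠ kil (η 0))
    (hyR : y = kil (η R)) (k : ℕ) : ∀ m, m + k = R → ∀ v u : List Bool, v.length = k + 1 →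
      ((xx (shi m η) y * a) ^ (2 ^ (k + 1))) (v ++ u) = v ++ xx (shi (R + 1) η) y u := by
  induction k with
  | zero =>
    intro m hm v u hv
    have hmR : m = R := by omega
    subst hmR
    obtain ⟨t, rfl⟩ := List.length_eq_one_iff.mp hv
    have hY := LX1_secYR hyR
    have h2 := hY.mul hY.conj
    have e1 : (xx (shi m η) y * a) ^ (2 ^ (0 + 1)) =
        xx (shi m η) y * (a * xx (shi m η) y * a) := by
      rw [show 2 ^ (0 + 1) = 2 from rfl, pow_two]
      simp only [mul_assoc]
    rw [e1]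
    cases t
    · exact (h2 u).1
    · exact (h2 u).2
  | succ k ih =>
    intro m hm v u hv
    obtain ⟨s, hs⟩ : ∃ s : P, s = xx (shi (m + 1) η) y * a := ⟨_, rfl⟩
    have hY := LOC_secY hη hy (m := m) (by omega)
    have h1 : Sec ((xx (shi m η) y * a) ^ 2) (a * s * a) s := by
      have h2 := hY.mul hY.conj
      have e1 : (xx (shi m η) y * a) ^ 2 = xx (shi m η) y * (a * xx (shi m η) y * a) := by
        rw [pow_two]
        simp only [mul_assoc]
      have e2 : a * s * a = a * xx (shi (m + 1) η) y := by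
        rw [hs]
        simp only [mul_assoc]
        rw [J_a_sq, mul_one]
      rw [e1, e2, hs]
      exact h2
    have h2 : ∀ N : ℕ, Sec (((xx (shi m η) y * a) ^ 2) ^ N) (a * s ^ N * a) (s ^ N) := by
      intro N
      induction N with
      | zero =>
        rw [pow_zero, pow_zero, mul_one, J_a_sq]
        exact Sec.one
      | succ N ihN =>
        have h3 := ihN.mul h1
        have e1 : a * s ^ N * a * (a * s * a) = a * s ^ (N + 1) * a := by
          calc a * s ^ N * a * (a * s * a) = a * s ^ N * (a * a) * s * a := by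
                simp only [mul_assoc]
            _ = a * s ^ (N + 1) * a := by
                rw [J_a_sq, mul_one, pow_succ]
                simp only [mul_assoc]
        rw [e1, ← pow_succ, ← pow_succ] at h3
        exact h3
    have h3 := h2 (2 ^ (k + 1))
    rw [← pow_mul, ← pow_succ'] at h3
    have h4 := ih (m + 1) (by omega)
    rw [← hs] at h4
    cases v with
    | nil => simp at hv
    | cons t v =>
      have hv' : v.length = k + 1 := by simpa using hv
      cases t
      · rw [List.cons_append, (h3 _).1]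
        show false :: a ((s ^ 2 ^ (k + 1)) (a (v ++ u))) = _
        rw [a_apply, a_apply, A_afun_append v u (by omega), h4 _ u (by rw [A_afun_len, hv']),
          ← A_afun_append v _ (by omega), aFun_invol]
        rfl
      · rw [List.cons_append, (h3 _).2, h4 v u hv']
        rfl

theorem LX1_hyp {η : Om} {y : V} {R : ℕ} (hη : ∀ n < R, η n = η 0) (hR : η R ≠ η 0)
    (hy : y ≠ kil (η 0)) (hyR : y = kil (η R)) :
    LX1_H (evo η (Tw y)) (xx η (kil (η 0))) (xx (shi (R + 1) η) y)
      (xx (shi (R + 1) η) (kil (η 0))) R where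
  toLOC_H := LOC_hyp hη hR hy
  z0 := LX1_z0 hη hR R 0 (by omega)
  z1 := LX1_z1 hη hR R 0 (by omega)
  sT := by
    have h1 : LX1_good (xx (shi (R + 1) η) y) R (xx η y) :=
      LX1_good_y hη hy hyR R 0 (by omega)
    have hyy : ∀ u, xx (shi (R + 1) η) y (xx (shi (R + 1) η) y u) = u :=
      fun u => xFun_invol _ _ u
    have hta : TA (a : P) := ⟨fun v => A_afun_len v, fun v n => A_afun_take v n⟩
    have h2 := LX1_good_mul hyy h1 (LX1_good_a _ R) hta
    have h3 := LX1_good_mul hyy h2 h2 (LOC_ta_mul (LOC_ta_xx η y) hta)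
    rw [← pow_two, ← LOC_Teq] at h3
    exact h3
  s2 := by
    intro v u hv
    have := LX1_s2c hη hy hyR R 0 (by omega) v u hv
    rw [LOC_Teq, ← pow_mul, ← pow_succ']
    exact this
  yy := fun u => xFun_invol _ _ u
  zzp := fun u => xFun_invol _ _ u
  yz := fun u => congrFun (congrArg DFunLike.coe (J_xx_comm (shi (R + 1) η) y (kil (η 0)))) u

theorem t_LX1 : S_LX1 := by
  intro η y R h3 hη hR hyR
  have hy : y ≠ kil (η 0) := by
    rw [hyR]
    exact fun h => hR (LOC_kil_inj h)
  have H := LX1_hyp hη hR hy hyR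
  obtain ⟨yp, hyp⟩ : ∃ yp, yp = xx (shi (R + 1) η) y := ⟨_, rfl⟩
  rw [← hyp] at H
  obtain ⟨T, hT⟩ : ∃ T, T = evo η (Tw y) := ⟨_, rfl⟩
  obtain ⟨Z, hZ⟩ : ∃ Z, Z = xx η (kil (η 0)) := ⟨_, rfl⟩
  rw [← hT, ← hZ] at H
  have hev : ∀ sg : Bool, evo (shi (R + 1) η) (if (!sg) then [Lt.A, y.lt, Lt.A, y.lt]
      else [y.lt, Lt.A, y.lt, Lt.A]) = if sg then yp * a * (yp * a) else (yp * a * (yp * a))⁻¹ := by
    intro sg
    have e1 : evo (shi (R + 1) η) [y.lt, Lt.A, y.lt, Lt.A] = yp * a * (yp * a) := by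
      rw [hyp, ← pow_two, ← LOC_Teq]
      rfl
    cases sg
    · simp only [Bool.not_false, if_true, Bool.false_eq_true, if_false]
      rw [← e1, ← evo_reverse]
      rfl
    · simp only [Bool.not_true, if_true, Bool.false_eq_true, if_false]
      exact e1
  have hside : ∀ v : List Bool, ∃ sg : Bool, v.length = R + 1 → v.take 1 = [true] →
      ∀ (p : List Bool → Bool) (u : List Bool),
      LX1_A T Z R true p (LX1_A T Z R false p (v ++ u)) = v ++ (if p v then
        (if sg then yp * a * (yp * a) else (yp * a * (yp * a))⁻¹) u else u) := by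
    intro v
    by_cases hv : v.length = R + 1
    · by_cases hv1 : v.take 1 = [true]
      · obtain ⟨sg, h⟩ := LX1_side H h3 v hv hv1
        exact ⟨sg, fun _ _ => h⟩
      · exact ⟨true, fun _ h => absurd h hv1⟩
    · exact ⟨true, fun h => absurd h hv⟩
  choose sg hsg using hside
  have hloc : ∀ (par : Bool) (p : List Bool → Bool),
      locw η y (kil (η 0)) (fun e => LOC_q (LX1_P T R par (if e then (fun v => p (aFun v)) else p)))
        (2 ^ (R + 1) - 2) =
      LX1_A T Z R par p * (a * LX1_A T Z R par (fun v => p (aFun v)) * a) := by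
    intro par p
    unfold locw
    rw [LOC_kap (R := R) h3 hη hR hy, ← hT, ← hZ, LOC_prl_eq, LOC_prl_eq]
    rfl
  refine ⟨fun p e => LOC_q (LX1_P T R true (if e then (fun v => p (aFun v)) else p)),
    fun p e => LOC_q (LX1_P T R false (if e then (fun v => p (aFun v)) else p)),
    fun v => if v.take 1 = [true] then !sg v else !sg (aFun v), fun p v u hv => ?_⟩
  rw [hloc, hloc, Equiv.Perm.mul_apply]
  have hsplit : v.take 1 = [true] ∨ v.take 1 = [false] := by
    cases v with
    | nil => simp at hv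
    | cons t v => cases t <;> simp
  have htk : (v ++ u).take 1 = v.take 1 := by
    rw [List.take_append_of_le_length (by omega)]
  rcases hsplit with h | h
  · rw [LX1_B1 H h3 false p _ _ (by rw [htk, h]),
      LX1_B1 H h3 true p _ _ (by rw [LX1_A_take H, htk, h]), hsg v hv h p u]
    beta_reduce
    rw [if_pos h, hev]
  · have hne : ¬ v.take 1 = [true] := by
      rw [h]
      simp
    have hft : (aFun (v ++ u)).take 1 = [true] := LX1_af _ (by rw [htk, h])
    rw [LX1_B2 H h3 false p _ _ (by rw [htk, h]),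
      LX1_B2 H h3 true p _ _ (LX1_at _ (by rw [LX1_A_take H, hft])), aFun_invol,
      A_afun_append v u (by omega),
      hsg (aFun v) (by rw [A_afun_len, hv]) (LX1_af v h) (fun v => p (aFun v)) u,
      A_afun_append (aFun v) _ (by rw [A_afun_len]; omega), aFun_invol]
    beta_reduce
    rw [if_neg hne, hev]

end Pool.Agent.U640.BG
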