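import Pool.Agent.U640.BG.XStm
import Pool.Agent.U640.BG.BS
import Pool.Agent.U640.BG.LOC
import Pool.Agent.U640.BG.CMP

set_option autoImplicit false

/-! Project BG, package TX0 (helper928): two adjacent runs. -/

namespace Pool.Agent.U640.BG

open Pool.Agent.Results.MP_03d093_al.SphereBall Pool.Agent.H776R2.Grig Pool.Agent.H776R2.Om

theorem TX_fix {θ : Om} (hθ : ∀ n < 3, θ n = θ 0) {g : P} (hg : TA g) (w : List Bool)
    (h : g (w.take 3) ≠ [true, true, true]) : (g⁻¹ * xx θ (kil (θ 0)) * g) w = w := by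
  show g⁻¹ (xx θ (kil (θ 0)) (g w)) = w
  have h1 : xx (shi 0 θ) (kil (θ 0)) (g w) = g w := by
    refine LOC_zf hθ 3 0 (by omega) (g w) ?_
    rw [hg.2]
    exact h
  have h2 : xx θ (kil (θ 0)) (g w) = g w := h1
  rw [h2, LOC_ia]

theorem TX_comm {θ : Om} (hθ : ∀ n < 3, θ n = θ 0) {g h : P} (hg : TA g) (hh : TA h)
    (hne : ∀ v, g v = [true, true, true] → h v ≠ [true, true, true]) :
    (g⁻¹ * xx θ (kil (θ 0)) * g) * (h⁻¹ * xx θ (kil (θ 0)) * h) =
      (h⁻¹ * xx θ (kil (θ 0)) * h) * (g⁻¹ * xx θ (kil (θ 0)) * g) := by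
  refine Equiv.Perm.Disjoint.commute ?_
  intro w
  by_cases h1 : g (w.take 3) = [true, true, true]
  · right
    exact TX_fix hθ hh w (hne _ h1)
  · left
    exact TX_fix hθ hg w h1

theorem TX_T1 {θ : Om} (hθ : ∀ n < 3, θ n = θ 0) {z : V} (hz : z ≠ kil (θ 0)) :
    evo θ (Tw z) [true, true, true] = [true, false, false] ∧
      evo θ (Tw z) [true, false, false] = [true, true, false] := by
  have c0 : col (θ 0) z = true := by
    rw [col_eq]
    simp [hz]
  have c1 : col (sh θ 0) z = true := by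
    rw [col_eq]
    have : sh θ 0 = θ 0 := hθ 1 (by omega)
    simp [this, hz]
  rw [LOC_Teq, pow_two]
  have key : ∀ v, (xx θ z * a * (xx θ z * a)) v = xFun z θ (aFun (xFun z θ (aFun v))) := fun _ => rfl
  rw [key, key]
  simp [xFun, aFun, c0, c1]

theorem TX_ta : TA a := ⟨fun v => A_afun_len v, fun v n => A_afun_take v n⟩

section
variable {G : Type*} [Group G]

/-- abstract form: lamps `p = z1`, `q = z0`, `m = z(-1)`, `T` shifts -/
theorem TXg_A2 {T q p m : G} (hq : q * q = 1) (hp : p = T⁻¹ * q * T) (hm : m = T * q * T⁻¹)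
    (c1 : q * m = m * q) (c0 : q * p = p * q) :
    (p * q) * (q * T * q) * (p * q)⁻¹ * (q * T * q)⁻¹ = p * m := by
  have hqi : q⁻¹ = q := inv_eq_of_mul_eq_one_left hq
  have hpi : p⁻¹ = p := by rw [hp]; simp [mul_assoc, hqi]
  have e1 : T * p = q * T := by rw [hp]; group
  have e2 : T * q = m * T := by rw [hm]; group
  calc (p * q) * (q * T * q) * (p * q)⁻¹ * (q * T * q)⁻¹
      = p * (q * q) * (T * (q * (q * p) * q)) * T⁻¹ * q := by
        rw [mul_inv_rev, mul_inv_rev, mul_inv_rev, hpi, hqi]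
        simp only [mul_assoc]
    _ = p * (T * (p * q)) * T⁻¹ * q := by rw [hq, mul_one, ← mul_assoc q q p, hq, one_mul]
    _ = p * (q * m) * (T * T⁻¹) * q := by
        rw [← mul_assoc T p q, e1, mul_assoc q T q, e2]
        simp only [mul_assoc]
    _ = p * m := by
        rw [mul_inv_cancel, mul_one, c1]
        rw [mul_assoc, mul_assoc m q q, hq, mul_one]

theorem TXg_B1 {T q p m : G} (hq : q * q = 1) (hp : p = T⁻¹ * q * T) (hm : m = T * q * T⁻¹)
    (c1 : q * m = m * q) (c2 : p * m = m * p) :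
    T * ((p * q) * T⁻¹ * (p * q)⁻¹ * T⁻¹⁻¹) * T⁻¹ = p * m := by
  have hqi : q⁻¹ = q := inv_eq_of_mul_eq_one_left hq
  have hpi : p⁻¹ = p := by rw [hp]; simp [mul_assoc, hqi]
  have e1 : T * p = q * T := by rw [hp]; group
  have e2 : T * q = m * T := by rw [hm]; group
  calc T * ((p * q) * T⁻¹ * (p * q)⁻¹ * T⁻¹⁻¹) * T⁻¹
      = (T * p) * q * T⁻¹ * (q * p) * (T * T⁻¹) := by
        rw [mul_inv_rev, hpi, hqi, inv_inv]
        simp only [mul_assoc]
    _ = q * (T * q) * T⁻¹ * (q * p) := by rw [e1, mul_inv_cancel, mul_one]; simp only [mul_assoc]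
    _ = q * m * (T * T⁻¹) * (q * p) := by rw [e2]; simp only [mul_assoc]
    _ = m * (q * q) * p := by rw [mul_inv_cancel, mul_one, c1]; simp only [mul_assoc]
    _ = p * m := by rw [hq, mul_one, c2]

theorem TXg_B2 {T q p m W : G} (hq : q * q = 1) (hW : W * W = 1) (hp : p = T⁻¹ * q * T)
    (hm : m = T * q * T⁻¹)
    (c0 : q * p = p * q) (c2 : p * m = m * p) (w0 : W * q = q * W)
    (w1 : W * p = p * W) (w2 : W * (T⁻¹ * p * T) = (T⁻¹ * p * T) * W) :
    T * ((p * q) * (W * T⁻¹ * W) * (p * q)⁻¹ * (W * T⁻¹ * W)⁻¹) * T⁻¹ = p * m := by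
  have hqi : q⁻¹ = q := inv_eq_of_mul_eq_one_left hq
  have hWi : W⁻¹ = W := inv_eq_of_mul_eq_one_left hW
  have hpi : p⁻¹ = p := by rw [hp]; simp [mul_assoc, hqi]
  have e1 : T * p = q * T := by rw [hp]; group
  have e2 : T * q = m * T := by rw [hm]; group
  have hpp : p * p = 1 := by
    have := inv_mul_cancel p
    rwa [hpi] at this
  have s1 : W * (q * p) * W = q * p := by
    rw [← mul_assoc, w0, mul_assoc q W p, w1, mul_assoc, mul_assoc, hW, mul_one]
  have s2 : T⁻¹ * (q * p) * T = p * (T⁻¹ * p * T) := by rw [hp]; group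
  have s3 : W * (p * (T⁻¹ * p * T)) * W = p * (T⁻¹ * p * T) := by
    rw [← mul_assoc, w1, mul_assoc p W, w2, mul_assoc, mul_assoc, hW, mul_one]
  calc T * ((p * q) * (W * T⁻¹ * W) * (p * q)⁻¹ * (W * T⁻¹ * W)⁻¹) * T⁻¹
      = T * p * q * (W * (T⁻¹ * (W * (q * p) * W) * T) * W) * T⁻¹ := by
        rw [mul_inv_rev, mul_inv_rev, mul_inv_rev, hpi, hqi, hWi, inv_inv]
        simp only [mul_assoc]
    _ = T * p * q * (p * (T⁻¹ * p * T)) * T⁻¹ := by rw [s1, s2, s3]
    _ = T * (p * (q * p)) * T⁻¹ * p * (T * T⁻¹) := by simp only [mul_assoc]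
    _ = T * ((p * p) * q) * T⁻¹ * p := by rw [c0, mul_inv_cancel, mul_one, ← mul_assoc p p q]
    _ = m * p := by rw [hpp, one_mul, hm]
    _ = p * m := c2.symm

theorem TXg_A1 {T q p m : G} (hq : q * q = 1) (hp : p = T⁻¹ * q * T) (hm : m = T * q * T⁻¹)
    (c1 : q * m = m * q) :
    (p * q) * T * (p * q)⁻¹ * T⁻¹ = p * m := by
  have hqi : q⁻¹ = q := inv_eq_of_mul_eq_one_left hq
  have hpi : p⁻¹ = p := by rw [hp]; simp [mul_assoc, hqi]
  have e1 : T * p = q * T := by rw [hp]; group
  have e2 : T * q = m * T := by rw [hm]; group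
  calc (p * q) * T * (p * q)⁻¹ * T⁻¹ = p * q * (T * q) * p * T⁻¹ := by
        rw [mul_inv_rev, hpi, hqi]
        simp only [mul_assoc]
    _ = p * q * m * (T * p) * T⁻¹ := by rw [e2]; simp only [mul_assoc]
    _ = p * (q * m) * q * (T * T⁻¹) := by rw [e1]; simp only [mul_assoc]
    _ = p * m := by rw [mul_inv_cancel, mul_one, c1, mul_assoc, mul_assoc m q q, hq, mul_one]

end


theorem TX_T0 (θ : Om) (z : V) : evo θ (Tw z) [false] = [false] := by
  rw [LOC_Teq, pow_two]
  have key : ∀ v, (xx θ z * a * (xx θ z * a)) v = xFun z θ (aFun (xFun z θ (aFun v))) := fun _ => rfl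
  rw [key]
  simp [xFun, aFun]

theorem TX_Fe (θ : Om) (y z : V) : evo θ (jw z (Wf y)) =
    (evo θ (Tw z))⁻¹ * xx θ y * evo θ (Tw z) * xx θ y := by
  have hT : evo θ (Tw z) = xx θ z * (a * xx θ z * a) := by
    rw [LOC_Teq, pow_two]
    simp only [mul_assoc]
  have e1 : evo θ (jw z (Wf y)) =
      a * xx θ z * a * xx θ y * (a * xx θ z * a) * xx θ y := by
    simp only [jw, Wf, List.flatMap_cons, List.flatMap_nil, List.append_nil, List.reverse_cons,
      List.reverse_nil, List.nil_append, List.cons_append, evo_cons, evo_nil, mul_one, gno_lt]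
    show a * (xx θ z * (a * (xx θ y * (a * (xx θ z * (a * xx θ y)))))) = _
    simp only [mul_assoc]
  have hai : (a : P)⁻¹ = a := inv_eq_of_mul_eq_one_left BS_aa
  have hzi : (xx θ z)⁻¹ = xx θ z := inv_eq_of_mul_eq_one_left (xx_sq θ z)
  have hc : xx θ z * xx θ y = xx θ y * xx θ z := J_xx_comm _ _ _
  rw [e1, hT, mul_inv_rev, mul_inv_rev, mul_inv_rev, hai, hzi]
  have h2 : xx θ z * xx θ y * (xx θ z * (a * xx θ z * a)) = xx θ y * (a * xx θ z * a) := by
    rw [hc, mul_assoc, ← mul_assoc (xx θ z) (xx θ z), xx_sq, one_mul]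
  calc a * xx θ z * a * xx θ y * (a * xx θ z * a) * xx θ y
      = a * xx θ z * a * (xx θ y * (a * xx θ z * a)) * xx θ y := by simp only [mul_assoc]
    _ = a * xx θ z * a * (xx θ z * xx θ y * (xx θ z * (a * xx θ z * a))) * xx θ y := by rw [h2]
    _ = _ := by simp only [mul_assoc]

theorem TX_Te (θ : Om) (z : V) : evo θ (jw z Wt) = evo θ (Tw z) := by
  have hT : evo θ (Tw z) = xx θ z * (a * xx θ z * a) := by
    rw [LOC_Teq, pow_two]
    simp only [mul_assoc]
  rw [hT]
  simp only [jw, Wt, List.flatMap_cons, List.flatMap_nil, List.append_nil, List.reverse_cons,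
    List.reverse_nil, List.nil_append, List.cons_append, evo_cons, evo_nil, mul_one, gno_lt]
  show xx θ z * (a * (xx θ z * a)) = _
  simp only [mul_assoc]

theorem TX_kap (θ : Om) (y z : V) : evo θ (kap z y false) =
    evo θ (jw z (Wf y)) * evo θ (Tw z) * (evo θ (jw z (Wf y)))⁻¹ * (evo θ (Tw z))⁻¹ := by
  unfold kap comw
  simp only [cj, Bool.false_eq_true, if_false]
  rw [evo_append, evo_append, evo_append, evo_reverse, evo_reverse, TX_Te]

/-- the four commutators -/
theorem TX_all {θ : Om} (hθ : ∀ n < 3, θ n = θ 0) {z : V} (hz : z ≠ kil (θ 0)) (f δ : Bool)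
    (F T Z X : P) (hF : F = evo θ (jw z (Wf (kil (θ 0))))) (hT : T = evo θ (Tw z))
    (hZ : Z = xx θ (kil (θ 0)))
    (hX : X = (if f then Z else 1) * T * (if f then Z else 1)) :
    (δ = false → F * X * F⁻¹ * X⁻¹ = evo θ (kap z (kil (θ 0)) false)) ∧
    (δ = true → T * (F * (a * X * a) * F⁻¹ * (a * X * a)⁻¹) * T⁻¹ =
      evo θ (kap z (kil (θ 0)) false)) := by
  obtain ⟨t1, t2⟩ := TX_T1 hθ hz
  have t0 := TX_T0 θ z
  rw [← hT] at t1 t2 t0
  have tT : TA T := by rw [hT]; exact ta_evo θ _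
  have tTi : TA T⁻¹ := LOC_ta_inv tT
  have tTT : TA (T * T) := LOC_ta_mul tT tT
  obtain ⟨p, hp⟩ : ∃ p, p = T⁻¹ * Z * T := ⟨_, rfl⟩
  obtain ⟨m, hm⟩ : ∃ m, m = T * Z * T⁻¹ := ⟨_, rfl⟩
  obtain ⟨W, hW⟩ : ∃ W, W = a * Z * a := ⟨_, rfl⟩
  have hai : (a : P)⁻¹ = a := inv_eq_of_mul_eq_one_left BS_aa
  have hZZ : Z * Z = 1 := by rw [hZ]; exact xx_sq _ _
  have hWW : W * W = 1 := by
    rw [hW]
    calc a * Z * a * (a * Z * a) = a * Z * (a * a) * Z * a := by simp only [mul_assoc]
      _ = a * (Z * Z) * a := by rw [BS_aa, mul_one]; simp only [mul_assoc]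
      _ = 1 := by rw [hZZ, mul_one, BS_aa]
  have c1 : Z * m = m * Z := by
    have := TX_comm hθ (g := 1) (h := T⁻¹) LOC_ta_one tTi (fun v hv hv' => by
      have hv1 : v = [true, true, true] := hv
      rw [hv1, Equiv.Perm.inv_eq_iff_eq, t1] at hv'
      simp at hv')
    rw [← hZ] at this
    rw [hm]
    simpa using this
  have c0 : Z * p = p * Z := by
    have := TX_comm hθ (g := 1) (h := T) LOC_ta_one tT (fun v hv hv' => by
      have hv1 : v = [true, true, true] := hv
      rw [hv1, t1] at hv'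
      simp at hv')
    rw [← hZ] at this
    rw [hp]
    simpa using this
  have c2 : p * m = m * p := by
    have := TX_comm hθ (g := T) (h := T⁻¹) tT tTi (fun v hv hv' => by
      rw [Equiv.Perm.inv_eq_iff_eq, t1] at hv'
      rw [hv', t2] at hv
      simp at hv)
    rw [← hZ] at this
    rw [hp, hm]
    simpa using this
  have av : ∀ v, a v = [true, true, true] → v = [false, true, true] := fun v hv => by
    have := congrArg aFun hv
    rw [a_apply, aFun_invol] at this
    exact this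
  have ff : ∀ g : P, TA g → g [false] = [false] → ∀ v, a v = [true, true, true] →
      g v ≠ [true, true, true] := fun g hg h0 v hv hv' => by
    rw [av v hv] at hv'
    have h1 := hg.2 [false, true, true] 1
    rw [hv'] at h1
    simp [h0] at h1
  have w0 : W * Z = Z * W := by
    have := TX_comm hθ (g := a) (h := 1) TX_ta LOC_ta_one (ff 1 LOC_ta_one rfl)
    rw [← hZ, hai] at this
    rw [hW]
    simpa using this
  have w1 : W * p = p * W := by
    have := TX_comm hθ (g := a) (h := T) TX_ta tT (ff T tT t0)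
    rw [← hZ, hai] at this
    rw [hW, hp]
    simpa using this
  have w2 : W * (T⁻¹ * p * T) = (T⁻¹ * p * T) * W := by
    have := TX_comm hθ (g := a) (h := T * T) TX_ta tTT (ff (T * T) tTT (by
      rw [Equiv.Perm.mul_apply, t0, t0]))
    rw [← hZ, hai, mul_inv_rev] at this
    rw [hW, hp]
    simpa only [mul_assoc] using this
  have hFe : F = p * Z := by rw [hF, TX_Fe, ← hT, ← hZ, hp]
  have hK : evo θ (kap z (kil (θ 0)) false) = p * m := by
    rw [TX_kap, ← hF, ← hT, hFe]
    exact TXg_A1 hZZ hp hm c1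
  have haT : a * T * a = T⁻¹ := by rw [hT]; exact BS_T θ z
  rw [hK, hFe, hX]
  refine ⟨fun _ => ?_, fun _ => ?_⟩
  · cases f
    · simp only [Bool.false_eq_true, if_false, one_mul, mul_one]
      exact TXg_A1 hZZ hp hm c1
    · simp only [if_true]
      exact TXg_A2 hZZ hp hm c1 c0
  · cases f
    · simp only [Bool.false_eq_true, if_false, one_mul, mul_one]
      rw [haT]
      exact TXg_B1 hZZ hp hm c1 c2
    · simp only [if_true]
      have e : a * (Z * T * Z) * a = W * T⁻¹ * W := by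
        rw [hW, ← haT]
        calc a * (Z * T * Z) * a = a * Z * 1 * T * 1 * Z * a := by simp only [mul_one, mul_assoc]
          _ = a * Z * (a * a) * T * (a * a) * Z * a := by rw [BS_aa]
          _ = _ := by simp only [mul_assoc]
      rw [e]
      exact TXg_B2 hZZ hWW hp hm c0 c2 w0 w1 w2


theorem TX_pa (c ex e' : Bool) (S : P) :
    (xor (xor c ex) e' = false → pa c * (pa ex * S * pa ex) * pa c = pa e' * S * pa e') ∧
    (xor (xor c ex) e' = true →
      pa c * (pa ex * S * pa ex) * pa c = pa e' * (a * S * a) * pa e') := by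
  have haa : ∀ g : P, a * (a * g) = g := fun g => by rw [← mul_assoc, BS_aa, one_mul]
  cases c <;> cases ex <;> cases e' <;> simp [pa, mul_assoc, haa, BS_aa]

theorem TX_evF (y z : V) (e : Bool) : EvC (jw z (cj e (Wf y))) := by
  intro s
  cases s <;> cases y <;> cases z <;> cases e <;> decide

theorem TX_evT (z : V) (e : Bool) : EvC (jw z (cj e Wt)) := by
  intro s
  cases s <;> cases z <;> cases e <;> decide

theorem TX_lenF (y z : V) (e : Bool) : (jw z (cj e (Wf y))).length ≤ 12 := by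
  cases y <;> cases z <;> cases e <;> decide

theorem TX_lenT (z : V) (e : Bool) : (jw z (cj e Wt)).length ≤ 8 := by
  cases z <;> cases e <;> decide

theorem TX_cj (θ : Om) (z : V) (e : Bool) (W : List (List Lt × List Lt)) :
    evo θ (jw z (cj e W)) = pa e * evo θ (jw z W) * pa e := by
  cases e
  · show evo θ (jw z W) = 1 * evo θ (jw z W) * 1
    rw [one_mul, mul_one]
  · exact BS_jw_conj θ z W

theorem TX_kape (θ : Om) (y z : V) (e : Bool) :
    evo θ (kap z y e) = pa e * evo θ (kap z y false) * pa e := by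
  cases e
  · show evo θ (kap z y false) = 1 * evo θ (kap z y false) * 1
    rw [one_mul, mul_one]
  · exact BS_kap θ z y

theorem TX_E (hDG : S_DG) (ω : Om) (m R N : ℕ) (y z : V) (hR : 1 ≤ R)
    (h0 : Exa ω m (kap y z false) N) (h1 : Exa ω m (kap y z true) N)
    (Qf : (List Bool → Bool) → Bool → ℕ → Bool) (S : List Bool → P)
    (hQ : ∀ p : List Bool → Bool, ∀ v u : List Bool, v.length = R →
        locw (shi m ω) y z (Qf p) (2 ^ R - 2) (v ++ u) = v ++ (if p v then S v u else u))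
    (q : List Bool → Bool) :
    ∃ w : List Lt, w.length ≤ 2 ^ (R + 1) * (N + 22 * ell ω m) ∧
      ∀ x u : List Bool, x.length = m + R → evo ω w (x ++ u) = x ++
        (if q x then S (pa (cz (x.take m)) (x.drop m)) u else u) := by
  obtain ⟨w, hw1, hw2⟩ := BS_global hDG ω m N (2 ^ R - 2) y z h0 h1
    (fun x => Qf fun v => q (x ++ pa (cz x) v))
  refine ⟨w, hw1.trans ?_, ?_⟩
  · rw [pow_succ, mul_comm (2 ^ R) 2, mul_assoc]
    exact Nat.mul_le_mul_left 2 (Nat.mul_le_mul_right _ (Nat.sub_le _ _))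
  · intro x u hx
    obtain ⟨x1, v, rfl, hx1, hv⟩ : ∃ x1 v, x = x1 ++ v ∧ x1.length = m ∧ v.length = R := by
      refine ⟨x.take m, x.drop m, (List.take_append_drop m x).symm, ?_, ?_⟩
      · rw [List.length_take]
        omega
      · rw [List.length_drop]
        omega
    have hv0 : v ≠ [] := by
      rintro rfl
      simp at hv
      omega
    have ht : (x1 ++ v).take m = x1 := by rw [← hx1]; simp
    have hd : (x1 ++ v).drop m = v := by rw [← hx1]; simp
    rw [ht, hd, List.append_assoc, hw2 x1 (v ++ u) hx1, Equiv.Perm.mul_apply,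
      Equiv.Perm.mul_apply, BS_pa_append _ _ _ hv0, hQ _ _ _ (by rw [BS_pa_len, hv]),
      BS_pa_append _ _ _ (by
        intro h
        have := congrArg List.length h
        rw [BS_pa_len, hv] at this
        simp at this
        omega), BS_pa_app, List.append_assoc]

theorem TX_act {k : ℕ} {g : P} {q : List Bool → Bool} {S : List Bool → P}
    (h : ∀ x u : List Bool, x.length = k → g (x ++ u) = x ++ (if q x then S x u else u)) :
    BS_Act k g (fun x => if q x then pa (cz x) * S x * pa (cz x) else 1) := by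
  intro x u hx
  rw [h x u hx]
  by_cases hq : q x = true
  · simp only [hq, if_true]
    congr 1
    have : pa (cz x) * (pa (cz x) * S x * pa (cz x)) * pa (cz x) = S x := by
      calc pa (cz x) * (pa (cz x) * S x * pa (cz x)) * pa (cz x)
          = (pa (cz x) * pa (cz x)) * S x * (pa (cz x) * pa (cz x)) := by simp only [mul_assoc]
        _ = S x := by rw [BS_pa, one_mul, mul_one]
    rw [this]
  · simp only [hq, Bool.false_eq_true, if_false, mul_one, BS_pa, Equiv.Perm.one_apply]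

theorem t_TX0 : S_DG → S_KI → S_LX0 → S_TX0 := by
  intro hDG hKI hLX
  refine ⟨1000, ?_⟩
  intro ω m R N hm hR hrun hne hne' h1 h2 hE e' q
  obtain ⟨z, hz⟩ : ∃ z, z = kil (ω m) := ⟨_, rfl⟩
  obtain ⟨θ, hθd⟩ : ∃ θ, θ = shi (m + R) ω := ⟨_, rfl⟩
  have hθ0 : θ 0 = ω (m + R) := by
    rw [hθd]
    show ω (0 + (m + R)) = _
    rw [zero_add]
  have hθ : ∀ n < 3, θ n = θ 0 := by
    intro n hn
    rw [hθ0, hθd]
    show ω (n + (m + R)) = ω (m + R)
    interval_cases n
    · rw [zero_add]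
    · rw [add_comm 1]; exact h1
    · rw [add_comm 2]; exact h2
  have hη0 : (shi m ω) 0 = ω m := by
    show ω (0 + m) = _
    rw [zero_add]
  have hηc : ∀ n < R, shi m ω n = shi m ω 0 := by
    intro n hn
    rw [hη0]
    exact hrun (n + m) (by omega) (by omega)
  have hηR : shi m ω R ≠ shi m ω 0 := by
    rw [hη0]
    show ω (R + m) ≠ ω m
    rw [add_comm]
    exact hne
  have hyz : kil (ω (m + R)) ≠ kil ((shi m ω) 0) := by
    rw [hη0]
    exact fun h => hne (LOC_kil_inj h)
  have hy0 : kil (ω (m - 1)) ≠ kil ((shi m ω) 0) := by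
    rw [hη0]
    exact fun h => hne' (LOC_kil_inj h)
  obtain ⟨y, hy⟩ : ∃ y, y = kil (ω (m + R)) := ⟨_, rfl⟩
  rw [← hy, ← hz]
  have hyθ : y = kil (θ 0) := by rw [hy, hθ0]
  have hzθ : z ≠ kil (θ 0) := by
    rw [hz, hθ0]
    exact fun h => hne (LOC_kil_inj h).symm
  have hE' : ∀ e, Exa ω m (kap y z e) N := by
    intro e q
    obtain ⟨w, hw1, hw2⟩ := hE e q
    refine ⟨w, hw1, fun x u hx => ?_⟩
    have hk := hKI (shi m ω) (kil (ω (m - 1))) (kil (ω (m + R))) e
      (fun n hn => hηc n (by omega)) hy0 hyz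
    rw [hη0, ← hz, ← hy] at hk
    rw [hw2 x u hx, ← hz, hk]
  obtain ⟨Qf, e, f, hQ⟩ := hLX (shi m ω) (kil (ω (m + R))) R hR hηc hηR hyz
  have hsh : shi R (shi m ω) = θ := by
    rw [hθd]
    funext n
    show ω (n + R + m) = ω (n + (m + R))
    congr 1
    omega
  rw [hη0, ← hz, ← hy, hsh] at hQ
  obtain ⟨S, hS⟩ : ∃ S : List Bool → P, S = fun v => pa (e v) * (if f v then xx θ y else 1) *
    evo θ (Tw z) * (if f v then xx θ y else 1) * pa (e v) := ⟨_, rfl⟩
  have hQ' : ∀ p : List Bool → Bool, ∀ v u : List Bool, v.length = R →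
        locw (shi m ω) y z (Qf p) (2 ^ R - 2) (v ++ u) = v ++ (if p v then S v u else u) := by
    rw [hS]
    exact hQ
  obtain ⟨V', hV⟩ : ∃ V' : List Bool → List Bool, V' = fun x => pa (cz (x.take m)) (x.drop m) :=
    ⟨_, rfl⟩
  obtain ⟨δ, hδ⟩ : ∃ δ : List Bool → Bool, δ = fun x => xor (xor (cz x) (e (V' x))) e' := ⟨_, rfl⟩
  obtain ⟨w0, l0, a0⟩ := TX_E hDG ω m R N y z (by omega) (hE' false) (hE' true) Qf S hQ'
    (fun x => q x && !(δ x))
  obtain ⟨w1, l1, a1⟩ := TX_E hDG ω m R N y z (by omega) (hE' false) (hE' true) Qf S hQ'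
    (fun x => q x && δ x)
  have A0 := TX_act (S := fun x => S (V' x)) (by rw [hV]; exact a0)
  have A1 := TX_act (S := fun x => S (V' x)) (by rw [hV]; exact a1)
  obtain ⟨wF, lF, aF⟩ := hDG ω (m + R) (jw z (cj e' (Wf y))) (TX_evF y z e')
  obtain ⟨wT, lT, aT⟩ := hDG ω (m + R) (jw z (cj e' Wt)) (TX_evT z e')
  rw [← hθd] at aF aT
  have AF : BS_Act (m + R) (evo ω wF) fun _ => evo θ (jw z (cj e' (Wf y))) := aF
  have AT : BS_Act (m + R) (evo ω wT) fun _ => evo θ (jw z (cj e' Wt)) := aT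
  have hell : ell ω (m + R) ≤ 2 * (2 ^ R * ell ω m) := CMPAux.block_up hrun R le_rfl
  refine ⟨comw wF w0 ++ (wT ++ comw wF w1 ++ wT.reverse), ?_, ?_⟩
  · simp only [comw, List.length_append, List.length_reverse]
    have b1 : wF.length ≤ 27 * ell ω (m + R) :=
      lF.trans (Nat.mul_le_mul_right _ (by have := TX_lenF y z e'; omega))
    have b2 : wT.length ≤ 19 * ell ω (m + R) :=
      lT.trans (Nat.mul_le_mul_right _ (by have := TX_lenT z e'; omega))
    have b3 : 2 ^ (R + 1) * (N + 22 * ell ω m) = 2 * (2 ^ R * N) + 44 * (2 ^ R * ell ω m) := by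
      ring
    have b4 : 1000 * 2 ^ R * (N + ell ω m) = 1000 * (2 ^ R * N) + 1000 * (2 ^ R * ell ω m) := by
      ring
    rw [b3] at l0 l1
    rw [b4]
    omega
  · have hcomp : BS_Act (m + R) (evo ω (comw wF w0 ++ (wT ++ comw wF w1 ++ wT.reverse)))
        (fun x => if q x then evo θ (kap z y e') else 1) := by
      simp only [comw, evo_append, evo_reverse]
      refine ((((AF.mul A0).mul AF.inv).mul A0.inv).mul
        ((AT.mul (((AF.mul A1).mul AF.inv).mul A1.inv)).mul AT.inv)).congr fun x hx => ?_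
      have hcje : ∀ g : P, pa e' * g * pa e' = MulAut.conj (pa e') g := fun g => by
        rw [MulAut.conj_apply]
        congr 1
        exact (inv_eq_of_mul_eq_one_left (BS_pa e')).symm
      obtain ⟨X, hX⟩ : ∃ X, X = (if f (V' x) then xx θ y else 1) * evo θ (Tw z) *
        (if f (V' x) then xx θ y else 1) := ⟨_, rfl⟩
      have hSX : S (V' x) = pa (e (V' x)) * X * pa (e (V' x)) := by
        rw [hS, hX]
        simp only [mul_assoc]
      have hall := TX_all hθ hzθ (f (V' x)) (δ x) (evo θ (jw z (Wf y))) (evo θ (Tw z)) (xx θ y) X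
        (by rw [hyθ]) rfl (by rw [hyθ]) hX
      have hpa := TX_pa (cz x) (e (V' x)) e' X
      rw [TX_cj, TX_cj, TX_Te, TX_kape, hSX]
      rw [← hyθ] at hall
      have hδx : δ x = xor (xor (cz x) (e (V' x))) e' := by rw [hδ]
      rw [← hδx] at hpa
      cases hq : q x
      · simp
      · cases hd : δ x
        · simp only [Bool.not_false, Bool.and_true, Bool.and_false, if_true, Bool.false_eq_true,
            if_false]
          rw [hpa.1 hd]
          simp only [hcje]
          rw [← hall.1 hd]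
          simp only [map_mul, map_inv, mul_one, inv_one, mul_inv_cancel, one_mul]
        · simp only [Bool.not_true, Bool.and_true, Bool.and_false, if_true, Bool.false_eq_true,
            if_false]
          rw [hpa.2 hd]
          simp only [hcje]
          rw [← hall.2 hd]
          simp only [map_mul, map_inv, mul_one, inv_one, mul_inv_cancel, one_mul]
    intro x u hx
    rw [hcomp x u hx, hθd]
    cases hq : q x
    · simp only [hq, Bool.false_eq_true, if_false, mul_one, BS_pa, Equiv.Perm.one_apply]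
    · simp only [hq, if_true]

end Pool.Agent.U640.BG
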