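import Pool.Agent.U640.BG.UStm

set_option autoImplicit false

/-! Project BG, second part, package U0: the weights of level `k` differ at most by the factor
`(k + 2) / 2`. -/

namespace Pool.Agent.U640.BG

open Pool.Agent.Results.MP_03d093_al.SphereBall Pool.Agent.H776R2.Grig Pool.Agent.H776R2.Om

theorem t_U0 : S_U0 := by
  intro ω k
  induction k with
  | zero =>
    intro x
    rw [ell_zero, W_nn_zero]
  | succ k ih =>
    intro x
    have hb := ih .b
    have hc := ih .c
    have hd := ih .d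
    have l1 := nn_le_ell ω k .b
    have l2 := nn_le_ell ω k .c
    have l3 := nn_le_ell ω k .d
    have hs := W_sum_ge ω k
    obtain ⟨y, hy⟩ := W_ell_attained ω (k + 1)
    have hL : ell ω (k + 1) ≤ nn ω k .b + nn ω k .c + nn ω k .d := by
      rw [hy]
      rcases W_step ω k with ⟨h1, h2, h3⟩ | ⟨h1, h2, h3⟩ | ⟨h1, h2, h3⟩ <;> cases y <;> omega
    have key : ∀ a : ℕ, (k + 1 + 2) * a = (k + 2) * a + a := fun a => by ring
    have key2 : ∀ a : ℕ, (k + 2) * (2 * a) = 2 * ((k + 2) * a) := fun a => by ring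
    have hk : ∀ a : ℕ, a ≤ (k + 2) * a := fun a => Nat.le_mul_of_pos_left a (by omega)
    have hS := hk (nn ω k .b + nn ω k .c + nn ω k .d)
    rw [key]
    rcases W_step ω k with ⟨h1, h2, h3⟩ | ⟨h1, h2, h3⟩ | ⟨h1, h2, h3⟩ <;> cases x <;>
      simp only [h1, h2, h3, key2] <;> omega

end Pool.Agent.U640.BG
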