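import Pool.Agent.U640.BG.UStm
import Pool.Agent.U640.MS.UP

set_option autoImplicit false

/-! Project BG2, package U1: the universal bound of the partition function. -/

namespace Pool.Agent.U640.BG

open Pool.Agent.Results.MP_03d093_al.SphereBall Pool.Agent.H776R2.Grig Pool.Agent.H776R2.Om
open Pool.Agent.U640.MS.UPaux

namespace U1aux

/-- explicit bound of the partition function -/
theorem ZO_le (η : Om) (α : V → ℝ) (hα : Tri α) (s r : ℝ) (hs : 0 < s) (hr : r < 1)
    (h : Real.exp (-s * α .b) + (Real.exp (-s * α .c) + Real.exp (-s * α .d)) ≤ r) :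
    ZO η α s ≤ ENNReal.ofReal (4 * Real.exp 1 / (1 - r)) := by
  have hs1 : 0 < 1 / s := by positivity
  choose w hw hK using fun g : Gom η => E_exists (η := η) α g.2 hs1
  choose e e' v hev _ hU _ _ using fun g : Gom η => normal_formo η α hα (w g)
  set Φ : Gom η → (Bool × Bool) × List V := fun g => ((e g, e' g), v g) with hΦ
  have hinj : Function.Injective Φ := by
    intro g g' hgg
    simp only [hΦ, Prod.mk.injEq] at hgg
    obtain ⟨⟨k1, k2⟩, k3⟩ := hgg
    apply Subtype.ext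
    rw [← hw g, ← hw g', hev g, hev g', k1, k2, k3]
  set ρ : V → ENNReal := fun x => ENNReal.ofReal (Real.exp (-s * α x)) with hρ
  set F : (Bool × Bool) × List V → ENNReal := fun p =>
    ENNReal.ofReal (Real.exp 1) * (p.2.map ρ).prod with hF
  have hle : ∀ g : Gom η, ENNReal.ofReal (Real.exp (-s * KO η α g)) ≤ F (Φ g) := by
    intro g
    simp only [hF, hΦ, hρ]
    rw [← exp_prod, ← ENNReal.ofReal_mul (Real.exp_pos _).le, ← Real.exp_add]
    apply ENNReal.ofReal_le_ofReal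
    apply Real.exp_le_exp.2
    rw [← Kwo_U]
    have h1 := hU g
    have h2 := hK g
    have h3 : Kwo α (U (v g)) ≤ KO η α g + 1 / s := by linarith
    have h4 := mul_le_mul_of_nonneg_left h3 hs.le
    have h5 : s * (KO η α g + 1 / s) = s * KO η α g + 1 := by field_simp
    linarith
  have h3 : ZO η α s ≤ ∑' p, F p := by
    unfold ZO
    exact (ENNReal.tsum_le_tsum hle).trans (ENNReal.tsum_comp_le_tsum_of_injective hinj _)
  refine h3.trans ?_
  have h4 : ∑' p, F p = 4 * (ENNReal.ofReal (Real.exp 1) * ∑' n : ℕ, (∑ x : V, ρ x) ^ n) := by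
    simp only [hF]
    rw [ENNReal.tsum_prod']
    simp only [ENNReal.tsum_mul_left, tsum_words]
    rw [tsum_fintype, Finset.sum_const, Finset.card_univ, nsmul_eq_mul]
    have : Fintype.card (Bool × Bool) = 4 := rfl
    rw [this]
    push_cast
    ring
  rw [h4, ENNReal.tsum_geometric, sum_V]
  simp only [hρ]
  rw [← ENNReal.ofReal_add (Real.exp_pos _).le (Real.exp_pos _).le,
    ← ENNReal.ofReal_add (Real.exp_pos _).le (by positivity)]
  have h5 : (1 : ENNReal) - ENNReal.ofReal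
      (Real.exp (-s * α .b) + (Real.exp (-s * α .c) + Real.exp (-s * α .d))) =
      ENNReal.ofReal (1 - (Real.exp (-s * α .b) + (Real.exp (-s * α .c) + Real.exp (-s * α .d)))) := by
    rw [ENNReal.ofReal_sub _ (by positivity), ENNReal.ofReal_one]
  rw [h5, ← ENNReal.ofReal_inv_of_pos (by linarith), ← ENNReal.ofReal_mul (Real.exp_pos _).le,
    show (4 : ENNReal) = ENNReal.ofReal 4 by simp, ← ENNReal.ofReal_mul (by norm_num)]
  apply ENNReal.ofReal_le_ofReal
  rw [div_eq_mul_inv, mul_assoc]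
  have h6 : (1 - (Real.exp (-s * α .b) + (Real.exp (-s * α .c) + Real.exp (-s * α .d))))⁻¹ ≤
      (1 - r)⁻¹ := inv_anti₀ (by linarith) (by linarith)
  have h7 := Real.exp_pos 1
  gcongr

theorem mnn_pos (ω : Om) (k : ℕ) : 0 < mnn ω k :=
  lt_min (nn_pos ω k .b) (lt_min (nn_pos ω k .c) (nn_pos ω k .d))

theorem mnn_le_ell (ω : Om) (k : ℕ) : mnn ω k ≤ ell ω k :=
  (min_le_left _ _).trans (nn_le_ell ω k .b)

/-- one weight is the smallest, the others are at least half of the largest -/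
theorem sum_le (ω : Om) (k : ℕ) (s : ℝ) (hs : 0 ≤ s) :
    Real.exp (-s * al ω k .b) + (Real.exp (-s * al ω k .c) + Real.exp (-s * al ω k .d)) ≤
      Real.exp (-(s * ((mnn ω k : ℝ) / 2 ^ k))) + 2 * Real.exp (-(s * ((ell ω k : ℝ) / 2 ^ k) / 2)) := by
  have hm : ∀ x, mnn ω k = nn ω k x →
      Real.exp (-s * al ω k x) ≤ Real.exp (-(s * ((mnn ω k : ℝ) / 2 ^ k))) := by
    intro x hx
    apply Real.exp_le_exp.2
    unfold al
    rw [hx]
    linarith
  have hl : ∀ x, ell ω k ≤ 2 * nn ω k x →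
      Real.exp (-s * al ω k x) ≤ Real.exp (-(s * ((ell ω k : ℝ) / 2 ^ k) / 2)) := by
    intro x hx
    apply Real.exp_le_exp.2
    unfold al
    have h1 : (ell ω k : ℝ) ≤ 2 * nn ω k x := by exact_mod_cast hx
    have h2 : (ell ω k : ℝ) / 2 ^ k ≤ 2 * ((nn ω k x : ℝ) / 2 ^ k) := by
      rw [← mul_div_assoc]
      gcongr
    have h3 := mul_le_mul_of_nonneg_left h2 hs
    linarith
  obtain ⟨-, h1, h2, h3⟩ := W_tri ω k
  have hmn : mnn ω k = min (nn ω k .b) (min (nn ω k .c) (nn ω k .d)) := rfl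
  have hel : ell ω k = max (nn ω k .b) (max (nn ω k .c) (nn ω k .d)) := rfl
  rcases (show (mnn ω k = nn ω k .b ∧ ell ω k ≤ 2 * nn ω k .c ∧ ell ω k ≤ 2 * nn ω k .d) ∨
      (mnn ω k = nn ω k .c ∧ ell ω k ≤ 2 * nn ω k .b ∧ ell ω k ≤ 2 * nn ω k .d) ∨
      (mnn ω k = nn ω k .d ∧ ell ω k ≤ 2 * nn ω k .b ∧ ell ω k ≤ 2 * nn ω k .c) by
        rw [hmn, hel]; omega) with ⟨g1, g2, g3⟩ | ⟨g1, g2, g3⟩ | ⟨g1, g2, g3⟩
  · have := hm _ g1; have := hl _ g2; have := hl _ g3; linarith
  · have := hm _ g1; have := hl _ g2; have := hl _ g3; linarith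
  · have := hm _ g1; have := hl _ g2; have := hl _ g3; linarith

theorem log_sixteen : Real.log 16 ≤ 2.8 := by
  have h : Real.log 16 = 4 * Real.log 2 := by
    rw [show (16 : ℝ) = 2 ^ 4 by norm_num, Real.log_pow]
    norm_num
  have := Real.log_two_lt_d9
  rw [h]
  linarith

theorem log_sixteen' : 2 ≤ Real.log 16 := by
  have h : Real.log 16 = 4 * Real.log 2 := by
    rw [show (16 : ℝ) = 2 ^ 4 by norm_num, Real.log_pow]
    norm_num
  have := Real.log_two_gt_d9
  rw [h]
  linarith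

theorem core (ω : Om) (k : ℕ) :
    (ballO ω (ell ω k) : ℝ) ≤
      Real.exp (21 * (2 ^ k * (1 + Real.log ((ell ω k : ℝ) / mnn ω k)))) := by
  have hm0 : (0 : ℝ) < mnn ω k := by exact_mod_cast mnn_pos ω k
  have hl0 : (0 : ℝ) < ell ω k := by exact_mod_cast ell_pos ω k
  have hml : (mnn ω k : ℝ) ≤ ell ω k := by exact_mod_cast mnn_le_ell ω k
  set Λ : ℝ := (ell ω k : ℝ) / mnn ω k with hΛ
  have hΛ1 : 1 ≤ Λ := by rw [hΛ, le_div_iff₀ hm0]; linarith
  have hΛ0 : 0 < Λ := by linarith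
  set L : ℝ := Real.log Λ with hL
  have hL0 : 0 ≤ L := Real.log_nonneg hΛ1
  have h16 := log_sixteen
  have h16' := log_sixteen'
  set M : ℝ := (ell ω k : ℝ) / 2 ^ k with hM
  have hM0 : 0 < M := by positivity
  set Q : ℝ := Real.log 16 + 2 * L with hQ
  have hQ0 : 2 ≤ Q := by linarith
  have hexpQ : Real.exp (-Q) = 1 / (16 * Λ ^ 2) := by
    rw [Real.exp_neg, hQ, Real.exp_add, Real.exp_log (by norm_num),
      show 2 * L = L + L by ring, Real.exp_add, hL, Real.exp_log hΛ0, one_div]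
    ring_nf
  set s : ℝ := 2 / M * Q with hs
  have hs0 : 0 < s := by positivity
  -- the sum of the weights of the letters
  have h1 := sum_le ω k s hs0.le
  have e1 : s * ((ell ω k : ℝ) / 2 ^ k) / 2 = Q := by
    rw [← hM, hs]
    field_simp
  have e2 : s * ((mnn ω k : ℝ) / 2 ^ k) = 2 * Q / Λ := by
    rw [hs, hM, hΛ]
    field_simp
  rw [e1, e2, hexpQ] at h1
  have h2 : Real.exp (-(2 * Q / Λ)) ≤ Λ / (Λ + 4) := by
    have h3 : 4 / Λ ≤ 2 * Q / Λ := by
      gcongr
      linarith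
    have h4 : Real.exp (-(2 * Q / Λ)) ≤ Real.exp (-(4 / Λ)) := Real.exp_le_exp.2 (by linarith)
    refine h4.trans ?_
    rw [Real.exp_neg]
    have h5 := Real.add_one_le_exp (4 / Λ)
    have h6 : Λ / (Λ + 4) = (4 / Λ + 1)⁻¹ := by
      field_simp
      ring
    rw [h6]
    exact inv_anti₀ (by positivity) h5
  have h3 : Real.exp (-s * al ω k .b) + (Real.exp (-s * al ω k .c) + Real.exp (-s * al ω k .d)) ≤
      1 - 1 / (2 * Λ) := by
    refine h1.trans ?_
    have h4 : 2 * (1 / (16 * Λ ^ 2)) ≤ 1 / (8 * Λ) := by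
      rw [← mul_div_assoc, div_le_div_iff₀ (by positivity) (by positivity)]
      nlinarith
    have h5 : Λ / (Λ + 4) ≤ 1 - 4 / (5 * Λ) := by
      rw [div_le_iff₀ (by positivity), sub_mul, one_mul, le_sub_iff_add_le, div_mul_eq_mul_div,
        ← le_sub_iff_add_le', div_le_iff₀ (by positivity)]
      nlinarith
    have h6 : 1 / (8 * Λ) + 1 / (2 * Λ) ≤ 4 / (5 * Λ) := by
      have a0 : 0 < Λ⁻¹ := by positivity
      have a1 : 1 / (8 * Λ) = (1 / 8) * Λ⁻¹ := by ring
      have a2 : 1 / (2 * Λ) = (1 / 2) * Λ⁻¹ := by ring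
      have a3 : 4 / (5 * Λ) = (4 / 5) * Λ⁻¹ := by ring
      rw [a1, a2, a3]
      linarith
    linarith
  have hr : 1 - 1 / (2 * Λ) < 1 := by
    have : 0 < 1 / (2 * Λ) := by positivity
    linarith
  have h4 := ZO_le (shi k ω) (al ω k) (al_tri ω k) s _ hs0 hr h3
  have e3 : 4 * Real.exp 1 / (1 - (1 - 1 / (2 * Λ))) = 8 * Real.exp 1 * Λ := by
    rw [sub_sub_cancel]
    field_simp
    ring
  rw [e3] at h4
  -- the iteration
  have h5 := F_iter ω k s (4 * Q) hs0.le (by
    have : 2 * s * ((ell ω k : ℝ) / 2 ^ k) = 4 * (s * ((ell ω k : ℝ) / 2 ^ k) / 2) := by ring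
    rw [this, e1]) k 0 (by omega)
  rw [shi_zero] at h5
  have h6 : 2 * ENNReal.ofReal (Real.exp (4 * Q)) * ZO (shi k ω) (al ω k) s ≤
      ENNReal.ofReal (Real.exp (15 + 9 * L)) := by
    calc 2 * ENNReal.ofReal (Real.exp (4 * Q)) * ZO (shi k ω) (al ω k) s
        ≤ 2 * ENNReal.ofReal (Real.exp (4 * Q)) * ENNReal.ofReal (8 * Real.exp 1 * Λ) := by gcongr
      _ = ENNReal.ofReal (2 * Real.exp (4 * Q) * (8 * Real.exp 1 * Λ)) := by
          rw [show (2 : ENNReal) = ENNReal.ofReal 2 by simp, ← ENNReal.ofReal_mul (by norm_num),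
            ← ENNReal.ofReal_mul (by positivity)]
      _ ≤ _ := by
          apply ENNReal.ofReal_le_ofReal
          have h7 : 2 * Real.exp (4 * Q) * (8 * Real.exp 1 * Λ) =
              Real.exp (Real.log 16 + 4 * Q + 1 + L) := by
            rw [Real.exp_add, Real.exp_add, Real.exp_add, Real.exp_log (by norm_num), hL,
              Real.exp_log hΛ0]
            ring
          rw [h7]
          apply Real.exp_le_exp.2
          rw [hQ]
          linarith
  have h7 : ZO ω (al ω 0) s ≤ ENNReal.ofReal (Real.exp ((15 + 9 * L) * 2 ^ k)) := by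
    have h8 : (1 : ENNReal) ≤ 2 * ENNReal.ofReal (Real.exp (4 * Q)) := by
      have h9 : (1 : ENNReal) ≤ ENNReal.ofReal (Real.exp (4 * Q)) := by
        rw [ENNReal.one_le_ofReal]
        exact Real.one_le_exp (by linarith)
      calc (1 : ENNReal) = 1 * 1 := by simp
        _ ≤ 2 * ENNReal.ofReal (Real.exp (4 * Q)) := by
            gcongr
            norm_num
    calc ZO ω (al ω 0) s = 1 * ZO ω (al ω 0) s := by simp
      _ ≤ 2 * ENNReal.ofReal (Real.exp (4 * Q)) * ZO ω (al ω 0) s := by gcongr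
      _ ≤ _ := h5
      _ ≤ (ENNReal.ofReal (Real.exp (15 + 9 * L))) ^ 2 ^ k := by gcongr
      _ = _ := by
          rw [← ENNReal.ofReal_pow (Real.exp_pos _).le, ← Real.exp_nat_mul]
          congr 2
          push_cast
          ring
  have h8 := F_ball ω (ell ω k) s hs0.le
  have e4 : s * (ell ω k : ℝ) = 2 * Q * 2 ^ k := by
    rw [hs, hM]
    field_simp
  have h9 : (ballO ω (ell ω k) : ENNReal) ≤
      ENNReal.ofReal (Real.exp (2 * Q * 2 ^ k + (15 + 9 * L) * 2 ^ k)) := by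
    rw [Real.exp_add, ENNReal.ofReal_mul (Real.exp_pos _).le, ← e4]
    exact h8.trans (by gcongr)
  rw [← ENNReal.ofReal_natCast] at h9
  have h10 := (ENNReal.ofReal_le_ofReal_iff (Real.exp_pos _).le).1 h9
  refine h10.trans (Real.exp_le_exp.2 ?_)
  have h11 : (0 : ℝ) < 2 ^ k := by positivity
  have h12 : 2 * Q + (15 + 9 * L) ≤ 21 * (1 + L) := by
    rw [hQ]
    linarith
  nlinarith

end U1aux

/-- the universal upper bound -/
theorem t_U1 : S_U1 := by
  refine ⟨21, by norm_num, fun ω k => ?_⟩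
  rw [mul_assoc]
  exact U1aux.core ω k

end Pool.Agent.U640.BG
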