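import Pool.Agent.H776R2.Om.Lower
import Pool.Agent.H776R2.Om.Upper
import Pool.Agent.H776R2.Om.Fin

set_option autoImplicit false

/-! Project BG, second part: a universal upper bound for the growth of `G_ω`. -/

namespace Pool.Agent.U640.BG

open Pool.Agent.Results.MP_03d093_al.SphereBall Pool.Agent.H776R2.Grig Pool.Agent.H776R2.Om

/-- `m_k = min_x n_k(x)` -/
def mnn (ω : Om) (i : ℕ) : ℕ := min (nn ω i .b) (min (nn ω i .c) (nn ω i .d))

/-- U0: the weights of level `k` differ at most by the factor `(k + 2) / 2` -/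
def S_U0 : Prop := ∀ (ω : Om) (k : ℕ) (x : V), 2 * ell ω k ≤ (k + 2) * nn ω k x

/-- U1: the universal upper bound -/
def S_U1 : Prop := ∃ C : ℝ, 0 < C ∧ ∀ (ω : Om) (k : ℕ),
  (ballO ω (ell ω k) : ℝ) ≤
    Real.exp (C * 2 ^ k * (1 + Real.log ((ell ω k : ℝ) / (mnn ω k : ℝ))))

/-- `ω = 0, 1, 0, 1, ...` -/
def om01 : Om := fun n => if n % 2 = 0 then 0 else 1

/-- U2: the case `ω = (01)^∞` -/
def S_U2 : Prop := ∃ C : ℝ, 0 < C ∧ ∀ n : ℕ, 16 ≤ n →
  (ballO om01 n : ℝ) ≤ Real.exp (C * (n * Real.log (Real.log n) / Real.log n))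

end Pool.Agent.U640.BG
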