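import Mathlib
import Pool.Agent.U640.BG.UStm

/-!
# Package U2 of project BG, second part: the growth of `G_ω` for `ω = 0101...`

(written by helper810)
-/

set_option autoImplicit false

namespace Pool.Agent.U640.BG

open Pool.Agent.Results.MP_03d093_al.SphereBall Pool.Agent.H776R2.Grig Pool.Agent.H776R2.Om

theorem U2_kil_even {k : ℕ} (h : k % 2 = 0) : kil (om01 k) = .d := by
  unfold om01
  rw [if_pos h]
  rfl

theorem U2_kil_odd {k : ℕ} (h : ¬ k % 2 = 0) : kil (om01 k) = .c := by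
  unfold om01
  rw [if_neg h]
  rfl

theorem U2_weights (k : ℕ) : nn om01 k .b = 2 ^ k ∧
    2 * nn om01 k .c ≤ (k + 2) * 2 ^ k ∧ 2 * nn om01 k .d ≤ (k + 2) * 2 ^ k ∧
    (k % 2 = 0 → (k + 4) * 2 ^ k ≤ 4 * nn om01 k .c ∧ (k + 3) * 2 ^ k ≤ 4 * nn om01 k .d) ∧
    (¬ k % 2 = 0 → (k + 4) * 2 ^ k ≤ 4 * nn om01 k .d ∧ (k + 3) * 2 ^ k ≤ 4 * nn om01 k .c) := by
  induction k with
  | zero =>
    have h0 : ∀ x, nn om01 0 x = 1 := fun _ => rfl
    rw [h0, h0, h0]
    norm_num
  | succ k ih =>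
    obtain ⟨hb, hc, hd, he, ho⟩ := ih
    have hs : ∀ x, nn om01 (k + 1) x = if x = kil (om01 k) then
        nn om01 k .b + nn om01 k .c + nn om01 k .d else 2 * nn om01 k x := fun _ => rfl
    by_cases h : k % 2 = 0
    · have h' : ¬ (k + 1) % 2 = 0 := by omega
      obtain ⟨e1, e2⟩ := he h
      have sb : nn om01 (k + 1) .b = 2 * nn om01 k .b := by
        rw [hs, U2_kil_even h, if_neg (by decide)]
      have sc : nn om01 (k + 1) .c = 2 * nn om01 k .c := by
        rw [hs, U2_kil_even h, if_neg (by decide)]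
      have sd : nn om01 (k + 1) .d = nn om01 k .b + nn om01 k .c + nn om01 k .d := by
        rw [hs, U2_kil_even h, if_pos rfl]
      rw [sb, sc, sd, hb]
      refine ⟨by ring, ?_, ?_, fun h2 => absurd h2 h', fun _ => ⟨?_, ?_⟩⟩ <;>
        rw [pow_succ] <;> nlinarith [Nat.two_pow_pos k]
    · have h' : (k + 1) % 2 = 0 := by omega
      obtain ⟨e1, e2⟩ := ho h
      have sb : nn om01 (k + 1) .b = 2 * nn om01 k .b := by
        rw [hs, U2_kil_odd h, if_neg (by decide)]
      have sd : nn om01 (k + 1) .d = 2 * nn om01 k .d := by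
        rw [hs, U2_kil_odd h, if_neg (by decide)]
      have sc : nn om01 (k + 1) .c = nn om01 k .b + nn om01 k .c + nn om01 k .d := by
        rw [hs, U2_kil_odd h, if_pos rfl]
      rw [sb, sc, sd, hb]
      refine ⟨by ring, ?_, ?_, fun _ => ⟨?_, ?_⟩, fun h2 => absurd h' h2⟩ <;>
        rw [pow_succ] <;> nlinarith [Nat.two_pow_pos k]

theorem U2_ell_le (k : ℕ) : 2 * ell om01 k ≤ (k + 2) * 2 ^ k := by
  obtain ⟨hb, hc, hd, -, -⟩ := U2_weights k
  obtain ⟨x, hx⟩ := W_ell_attained om01 k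
  rw [hx]
  cases x
  · rw [hb]
    exact Nat.mul_le_mul_right _ (by omega)
  · exact hc
  · exact hd

theorem U2_le_ell (k : ℕ) : (k + 3) * 2 ^ k ≤ 4 * ell om01 k := by
  obtain ⟨-, -, -, he, ho⟩ := U2_weights k
  by_cases h : k % 2 = 0
  · have h1 := nn_le_ell om01 k .d
    have h2 := (he h).2
    omega
  · have h1 := nn_le_ell om01 k .c
    have h2 := (ho h).2
    omega

theorem U2_pow_le_ell (k : ℕ) : 2 ^ k ≤ ell om01 k := by
  have h := W_ell_pow om01 0 k
  rw [ell_zero, zero_add, mul_one] at h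
  exact h

theorem U2_pow_le_mnn (k : ℕ) : 2 ^ k ≤ mnn om01 k := by
  have h : ∀ x, 2 ^ k ≤ nn om01 k x := by
    intro x
    have h1 := W_nn_pow om01 0 k x
    have h2 : nn om01 0 x = 1 := rfl
    rw [h2, zero_add, mul_one] at h1
    exact h1
  exact le_min (h _) (le_min (h _) (h _))

theorem t_U2 : S_U1 → S_U2 := by
  rintro ⟨C, hC, hU⟩
  refine ⟨64 * C, by positivity, fun n hn => ?_⟩
  classical
  -- the level
  have hex : ∃ k, n ≤ ell om01 k := by
    refine ⟨n, ?_⟩
    exact (Nat.lt_two_pow_self).le.trans (U2_pow_le_ell n)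
  have hk := Nat.find_spec hex
  have hk0 : Nat.find hex ≠ 0 := by
    intro h
    rw [h, ell_zero] at hk
    omega
  obtain ⟨j, hj⟩ : ∃ j, Nat.find hex = j + 1 := ⟨Nat.find hex - 1, by omega⟩
  rw [hj] at hk
  have hj' : ell om01 j < n := by
    have := Nat.find_min hex (m := j) (by omega)
    omega
  have n1 : (j + 3) * 2 ^ j < 4 * n := (U2_le_ell j).trans_lt (by omega)
  have n2 : n ≤ (j + 3) * 2 ^ j := by
    have h1 := U2_ell_le (j + 1)
    have h2 : (j + 1 + 2) * 2 ^ (j + 1) = 2 * ((j + 3) * 2 ^ j) := by ring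
    rw [h2] at h1
    omega
  have n3 : 2 ^ j < n := (U2_pow_le_ell j).trans_lt hj'
  -- real numbers
  have hn' : (16 : ℝ) ≤ n := by exact_mod_cast hn
  have hn0 : (0 : ℝ) < n := by linarith
  have hj0 : (0 : ℝ) ≤ j := Nat.cast_nonneg j
  have r1 : ((j : ℝ) + 3) * 2 ^ j ≤ 4 * n := by exact_mod_cast n1.le
  have r2 : (n : ℝ) ≤ ((j : ℝ) + 3) * 2 ^ j := by exact_mod_cast n2
  have r3 : (2 : ℝ) ^ j ≤ n := by exact_mod_cast n3.le
  have hl2 := Real.log_two_gt_d9
  have hl2' := Real.log_two_lt_d9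
  have hlog16 : Real.exp 1 ≤ Real.log n := by
    have h1 : Real.log 16 ≤ Real.log n := Real.log_le_log (by norm_num) hn'
    have h2 : Real.log 16 = 4 * Real.log 2 := by
      rw [show (16 : ℝ) = 2 ^ 4 by norm_num, Real.log_pow]
      norm_num
    have h3 := Real.exp_one_lt_d9
    linarith
  have hL2 : 2 ≤ Real.log n := by
    have := Real.exp_one_gt_d9
    linarith
  have hL0 : 0 < Real.log n := by linarith
  have hLL : 1 ≤ Real.log (Real.log n) := by
    have h1 := Real.log_le_log (Real.exp_pos 1) hlog16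
    rwa [Real.log_exp] at h1
  -- upper bound of `log n`
  have u1 : Real.log n ≤ 2 * (j + 3) := by
    have h1 := Real.log_le_log hn0 r2
    rw [Real.log_mul (by positivity) (by positivity), Real.log_pow] at h1
    have h2 : Real.log ((j : ℝ) + 3) ≤ (j : ℝ) + 3 - 1 :=
      Real.log_le_sub_one_of_pos (by positivity)
    nlinarith
  -- lower bound of `log n`
  have u2 : (j : ℝ) + 3 ≤ 4 * Real.log n := by
    have h1 := Real.log_le_log (by positivity) r3
    rw [Real.log_pow] at h1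
    nlinarith
  have u3 : 1 + Real.log ((j : ℝ) + 3) ≤ 4 * Real.log (Real.log n) := by
    have h1 := Real.log_le_log (show (0 : ℝ) < (j : ℝ) + 3 by positivity) u2
    rw [Real.log_mul (by norm_num) hL0.ne'] at h1
    have h2 : Real.log 4 = 2 * Real.log 2 := by
      rw [show (4 : ℝ) = 2 ^ 2 by norm_num, Real.log_pow]
      norm_num
    linarith
  -- the ball
  have hmono : ballO om01 n ≤ ballO om01 (ell om01 (j + 1)) := ballO_mono om01 hk
  have hb : (ballO om01 n : ℝ) ≤ ballO om01 (ell om01 (j + 1)) := by exact_mod_cast hmono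
  refine hb.trans ((hU om01 (j + 1)).trans (Real.exp_le_exp.2 ?_))
  have h1 : Real.log ((ell om01 (j + 1) : ℝ) / (mnn om01 (j + 1) : ℝ)) ≤
      Real.log ((j : ℝ) + 3) := by
    have e1 : (0 : ℝ) < ell om01 (j + 1) := by exact_mod_cast ell_pos om01 (j + 1)
    have e2 : (2 : ℝ) ^ (j + 1) ≤ mnn om01 (j + 1) := by exact_mod_cast U2_pow_le_mnn (j + 1)
    have e3 : (0 : ℝ) < (2 : ℝ) ^ (j + 1) := by positivity
    have e4 : 2 * (ell om01 (j + 1) : ℝ) ≤ ((j : ℝ) + 1 + 2) * 2 ^ (j + 1) := by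
      exact_mod_cast U2_ell_le (j + 1)
    refine Real.log_le_log (div_pos e1 (by linarith)) ?_
    rw [div_le_iff₀ (by linarith)]
    calc (ell om01 (j + 1) : ℝ) ≤ ((j : ℝ) + 3) * 2 ^ (j + 1) := by nlinarith
      _ ≤ ((j : ℝ) + 3) * mnn om01 (j + 1) := mul_le_mul_of_nonneg_left e2 (by positivity)
  have h2 : 1 + Real.log ((ell om01 (j + 1) : ℝ) / (mnn om01 (j + 1) : ℝ)) ≤
      4 * Real.log (Real.log n) := by linarith
  have h3 : (2 : ℝ) ^ (j + 1) ≤ 16 * n / Real.log n := by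
    rw [le_div_iff₀ hL0]
    calc (2 : ℝ) ^ (j + 1) * Real.log n ≤ 2 ^ (j + 1) * (2 * (j + 3)) :=
          mul_le_mul_of_nonneg_left u1 (by positivity)
      _ = 4 * (((j : ℝ) + 3) * 2 ^ j) := by ring
      _ ≤ 16 * n := by linarith
  calc C * 2 ^ (j + 1) * (1 + Real.log ((ell om01 (j + 1) : ℝ) / (mnn om01 (j + 1) : ℝ)))
      ≤ C * 2 ^ (j + 1) * (4 * Real.log (Real.log n)) :=
        mul_le_mul_of_nonneg_left h2 (by positivity)
    _ ≤ C * (16 * n / Real.log n) * (4 * Real.log (Real.log n)) :=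
        mul_le_mul_of_nonneg_right (mul_le_mul_of_nonneg_left h3 hC.le) (by linarith)
    _ = 64 * C * (n * Real.log (Real.log n) / Real.log n) := by ring

end Pool.Agent.U640.BG
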