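import Pool.Agent.U640.BG.Asm
import Pool.Agent.H776R2.Om.Pow

set_option autoImplicit false

/-! Prescribed growth: from weights comparable with `ψ` to the growth degree `FP ψ`. -/

namespace Pool.Agent.U640.BG

open Pool.Agent.Results.MP_03d093_al.SphereBall Pool.Agent.H776R2.Grig Pool.Agent.H776R2.Om

theorem kk_spec (ω : Om) (n : ℕ) : n ≤ ell ω (kk ω n) := by
  have h : {k : ℕ | n ≤ ell ω k}.Nonempty := by
    refine ⟨n, ?_⟩
    have h1 := W_ell_pow ω 0 n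
    rw [ell_zero, Nat.zero_add, mul_one] at h1
    exact (Nat.lt_two_pow_self.le).trans h1
  exact Nat.sInf_mem h

theorem kk_le (ω : Om) (n k : ℕ) (h : n ≤ ell ω k) : kk ω n ≤ k := Nat.sInf_le h

theorem FF_FP (ω : Om) (ψ : ℕ → ℝ) (c1 c2 : ℝ) (hc1 : 0 < c1)
    (h0 : 0 < ψ 0) (h2 : ∀ k, 2 * ψ k ≤ ψ (k + 1))
    (h : ∀ i, c1 * ψ i ≤ ell ω i ∧ (ell ω i : ℝ) ≤ c2 * ψ i) :
    (∃ C : ℕ, 1 ≤ C ∧ ∀ n : ℕ, FF ω n ≤ FP ψ (C * n)) ∧
    (∃ C : ℕ, 1 ≤ C ∧ ∀ n : ℕ, FP ψ n ≤ FF ω (C * n)) := by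
  have hpos : ∀ k, 2 ^ k * ψ 0 ≤ ψ k := by
    intro k
    induction k with
    | zero => simp
    | succ k ih =>
      calc 2 ^ (k + 1) * ψ 0 = 2 * (2 ^ k * ψ 0) := by ring
        _ ≤ 2 * ψ k := by linarith
        _ ≤ _ := h2 k
  have hψ : ∀ k, 0 < ψ k := fun k => lt_of_lt_of_le (by positivity) (hpos k)
  have hne : ∀ n : ℕ, {k : ℕ | (n : ℝ) ≤ ψ k}.Nonempty := by
    intro n
    obtain ⟨k, hk⟩ := pow_unbounded_of_one_lt ((n : ℝ) / ψ 0) (by norm_num : (1 : ℝ) < 2)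
    refine ⟨k, ?_⟩
    have h3 : (n : ℝ) < 2 ^ k * ψ 0 := by rwa [div_lt_iff₀ h0] at hk
    exact h3.le.trans (hpos k)
  constructor
  · obtain ⟨C, hC⟩ := exists_nat_gt (1 / c1)
    have hC0 : (0 : ℝ) < C := lt_trans (by positivity) hC
    have hC1 : 1 ≤ C := by exact_mod_cast hC0
    refine ⟨C, hC1, fun n => ?_⟩
    unfold FF FP
    rcases Nat.eq_zero_or_pos n with rfl | hn
    · simp
    · rw [if_neg (by omega), if_neg (by positivity)]
      refine Nat.pow_le_pow_right (by norm_num) (Nat.pow_le_pow_right (by norm_num) ?_)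
      apply kk_le
      have h3 := Nat.sInf_mem (hne (C * n))
      have h3' : ((C * n : ℕ) : ℝ) ≤ ψ (sInf {k : ℕ | ((C * n : ℕ) : ℝ) ≤ ψ k}) := h3
      set k := sInf {k : ℕ | ((C * n : ℕ) : ℝ) ≤ ψ k}
      have h4 := (h k).1
      have h5 : (n : ℝ) ≤ c1 * ψ k := by
        push_cast at h3'
        have h6 : 1 < C * c1 := by rwa [div_lt_iff₀ hc1] at hC
        have h7 : (n : ℝ) ≤ c1 * (C * n) := by
          have : (0 : ℝ) < n := by exact_mod_cast hn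
          nlinarith
        exact h7.trans (mul_le_mul_of_nonneg_left h3' hc1.le)
      exact_mod_cast h5.trans h4
  · obtain ⟨C, hC⟩ := exists_nat_gt (max c2 1)
    have hC0 : (1 : ℝ) < C := lt_of_le_of_lt (le_max_right _ _) hC
    have hC2 : c2 < C := lt_of_le_of_lt (le_max_left _ _) hC
    have hC1 : 1 ≤ C := by exact_mod_cast hC0.le
    refine ⟨C, hC1, fun n => ?_⟩
    unfold FF FP
    rcases Nat.eq_zero_or_pos n with rfl | hn
    · simp
    · rw [if_neg (by omega), if_neg (by positivity)]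
      refine Nat.pow_le_pow_right (by norm_num) (Nat.pow_le_pow_right (by norm_num) ?_)
      apply Nat.sInf_le
      show (n : ℝ) ≤ ψ (kk ω (C * n))
      have h3 : ((C * n : ℕ) : ℝ) ≤ ell ω (kk ω (C * n)) := by exact_mod_cast kk_spec ω (C * n)
      have h4 := (h (kk ω (C * n))).2
      have h5 := hψ (kk ω (C * n))
      push_cast at h3
      have h6 : (C : ℝ) * n ≤ C * ψ (kk ω (C * n)) := by
        refine h3.trans (h4.trans ?_)
        exact mul_le_mul_of_nonneg_right hC2.le h5.le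
      exact le_of_mul_le_mul_left h6 (by linarith)

/-- composition of dominations -/
theorem dom_trans {f g h : ℕ → ℕ} (h1 : ∃ C : ℕ, 1 ≤ C ∧ ∀ n : ℕ, f n ≤ g (C * n))
    (h2 : ∃ C : ℕ, 1 ≤ C ∧ ∀ n : ℕ, g n ≤ h (C * n)) :
    ∃ C : ℕ, 1 ≤ C ∧ ∀ n : ℕ, f n ≤ h (C * n) := by
  obtain ⟨C1, hC1, h1⟩ := h1
  obtain ⟨C2, hC2, h2⟩ := h2
  refine ⟨C2 * C1, Nat.mul_pos hC2 hC1, fun n => ?_⟩
  have := (h1 n).trans (h2 (C1 * n))
  rwa [← mul_assoc] at this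

end Pool.Agent.U640.BG
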