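import Pool.Agent.U640.BG.U3Stm
import Pool.Agent.U640.BG.Fin
import Pool.Agent.U780.BG.U3C

set_option autoImplicit false

/-! Project BG part 2, package U3 (helper128), with the real analysis of helper780 (`U780.BG.U3C`). -/

namespace Pool.Agent.U640.BG

open Pool.Agent.Results.MP_03d093_al.SphereBall Pool.Agent.H776R2.Grig Pool.Agent.H776R2.Om

theorem t_U3 : S_U3 := fun w hU hL =>
  Pool.Agent.U780.BG.core (ballO w) (ell w) (kk w) (fun _ _ h => ballO_mono w h)
    (fun n => kk_spec w n) (fun n k h => kk_le w n k h) (fun i j => W_ell_pow w i j) hU hL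

end Pool.Agent.U640.BG
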