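import Pool.Agent.U640.BG.UStm

set_option autoImplicit false

namespace Pool.Agent.U640.BG

open Pool.Agent.Results.MP_03d093_al.SphereBall Pool.Agent.H776R2.Grig Pool.Agent.H776R2.Om

/-- U3: `log log γ_ω(n) / k_ω(n) → log 2` from the upper and the lower bound -/
def S_U3 : Prop := ∀ ω : Om,
  (∃ C : ℝ, 0 < C ∧ ∀ k : ℕ,
    (ballO ω (ell ω k) : ℝ) ≤ Real.exp (C * 2 ^ k * (1 + Real.log ((k : ℝ) + 2)))) →
  (∀ ε : ℝ, 0 < ε → ∃ C : ℝ, 0 < C ∧ ∀ k N : ℕ, C * (2 : ℝ) ^ (ε * k) * ell ω k ≤ N →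
    2 ^ 2 ^ k ≤ ballO ω N) →
  Filter.Tendsto (fun n : ℕ => Real.log (Real.log (ballO ω n)) / (kk ω n : ℝ)) Filter.atTop
    (nhds (Real.log 2))

end Pool.Agent.U640.BG
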