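import Pool.Agent.U640.BG.Stm

set_option autoImplicit false

/-! Assembly of project BG. -/

namespace Pool.Agent.U640.BG

open Pool.Agent.Results.MP_03d093_al.SphereBall Pool.Agent.H776R2.Grig Pool.Agent.H776R2.Om

theorem hyb_inj {ω : Om} {k D N : ℕ} (h : Hyb ω k D N) : Inj ω k N := by
  intro q
  obtain ⟨w, hw, h1, h2⟩ := h q
  refine ⟨w, hw, fun x hx => ⟨fun hq y => h1 x y hx hq, fun hq => ?_⟩⟩
  refine ⟨List.replicate D false ++ [false], ?_⟩
  have h3 := h2 (x ++ List.replicate D false) (by simp [hx]) false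
  rw [← List.append_assoc, h3]
  intro h4
  have h5 : (x ++ List.replicate D false).take k = x := by
    rw [← hx]; simp
  have h6 := List.append_cancel_left h4
  simp only [h5, hq] at h6
  exact absurd h6 (by decide)

theorem hyb_mono {ω : Om} {k D N N' : ℕ} (h : Hyb ω k D N) (hN : N ≤ N') : Hyb ω k D N' := by
  intro q
  obtain ⟨w, hw, h1⟩ := h q
  exact ⟨w, hw.trans hN, h1⟩

theorem inj_mono {ω : Om} {k N N' : ℕ} (h : Inj ω k N) (hN : N ≤ N') : Inj ω k N' := by
  intro q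
  obtain ⟨w, hw, h1⟩ := h q
  exact ⟨w, hw.trans hN, h1⟩

theorem hyb_zero (ω : Om) : Hyb ω 0 0 1 := by
  intro q
  cases hq : q []
  · refine ⟨[], by simp, ?_, ?_⟩
    · intro x y _ _
      simp [evo]
    · intro u hu x
      have : u = [] := by simpa using hu
      subst this
      simp [evo, hq]
  · refine ⟨[Lt.A], by simp, ?_, ?_⟩
    · intro x y hx hx'
      have : x = [] := by simpa using hx
      subst this
      rw [hq] at hx'
      exact absurd hx' (by decide)
    · intro u hu x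
      have : u = [] := by simpa using hu
      subst this
      simp [evo, gno, hq, a, aFun]

theorem r_pos {r S : ℕ} {ω : Om} {k s R : ℕ → ℕ} (h : Adm r S ω k s R) : 3 ≤ r := by
  have hs := h.s1 0
  have hw : ∀ x, ∃ j, j < r ∧ ω (k 0 + j) = x := fun x => h.hom 0 (k 0) x le_rfl (by omega)
  obtain ⟨i0, h0, e0⟩ := hw 0
  obtain ⟨i1, h1, e1⟩ := hw 1
  obtain ⟨i2, h2, e2⟩ := hw 2
  have n01 : i0 ≠ i1 := by rintro rfl; rw [e0] at e1; exact absurd e1 (by decide)
  have n02 : i0 ≠ i2 := by rintro rfl; rw [e0] at e2; exact absurd e2 (by decide)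
  have n12 : i1 ≠ i2 := by rintro rfl; rw [e1] at e2; exact absurd e2 (by decide)
  omega

theorem lh_change {r : ℕ} {ω : Om} {k s : ℕ} (h : LH r ω k s) (n : ℕ) (h1 : k ≤ n)
    (h2 : n + r ≤ k + s) : ∃ j, n ≤ j ∧ j + 1 < n + r ∧ ω j ≠ ω (j + 1) := by
  by_contra hcon
  push Not at hcon
  have h3 : ∀ j, j < r → ω (n + j) = ω n := by
    intro j
    induction j with
    | zero => intro _; rfl
    | succ j ih =>
      intro hj
      rw [← ih (by omega)]
      exact (hcon (n + j) (by omega) (by omega)).symm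
  obtain ⟨x, hx⟩ : ∃ x : Fin 3, x ≠ ω n := exists_ne (ω n)
  obtain ⟨j, hj, hj2⟩ := h n x h1 h2
  exact hx (by rw [← hj2, h3 j hj])

theorem size_Wf (z : V) (e : Bool) : size (cj e (Wf z)) ≤ 40 := by
  cases e <;> cases z <;> simp [size, cj, Wf, jw, V.lt]

theorem size_Wt (e : Bool) : size (cj e Wt) ≤ 40 := by
  cases e <;> simp [size, cj, Wt, jw, V.lt]

theorem stations (hSTEP : S_STEP) (hHL : S_HL) (hEH : S_EH) (hBS : S_BS) (hGRW : S_GRW)
    {r S : ℕ} {ω : Om} {k s R : ℕ → ℕ} (h : Adm r S ω k s R) :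
    ∃ A : ℕ, ∀ i, (∃ D, D ≤ r + 1 ∧ Hyb ω (k i) D (A * ell ω (k i))) ∧
      (∀ R', 3 ≤ R' → R' ≤ R i → Inj ω (k i + s i + R') (A * ell ω (k i + s i + R'))) := by
  have hr := r_pos h
  obtain ⟨L, hL⟩ := hHL (r + 1)
  obtain ⟨C, hC⟩ := hSTEP S (max L 40)
  set A : ℕ := C + 64 with hA
  refine ⟨A, ?_⟩
  have key : ∀ i D, D ≤ r + 1 → Hyb ω (k i) D (A * ell ω (k i)) →
      (∃ D', D' ≤ r + 1 ∧ Hyb ω (k (i + 1)) D' (A * ell ω (k (i + 1)))) ∧
      (∀ R', 3 ≤ R' → R' ≤ R i → Inj ω (k i + s i + R') (A * ell ω (k i + s i + R'))) := by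
    intro i D hD hyb
    have hs1 := h.s1 i
    have hs2 := h.s2 i
    have hgr := hGRW r ω (k i) (s i) (h.hom i) hs1 (by omega)
    have hDs : D + 1 ≤ s i := by omega
    have hks := h.ks i
    obtain ⟨m, hm⟩ : ∃ m, m = k i + s i := ⟨_, rfl⟩
    have hm1 : 1 ≤ m := by omega
    have hch := h.ch i
    have hgr2 : 2 ^ s i * (4 * (A * ell ω (k i)) + C * ell ω (k i)) * 32 ≤
        (4 * A + C) * ell ω m := by
      rw [hm]
      calc 2 ^ s i * (4 * (A * ell ω (k i)) + C * ell ω (k i)) * 32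
          = (4 * A + C) * (32 * 2 ^ s i * ell ω (k i)) := by ring
        _ ≤ _ := Nat.mul_le_mul_left _ hgr
    rcases h.blk i with hR0 | ⟨hR3, hconst, hne⟩
    · refine ⟨?_, fun R' h1 h2 => by omega⟩
      obtain ⟨j, hj1, hj2, hj3⟩ := lh_change (h.hom (i + 1)) (m + 1) (by omega)
        (by have := h.s1 (i + 1); omega)
      set t : ℕ := j + 1 - m with ht
      have e0 : (shi (m - 1) ω) 0 = ω (m - 1) := by simp [shi]
      have e1 : (shi (m - 1) ω) 1 = ω m := by
        show ω (1 + (m - 1)) = ω m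
        congr 1
        omega
      have e2 : (shi (m - 1) ω) t = ω j := by
        show ω (t + (m - 1)) = ω j
        congr 1
        omega
      have e3 : (shi (m - 1) ω) (t + 1) = ω (j + 1) := by
        show ω (t + 1 + (m - 1)) = ω (j + 1)
        congr 1
        omega
      obtain ⟨W1, W2, hW1, hW2, hlab⟩ := hL (shi (m - 1) ω) t
        (by rw [e0, e1, hm]; exact hch) (by omega) (by omega) (by rw [e2, e3]; exact hj3)
      have hE := hC ω (k i) D (A * ell ω (k i)) (s i) W1 W2 hDs hs2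
        (hW1.trans (le_max_left _ _)) (hW2.trans (le_max_left _ _)) hyb
      rw [← hm] at hE
      have e4 : sh (shi (m - 1) ω) = shi m ω := by
        rw [sh_shi]
        congr 1
        omega
      rw [e4, e0] at hlab
      have hH := (hEH ω m _ _ hE).2 (t + 1) (by omega) hlab
      have e5 : k (i + 1) = m := by omega
      rw [e5]
      refine ⟨t + 1, by omega, hyb_mono hH ?_⟩
      have : (4 * A + C) * ell ω m ≤ 32 * (A * ell ω m) := by
        rw [← mul_assoc]
        apply Nat.mul_le_mul_right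
        omega
      omega
    · have hE : ∀ e : Bool, Exa ω m (kap (kil (ω (m - 1))) (kil (ω m)) e)
          (2 ^ s i * (4 * (A * ell ω (k i)) + C * ell ω (k i))) := by
        intro e
        have := hC ω (k i) D (A * ell ω (k i)) (s i) (cj e (Wf (kil (ω m)))) (cj e Wt) hDs hs2
          ((size_Wf _ _).trans (le_max_right _ _)) ((size_Wt _).trans (le_max_right _ _)) hyb
        rw [← hm] at this
        exact this
      have hb : ∀ R' : ℕ, 2 ^ (R' + 1) * (2 ^ s i * (4 * (A * ell ω (k i)) + C * ell ω (k i)) +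
          22 * ell ω m) ≤ A * ell ω (m + R') := by
        intro R'
        have h1 := W_ell_pow ω m R'
        have h2 : 2 * (2 ^ s i * (4 * (A * ell ω (k i)) + C * ell ω (k i)) + 22 * ell ω m) ≤
            A * ell ω m := by
          have h3 : (4 * A + C) * ell ω m + 704 * ell ω m ≤ 16 * (A * ell ω m) := by
            rw [← mul_assoc, ← add_mul]
            apply Nat.mul_le_mul_right
            omega
          omega
        calc 2 ^ (R' + 1) * (2 ^ s i * (4 * (A * ell ω (k i)) + C * ell ω (k i)) + 22 * ell ω m)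
            = 2 ^ R' * (2 * (2 ^ s i * (4 * (A * ell ω (k i)) + C * ell ω (k i)) +
              22 * ell ω m)) := by ring
          _ ≤ 2 ^ R' * (A * ell ω m) := Nat.mul_le_mul_left _ h2
          _ = A * (2 ^ R' * ell ω m) := by ring
          _ ≤ _ := Nat.mul_le_mul_left _ h1
      have hB := fun R' h3 h4 => hBS ω m (R i) R'
        (2 ^ s i * (4 * (A * ell ω (k i)) + C * ell ω (k i))) hm1 h3 h4
        (by rw [hm]; exact hconst) (by rw [hm]; exact hne) (by rw [hm]; exact hch)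
        (hE false) (hE true)
      refine ⟨⟨1, by omega, ?_⟩, ?_⟩
      · have h1 := (hB (R i) hR3 le_rfl).2 rfl
        have e5 : k (i + 1) = m + R i := by omega
        rw [e5]
        exact hyb_mono h1 (hb _)
      · intro R' h3 h4
        rw [← hm]
        exact inj_mono (hB R' h3 h4).1 (hb _)
  have hst : ∀ i, ∃ D, D ≤ r + 1 ∧ Hyb ω (k i) D (A * ell ω (k i)) := by
    intro i
    induction i with
    | zero =>
      refine ⟨0, by omega, ?_⟩
      rw [h.k0, ell_zero]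
      exact hyb_mono (hyb_zero ω) (by omega)
    | succ i ih =>
      obtain ⟨D, hD, hyb⟩ := ih
      exact (key i D hD hyb).1
  intro i
  obtain ⟨D, hD, hyb⟩ := hst i
  exact ⟨⟨D, hD, hyb⟩, (key i D hD hyb).2⟩

theorem find_station {r S : ℕ} {ω : Om} {k s R : ℕ → ℕ} (h : Adm r S ω k s R) (K : ℕ) :
    ∃ i, k i ≤ K ∧ K < k (i + 1) := by
  have hr := r_pos h
  have hinc : ∀ i, i ≤ k i := by
    intro i
    induction i with
    | zero => omega
    | succ i ih =>
      have := h.ks i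
      have := h.s1 i
      omega
  induction K with
  | zero =>
    refine ⟨0, by rw [h.k0], ?_⟩
    have := hinc 1
    rw [Nat.zero_add]
    omega
  | succ K ih =>
    obtain ⟨i, h1, h2⟩ := ih
    by_cases h3 : K + 1 < k (i + 1)
    · exact ⟨i, by omega, h3⟩
    · refine ⟨i + 1, by omega, ?_⟩
      have := h.ks (i + 1)
      have := h.s1 (i + 1)
      omega

theorem lower (hSTEP : S_STEP) (hHL : S_HL) (hEH : S_EH) (hBS : S_BS) (hGRW : S_GRW)
    (hCNT : S_CNT) {r S : ℕ} {ω : Om} {k s R : ℕ → ℕ} (h : Adm r S ω k s R) :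
    ∃ A : ℕ, ∀ K : ℕ, 2 ^ 2 ^ K ≤ ballO ω (A * ell ω K) := by
  obtain ⟨A, hA⟩ := stations hSTEP hHL hEH hBS hGRW h
  refine ⟨A * 3 ^ (S + 3), fun K => ?_⟩
  have claim : ∃ K', K ≤ K' ∧ K' ≤ K + (S + 3) ∧ Inj ω K' (A * ell ω K') := by
    obtain ⟨i, h1, h2⟩ := find_station h K
    have hks := h.ks i
    have hs2 := h.s2 i
    rcases h.blk i with hR0 | ⟨hR3, -, -⟩
    · obtain ⟨D, -, hyb⟩ := (hA (i + 1)).1
      exact ⟨k (i + 1), by omega, by omega, hyb_inj hyb⟩
    · by_cases h3 : K ≤ k i + s i + 3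
      · exact ⟨k i + s i + 3, h3, by omega, (hA i).2 3 le_rfl hR3⟩
      · obtain ⟨R', rfl⟩ : ∃ R', K = k i + s i + R' := ⟨K - (k i + s i), by omega⟩
        exact ⟨k i + s i + R', le_rfl, by omega, (hA i).2 R' (by omega) (by omega)⟩
  obtain ⟨K', h1, h2, h3⟩ := claim
  have h4 := hCNT ω K' _ h3
  have h5 : 2 ^ 2 ^ K ≤ 2 ^ 2 ^ K' :=
    Nat.pow_le_pow_right (by norm_num) (Nat.pow_le_pow_right (by norm_num) h1)
  refine h5.trans (h4.trans (ballO_mono ω ?_))
  have h6 := W_ell_up ω K (K' - K)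
  rw [Nat.add_sub_cancel' h1] at h6
  have h7 : 3 ^ (K' - K) ≤ 3 ^ (S + 3) := Nat.pow_le_pow_right (by norm_num) (by omega)
  calc A * ell ω K' ≤ A * (3 ^ (K' - K) * ell ω K) := Nat.mul_le_mul_left _ h6
    _ ≤ A * (3 ^ (S + 3) * ell ω K) := Nat.mul_le_mul_left _ (Nat.mul_le_mul_right _ h7)
    _ = _ := by ring

theorem growth (hSTEP : S_STEP) (hHL : S_HL) (hEH : S_EH) (hBS : S_BS) (hGRW : S_GRW)
    (hCNT : S_CNT) (hCMP : S_CMP) {r S : ℕ} {ω : Om} {k s R : ℕ → ℕ} (h : Adm r S ω k s R) :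
    (∃ C : ℕ, 1 ≤ C ∧ ∀ n : ℕ, FF ω n ≤ ballO ω (C * n)) ∧
    (∃ C : ℕ, 1 ≤ C ∧ ∀ n : ℕ, ballO ω n ≤ FF ω (C * n)) := by
  obtain ⟨A, hA⟩ := lower hSTEP hHL hEH hBS hGRW hCNT h
  obtain ⟨K, hK1, hK⟩ := hCMP r S ω k s R h
  have hK0 : (0 : ℝ) < K := by exact_mod_cast hK1
  obtain ⟨C, -, hC⟩ := ballO_upper_of ω (1 / K) (by positivity) (fun i x => by
    have h1 : (ell ω i : ℝ) ≤ K * (nn ω i x : ℝ) := by exact_mod_cast hK i x
    rw [one_div, inv_mul_le_iff₀ hK0]
    exact h1)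
  exact ⟨FF_lower ω A hA, FF_upper ω C hC⟩

end Pool.Agent.U640.BG
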