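import Pool.Agent.U640.BG.Asm
import Pool.Agent.U640.BG.UStm

set_option autoImplicit false

/-! Lower bound up to `2 ^ (ε k)` for every `ω` with bounded runs. -/

namespace Pool.Agent.U640.BG

open Pool.Agent.Results.MP_03d093_al.SphereBall Pool.Agent.H776R2.Grig Pool.Agent.H776R2.Om

/-- the constants of the recursion -/
def AA (C : ℕ) : ℕ → ℕ
  | 0 => 1
  | j + 1 => 4 * AA C j + C

theorem AA_le (C j : ℕ) : AA C j + C ≤ 4 ^ j * (1 + C) := by
  induction j with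
  | zero => simp [AA]
  | succ j ih =>
    have h1 : 4 ^ (j + 1) * (1 + C) = 4 * (4 ^ j * (1 + C)) := by ring
    rw [h1]
    simp only [AA]
    omega

theorem stations2 (hSTEP : S_STEP) (hHL : S_HL) (hEH : S_EH) {ω : Om} (r : ℕ)
    (h : ∀ n, ∃ i, i < r ∧ ω (n + i) ≠ ω (n + i + 1)) (s1 : ℕ) (hs1 : r + 3 ≤ s1) :
    ∃ C : ℕ, ∀ n : ℕ, ∃ k D j, n ≤ k ∧ k ≤ n + (s1 + r) ∧ j * s1 ≤ k ∧ D ≤ r + 2 ∧
      Hyb ω k D (AA C j * ell ω k) := by
  obtain ⟨L, hL⟩ := hHL (r + 1)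
  obtain ⟨C, hC⟩ := hSTEP (s1 + r) L
  refine ⟨C, ?_⟩
  intro n
  induction n with
  | zero =>
    refine ⟨0, 0, 0, le_rfl, by omega, by omega, by omega, ?_⟩
    rw [ell_zero]
    exact hyb_zero ω
  | succ n ih =>
    obtain ⟨k, D, j, h1, h2, h3, h4, hyb⟩ := ih
    by_cases hk : n + 1 ≤ k
    · exact ⟨k, D, j, hk, by omega, h3, h4, hyb⟩
    · have hkn : k = n := by omega
      obtain ⟨i, hi, hci⟩ := h (k + s1 - 1)
      obtain ⟨m, hm⟩ : ∃ m, m = k + s1 - 1 + i + 1 := ⟨_, rfl⟩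
      obtain ⟨s, hs⟩ : ∃ s, m = k + s := ⟨m - k, by omega⟩
      have hch : ω (m - 1) ≠ ω m := by
        have e1 : m - 1 = k + s1 - 1 + i := by omega
        rw [e1, hm]
        exact hci
      obtain ⟨i', hi', hci'⟩ := h (m + 1)
      set t : ℕ := i' + 2 with ht
      have e0 : (shi (m - 1) ω) 0 = ω (m - 1) := by simp [shi]
      have e1 : (shi (m - 1) ω) 1 = ω m := by
        show ω (1 + (m - 1)) = ω m
        congr 1
        omega
      have e2 : (shi (m - 1) ω) t = ω (m + 1 + i') := by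
        show ω (t + (m - 1)) = _
        congr 1
        omega
      have e3 : (shi (m - 1) ω) (t + 1) = ω (m + 1 + i' + 1) := by
        show ω (t + 1 + (m - 1)) = _
        congr 1
        omega
      obtain ⟨W1, W2, hW1, hW2, hlab⟩ := hL (shi (m - 1) ω) t
        (by rw [e0, e1]; exact hch) (by omega) (by omega) (by rw [e2, e3]; exact hci')
      have hE := hC ω k D (AA C j * ell ω k) s W1 W2 (by omega) (by omega) hW1 hW2 hyb
      rw [← hs] at hE
      have e4 : sh (shi (m - 1) ω) = shi m ω := by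
        rw [sh_shi]
        congr 1
        omega
      rw [e4, e0] at hlab
      have hH := (hEH ω m _ _ hE).2 (t + 1) (by omega) hlab
      refine ⟨m, t + 1, j + 1, by omega, by omega, ?_, by omega, hyb_mono hH ?_⟩
      · rw [add_mul]
        omega
      · have h5 := W_ell_pow ω k s
        rw [← hs] at h5
        calc 2 ^ s * (4 * (AA C j * ell ω k) + C * ell ω k)
            = AA C (j + 1) * (2 ^ s * ell ω k) := by
              simp only [AA]
              ring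
          _ ≤ _ := Nat.mul_le_mul_left _ h5

theorem lower2 (hSTEP : S_STEP) (hHL : S_HL) (hEH : S_EH) (hCNT : S_CNT) {ω : Om} (r : ℕ)
    (h : ∀ n, ∃ i, i < r ∧ ω (n + i) ≠ ω (n + i + 1)) (ε : ℝ) (hε : 0 < ε) :
    ∃ C : ℝ, 0 < C ∧ ∀ k N : ℕ, C * (2 : ℝ) ^ (ε * k) * ell ω k ≤ N → 2 ^ 2 ^ k ≤ ballO ω N := by
  obtain ⟨s0, hs0⟩ := exists_nat_gt (2 / ε)
  set s1 : ℕ := s0 + r + 3 with hs1
  obtain ⟨C, hC⟩ := stations2 hSTEP hHL hEH r h s1 (by omega)
  refine ⟨(1 + C) * 3 ^ (s1 + r) * (2 : ℝ) ^ (ε * ((s1 + r : ℕ) : ℝ)), by positivity, ?_⟩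
  intro n N hN
  obtain ⟨k, D, j, h1, h2, h3, h4, hyb⟩ := hC n
  have h5 := hCNT ω k _ (hyb_inj hyb)
  have h6 : 2 ^ 2 ^ n ≤ 2 ^ 2 ^ k :=
    Nat.pow_le_pow_right (by norm_num) (Nat.pow_le_pow_right (by norm_num) h1)
  refine h6.trans (h5.trans (ballO_mono ω ?_))
  have h7 := W_ell_up ω n (k - n)
  rw [Nat.add_sub_cancel' h1] at h7
  have h8 : 3 ^ (k - n) ≤ 3 ^ (s1 + r) := Nat.pow_le_pow_right (by norm_num) (by omega)
  have h9 := AA_le C j
  have h10 : AA C j * ell ω k ≤ 4 ^ j * ((1 + C) * 3 ^ (s1 + r)) * ell ω n := by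
    calc AA C j * ell ω k ≤ (4 ^ j * (1 + C)) * (3 ^ (s1 + r) * ell ω n) := by
          apply Nat.mul_le_mul (by omega)
          exact h7.trans (Nat.mul_le_mul_right _ h8)
      _ = _ := by ring
  have h11 : ((4 : ℝ)) ^ j ≤ (2 : ℝ) ^ (ε * ((s1 + r : ℕ) : ℝ)) * (2 : ℝ) ^ (ε * n) := by
    rw [← Real.rpow_add (by norm_num)]
    have e1 : ((4 : ℝ)) ^ j = (2 : ℝ) ^ (2 * (j : ℝ)) := by
      rw [show (4 : ℝ) = (2 : ℝ) ^ (2 : ℝ) by norm_num, ← Real.rpow_natCast, ← Real.rpow_mul (by norm_num)]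
    rw [e1]
    apply Real.rpow_le_rpow_of_exponent_le (by norm_num)
    have h12 : (j : ℝ) * s1 ≤ n + ((s1 + r : ℕ) : ℝ) := by
      have : j * s1 ≤ n + (s1 + r) := by omega
      exact_mod_cast this
    have h13 : 2 < ε * s1 := by
      have h14 : (s0 : ℝ) ≤ s1 := by
        have : s0 ≤ s1 := by omega
        exact_mod_cast this
      rw [div_lt_iff₀ hε] at hs0
      nlinarith
    have h15 : (0 : ℝ) ≤ j := by positivity
    calc 2 * (j : ℝ) ≤ ε * s1 * j := mul_le_mul_of_nonneg_right h13.le h15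
      _ = ε * (j * s1) := by ring
      _ ≤ ε * (n + ((s1 + r : ℕ) : ℝ)) := mul_le_mul_of_nonneg_left h12 hε.le
      _ = _ := by ring
  have h16 : ((AA C j * ell ω k : ℕ) : ℝ) ≤ N := by
    refine le_trans ?_ hN
    have h17 : ((AA C j * ell ω k : ℕ) : ℝ) ≤
        ((4 ^ j * ((1 + C) * 3 ^ (s1 + r)) * ell ω n : ℕ) : ℝ) := by exact_mod_cast h10
    refine h17.trans ?_
    push_cast
    have h18 : (0 : ℝ) ≤ (1 + C) * 3 ^ (s1 + r) * ell ω n := by positivity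
    have h19 := mul_le_mul_of_nonneg_right h11 h18
    push_cast at h19 ⊢
    calc (4 : ℝ) ^ j * ((1 + C) * 3 ^ (s1 + r)) * ell ω n
        = 4 ^ j * ((1 + C) * 3 ^ (s1 + r) * ell ω n) := by ring
      _ ≤ _ := h19
      _ = _ := by ring
  exact_mod_cast h16

end Pool.Agent.U640.BG
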