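import Pool.Agent.U640.BG.Asm
import Pool.Agent.U640.BG.XStm

set_option autoImplicit false

/-! Lower bound up to `2 ^ (ε k)` for every `ω` which is not eventually constant. -/

namespace Pool.Agent.U640.BG

open Pool.Agent.Results.MP_03d093_al.SphereBall Pool.Agent.H776R2.Grig Pool.Agent.H776R2.Om

/-- the constants of the recursion -/
def AB (B C : ℕ) : ℕ → ℕ
  | 0 => 1
  | j + 1 => B * AB B C j + C

theorem AB_le (B C j : ℕ) (hB : 2 ≤ B) : AB B C j + C ≤ B ^ j * (1 + C) := by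
  induction j with
  | zero => simp [AB]
  | succ j ih =>
    have h1 : B ^ (j + 1) * (1 + C) = B * (B ^ j * (1 + C)) := by ring
    rw [h1]
    simp only [AB]
    calc B * AB B C j + C + C ≤ B * AB B C j + B * C := by nlinarith
      _ = B * (AB B C j + C) := by ring
      _ ≤ _ := Nat.mul_le_mul_left _ ih

theorem AB_mono (B C j : ℕ) (hB : 2 ≤ B) : AB B C j ≤ AB B C (j + 1) := by
  simp only [AB]
  nlinarith [Nat.zero_le (AB B C j)]

theorem exa_mono {ω : Om} {m : ℕ} {κ : List Lt} {N N' : ℕ} (h : Exa ω m κ N) (hN : N ≤ N') :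
    Exa ω m κ N' := by
  intro q
  obtain ⟨w, hw, h1⟩ := h q
  exact ⟨w, hw.trans hN, h1⟩

/-- a run of length at least `s1` starts at `m` -/
def LR (ω : Om) (s1 m : ℕ) : Prop := 1 ≤ m ∧ ω (m - 1) ≠ ω m ∧ ∀ i < s1, ω (m + i) = ω m

/-- the state of the first kind -/
def StH (ω : Om) (s1 k A : ℕ) : Prop :=
  ∃ D, D ≤ s1 + 3 ∧ Hyb ω k D (A * ell ω k) ∧ (∀ m, k ≤ m → m ≤ k + D → ¬ LR ω s1 m) ∧
    (k = 0 ∨ (1 ≤ k ∧ ω (k - 1) ≠ ω k))

/-- the state of the second kind -/
def StX (ω : Om) (s1 k A : ℕ) : Prop :=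
  LR ω s1 k ∧ ∀ e, Exa ω k (kap (kil (ω (k - 1))) (kil (ω k)) e) (A * ell ω k)

theorem no_const {ω : Om} {s1 k : ℕ} (h0 : ∃ i, i < s1 ∧ ω i ≠ ω (i + 1))
    (hk : k = 0 ∨ (1 ≤ k ∧ ω (k - 1) ≠ ω k)) (n : ℕ) (hkn : k ≤ n)
    (hL : ∀ m, k ≤ m → m ≤ n → ¬ LR ω s1 m) : ∃ i, i < s1 ∧ ω (n + i) ≠ ω (n + i + 1) := by
  by_contra hcon
  push Not at hcon
  have hc : ∀ i, i ≤ s1 → ω (n + i) = ω n := by
    intro i
    induction i with
    | zero => intro _; rfl
    | succ i ih =>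
      intro hi
      rw [← ih (by omega)]
      exact (hcon i (by omega)).symm
  -- descend to the beginning of the run
  have hd : ∀ d, d ≤ n - k → (∀ i, i ≤ s1 → ω (n - d + i) = ω (n - d)) := by
    intro d
    induction d with
    | zero =>
      intro _
      exact hc
    | succ d ih =>
      intro hd
      have ih' := ih (by omega)
      have e : n - (d + 1) + 1 = n - d := by omega
      by_cases hne : ω (n - (d + 1)) = ω (n - d)
      · intro i hi
        rcases Nat.eq_zero_or_pos i with rfl | hi0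
        · rfl
        · have e2 : n - (d + 1) + i = n - d + (i - 1) := by omega
          rw [e2, ih' (i - 1) (by omega), hne]
      · exfalso
        refine hL (n - d) (by omega) (by omega) ⟨by omega, ?_, fun i hi => ih' i (by omega)⟩
        have e3 : n - d - 1 = n - (d + 1) := by omega
        rw [e3]
        exact hne
  have hfin := hd (n - k) le_rfl
  have e4 : n - (n - k) = k := by omega
  rw [e4] at hfin
  rcases hk with rfl | ⟨hk1, hk2⟩
  · obtain ⟨i, hi, hne⟩ := h0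
    have h1 := hfin i (by omega)
    have h2 := hfin (i + 1) (by omega)
    rw [zero_add] at h1 h2
    exact hne (h1.trans h2.symm)
  · exact hL k le_rfl hkn ⟨hk1, hk2, fun i hi => hfin i (by omega)⟩

theorem run_len {ω : Om} (hN : ∀ N, ∃ n, N ≤ n ∧ ω n ≠ ω N) (m : ℕ) :
    ∃ R, 1 ≤ R ∧ ω (m + R) ≠ ω m ∧ ∀ i < R, ω (m + i) = ω m := by
  classical
  have hex : ∃ R, ω (m + R) ≠ ω m := by
    obtain ⟨n, h1, h2⟩ := hN m
    exact ⟨n - m, by rwa [Nat.add_sub_cancel' h1]⟩
  refine ⟨Nat.find hex, ?_, Nat.find_spec hex, ?_⟩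
  · by_contra h
    have h0 : Nat.find hex = 0 := by omega
    have := Nat.find_spec hex
    rw [h0] at this
    exact this rfl
  · intro i hi
    by_contra h
    exact (Nat.find_min hex hi) h

theorem next (hSTEP : S_STEP) (hHL : S_HL) (hEH : S_EH) (hBS : S_BS) (hTX0 : S_TX0)
    (hTX1 : S_TX1) : ∃ B : ℕ, 2 ≤ B ∧ ∀ s1, 4 ≤ s1 → ∃ C S2 : ℕ, ∀ (ω : Om),
    (∀ N, ∃ n, N ≤ n ∧ ω n ≠ ω N) → (∃ i, i < s1 ∧ ω i ≠ ω (i + 1)) →
    ∀ k A : ℕ, (StH ω s1 k A →
      ∃ k', k < k' ∧ (∀ n, k ≤ n → n < k' →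
        ∃ k'', n ≤ k'' ∧ k'' ≤ n + S2 ∧ Inj ω k'' ((B * (B * A + C) + C) * ell ω k'')) ∧
        ((k + s1 ≤ k' ∧ StH ω s1 k' (B * A + C)) ∨ StX ω s1 k' (B * A + C))) ∧
      (StX ω s1 k A →
      ∃ k', k + s1 ≤ k' ∧ (∀ n, k ≤ n → n < k' →
        ∃ k'', n ≤ k'' ∧ k'' ≤ n + S2 ∧ Inj ω k'' ((B * A + C) * ell ω k'')) ∧
        (StH ω s1 k' (B * A + C) ∨ StX ω s1 k' (B * A + C))) := by
  obtain ⟨C0, hC0⟩ := hTX0
  obtain ⟨C1, hC1⟩ := hTX1
  refine ⟨C0 + C1 + 4, by omega, fun s1 hs1 => ?_⟩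
  obtain ⟨L, hL⟩ := hHL (s1 + 1)
  obtain ⟨C, hC⟩ := hSTEP (5 * s1 + 3) (max L 40)
  set B : ℕ := C0 + C1 + 4 with hB
  set CC : ℕ := C + C0 + C1 + 44 with hCC
  refine ⟨CC, 5 * s1 + 6, ?_⟩
  intro ω hN h0 k A
  -- the second kind of state, as a general fact
  have hX : ∀ k A, StX ω s1 k A → ∃ R, s1 ≤ R ∧ (∀ i < R, ω (k + i) = ω k) ∧ ω (k + R) ≠ ω k ∧
      (∀ R', 3 ≤ R' → R' ≤ R → Inj ω (k + R') ((B * A + CC) * ell ω (k + R'))) ∧
      Hyb ω (k + R) 1 ((B * A + CC) * ell ω (k + R)) := by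
    intro k A ⟨⟨hk1, hk2, hk3⟩, hE⟩
    obtain ⟨R, hR1, hR2, hR3⟩ := run_len hN k
    have hRs : s1 ≤ R := by
      by_contra h
      exact hR2 (hk3 R (by omega))
    have hconst : ∀ n, k ≤ n → n < k + R → ω n = ω k := by
      intro n h1 h2
      obtain ⟨i, rfl⟩ : ∃ i, n = k + i := ⟨n - k, by omega⟩
      exact hR3 i (by omega)
    have hb : ∀ R' : ℕ, 2 ^ (R' + 1) * (A * ell ω k + 22 * ell ω k) ≤
        (B * A + CC) * ell ω (k + R') := by
      intro R'
      have h1 := W_ell_pow ω k R'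
      calc 2 ^ (R' + 1) * (A * ell ω k + 22 * ell ω k)
          = (2 * A + 44) * (2 ^ R' * ell ω k) := by ring
        _ ≤ (2 * A + 44) * ell ω (k + R') := Nat.mul_le_mul_left _ h1
        _ ≤ _ := by
          apply Nat.mul_le_mul_right
          nlinarith
    have hB' := fun R' h3 h4 => hBS ω k R R' (A * ell ω k) hk1 h3 h4 hconst hR2 hk2 (hE false)
      (hE true)
    exact ⟨R, hRs, hR3, hR2, fun R' h3 h4 => inj_mono (hB' R' h3 h4).1 (hb R'),
      hyb_mono ((hB' R (by omega) le_rfl).2 rfl) (hb R)⟩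
  have hstep : ∀ (D s : ℕ), D + 1 ≤ s → s ≤ 5 * s1 + 3 → Hyb ω k D (A * ell ω k) →
      ∀ W1 W2, size W1 ≤ max L 40 → size W2 ≤ max L 40 →
      Exa ω (k + s) (comw (jw (kil (ω (k + s - 1))) W1) (jw (kil (ω (k + s - 1))) W2))
        ((B * A + CC) * ell ω (k + s)) := by
    intro D s h1 h2 hyb W1 W2 hW1 hW2
    refine exa_mono (hC ω k D (A * ell ω k) s W1 W2 h1 h2 hW1 hW2 hyb) ?_
    have h5 := W_ell_pow ω k s
    calc 2 ^ s * (4 * (A * ell ω k) + C * ell ω k) = (4 * A + C) * (2 ^ s * ell ω k) := by ring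
      _ ≤ (4 * A + C) * ell ω (k + s) := Nat.mul_le_mul_left _ h5
      _ ≤ _ := by
        apply Nat.mul_le_mul_right
        nlinarith
  refine ⟨?_, ?_⟩
  · rintro ⟨D, hD, hyb, hnoL, hk⟩
    by_cases hLR : ∃ m, k + D + 1 ≤ m ∧ m ≤ k + (5 * s1 + 3) ∧ LR ω s1 m
    · obtain ⟨m, hm1, hm2, hm3⟩ := hLR
      obtain ⟨s, rfl⟩ : ∃ s, m = k + s := ⟨m - k, by omega⟩
      have hSX : StX ω s1 (k + s) (B * A + CC) := by
        refine ⟨hm3, fun e => ?_⟩
        exact hstep D s (by omega) (by omega) hyb (cj e (Wf (kil (ω (k + s))))) (cj e Wt)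
          ((size_Wf _ _).trans (le_max_right _ _)) ((size_Wt _).trans (le_max_right _ _))
      refine ⟨k + s, by omega, ?_, Or.inr hSX⟩
      intro n hn1 hn2
      obtain ⟨R, hR1, -, -, hR2, -⟩ := hX _ _ hSX
      exact ⟨k + s + 3, by omega, by omega, hR2 3 le_rfl (by omega)⟩
    · push Not at hLR
      have hno : ∀ m, k ≤ m → m ≤ k + (5 * s1 + 3) → ¬ LR ω s1 m := by
        intro m h1 h2 h3
        by_cases h4 : m ≤ k + D
        · exact hnoL m h1 h4 h3
        · exact hLR m (by omega) h2 h3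
      obtain ⟨i, hi, hci⟩ := no_const h0 hk (k + s1 + 3) (by omega)
        (fun m h1 h2 => hno m h1 (by omega))
      obtain ⟨m, hm⟩ : ∃ m, m = k + s1 + 3 + i + 1 := ⟨_, rfl⟩
      obtain ⟨s, hs⟩ : ∃ s, m = k + s := ⟨m - k, by omega⟩
      have hch : ω (m - 1) ≠ ω m := by
        have e1 : m - 1 = k + s1 + 3 + i := by omega
        rw [e1, hm]
        exact hci
      obtain ⟨i', hi', hci'⟩ := no_const h0 hk (m + 1) (by omega)
        (fun m' h1 h2 => hno m' h1 (by omega))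
      set t : ℕ := i' + 2 with ht
      have e0 : (shi (m - 1) ω) 0 = ω (m - 1) := by simp [shi]
      have e1 : (shi (m - 1) ω) 1 = ω m := by
        show ω (1 + (m - 1)) = ω m
        congr 1
        omega
      have e2 : (shi (m - 1) ω) t = ω (m + 1 + i') := by
        show ω (t + (m - 1)) = _
        congr 1
        omega
      have e3 : (shi (m - 1) ω) (t + 1) = ω (m + 1 + i' + 1) := by
        show ω (t + 1 + (m - 1)) = _
        congr 1
        omega
      obtain ⟨W1, W2, hW1, hW2, hlab⟩ := hL (shi (m - 1) ω) t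
        (by rw [e0, e1]; exact hch) (by omega) (by omega) (by rw [e2, e3]; exact hci')
      have hE := hstep D s (by omega) (by omega) hyb W1 W2 (hW1.trans (le_max_left _ _))
        (hW2.trans (le_max_left _ _))
      rw [← hs] at hE
      have e4 : sh (shi (m - 1) ω) = shi m ω := by
        rw [sh_shi]
        congr 1
        omega
      rw [e4, e0] at hlab
      have hH := (hEH ω m _ _ hE).2 (t + 1) (by omega) hlab
      refine ⟨m, by omega, ?_, Or.inl ⟨by omega, t + 1, by omega, hH, ?_, Or.inr ⟨by omega, hch⟩⟩⟩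
      · intro n hn1 hn2
        refine ⟨m, by omega, by omega, inj_mono (hyb_inj hH) ?_⟩
        apply Nat.mul_le_mul_right
        have hq : B * A + CC ≤ B * (B * A + CC) := Nat.le_mul_of_pos_left _ (by omega)
        exact hq.trans (Nat.le_add_right _ _)
      · intro m' h1 h2
        exact hno m' (by omega) (by omega)
  · intro hSX
    obtain ⟨R, hR1, hR2, hR3, hR4, hR5⟩ := hX k A hSX
    obtain ⟨⟨hk1, hk2, hk3⟩, hE⟩ := hSX
    have hconst : ∀ n, k ≤ n → n < k + R → ω n = ω k := by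
      intro n h1 h2
      obtain ⟨i, rfl⟩ : ∃ i, n = k + i := ⟨n - k, by omega⟩
      exact hR2 i (by omega)
    have hinj : ∀ n, k ≤ n → n < k + R + 1 →
        ∃ k'', n ≤ k'' ∧ k'' ≤ n + (5 * s1 + 6) ∧ Inj ω k'' ((B * A + CC) * ell ω k'') := by
      intro n hn1 hn2
      by_cases h3 : n ≤ k + 3
      · exact ⟨k + 3, h3, by omega, hR4 3 le_rfl (by omega)⟩
      · obtain ⟨R', rfl⟩ : ∃ R', n = k + R' := ⟨n - k, by omega⟩
        exact ⟨k + R', le_rfl, by omega, hR4 R' (by omega) (by omega)⟩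
    have hp := W_ell_pow ω k R
    by_cases hL0 : LR ω s1 (k + R)
    · refine ⟨k + R, by omega, fun n h1 h2 => hinj n h1 (by omega), Or.inr ⟨hL0, fun e => ?_⟩⟩
      have h1 := hC0 ω k R (A * ell ω k) hk1 (by omega) hconst hR3 hk2
        (hL0.2.2 1 (by omega)) (hL0.2.2 2 (by omega)) hE e
      have e1 : ω (k + R - 1) = ω k := by
        have := hR2 (R - 1) (by omega)
        rwa [show k + (R - 1) = k + R - 1 by omega] at this
      rw [e1]
      refine exa_mono h1 ?_
      calc C0 * 2 ^ R * (A * ell ω k + ell ω k) = (C0 * A + C0) * (2 ^ R * ell ω k) := by ring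
        _ ≤ (C0 * A + C0) * ell ω (k + R) := Nat.mul_le_mul_left _ hp
        _ ≤ _ := by
          apply Nat.mul_le_mul_right
          nlinarith [Nat.zero_le (C1 * A), Nat.zero_le A]
    · by_cases hL1 : LR ω s1 (k + R + 1)
      · refine ⟨k + R + 1, by omega, fun n h1 h2 => hinj n h1 h2, Or.inr ⟨hL1, fun e => ?_⟩⟩
        have hne : ω (k + R + 1) ≠ ω (k + R) := by
          have := hL1.2.1
          rw [show k + R + 1 - 1 = k + R by omega] at this
          exact fun h => this h.symm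
        have h1 := hC1 ω k R (A * ell ω k) hk1 (by omega) hconst hR3 hk2 hne
          (hL1.2.2 1 (by omega)) (hL1.2.2 2 (by omega)) hE e
        rw [show k + R + 1 - 1 = k + R by omega]
        refine exa_mono h1 ?_
        have hp2 := two_ell_le ω (k + R)
        calc C1 * 2 ^ R * (A * ell ω k + ell ω k) = (C1 * A + C1) * (2 ^ R * ell ω k) := by ring
          _ ≤ (C1 * A + C1) * ell ω (k + R) := Nat.mul_le_mul_left _ hp
          _ ≤ (C1 * A + C1) * ell ω (k + R + 1) := Nat.mul_le_mul_left _ (by omega)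
          _ ≤ _ := by
            apply Nat.mul_le_mul_right
            nlinarith [Nat.zero_le (C0 * A), Nat.zero_le A]
      · refine ⟨k + R, by omega, fun n h1 h2 => hinj n h1 (by omega), Or.inl
          ⟨1, by omega, hR5, ?_, Or.inr ⟨by omega, ?_⟩⟩⟩
        · intro m h1 h2
          rcases (by omega : m = k + R ∨ m = k + R + 1) with rfl | rfl
          · exact hL0
          · exact hL1
        · have e1 : ω (k + R - 1) = ω k := by
            have := hR2 (R - 1) (by omega)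
            rwa [show k + (R - 1) = k + R - 1 by omega] at this
          rw [e1]
          exact fun h => hR3 h.symm

end Pool.Agent.U640.BG
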