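import Pool.Agent.U640.BG.Asm3

set_option autoImplicit false

/-! Lower bound up to `2 ^ (ε k)` for every `ω` which is not eventually constant: iteration. -/

namespace Pool.Agent.U640.BG

open Pool.Agent.Results.MP_03d093_al.SphereBall Pool.Agent.H776R2.Grig Pool.Agent.H776R2.Om

/-- the stations of the recursion -/
def Pst (ω : Om) (s1 B C k j : ℕ) : Prop :=
  (StH ω s1 k (AB B C j) ∧ j * s1 ≤ 2 * k) ∨ (StX ω s1 k (AB B C j) ∧ j * s1 ≤ 2 * k + s1)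

theorem stations3 (hSTEP : S_STEP) (hHL : S_HL) (hEH : S_EH) (hBS : S_BS) (hTX0 : S_TX0)
    (hTX1 : S_TX1) : ∃ B : ℕ, 2 ≤ B ∧ ∀ s1, 4 ≤ s1 → ∃ C S2 : ℕ, ∀ (ω : Om),
    (∀ N, ∃ n, N ≤ n ∧ ω n ≠ ω N) → (∃ i, i < s1 ∧ ω i ≠ ω (i + 1)) →
    ∀ n : ℕ, ∃ k j, n ≤ k ∧ k ≤ n + S2 ∧ j * s1 ≤ 2 * n + s1 ∧
      Inj ω k (AB B C (j + 2) * ell ω k) := by
  obtain ⟨B, hB, h⟩ := next hSTEP hHL hEH hBS hTX0 hTX1
  refine ⟨B, hB, fun s1 hs1 => ?_⟩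
  obtain ⟨C, S2, h⟩ := h s1 hs1
  refine ⟨C, S2, fun ω hN h0 => ?_⟩
  have h := h ω hN h0
  have hst : ∀ k j, Pst ω s1 B C k j → ∃ k', k < k' ∧ Pst ω s1 B C k' (j + 1) ∧
      ∀ n, k ≤ n → n < k' →
        ∃ k'', n ≤ k'' ∧ k'' ≤ n + S2 ∧ Inj ω k'' (AB B C (j + 2) * ell ω k'') := by
    intro k j hP
    rcases hP with ⟨hS, hj⟩ | ⟨hS, hj⟩
    · obtain ⟨k', h1, h2, h3⟩ := (h k (AB B C j)).1 hS
      refine ⟨k', h1, ?_, fun n hn1 hn2 => h2 n hn1 hn2⟩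
      rcases h3 with ⟨h4, h5⟩ | h5
      · left
        refine ⟨h5, ?_⟩
        rw [add_mul]
        omega
      · right
        refine ⟨h5, ?_⟩
        rw [add_mul]
        omega
    · obtain ⟨k', h1, h2, h3⟩ := (h k (AB B C j)).2 hS
      refine ⟨k', by omega, ?_, ?_⟩
      · rcases h3 with h5 | h5
        · left
          refine ⟨h5, ?_⟩
          rw [add_mul]
          omega
        · right
          refine ⟨h5, ?_⟩
          rw [add_mul]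
          omega
      · intro n hn1 hn2
        obtain ⟨k'', h4, h5, h6⟩ := h2 n hn1 hn2
        exact ⟨k'', h4, h5, inj_mono h6 (Nat.mul_le_mul_right _ (AB_mono B C (j + 1) hB))⟩
  have hmain : ∀ n, ∃ k j k', k ≤ n ∧ n < k' ∧ Pst ω s1 B C k j ∧ Pst ω s1 B C k' (j + 1) ∧
      ∀ m, k ≤ m → m < k' →
        ∃ k'', m ≤ k'' ∧ k'' ≤ m + S2 ∧ Inj ω k'' (AB B C (j + 2) * ell ω k'') := by
    intro n
    induction n with
    | zero =>
      have h00 : Pst ω s1 B C 0 0 := by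
        left
        refine ⟨⟨0, by omega, ?_, ?_, Or.inl rfl⟩, by omega⟩
        · rw [ell_zero]
          exact hyb_zero ω
        · intro m _ hm hh
          have := hh.1
          omega
      obtain ⟨k', h1, h2, h3⟩ := hst 0 0 h00
      exact ⟨0, 0, k', le_rfl, h1, h00, h2, h3⟩
    | succ n ih =>
      obtain ⟨k, j, k', h1, h2, h3, h4, h5⟩ := ih
      by_cases hk : n + 1 < k'
      · exact ⟨k, j, k', by omega, hk, h3, h4, h5⟩
      · obtain ⟨k2, h6, h7, h8⟩ := hst k' (j + 1) h4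
        exact ⟨k', j + 1, k2, by omega, by omega, h4, h7, h8⟩
  intro n
  obtain ⟨k, j, k', h1, h2, h3, -, h5⟩ := hmain n
  obtain ⟨k'', h6, h7, h8⟩ := h5 n h1 h2
  refine ⟨k'', j, h6, h7, ?_, h8⟩
  rcases h3 with ⟨-, h9⟩ | ⟨-, h9⟩ <;> omega

theorem lower3 (hSTEP : S_STEP) (hHL : S_HL) (hEH : S_EH) (hBS : S_BS) (hTX0 : S_TX0)
    (hTX1 : S_TX1) (hCNT : S_CNT) (R : ℕ) (ε : ℝ) (hε : 0 < ε) :
    ∃ C : ℝ, 0 < C ∧ ∀ ω : Om, (∀ N, ∃ n, N ≤ n ∧ ω n ≠ ω N) →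
      (∃ i, i < R ∧ ω i ≠ ω (i + 1)) →
      ∀ k N : ℕ, C * (2 : ℝ) ^ (ε * k) * ell ω k ≤ N → 2 ^ 2 ^ k ≤ ballO ω N := by
  obtain ⟨B, hB, h⟩ := stations3 hSTEP hHL hEH hBS hTX0 hTX1
  obtain ⟨b, hb⟩ : ∃ b : ℕ, B ≤ 2 ^ b := ⟨B, Nat.lt_two_pow_self.le⟩
  obtain ⟨s0, hs0⟩ := exists_nat_gt (2 * b / ε)
  obtain ⟨s1, hs1⟩ : ∃ s1 : ℕ, s1 = s0 + R + 4 := ⟨_, rfl⟩
  obtain ⟨C, S2, h⟩ := h s1 (by omega)
  refine ⟨(1 + C) * 3 ^ S2 * 2 ^ (2 * b) * (2 : ℝ) ^ (ε * s1), by positivity, ?_⟩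
  intro ω hN h0 n N hNN
  obtain ⟨k, j, h1, h2, h3, hinj⟩ := h ω hN
    (by obtain ⟨i, hi, hc⟩ := h0; exact ⟨i, by omega, hc⟩) n
  have h5 := hCNT ω k _ hinj
  have h6 : 2 ^ 2 ^ n ≤ 2 ^ 2 ^ k :=
    Nat.pow_le_pow_right (by norm_num) (Nat.pow_le_pow_right (by norm_num) h1)
  refine h6.trans (h5.trans (ballO_mono ω ?_))
  have h7 := W_ell_up ω n (k - n)
  rw [Nat.add_sub_cancel' h1] at h7
  have h8 : 3 ^ (k - n) ≤ 3 ^ S2 := Nat.pow_le_pow_right (by norm_num) (by omega)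
  have h9 : AB B C (j + 2) ≤ 2 ^ (b * j) * (2 ^ (2 * b) * (1 + C)) := by
    have h9 := AB_le B C (j + 2) hB
    calc AB B C (j + 2) ≤ B ^ (j + 2) * (1 + C) := by omega
      _ ≤ (2 ^ b) ^ (j + 2) * (1 + C) := Nat.mul_le_mul_right _ (Nat.pow_le_pow_left hb _)
      _ = _ := by
        rw [← pow_mul]
        ring
  have h10 : AB B C (j + 2) * ell ω k ≤
      2 ^ (b * j) * (2 ^ (2 * b) * (1 + C) * 3 ^ S2 * ell ω n) := by
    calc AB B C (j + 2) * ell ω k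
        ≤ (2 ^ (b * j) * (2 ^ (2 * b) * (1 + C))) * (3 ^ S2 * ell ω n) := by
          apply Nat.mul_le_mul h9
          exact h7.trans (Nat.mul_le_mul_right _ h8)
      _ = _ := by ring
  have h11 : ((2 : ℝ)) ^ (b * j) ≤ (2 : ℝ) ^ (ε * s1) * (2 : ℝ) ^ (ε * n) := by
    rw [← Real.rpow_add (by norm_num), ← Real.rpow_natCast]
    apply Real.rpow_le_rpow_of_exponent_le (by norm_num)
    push_cast
    have h12 : (j : ℝ) * s1 ≤ 2 * n + s1 := by exact_mod_cast h3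
    have h13 : 2 * (b : ℝ) < ε * s1 := by
      have h14 : (s0 : ℝ) ≤ s1 := by
        have : s0 ≤ s1 := by omega
        exact_mod_cast this
      rw [div_lt_iff₀ hε] at hs0
      nlinarith
    have h15 : (0 : ℝ) ≤ j := by positivity
    have h16 : 2 * (b : ℝ) * j ≤ ε * s1 * j := mul_le_mul_of_nonneg_right h13.le h15
    have h17 : ε * (j * s1) ≤ ε * (2 * n + s1) := mul_le_mul_of_nonneg_left h12 hε.le
    have h18 : 0 ≤ ε * (s1 : ℝ) := by positivity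
    linarith
  have h16 : ((AB B C (j + 2) * ell ω k : ℕ) : ℝ) ≤ N := by
    refine le_trans ?_ hNN
    have h17 : ((AB B C (j + 2) * ell ω k : ℕ) : ℝ) ≤
        ((2 ^ (b * j) * (2 ^ (2 * b) * (1 + C) * 3 ^ S2 * ell ω n) : ℕ) : ℝ) := by
      exact_mod_cast h10
    refine h17.trans ?_
    push_cast
    have h18 : (0 : ℝ) ≤ 2 ^ (2 * b) * (1 + C) * 3 ^ S2 * ell ω n := by positivity
    have h19 := mul_le_mul_of_nonneg_right h11 h18
    calc (2 : ℝ) ^ (b * j) * (2 ^ (2 * b) * (1 + C) * 3 ^ S2 * ell ω n) ≤ _ := h19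
      _ = _ := by ring
  exact_mod_cast h16

end Pool.Agent.U640.BG
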