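import Pool.Agent.U640.BG.TX1

set_option autoImplicit false

/-! Project BG, package TX0: two adjacent long runs. -/

namespace Pool.Agent.U640.BG

open Pool.Agent.Results.MP_03d093_al.SphereBall Pool.Agent.H776R2.Grig Pool.Agent.H776R2.Om

theorem TX0b_shi (ω : Om) (m R : ℕ) : shi R (shi m ω) = shi (m + R) ω := by
  funext n
  unfold shi
  congr 1
  omega

theorem TX0b_pa_mul (b c : Bool) : pa b * pa c = pa (xor b c) := by
  cases b <;> cases c
  · exact one_mul 1
  · exact one_mul _
  · exact mul_one _
  · exact BS_aa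

/-- the signed global words -/
theorem TX0b_word (hDG : S_DG) (ω : Om) (m R N : ℕ) (y z : V) (hR : 1 ≤ R)
    (h0 : Exa ω m (kap y z false) N) (h1 : Exa ω m (kap y z true) N)
    (Qf : (List Bool → Bool) → Bool → ℕ → Bool) (e f : List Bool → Bool)
    (hg : ∀ p : List Bool → Bool, ∀ v u : List Bool, v.length = R →
        locw (shi m ω) y z (Qf p) (2 ^ R - 2) (v ++ u) = v ++ (if p v then
          (pa (e v) * (if f v then xx (shi R (shi m ω)) y else 1) *
            evo (shi R (shi m ω)) (Tw z) *
            (if f v then xx (shi R (shi m ω)) y else 1) * pa (e v)) u else u)) :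
    ∃ s g : List Bool → Bool, ∀ q : List Bool → Bool, ∃ w : List Lt,
      w.length ≤ 2 * 2 ^ R * (N + 22 * ell ω m) ∧
      BS_Act (m + R) (evo ω w) fun X => if q X then
        pa (cz X) * (pa (s X) * ((if g X then xx (shi (m + R) ω) y else 1) *
          evo (shi (m + R) ω) (Tw z) * (if g X then xx (shi (m + R) ω) y else 1)) * pa (s X)) *
          pa (cz X) else 1 := by
  refine ⟨fun X => e (pa (cz (X.take m)) (X.drop m)),
    fun X => f (pa (cz (X.take m)) (X.drop m)), fun q => ?_⟩
  obtain ⟨w1, l1, a1⟩ := BS_global hDG ω m N (2 ^ R - 2) y z h0 h1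
    (fun x => Qf fun v => q (x ++ pa (cz x) v))
  refine ⟨w1, ?_, ?_⟩
  · have h3 : (2 ^ R - 2) * (N + 22 * ell ω m) ≤ 2 ^ R * (N + 22 * ell ω m) :=
      Nat.mul_le_mul_right _ (Nat.sub_le _ _)
    have h4 : 2 * 2 ^ R * (N + 22 * ell ω m) = 2 * (2 ^ R * (N + 22 * ell ω m)) := by ring
    rw [h4]
    omega
  · intro X u hX
    obtain ⟨x, v, rfl, hx, hv⟩ : ∃ x v, X = x ++ v ∧ x.length = m ∧ v.length = R := by
      refine ⟨X.take m, X.drop m, (List.take_append_drop m X).symm, ?_, ?_⟩
      · rw [List.length_take]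
        omega
      · rw [List.length_drop]
        omega
    have hv0 : v ≠ [] := by
      rintro rfl
      simp at hv
      omega
    have h5 := a1 x (v ++ u) hx
    rw [List.append_assoc, h5, Equiv.Perm.mul_apply, Equiv.Perm.mul_apply,
      BS_pa_append _ _ _ hv0, hg _ _ _ (by rw [BS_pa_len, hv]), BS_pa_append _ _ _ (by
        intro h
        have := congrArg List.length h
        rw [BS_pa_len, hv] at this
        simp at this
        omega), BS_pa_app, List.append_assoc]
    have h6 : (x ++ v).take m = x := by rw [← hx]; simp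
    have h7 : (x ++ v).drop m = v := by rw [← hx]; simp
    congr 2
    simp only [h6, h7]
    by_cases hq : q (x ++ v) = true
    · simp only [hq, if_true]
      rw [TX0b_shi]
      have hp : ∀ (c : Bool) (S : P), pa c * (pa c * S * pa c) * pa c = S := by
        intro c S
        calc pa c * (pa c * S * pa c) * pa c = (pa c * pa c) * S * (pa c * pa c) := by
              simp only [mul_assoc]
          _ = S := by rw [BS_pa, one_mul, mul_one]
      rw [hp]
      simp only [mul_assoc]
    · simp only [hq, mul_one, BS_pa, Equiv.Perm.one_apply, Bool.false_eq_true, if_false]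

/-- `T = z a z a` on the level `k` -/
theorem TX0b_Te (θ : Om) (z : V) (e : Bool) :
    evo θ (jw z (cj e Wt)) = pa e * evo θ (Tw z) * pa e := by
  rw [← TX1_Te θ z e e]
  simp

theorem TX0b_Fe (θ : Om) (z y : V) (e : Bool) :
    evo θ (jw z (cj e (Wf y))) = pa e * evo θ (jw z (Wf y)) * pa e := by
  cases e
  · change _ = 1 * evo θ (jw z (Wf y)) * 1
    rw [one_mul, mul_one]
    rfl
  · exact BS_jw_conj θ z _

/-- `y T y = T F` -/
theorem TX0b_TF (θ : Om) (z y : V) :
    xx θ y * evo θ (Tw z) * xx θ y = evo θ (Tw z) * evo θ (jw z (Wf y)) := by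
  have ha : gno θ Lt.A = a := rfl
  have h1 : evo θ (jw z (Wf y)) = evo θ [Lt.A, z.lt, Lt.A, y.lt, Lt.A, z.lt, Lt.A, y.lt] := rfl
  have haa : ∀ g : P, a * (a * g) = g := fun g => by rw [← mul_assoc, BS_aa, one_mul]
  have hzz : ∀ g : P, xx θ z * (xx θ z * g) = g := fun g => by
    rw [← mul_assoc, xx_sq, one_mul]
  have hzy : ∀ g : P, xx θ z * (xx θ y * g) = xx θ y * (xx θ z * g) := fun g => by
    rw [← mul_assoc, J_xx_comm, mul_assoc]
  rw [h1]
  unfold Tw
  simp only [evo_cons, evo_nil, gno_lt, ha, mul_one, mul_assoc]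
  simp only [haa, hzz]
  rw [hzy]

/-- the sections, after the corrections -/
theorem TX0b_S (θ : Om) (z y : V) (e g : Bool) :
    evo θ (jw z (cj e (Wf y))) *
      (pa e * ((if g then xx θ y else 1) * evo θ (Tw z) * (if g then xx θ y else 1)) * pa e) *
      (evo θ (jw z (cj e (Wf y))))⁻¹ *
      (pa e * ((if g then xx θ y else 1) * evo θ (Tw z) * (if g then xx θ y else 1)) * pa e)⁻¹ =
      evo θ (kap z y e) := by
  have h10 : evo θ (kap z y e) = evo θ (jw z (cj e (Wf y))) * evo θ (jw z (cj e Wt)) *
      (evo θ (jw z (cj e (Wf y))))⁻¹ * (evo θ (jw z (cj e Wt)))⁻¹ := by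
    unfold kap comw
    rw [evo_append, evo_append, evo_append, evo_reverse, evo_reverse]
  rw [h10]
  cases g
  · simp only [Bool.false_eq_true, if_false, one_mul, mul_one]
    rw [← TX0b_Te]
  · simp only [if_true]
    have h2 : pa e * (xx θ y * evo θ (Tw z) * xx θ y) * pa e =
        evo θ (jw z (cj e Wt)) * evo θ (jw z (cj e (Wf y))) := by
      rw [TX0b_TF, TX0b_Te, TX0b_Fe]
      calc pa e * (evo θ (Tw z) * evo θ (jw z (Wf y))) * pa e
          = pa e * evo θ (Tw z) * 1 * evo θ (jw z (Wf y)) * pa e := by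
            simp only [mul_assoc, one_mul]
        _ = pa e * evo θ (Tw z) * (pa e * pa e) * evo θ (jw z (Wf y)) * pa e := by rw [BS_pa]
        _ = _ := by simp only [mul_assoc]
    rw [h2]
    group

theorem t_TX0b : S_DG → S_KI → S_LX0 → S_TX0 := by
  intro hDG hKI hLX
  refine ⟨460, ?_⟩
  intro ω m R N hm hR hc hne hne' _ _ hE e q
  have hη0 : shi m ω 0 = ω m := by
    unfold shi
    rw [zero_add]
  have hkil : ∀ i j : Fin 3, kil i = kil j → i = j := by decide
  have hc1 : ∀ n < R, shi m ω n = shi m ω 0 := by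
    intro n hn
    rw [hη0]
    exact hc (n + m) (by omega) (by omega)
  have hR0 : shi m ω R = ω (m + R) := by
    unfold shi
    rw [add_comm]
  have hc2 : shi m ω R ≠ shi m ω 0 := by
    rw [hη0, hR0]
    exact hne
  have hy : kil (ω (m + R)) ≠ kil (shi m ω 0) := by
    rw [hη0]
    exact fun h => hne (hkil _ _ h)
  have hyy : kil (ω (m - 1)) ≠ kil (shi m ω 0) := by
    rw [hη0]
    exact fun h => hne' (hkil _ _ h)
  have hEx : ∀ e, Exa ω m (kap (kil (ω (m + R))) (kil (ω m)) e) N := by
    intro e
    refine TX1_congr ?_ (hE e)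
    have h1 := hKI (shi m ω) (kil (ω (m - 1))) (kil (ω (m + R))) e
      (fun n hn => hc1 n (by omega)) hyy hy
    rw [hη0] at h1
    exact h1
  obtain ⟨Qf, e0, f0, hg⟩ := hLX (shi m ω) (kil (ω (m + R))) R hR hc1 hc2 hy
  rw [hη0] at hg
  obtain ⟨s, f, hs⟩ := TX0b_word hDG ω m R N _ _ (by omega) (hEx false) (hEx true) Qf e0 f0 hg
  obtain ⟨y, hyd⟩ : ∃ y, y = kil (ω (m + R)) := ⟨_, rfl⟩
  obtain ⟨z, hz⟩ : ∃ z, z = kil (ω m) := ⟨_, rfl⟩
  rw [← hyd, ← hz] at hs
  rw [← hyd, ← hz]
  obtain ⟨w1, l1, a1⟩ := hs fun X => q X && (s X == xor e (cz X))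
  obtain ⟨w2, l2, a2⟩ := hs fun X => (q X && !(s X == xor e (cz X))) && !(f X)
  obtain ⟨w3, l3, a3⟩ := hs fun X => (q X && !(s X == xor e (cz X))) && f X
  set θ := shi (m + R) ω with hθ
  obtain ⟨G, lG, aG⟩ := hDG ω (m + R) (if e then [Lt.A, y.lt, Lt.A, y.lt]
    else [y.lt, Lt.A, y.lt, Lt.A]) (by
    intro t
    cases t <;> cases y <;> cases e <;> decide)
  have aG' : BS_Act (m + R) (evo ω G) fun _ => evo θ (if e then [Lt.A, y.lt, Lt.A, y.lt]
    else [y.lt, Lt.A, y.lt, Lt.A]) := aG
  have hGe : evo θ (if e then [Lt.A, y.lt, Lt.A, y.lt] else [y.lt, Lt.A, y.lt, Lt.A]) =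
      pa e * (xx θ y * a * xx θ y * a) * pa e := by
    have ha : gno θ Lt.A = a := rfl
    have haa : a * a = (1 : P) := BS_aa
    cases e
    · simp only [Bool.false_eq_true, if_false, evo_cons, evo_nil, gno_lt, ha, mul_one]
      change _ = 1 * (xx θ y * a * xx θ y * a) * 1
      simp only [one_mul, mul_one, mul_assoc]
    · simp only [if_true, evo_cons, evo_nil, gno_lt, ha, mul_one]
      change _ = a * (xx θ y * a * xx θ y * a) * a
      simp only [mul_assoc, haa, mul_one]
  have hTa : a * evo θ (Tw z) * a = (evo θ (Tw z))⁻¹ := BS_T θ z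
  have hTa' : a * (evo θ (Tw z))⁻¹ * a = evo θ (Tw z) := by
    rw [← hTa]
    calc a * (a * evo θ (Tw z) * a) * a = (a * a) * evo θ (Tw z) * (a * a) := by
          simp only [mul_assoc]
      _ = evo θ (Tw z) := by rw [BS_aa, one_mul, mul_one]
  have hai : (a : P)⁻¹ = a := inv_eq_of_mul_eq_one_left BS_aa
  have hpi : ∀ b : Bool, (pa b)⁻¹ = pa b := fun b => inv_eq_of_mul_eq_one_left (BS_pa b)
  have hxi : (xx θ y)⁻¹ = xx θ y := inv_eq_of_mul_eq_one_left (xx_sq θ y)
  -- flag equal
  have hA : ∀ (c b : Bool) (S : P), b = xor e c → pa c * (pa b * S * pa b) * pa c =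
      pa e * S * pa e := by
    intro c b S hb
    calc pa c * (pa b * S * pa b) * pa c = (pa c * pa b) * S * (pa b * pa c) := by
          simp only [mul_assoc]
      _ = pa e * S * pa e := by
          rw [TX0b_pa_mul, TX0b_pa_mul, hb]
          congr 2
          · cases e <;> cases c <;> rfl
          · cases e <;> cases c <;> rfl
  -- flag opposite
  have hB : ∀ (c b : Bool) (S : P), b = !(xor e c) → pa c * (pa b * S * pa b) * pa c =
      pa e * (a * S * a) * pa e := by
    intro c b S hb
    have h1 : pa c * pa b = pa e * a := by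
      rw [TX0b_pa_mul, hb]
      change _ = pa e * pa true
      rw [TX0b_pa_mul]
      cases e <;> cases c <;> rfl
    have h2 : pa b * pa c = a * pa e := by
      rw [TX0b_pa_mul, hb]
      change _ = pa true * pa e
      rw [TX0b_pa_mul]
      cases e <;> cases c <;> rfl
    calc pa c * (pa b * S * pa b) * pa c = (pa c * pa b) * S * (pa b * pa c) := by
          simp only [mul_assoc]
      _ = _ := by
          rw [h1, h2]
          simp only [mul_assoc]
  have hEact : BS_Act (m + R) (evo ω (w1 ++ w2.reverse ++ (G ++ w3.reverse ++ G.reverse)))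
      fun X => if q X then pa e * ((if f X then xx θ y else 1) * evo θ (Tw z) *
        (if f X then xx θ y else 1)) * pa e else 1 := by
    rw [evo_append, evo_append, evo_append, evo_append, evo_reverse, evo_reverse, evo_reverse]
    refine ((a1.mul a2.inv).mul ((aG'.mul a3.inv).mul aG'.inv)).congr fun X _ => ?_
    rw [hGe]
    by_cases hq : q X = true
    · by_cases h : s X = xor e (cz X)
      · simp only [hq, h, beq_self_eq_true, Bool.and_self, Bool.not_true, Bool.and_false,
          Bool.false_and, Bool.false_eq_true, if_true, if_false, inv_one, mul_one,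
          mul_inv_cancel]
        exact hA _ _ _ rfl
      · have h' : s X = !(xor e (cz X)) := by
          revert h
          cases s X <;> cases (xor e (cz X)) <;> simp
        have h8 : (s X == xor e (cz X)) = false := by
          simpa using h
        by_cases hf : f X = true
        · simp only [hq, h8, hf, Bool.and_false, Bool.not_false, Bool.and_true, Bool.not_true,
            Bool.false_eq_true, if_true, if_false, one_mul, inv_one]
          rw [hB _ _ _ h']
          have h9 : (pa e * (a * (xx θ y * evo θ (Tw z) * xx θ y) * a) * pa e)⁻¹ =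
              pa e * ((a * xx θ y * a) * evo θ (Tw z) * (a * xx θ y * a)) * pa e := by
            simp only [mul_inv_rev, hai, hpi, hxi]
            rw [← hTa]
            simp only [mul_assoc]
          rw [h9]
          simp only [mul_inv_rev, hai, hpi, hxi]
          have haa : ∀ g : P, a * (a * g) = g := fun g => by rw [← mul_assoc, BS_aa, one_mul]
          have hpp : ∀ g : P, pa e * (pa e * g) = g := fun g => by
            rw [← mul_assoc, BS_pa, one_mul]
          have hxx : ∀ g : P, xx θ y * (xx θ y * g) = g := fun g => by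
            rw [← mul_assoc, xx_sq, one_mul]
          simp only [mul_assoc, haa, hpp, hxx]
        · have hf' : f X = false := by simpa using hf
          simp only [hq, h8, hf', Bool.and_false, Bool.not_false, Bool.and_true,
            Bool.false_eq_true, if_true, if_false, one_mul, mul_one, inv_one, mul_inv_cancel]
          rw [hB _ _ _ h', hTa]
          simp only [mul_inv_rev, inv_inv, hpi, mul_assoc]
    · have hq' : q X = false := by simpa using hq
      simp only [hq', Bool.false_and, Bool.false_eq_true, if_false, inv_one, mul_one,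
        mul_inv_cancel]
  obtain ⟨D, lD, aD⟩ := hDG ω (m + R) (jw z (cj e (Wf y))) (by
    intro t
    cases t <;> cases z <;> cases y <;> cases e <;> decide)
  have aD' : BS_Act (m + R) (evo ω D) fun _ => evo θ (jw z (cj e (Wf y))) := aD
  refine ⟨comw D (w1 ++ w2.reverse ++ (G ++ w3.reverse ++ G.reverse)), ?_, ?_⟩
  · have hF : (jw z (cj e (Wf y))).length ≤ 12 := by
      cases e <;> simp [jw, cj, Wf]
    have hl : ell ω (m + R) ≤ 2 * (2 ^ R * ell ω m) := CMPAux.block_up (R := R) hc R le_rfl
    have hD : D.length ≤ 54 * (2 ^ R * ell ω m) := by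
      refine lD.trans ?_
      calc (2 * (jw z (cj e (Wf y))).length + 3) * ell ω (m + R)
          ≤ 27 * (2 * (2 ^ R * ell ω m)) := Nat.mul_le_mul (by omega) hl
        _ = _ := by ring
    have hG : G.length ≤ 22 * (2 ^ R * ell ω m) := by
      refine lG.trans ?_
      have h4 : (if e then [Lt.A, y.lt, Lt.A, y.lt] else [y.lt, Lt.A, y.lt, Lt.A]).length = 4 := by
        cases e <;> rfl
      rw [h4]
      calc (2 * 4 + 3) * ell ω (m + R) ≤ 11 * (2 * (2 ^ R * ell ω m)) :=
            Nat.mul_le_mul (by norm_num) hl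
        _ = _ := by ring
    unfold comw
    simp only [List.length_append, List.length_reverse]
    have h3 : 2 * 2 ^ R * (N + 22 * ell ω m) = 2 * (2 ^ R * N) + 44 * (2 ^ R * ell ω m) := by ring
    have h4 : 460 * 2 ^ R * (N + ell ω m) = 460 * (2 ^ R * N) + 460 * (2 ^ R * ell ω m) := by
      ring
    rw [h3] at l1 l2 l3
    rw [h4]
    omega
  · intro x u hx
    have h9 : evo ω (comw D (w1 ++ w2.reverse ++ (G ++ w3.reverse ++ G.reverse))) =
        evo ω D * evo ω (w1 ++ w2.reverse ++ (G ++ w3.reverse ++ G.reverse)) * (evo ω D)⁻¹ *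
          (evo ω (w1 ++ w2.reverse ++ (G ++ w3.reverse ++ G.reverse)))⁻¹ := by
      rw [comw, evo_append, evo_append, evo_append, evo_reverse, evo_reverse]
    rw [h9, (((aD'.mul hEact).mul aD'.inv).mul hEact.inv) x u hx]
    congr 1
    by_cases hq : q x = true
    · simp only [hq, if_true]
      rw [TX0b_S]
    · have hq' : q x = false := by simpa using hq
      simp only [hq', Bool.false_eq_true, if_false, mul_one, inv_one, mul_inv_cancel, BS_pa,
        Equiv.Perm.one_apply]

end Pool.Agent.U640.BG
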