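import Pool.Agent.U640.BG.XStm
import Pool.Agent.U640.BG.BS
import Pool.Agent.U640.BG.CMP

set_option autoImplicit false

/-! Project BG, package TX1: two long runs separated by a single letter. -/

namespace Pool.Agent.U640.BG

open Pool.Agent.Results.MP_03d093_al.SphereBall Pool.Agent.H776R2.Grig Pool.Agent.H776R2.Om

theorem TX1_congr {ω : Om} {m N : ℕ} {κ κ' : List Lt} (h : evo (shi m ω) κ = evo (shi m ω) κ')
    (hE : Exa ω m κ N) : Exa ω m κ' N := by
  intro q
  obtain ⟨w, h1, h2⟩ := hE q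
  refine ⟨w, h1, fun x y hx => ?_⟩
  rw [h2 x y hx, h]

theorem TX1_shi (ω : Om) (m R : ℕ) : shi (R + 1) (shi m ω) = shi (m + R + 1) ω := by
  funext n
  unfold shi
  congr 1
  omega

theorem TX1_sgn (η : Om) (y : V) (b : Bool) :
    evo η (if b then [Lt.A, y.lt, Lt.A, y.lt] else [y.lt, Lt.A, y.lt, Lt.A]) =
      if b then (evo η (Tw y))⁻¹ else evo η (Tw y) := by
  cases b
  · rfl
  · rw [← evo_reverse]
    rfl

/-- the signed global words -/
theorem TX1_word (hDG : S_DG) (ω : Om) (m R N : ℕ) (y z : V)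
    (h0 : Exa ω m (kap y z false) N) (h1 : Exa ω m (kap y z true) N)
    (Qf Qf' : (List Bool → Bool) → Bool → ℕ → Bool) (g : List Bool → Bool)
    (hg : ∀ p : List Bool → Bool, ∀ v u : List Bool, v.length = R + 1 →
        (locw (shi m ω) y z (Qf p) (2 ^ (R + 1) - 2) *
          locw (shi m ω) y z (Qf' p) (2 ^ (R + 1) - 2)) (v ++ u) =
          v ++ (if p v then evo (shi (R + 1) (shi m ω)) (if g v then [Lt.A, y.lt, Lt.A, y.lt]
            else [y.lt, Lt.A, y.lt, Lt.A]) u else u)) :
    ∃ s : List Bool → Bool, ∀ q : List Bool → Bool, ∃ w : List Lt,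
      w.length ≤ 8 * 2 ^ R * (N + 22 * ell ω m) ∧
      BS_Act (m + R + 1) (evo ω w) fun X => if q X then
        pa (cz X) * (if s X then (evo (shi (m + R + 1) ω) (Tw y))⁻¹ else
          evo (shi (m + R + 1) ω) (Tw y)) * pa (cz X) else 1 := by
  refine ⟨fun X => g (pa (cz (X.take m)) (X.drop m)), fun q => ?_⟩
  obtain ⟨w1, l1, a1⟩ := BS_global hDG ω m N (2 ^ (R + 1) - 2) y z h0 h1
    (fun x => Qf fun v => q (x ++ pa (cz x) v))
  obtain ⟨w2, l2, a2⟩ := BS_global hDG ω m N (2 ^ (R + 1) - 2) y z h0 h1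
    (fun x => Qf' fun v => q (x ++ pa (cz x) v))
  refine ⟨w1 ++ w2, ?_, ?_⟩
  · rw [List.length_append]
    have h3 : (2 ^ (R + 1) - 2) * (N + 22 * ell ω m) ≤ 2 ^ (R + 1) * (N + 22 * ell ω m) :=
      Nat.mul_le_mul_right _ (Nat.sub_le _ _)
    have h4 : 8 * 2 ^ R * (N + 22 * ell ω m) = 4 * (2 ^ (R + 1) * (N + 22 * ell ω m)) := by
      rw [pow_succ]; ring
    rw [h4]
    omega
  · intro X u hX
    obtain ⟨x, v, rfl, hx, hv⟩ : ∃ x v, X = x ++ v ∧ x.length = m ∧ v.length = R + 1 := by
      refine ⟨X.take m, X.drop m, (List.take_append_drop m X).symm, ?_, ?_⟩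
      · rw [List.length_take]
        omega
      · rw [List.length_drop]
        omega
    have hv0 : v ≠ [] := by
      rintro rfl
      simp at hv
    have h5 := (a1.mul a2) x (v ++ u) hx
    rw [← evo_append] at h5
    rw [List.append_assoc, h5, Equiv.Perm.mul_apply, Equiv.Perm.mul_apply,
      BS_pa_append _ _ _ hv0, hg _ _ _ (by rw [BS_pa_len, hv]), BS_pa_append _ _ _ (by
        intro h
        have := congrArg List.length h
        rw [BS_pa_len, hv] at this
        simp at this), BS_pa_app, List.append_assoc]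
    have h6 : (x ++ v).take m = x := by rw [← hx]; simp
    have h7 : (x ++ v).drop m = v := by rw [← hx]; simp
    congr 2
    simp only [h6, h7, BS_pa_app]
    by_cases hq : q (x ++ v) = true
    · simp only [hq, if_true]
      rw [TX1_sgn, TX1_shi]
      have hp : ∀ (c : Bool) (S : P), pa c * (pa c * S * pa c) * pa c = S := by
        intro c S
        calc pa c * (pa c * S * pa c) * pa c = (pa c * pa c) * S * (pa c * pa c) := by
              simp only [mul_assoc]
          _ = S := by rw [BS_pa, one_mul, mul_one]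
      rw [hp]
    · simp only [hq, mul_one, BS_pa, Equiv.Perm.one_apply, Bool.false_eq_true, if_false]

/-- the sections of the words for `T` on the level `k`, with signs -/
theorem TX1_Te (θ : Om) (y : V) (e c : Bool) :
    pa c * (if xor e c then (evo θ (Tw y))⁻¹ else evo θ (Tw y)) * pa c =
      evo θ (jw y (cj e Wt)) := by
  have hT := BS_T θ y
  have hT' : a * (evo θ (Tw y))⁻¹ * a = evo θ (Tw y) := by
    rw [← hT]
    calc a * (a * evo θ (Tw y) * a) * a = (a * a) * evo θ (Tw y) * (a * a) := by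
          simp only [mul_assoc]
      _ = evo θ (Tw y) := by rw [BS_aa, one_mul, mul_one]
  have h0 : evo θ (jw y (cj false Wt)) = evo θ (Tw y) := rfl
  have h1 : evo θ (jw y (cj true Wt)) = (evo θ (Tw y))⁻¹ := by
    rw [BS_jw_conj, ← hT]
    rfl
  cases e <;> cases c
  · rw [h0]; exact (one_mul _ : (1 : P) * _ = _) ▸ mul_one _
  · rw [h0]; exact hT'
  · rw [h1]; exact (one_mul _ : (1 : P) * _ = _) ▸ mul_one _
  · rw [h1]; exact hT

theorem TX1_Te' (θ : Om) (y : V) (e c : Bool) :
    pa c * (if !(xor e c) then (evo θ (Tw y))⁻¹ else evo θ (Tw y)) * pa c =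
      (evo θ (jw y (cj e Wt)))⁻¹ := by
  have hpi : (pa c)⁻¹ = pa c := inv_eq_of_mul_eq_one_left (BS_pa c)
  rw [← TX1_Te θ y e c]
  rw [mul_inv_rev, mul_inv_rev, hpi, mul_assoc]
  congr 2
  cases xor e c
  · rfl
  · exact (inv_inv _).symm

theorem t_TX1 : S_DG → S_KI → S_LX1 → S_TX1 := by
  intro hDG hKI hLX
  refine ⟨1028, ?_⟩
  intro ω m R N hm hR hc hne hne' _ _ _ hE e q
  have hη0 : shi m ω 0 = ω m := by
    unfold shi
    rw [zero_add]
  have hkil : ∀ i j : Fin 3, kil i = kil j → i = j := by decide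
  have hc1 : ∀ n < R, shi m ω n = shi m ω 0 := by
    intro n hn
    rw [hη0]
    exact hc (n + m) (by omega) (by omega)
  have hR0 : shi m ω R = ω (m + R) := by
    unfold shi
    rw [add_comm]
  have hc2 : shi m ω R ≠ shi m ω 0 := by
    rw [hη0, hR0]
    exact hne
  have hy : kil (ω (m + R)) ≠ kil (shi m ω 0) := by
    rw [hη0]
    exact fun h => hne (hkil _ _ h)
  have hyy : kil (ω (m - 1)) ≠ kil (shi m ω 0) := by
    rw [hη0]
    exact fun h => hne' (hkil _ _ h)
  have hEx : ∀ e, Exa ω m (kap (kil (ω (m + R))) (kil (ω m)) e) N := by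
    intro e
    refine TX1_congr ?_ (hE e)
    have h1 := hKI (shi m ω) (kil (ω (m - 1))) (kil (ω (m + R))) e
      (fun n hn => hc1 n (by omega)) hyy hy
    rw [hη0] at h1
    exact h1
  obtain ⟨Qf, Qf', g, hg⟩ := hLX (shi m ω) (kil (ω (m + R))) R hR hc1 hc2 (by rw [hR0])
  rw [hη0] at hg
  obtain ⟨s, hs⟩ := TX1_word hDG ω m R N _ _ (hEx false) (hEx true) Qf Qf' g hg
  obtain ⟨y, hyd⟩ : ∃ y, y = kil (ω (m + R)) := ⟨_, rfl⟩
  obtain ⟨y2, hy2⟩ : ∃ y2, y2 = kil (ω (m + R + 1)) := ⟨_, rfl⟩
  rw [← hyd] at hs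
  rw [← hyd, ← hy2]
  obtain ⟨w1, l1, a1⟩ := hs fun X => q X && (s X == xor e (cz X))
  obtain ⟨w2, l2, a2⟩ := hs fun X => q X && !(s X == xor e (cz X))
  set θ := shi (m + R + 1) ω with hθ
  -- the word with the sections `T_e`
  have hEact : BS_Act (m + R + 1) (evo ω (w1 ++ w2.reverse)) fun X =>
      if q X then evo θ (jw y (cj e Wt)) else 1 := by
    rw [evo_append, evo_reverse]
    refine (a1.mul a2.inv).congr fun X _ => ?_
    by_cases hq : q X = true
    · by_cases h : s X = xor e (cz X)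
      · simp only [hq, h, beq_self_eq_true, Bool.and_self, Bool.not_true, Bool.and_false,
          Bool.false_eq_true, if_true, if_false, inv_one, mul_one]
        exact TX1_Te θ y e (cz X)
      · have h' : s X = !(xor e (cz X)) := by
          revert h
          cases s X <;> cases (xor e (cz X)) <;> simp
        have h8 : (s X == xor e (cz X)) = false := by
          simpa using h
        simp only [hq, h8, Bool.and_false, Bool.not_false, Bool.and_true,
          Bool.false_eq_true, if_true, if_false, one_mul]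
        rw [h', TX1_Te' θ y e (cz X), inv_inv]
    · have hq' : q X = false := by simpa using hq
      simp only [hq', Bool.false_and, Bool.false_eq_true, if_false, inv_one, mul_one]
  obtain ⟨D, lD, aD⟩ := hDG ω (m + R + 1) (jw y (cj e (Wf y2))) (by
    intro t
    cases t <;> cases y <;> cases y2 <;> cases e <;> decide)
  have aD' : BS_Act (m + R + 1) (evo ω D) fun _ => evo θ (jw y (cj e (Wf y2))) := aD
  refine ⟨comw D (w1 ++ w2.reverse), ?_, ?_⟩
  · have hF : (jw y (cj e (Wf y2))).length ≤ 12 := by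
      cases e <;> simp [jw, cj, Wf]
    have hl : ell ω (m + R + 1) ≤ 6 * (2 ^ R * ell ω m) := by
      have h1 := W_ell_up ω (m + R) 1
      have h2 := CMPAux.block_up (R := R) hc R le_rfl
      rw [pow_one] at h1
      omega
    have hD : D.length ≤ 162 * (2 ^ R * ell ω m) := by
      refine lD.trans ?_
      calc (2 * (jw y (cj e (Wf y2))).length + 3) * ell ω (m + R + 1)
          ≤ 27 * (6 * (2 ^ R * ell ω m)) := Nat.mul_le_mul (by omega) hl
        _ = _ := by ring
    unfold comw
    simp only [List.length_append, List.length_reverse]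
    have h3 : 8 * 2 ^ R * (N + 22 * ell ω m) = 8 * (2 ^ R * N) + 176 * (2 ^ R * ell ω m) := by ring
    have h4 : 1028 * 2 ^ R * (N + ell ω m) = 1028 * (2 ^ R * N) + 1028 * (2 ^ R * ell ω m) := by
      ring
    rw [h3] at l1 l2
    rw [h4]
    omega
  · intro x u hx
    have h9 : evo ω (comw D (w1 ++ w2.reverse)) =
        evo ω D * evo ω (w1 ++ w2.reverse) * (evo ω D)⁻¹ * (evo ω (w1 ++ w2.reverse))⁻¹ := by
      unfold comw
      rw [evo_append, evo_append, evo_append, evo_reverse, evo_reverse]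
    rw [h9, (((aD'.mul hEact).mul aD'.inv).mul hEact.inv) x u hx]
    congr 1
    by_cases hq : q x = true
    · simp only [hq, if_true]
      have h10 : evo θ (kap y y2 e) = evo θ (jw y (cj e (Wf y2))) * evo θ (jw y (cj e Wt)) *
          (evo θ (jw y (cj e (Wf y2))))⁻¹ * (evo θ (jw y (cj e Wt)))⁻¹ := by
        unfold kap comw
        rw [evo_append, evo_append, evo_append, evo_reverse, evo_reverse]
      rw [h10]
    · have hq' : q x = false := by simpa using hq
      simp only [hq', Bool.false_eq_true, if_false, mul_one, inv_one, mul_inv_cancel, BS_pa,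
        Equiv.Perm.one_apply]

end Pool.Agent.U640.BG
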